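import Pool.Agent.P.MP_9b2cf8_gt.Core

namespace Pool.Agent.P.MP_9b2cf8_gt

theorem fe_refl (v : List ℕ) : FE v v := Relation.ReflTransGen.refl

theorem fe_trans {u v w : List ℕ} (h₁ : FE u v) (h₂ : FE v w) : FE u w :=
  Relation.ReflTransGen.trans h₁ h₂

theorem fe_of_flat {v w : List ℕ} (h : Flat v w) : FE v w := Relation.ReflTransGen.single h

theorem fe_rotate (x y : List ℕ) : FE (x ++ y) (y ++ x) := by
  induction x generalizing y with
  | nil => simpa using fe_refl y
  | cons a x ih =>
    have h1 : FE (a :: (x ++ y)) (x ++ y ++ [a]) := fe_of_flat (Flat.rot a (x ++ y))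
    have h2 := ih (y ++ [a])
    simp only [List.append_assoc, List.cons_append, List.nil_append] at h1 h2 ⊢
    exact fe_trans h1 h2

theorem flat_symm {v w : List ℕ} (h : Flat v w) : FE w v := by
  cases h with
  | rot a w => simpa using fe_rotate w [a]
  | rev => simpa using fe_of_flat (Flat.rev v.reverse)
  | ren σ =>
    have := fe_of_flat (Flat.ren σ.symm (v.map σ))
    simpa [List.map_map] using this
  | r3 x y z t a b c d e f u v w huv hvw hwu h =>
    refine fe_of_flat (Flat.r3 x y z t b a d c f e u v w huv hvw hwu ?_)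
    rw [← h, Sym2.eq_swap (a := b), Sym2.eq_swap (a := d), Sym2.eq_swap (a := f)]

theorem fe_symm {v w : List ℕ} (h : FE v w) : FE w v := by
  induction h with
  | refl => exact fe_refl _
  | tail _ h ih => exact fe_trans (flat_symm h) ih

theorem flat_length {v w : List ℕ} (h : Flat v w) : v.length = w.length := by
  cases h <;> simp

theorem fe_length {v w : List ℕ} (h : FE v w) : v.length = w.length := by
  induction h with
  | refl => rfl
  | tail _ h ih => exact ih.trans (flat_length h)

theorem gauss_of_perm {v w : List ℕ} (h : v.Perm w) (hv : IsGauss v) : IsGauss w :=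
  fun a ha => by rw [← h.count_eq]; exact hv a (h.mem_iff.2 ha)

theorem flat_gauss {v w : List ℕ} (h : Flat v w) (hv : IsGauss v) : IsGauss w := by
  cases h with
  | rot a w => exact gauss_of_perm (List.perm_append_singleton a w).symm hv
  | rev => exact gauss_of_perm (List.reverse_perm v).symm hv
  | ren σ =>
    intro a ha
    obtain ⟨b, hb, rfl⟩ := List.mem_map.1 ha
    rw [List.count_map_of_injective _ _ σ.injective]
    exact hv b hb
  | r3 x y z t a b c d e f u v w huv hvw hwu h =>
    refine gauss_of_perm ?_ hv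
    refine List.Perm.append_left _ ((List.Perm.swap _ _ _).trans ?_)
    refine List.Perm.cons _ (List.Perm.cons _ (List.Perm.append_left _ ?_))
    refine (List.Perm.swap _ _ _).trans ?_
    exact List.Perm.cons _ (List.Perm.cons _ (List.Perm.append_left _ (List.Perm.swap _ _ _)))

theorem red_gauss {v w : List ℕ} (h : Red v w) (hv : IsGauss v) : IsGauss w := by
  cases h with
  | r1 x y a =>
    intro b hb
    have h1 := hv a (by simp)
    have h2 := hv b (by simp only [List.mem_append, List.mem_cons] at hb ⊢; tauto)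
    have h3 := List.count_pos_iff.2 hb
    by_cases hab : a = b
    · subst hab
      simp only [List.count_append, List.count_cons_self] at h1 h3
      omega
    · simp only [List.count_append, List.count_cons_of_ne hab] at h2 ⊢
      exact h2
  | r2p x y z a b =>
    intro c hc
    have h1 := hv a (by simp)
    have h1' := hv b (by simp)
    have h2 := hv c (by simp only [List.mem_append, List.mem_cons] at hc ⊢; tauto)
    have h3 := List.count_pos_iff.2 hc
    simp only [List.count_append, List.count_cons, beq_iff_eq] at h1 h1' h2 h3 ⊢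
    by_cases hac : a = c
    · subst hac; simp only [if_true] at h1; omega
    · by_cases hbc : b = c
      · subst hbc; simp only [if_true] at h1'; omega
      · simpa [hac, hbc] using h2
  | r2a x y z a b =>
    intro c hc
    have h1 := hv a (by simp)
    have h1' := hv b (by simp)
    have h2 := hv c (by simp only [List.mem_append, List.mem_cons] at hc ⊢; tauto)
    have h3 := List.count_pos_iff.2 hc
    simp only [List.count_append, List.count_cons, beq_iff_eq] at h1 h1' h2 h3 ⊢
    by_cases hac : a = c
    · subst hac; simp only [if_true] at h1; omega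
    · by_cases hbc : b = c
      · subst hbc; simp only [if_true] at h1'; omega
      · simpa [hac, hbc] using h2

theorem fe_gauss {v w : List ℕ} (h : FE v w) (hv : IsGauss v) : IsGauss w := by
  induction h with
  | refl => exact hv
  | tail _ h ih => exact flat_gauss h ih

theorem red_length {v w : List ℕ} (h : Red v w) : w.length < v.length := by
  cases h <;> simp <;> omega

theorem fe_down {v w : List ℕ} (h : FE v w) (hv : IsGauss v) : Down v w := by
  induction h with
  | refl => exact Relation.ReflTransGen.refl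
  | tail h1 h ih =>
    have := fe_gauss h1 hv
    exact Relation.ReflTransGen.tail ih ⟨this, flat_gauss h this, Or.inl h⟩

theorem down_gauss {v w : List ℕ} (h : Down v w) (hv : IsGauss v) : IsGauss w := by
  induction h with
  | refl => exact hv
  | tail _ h _ => exact h.2.1

theorem down_same {v w : List ℕ} (h : Down v w) : SameKnot v w := by
  induction h with
  | refl => exact Relation.EqvGen.refl _
  | tail _ h ih => exact Relation.EqvGen.trans _ _ _ ih (Relation.EqvGen.rel _ _ h)

theorem exists_irr {v : List ℕ} (hv : IsGauss v) : ∃ F, Down v F ∧ Irr F := by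
  classical
  have hex : ∃ n, ∃ F, Down v F ∧ F.length = n := ⟨_, v, Relation.ReflTransGen.refl, rfl⟩
  obtain ⟨F, hF, hn⟩ := Nat.find_spec hex
  refine ⟨F, hF, fun x y hx hxF hr => ?_⟩
  have h1 : Down v x := Relation.ReflTransGen.trans hF (fe_down (fe_symm hxF) (down_gauss hF hv))
  have h2 : Down v y := Relation.ReflTransGen.tail h1 ⟨hx, red_gauss hr hx, Or.inr hr⟩
  have h3 := Nat.find_min' hex ⟨y, h2, rfl⟩
  have h4 := red_length hr
  have h5 := fe_length hxF
  omega

/-! Paths -/

theorem path_mid {R : ℕ → ℕ → Prop} {s t : ℕ} {l₁ l₂ : List Pass} {p : Pass} :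
    Path R s (l₁ ++ p :: l₂) t ↔ Path R s l₁ p.2.1 ∧ Path R p.2.2 l₂ t := by
  induction l₁ generalizing s with
  | nil => simp [Path]
  | cons q l ih => simp [Path, ih, and_assoc]

theorem path_left {R : ℕ → ℕ → Prop} (hR : Equivalence R) {s s' t : ℕ} {l : List Pass}
    (h : R s' s) (hp : Path R s l t) : Path R s' l t := by
  cases l with
  | nil => exact hR.trans h hp
  | cons p l => exact ⟨hR.trans h hp.1, hp.2⟩

theorem path_right {R : ℕ → ℕ → Prop} (hR : Equivalence R) {s t t' : ℕ} {l : List Pass}
    (h : R t t') (hp : Path R s l t) : Path R s l t' := by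
  induction l generalizing s with
  | nil => exact hR.trans hp h
  | cons p l ih => exact ⟨hp.1, ih hp.2⟩

theorem path_glue {R : ℕ → ℕ → Prop} (hR : Equivalence R) {s r t : ℕ} {l₁ l₂ : List Pass}
    (h₁ : Path R s l₁ r) (h₂ : Path R r l₂ t) : Path R s (l₁ ++ l₂) t := by
  induction l₁ generalizing s with
  | nil => exact path_left hR h₁ h₂
  | cons p l ih => exact ⟨h₁.1, ih h₁.2⟩

theorem path_split {R : ℕ → ℕ → Prop} (hR : Equivalence R) {s t : ℕ} {l₁ l₂ : List Pass}
    (h : Path R s (l₁ ++ l₂) t) : ∃ r, Path R s l₁ r ∧ Path R r l₂ t := by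
  induction l₁ generalizing s with
  | nil => exact ⟨s, hR.refl s, h⟩
  | cons p l ih =>
    obtain ⟨r, h1, h2⟩ := ih h.2
    exact ⟨r, ⟨h.1, h1⟩, h2⟩

theorem path_rotate {R : ℕ → ℕ → Prop} (hR : Equivalence R) {s : ℕ} {l₁ l₂ : List Pass}
    (h : Path R s (l₁ ++ l₂) s) : ∃ r, Path R r (l₂ ++ l₁) r := by
  obtain ⟨r, h1, h2⟩ := path_split hR h
  exact ⟨r, path_glue hR h2 h1⟩

theorem lbl_cons (p : Pass) (l : List Pass) : lbl (p :: l) = p.2.1 :: p.2.2 :: lbl l := by
  simp [lbl]

theorem lbl_append (l₁ l₂ : List Pass) : lbl (l₁ ++ l₂) = lbl l₁ ++ lbl l₂ := by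
  simp [lbl]

theorem mem_lbl {m : ℕ} {l : List Pass} : m ∈ lbl l ↔ ∃ p ∈ l, m = p.2.1 ∨ m = p.2.2 := by
  simp [lbl]

/-- A path only looks at the relation on its own labels. -/
theorem path_mono {R R' : ℕ → ℕ → Prop} (S : ℕ → Prop) (h : ∀ x y, S x → S y → R x y → R' x y)
    {s t : ℕ} {l : List Pass} (hs : S s) (ht : S t) (hl : ∀ m ∈ lbl l, S m) (hp : Path R s l t) :
    Path R' s l t := by
  induction l generalizing s with
  | nil => exact h _ _ hs ht hp
  | cons p l ih =>
    rw [lbl_cons] at hl
    exact ⟨h _ _ hs (hl _ (by simp)) hp.1,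
      ih (hl _ (by simp)) (fun m hm => hl m (by simp [hm])) hp.2⟩

theorem conn_equiv (P : Multiset (Sym2 ℕ)) : Equivalence (conn P) := Relation.EqvGen.is_equivalence _

theorem col_equiv (col : ℕ → ZMod 4) : Equivalence fun x y => col x = col y :=
  ⟨fun _ => rfl, Eq.symm, Eq.trans⟩

theorem chi_add (a b : ZMod 4) : chi (a + b) = chi a * chi b := by
  unfold chi
  rw [← pow_add, ZMod.val_add]
  exact (Complex.I_pow_eq_pow_mod _).symm

theorem chi_zero : chi 0 = 1 := by simp [chi]

theorem chi_ne_zero (a : ZMod 4) : chi a ≠ 0 := pow_ne_zero _ Complex.I_ne_zero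

theorem chi_neg (a : ZMod 4) : chi (-a) = (chi a)⁻¹ := by
  have := chi_add a (-a)
  rw [add_neg_cancel, chi_zero] at this
  exact eq_inv_of_mul_eq_one_right this.symm

theorem chi_ne_one {a : ZMod 4} (h : a ≠ 0) : chi a ≠ 1 := by
  intro h1
  have h2 := Complex.isPrimitiveRoot_I.dvd_of_pow_eq_one _ h1
  have h3 := a.val_lt
  have h4 : a.val = 0 := Nat.eq_zero_of_dvd_of_lt h2 h3
  exact h ((ZMod.val_eq_zero a).1 h4)

end Pool.Agent.P.MP_9b2cf8_gt
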