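import Pool.Agent.P.MP_9b2cf8_gt.Basic

namespace Pool.Agent.P.MP_9b2cf8_gt

variable {R : Type} [CommSemiring R]

theorem br_cons (φ : Fn R) (e : Cr × R × R × R) (l : List (Cr × R × R × R)) :
    br φ (e :: l) = T e.1 e.2.1 e.2.2.1 e.2.2.2 (br φ l) := rfl

theorem br_append (φ : Fn R) (l₁ l₂ : List (Cr × R × R × R)) :
    br φ (l₁ ++ l₂) = br (br φ l₂) l₁ := by
  induction l₁ with
  | nil => rfl
  | cons e l ih => simp only [List.cons_append, br_cons, ih]

theorem aX_add (c : Cr) (Q P : Multiset (Sym2 ℕ)) : aX c (Q + P) = Q + aX c P := by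
  simp only [aX, Multiset.add_cons]

theorem aY_add (c : Cr) (Q P : Multiset (Sym2 ℕ)) : aY c (Q + P) = Q + aY c P := by
  simp only [aY, Multiset.add_cons]

theorem aX_eq (c : Cr) (P : Multiset (Sym2 ℕ)) : aX c P = aX c 0 + P := by
  simp only [aX, Multiset.cons_add, zero_add]

theorem aY_eq (c : Cr) (P : Multiset (Sym2 ℕ)) : aY c P = aY c 0 + P := by
  simp only [aY, Multiset.cons_add, zero_add]

theorem T_comm (c c' : Cr) (x y z x' y' z' : R) (φ : Fn R) :
    T c x y z (T c' x' y' z' φ) = T c' x' y' z' (T c x y z φ) := by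
  funext K P
  have h1 : aX c' (aX c P) = aX c (aX c' P) := by rw [aX_eq c P, aX_add, ← aX_eq]
  have h2 : aY c' (aX c P) = aX c (aY c' P) := by rw [aX_eq c P, aY_add, ← aX_eq]
  have h3 : aX c' (aY c P) = aY c (aX c' P) := by rw [aY_eq c P, aX_add, ← aY_eq]
  have h4 : aY c' (aY c P) = aY c (aY c' P) := by rw [aY_eq c P, aY_add, ← aY_eq]
  simp only [T, h1, h2, h3, h4, Multiset.cons_swap c' c]
  ring

theorem br_perm (φ : Fn R) {l₁ l₂ : List (Cr × R × R × R)} (h : l₁.Perm l₂) :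
    br φ l₁ = br φ l₂ := by
  induction h with
  | nil => rfl
  | cons e _ ih => simp only [br_cons, ih]
  | swap e e' l => simp only [br_cons, T_comm e.1]
  | trans _ _ ih1 ih2 => exact ih1.trans ih2

theorem av_aX {m : ℕ} {c : Cr} {K : Multiset Cr} {P : Multiset (Sym2 ℕ)} (hc : m ∉ legs c)
    (h : Av m K P) : Av m K (aX c P) := by
  obtain ⟨a, b, c, d⟩ := c
  rw [not_mem_legs] at hc
  simp only [aX, av_consP]
  tauto

theorem av_aY {m : ℕ} {c : Cr} {K : Multiset Cr} {P : Multiset (Sym2 ℕ)} (hc : m ∉ legs c)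
    (h : Av m K P) : Av m K (aY c P) := by
  obtain ⟨a, b, c, d⟩ := c
  rw [not_mem_legs] at hc
  simp only [aY, av_consP]
  tauto

theorem br_congr {φ ψ : Fn R} (I : List ℕ)
    (h : ∀ K P, (∀ m ∈ I, Av m K P) → φ K P = ψ K P) (l : List (Cr × R × R × R))
    (hl : ∀ m ∈ I, AvL m l) (K : Multiset Cr) (P : Multiset (Sym2 ℕ)) (hK : ∀ m ∈ I, Av m K P) :
    br φ l K P = br ψ l K P := by
  induction l generalizing K P with
  | nil => exact h K P hK
  | cons e l ih =>
    have hl' : ∀ m ∈ I, AvL m l := fun m hm e' he' => hl m hm e' (List.mem_cons_of_mem _ he')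
    have he : ∀ m ∈ I, m ∉ legs e.1 := fun m hm => hl m hm e List.mem_cons_self
    simp only [br_cons, T]
    rw [ih hl' _ _ fun m hm => av_consK.2 ⟨he m hm, hK m hm⟩,
      ih hl' _ _ fun m hm => av_aX (he m hm) (hK m hm),
      ih hl' _ _ fun m hm => av_aY (he m hm) (hK m hm)]

theorem br_ne_congr {φ ψ : Fn ℕ} (I : List ℕ)
    (h : ∀ K P, (∀ m ∈ I, Av m K P) → (φ K P = 0 ↔ ψ K P = 0)) (L : List Cr)
    (hl : ∀ m ∈ I, ∀ c ∈ L, m ∉ legs c) (K : Multiset Cr) (P : Multiset (Sym2 ℕ))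
    (hK : ∀ m ∈ I, Av m K P) :
    br φ (L.map fun c => (c, 1, 1, 1)) K P = 0 ↔ br ψ (L.map fun c => (c, 1, 1, 1)) K P = 0 := by
  induction L generalizing K P with
  | nil => exact h K P hK
  | cons e l ih =>
    have hl' : ∀ m ∈ I, ∀ c ∈ l, m ∉ legs c :=
      fun m hm e' he' => hl m hm e' (List.mem_cons_of_mem _ he')
    have he : ∀ m ∈ I, m ∉ legs e := fun m hm => hl m hm e List.mem_cons_self
    simp only [List.map_cons, br_cons, T, one_mul, Nat.add_eq_zero_iff]
    rw [ih hl' _ _ fun m hm => av_consK.2 ⟨he m hm, hK m hm⟩,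
      ih hl' _ _ fun m hm => av_aX (he m hm) (hK m hm),
      ih hl' _ _ fun m hm => av_aY (he m hm) (hK m hm)]

theorem br_addP (φ : Fn R) (Q : Multiset (Sym2 ℕ)) (l : List (Cr × R × R × R)) (K : Multiset Cr)
    (P : Multiset (Sym2 ℕ)) : br φ l K (Q + P) = br (fun K P => φ K (Q + P)) l K P := by
  induction l generalizing K P with
  | nil => rfl
  | cons e l ih => simp only [br_cons, T, aX_add, aY_add, ih]

theorem br_smul (φ : Fn R) (r : R) (l : List (Cr × R × R × R)) (K : Multiset Cr)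
    (P : Multiset (Sym2 ℕ)) : br (fun K P => r * φ K P) l K P = r * br φ l K P := by
  induction l generalizing K P with
  | nil => rfl
  | cons e l ih => simp only [br_cons, T, ih]; ring

theorem sy_T {φ : Fn R} (h : Sy φ) (c : Cr) (x y z : R) : Sy (T c x y z φ) := by
  constructor
  · intro a b c' d K P
    simp only [T, Multiset.cons_swap c, h.sw a b c' d]
  · intro a b c' d K P
    simp only [T, Multiset.cons_swap c, h.fl a b c' d]

theorem sy_br {φ : Fn R} (h : Sy φ) (l : List (Cr × R × R × R)) : Sy (br φ l) := by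
  induction l with
  | nil => exact h
  | cons e l ih => exact sy_T ih _ _ _ _

theorem T_sw {φ : Fn R} (h : Sy φ) (a b c d : ℕ) (x y z : R) :
    T (a, b, c, d) x y z φ = T (b, a, d, c) x y z φ := by
  funext K P
  simp only [T, aX, aY, h.sw a b c d, Multiset.cons_swap s(a, d), Sym2.eq_swap (a := a) (b := b),
    Sym2.eq_swap (a := c) (b := d)]

theorem T_rev {φ : Fn R} (h : Sy φ) (a b c d : ℕ) (x y z : R) :
    T (a, b, c, d) x y z φ = T (c, d, a, b) x y z φ := by
  funext K P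
  have e : φ ((a, b, c, d) ::ₘ K) P = φ ((c, d, a, b) ::ₘ K) P := by
    rw [h.fl, h.sw, h.fl, h.sw]
  simp only [T, aX, aY, e, Multiset.cons_swap s(d, a), Multiset.cons_swap s(a, b),
    Sym2.eq_swap (a := a) (b := d), Sym2.eq_swap (a := b) (b := c)]

theorem T_fl {φ : Fn ℂ} (h : Sy φ) (a b c d : ℕ) {A : ℂ} (hA : A ≠ 0) (K : Multiset Cr)
    (P : Multiset (Sym2 ℕ)) :
    T (a, b, c, d) (A - 1) 1 (-A) φ K P = -A * T (a, d, c, b) (A⁻¹ - 1) 1 (-A⁻¹) φ K P := by
  have e : φ ((a, b, c, d) ::ₘ K) P = φ ((a, d, c, b) ::ₘ K) P := by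
    rw [h.sw, h.fl, h.sw]
  simp only [T, aX, aY, e, Sym2.eq_swap (a := d) (b := c), Sym2.eq_swap (a := c) (b := b)]
  field_simp
  ring

theorem br_fuse {φ : Fn R} {δ κ β : R → R} (h : Sk φ δ κ β) (l : List (Cr × R × R × R))
    (a b m : ℕ) (K : Multiset Cr) (P : Multiset (Sym2 ℕ)) (hl : AvL m l) (hK : Av m K P)
    (ha : m ≠ a) (hb : m ≠ b) :
    br φ l K (s(a, m) ::ₘ s(m, b) ::ₘ P) = br φ l K (s(a, b) ::ₘ P) := by
  have e1 : s(a, m) ::ₘ s(m, b) ::ₘ P = (s(a, m) ::ₘ {s(m, b)}) + P := by simp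
  have e2 : s(a, b) ::ₘ P = {s(a, b)} + P := by simp
  rw [e1, e2, br_addP, br_addP]
  refine br_congr [m] (fun K P hK => ?_) l (by simpa using hl) K P (by simpa using hK)
  simpa using h.fuse a b m K P (hK m (by simp)) ha hb

theorem br_low {φ : Fn R} (N : ℕ) (h : ∀ K P, Multiset.card K < N → φ K P = 0)
    (l : List (Cr × R × R × R)) (K : Multiset Cr) (P : Multiset (Sym2 ℕ))
    (hc : Multiset.card K + l.length < N) : br φ l K P = 0 := by
  induction l generalizing K P with
  | nil => exact h K P (by simpa using hc)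
  | cons e l ih =>
    simp only [List.length_cons] at hc
    simp only [br_cons, T]
    rw [ih _ _ (by simp only [Multiset.card_cons]; omega), ih _ _ (by omega), ih _ _ (by omega)]
    simp

theorem br_top {φ : Fn R} (N : ℕ) (h : ∀ K P, Multiset.card K < N → φ K P = 0)
    (l : List (Cr × R × R × R)) (K : Multiset Cr) (P : Multiset (Sym2 ℕ))
    (hc : Multiset.card K + l.length = N) :
    br φ l K P = (l.map fun e => e.2.1).prod * φ (((l.map Prod.fst : List Cr) : Multiset Cr) + K) P := by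
  induction l generalizing K P with
  | nil => simp [br]
  | cons e l ih =>
    simp only [List.length_cons] at hc
    simp only [br_cons, T]
    rw [ih _ _ (by simp only [Multiset.card_cons]; omega), br_low N h l _ _ (by omega),
      br_low N h l _ _ (by omega)]
    simp only [List.map_cons, List.prod_cons, mul_zero, add_zero, mul_assoc,
      ← Multiset.cons_coe, Multiset.cons_add, Multiset.add_cons]

theorem mc_add (φ : Fn ℕ) (L : List Cr) (K : Multiset Cr) (P : Multiset (Sym2 ℕ)) :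
    mc φ ((L : Multiset Cr) + K) P =
      br (br φ (L.map fun c => (c, 1, 1, 1))) (K.toList.map fun c => (c, 1, 1, 1)) 0 P := by
  rw [← br_append, ← List.map_append, mc, br_perm φ (List.Perm.map _ ?_)]
  rw [← Multiset.coe_eq_coe, Multiset.coe_toList, ← Multiset.coe_add, Multiset.coe_toList, add_comm]

theorem mc_low {φ : Fn ℕ} (N : ℕ) (h : ∀ K P, Multiset.card K < N → φ K P = 0)
    (K : Multiset Cr) (P : Multiset (Sym2 ℕ)) (hc : Multiset.card K < N) : mc φ K P = 0 :=
  br_low N h _ _ _ (by simpa using hc)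

theorem mc_top {φ : Fn ℕ} (N : ℕ) (h : ∀ K P, Multiset.card K < N → φ K P = 0)
    (K : Multiset Cr) (P : Multiset (Sym2 ℕ)) (hc : Multiset.card K = N) : mc φ K P = φ K P := by
  rw [mc, br_top N h _ _ _ (by simpa using hc)]
  simp [List.map_map, Function.comp_def]

theorem arcs_mid (s t : ℕ) (l₁ l₂ : List Pass) (p : Pass) :
    arcs s (l₁ ++ p :: l₂) t = arcs s l₁ p.2.1 + arcs p.2.2 l₂ t := by
  induction l₁ generalizing s with
  | nil => simp [arcs]
  | cons q l ih => simp [arcs, ih]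

theorem mem_arcs {s t m : ℕ} {l : List Pass} {e : Sym2 ℕ} (he : e ∈ arcs s l t) (hm : m ∈ e) :
    m = s ∨ m ∈ lbl l ∨ m = t := by
  induction l generalizing s with
  | nil =>
    simp only [arcs, Multiset.mem_singleton] at he
    subst he
    simp only [Sym2.mem_iff] at hm
    tauto
  | cons p l ih =>
    simp only [arcs, Multiset.mem_cons] at he
    rw [lbl_cons]
    rcases he with rfl | he
    · simp only [Sym2.mem_iff] at hm
      simp only [List.mem_cons]
      tauto
    · have := ih he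
      simp only [List.mem_cons]
      tauto

theorem av_add {m : ℕ} {K : Multiset Cr} {Q P : Multiset (Sym2 ℕ)} (hQ : ∀ e ∈ Q, m ∉ e)
    (h : Av m K P) : Av m K (Q + P) :=
  ⟨h.1, fun e he => (Multiset.mem_add.1 he).elim (hQ e) (h.2 e)⟩

theorem not_mem_arcs {s t m : ℕ} {l : List Pass} (hs : m ≠ s) (hl : m ∉ lbl l) (ht : m ≠ t) :
    ∀ e ∈ arcs s l t, m ∉ e := fun _ he hm => by
  have := mem_arcs he hm
  tauto

theorem br_glue {φ : Fn R} {δ κ β : R → R} (h : Sk φ δ κ β) (l : List (Cr × R × R × R))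
    (s r t : ℕ) (l₁ l₂ : List Pass) (K : Multiset Cr) (P : Multiset (Sym2 ℕ)) (hl : AvL r l)
    (hK : Av r K P) (hs : r ≠ s) (h₁ : r ∉ lbl l₁) (h₂ : r ∉ lbl l₂) (ht : r ≠ t) :
    br φ l K (arcs s l₁ r + arcs r l₂ t + P) = br φ l K (arcs s (l₁ ++ l₂) t + P) := by
  induction l₁ generalizing s P with
  | nil =>
    cases l₂ with
    | nil => simpa [arcs] using br_fuse h l s t r K P hl hK hs ht
    | cons p l₂ =>
      rw [lbl_cons] at h₂
      simp only [List.mem_cons, not_or] at h₂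
      have := br_fuse h l s p.2.1 r K (arcs p.2.2 l₂ t + P) hl
        (av_add (not_mem_arcs h₂.2.1 h₂.2.2 ht) hK) hs h₂.1
      simpa only [arcs, Multiset.singleton_add, Multiset.cons_add, List.nil_append] using this
  | cons p l₁ ih =>
    rw [lbl_cons] at h₁
    simp only [List.mem_cons, not_or] at h₁
    have := ih p.2.2 (s(s, p.2.1) ::ₘ P) (av_consP.2 ⟨hs, h₁.1, hK⟩) h₁.2.1 h₁.2.2
    simpa [arcs, Multiset.add_cons] using this

theorem path_arcs (s t : ℕ) (l : List Pass) (P : Multiset (Sym2 ℕ)) :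
    Path (conn (arcs s l t + P)) s l t := by
  induction l generalizing s P with
  | nil => exact Relation.EqvGen.rel _ _ (by simp [arcs])
  | cons p l ih =>
    refine ⟨Relation.EqvGen.rel _ _ (by simp [arcs]), ?_⟩
    have := ih p.2.2 (s(s, p.2.1) ::ₘ P)
    simpa [arcs, Multiset.add_cons] using this

end Pool.Agent.P.MP_9b2cf8_gt
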