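import Pool.Agent.P.MP_9b2cf8_gt.CompDef

namespace Pool.Agent.P.MP_9b2cf8_gt

/-- The relation is listed by a primitive recursive function. -/
def Enum_ca {α : Type} [Primcodable α] (R : α → List ℕ → Prop) : Prop :=
  ∃ f : α → List (List ℕ), Primrec f ∧ ∀ a w, w ∈ f a ↔ R a w

section

variable {α : Type} [Primcodable α]

theorem Enum_ca.congr {R S : α → List ℕ → Prop} (h : Enum_ca R) (e : ∀ a w, R a w ↔ S a w) :
    Enum_ca S :=
  let ⟨f, h1, h2⟩ := h
  ⟨f, h1, fun a w => (h2 a w).trans (e a w)⟩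

theorem Enum_ca.or {R S : α → List ℕ → Prop} (h : Enum_ca R) (h' : Enum_ca S) :
    Enum_ca fun a w => R a w ∨ S a w :=
  let ⟨f, h1, h2⟩ := h
  let ⟨g, h3, h4⟩ := h'
  ⟨fun a => f a ++ g a, Primrec.list_append.comp h1 h3, fun a w => by
    rw [List.mem_append, h2, h4]⟩

theorem Enum_ca.single {p : α → Prop} (hp : PrimrecPred p) {g : α → List ℕ} (hg : Primrec g) :
    Enum_ca fun a w => p a ∧ w = g a := by
  classical
  refine ⟨fun a => if p a then [g a] else [],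
    Primrec.ite hp (Primrec.list_cons.comp hg (Primrec.const [])) (Primrec.const []),
    fun a w => ?_⟩
  by_cases h : p a <;> simp [h]

theorem Enum_ca.cut {h : α → List ℕ} (hh : Primrec h)
    {R : α × (List ℕ × ℕ × ℕ × List ℕ) → List ℕ → Prop} (hR : Enum_ca R) :
    Enum_ca fun a w => ∃ x p q y, h a = x ++ p :: q :: y ∧ R (a, x, p, q, y) w := by
  obtain ⟨f, h1, h2⟩ := hR
  refine ⟨fun a => (cuts (h a)).flatMap fun c => f (a, c),
    Primrec.list_flatMap (cuts_primrec.comp hh) h1.to₂, fun a w => ?_⟩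
  simp only [List.mem_flatMap, Prod.exists, mem_cuts, h2]

theorem cx_ca : Primrec fun c : α × (List ℕ × ℕ × ℕ × List ℕ) => c.2.1 :=
  Primrec.fst.comp Primrec.snd

theorem cp_ca : Primrec fun c : α × (List ℕ × ℕ × ℕ × List ℕ) => c.2.2.1 :=
  Primrec.fst.comp (Primrec.snd.comp Primrec.snd)

theorem cq_ca : Primrec fun c : α × (List ℕ × ℕ × ℕ × List ℕ) => c.2.2.2.1 :=
  Primrec.fst.comp (Primrec.snd.comp (Primrec.snd.comp Primrec.snd))

theorem cy_ca : Primrec fun c : α × (List ℕ × ℕ × ℕ × List ℕ) => c.2.2.2.2 :=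
  Primrec.snd.comp (Primrec.snd.comp (Primrec.snd.comp Primrec.snd))

/-- The pairs `{a, b}` and `{c, d}` agree. -/
def Pr_ca (a b c d : ℕ) : Prop := (a = c ∧ b = d) ∨ (a = d ∧ b = c)

theorem pr_ca {a b c d : α → ℕ} (ha : Primrec a) (hb : Primrec b) (hc : Primrec c)
    (hd : Primrec d) : PrimrecPred fun x => Pr_ca (a x) (b x) (c x) (d x) :=
  ((Primrec.eq.comp ha hc).and (Primrec.eq.comp hb hd)).or
    ((Primrec.eq.comp ha hd).and (Primrec.eq.comp hb hc))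

/-- The three pairs form a triangle. -/
def Tri_ca (a b c d e f : ℕ) : Prop :=
  ¬ a = b ∧ ¬ c = d ∧ ¬ e = f ∧ ((a = c ∧ Pr_ca b d e f) ∨ (a = d ∧ Pr_ca b c e f) ∨
    (b = c ∧ Pr_ca a d e f) ∨ (b = d ∧ Pr_ca a c e f))

theorem tri_ca {a b c d e f : α → ℕ} (ha : Primrec a) (hb : Primrec b) (hc : Primrec c)
    (hd : Primrec d) (he : Primrec e) (hf : Primrec f) :
    PrimrecPred fun x => Tri_ca (a x) (b x) (c x) (d x) (e x) (f x) :=
  (Primrec.eq.comp ha hb).not.and <| (Primrec.eq.comp hc hd).not.and <|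
    (Primrec.eq.comp he hf).not.and <|
      ((Primrec.eq.comp ha hc).and (pr_ca hb hd he hf)).or <|
      ((Primrec.eq.comp ha hd).and (pr_ca hb hc he hf)).or <|
      ((Primrec.eq.comp hb hc).and (pr_ca ha hd he hf)).or <|
      (Primrec.eq.comp hb hd).and (pr_ca ha hc he hf)

end

theorem pair_ca {z x y p q : Sym2 ℕ} (h : x = p ∧ y = q ∨ x = q ∧ y = p) :
    ({z, x, y} : Multiset (Sym2 ℕ)) = {z, p, q} := by
  rcases h with ⟨rfl, rfl⟩ | ⟨rfl, rfl⟩
  · rfl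
  · rw [Multiset.pair_comm]

theorem tri_iff_ca {a b c d e f : ℕ} : Tri_ca a b c d e f ↔ ∃ u v w : ℕ, u ≠ v ∧ v ≠ w ∧ w ≠ u ∧
    ({s(a, b), s(c, d), s(e, f)} : Multiset (Sym2 ℕ)) = {s(u, v), s(v, w), s(w, u)} := by
  unfold Tri_ca Pr_ca
  constructor
  · rintro ⟨h1, h2, h3, h | h | h | h⟩
    · exact ⟨a, b, d, h1, by omega, by omega, pair_ca (by simp only [Sym2.eq_iff, true_and, and_true]; omega)⟩
    · exact ⟨a, b, c, h1, by omega, by omega, pair_ca (by simp only [Sym2.eq_iff, true_and, and_true]; omega)⟩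
    · exact ⟨a, b, d, h1, by omega, by omega, pair_ca (by simp only [Sym2.eq_iff, true_and, and_true]; omega)⟩
    · exact ⟨a, b, c, h1, by omega, by omega, pair_ca (by simp only [Sym2.eq_iff, true_and, and_true]; omega)⟩
  · rintro ⟨u, v, w, h1, h2, h3, h⟩
    have m1 : s(a, b) ∈ ({s(u, v), s(v, w), s(w, u)} : Multiset (Sym2 ℕ)) := h ▸ by simp
    have m2 : s(c, d) ∈ ({s(u, v), s(v, w), s(w, u)} : Multiset (Sym2 ℕ)) := h ▸ by simp
    have m3 : s(e, f) ∈ ({s(u, v), s(v, w), s(w, u)} : Multiset (Sym2 ℕ)) := h ▸ by simp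
    have nd : ({s(a, b), s(c, d), s(e, f)} : Multiset (Sym2 ℕ)).Nodup := by
      rw [h]
      simp only [Multiset.insert_eq_cons, Multiset.nodup_cons, Multiset.mem_cons,
        Multiset.mem_singleton, Sym2.eq_iff, Multiset.nodup_singleton, and_true]
      omega
    clear h
    simp only [Multiset.insert_eq_cons, Multiset.nodup_cons, Multiset.mem_cons,
      Multiset.mem_singleton, Sym2.eq_iff, Multiset.nodup_singleton, and_true] at m1 m2 m3 nd
    have h4 := h1.symm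
    have h5 := h2.symm
    have h6 := h3.symm
    rcases m1 with (⟨m, n⟩ | ⟨m, n⟩) | (⟨m, n⟩ | ⟨m, n⟩) | ⟨m, n⟩ | ⟨m, n⟩ <;>
      rcases m2 with (⟨m', n'⟩ | ⟨m', n'⟩) | (⟨m', n'⟩ | ⟨m', n'⟩) | ⟨m', n'⟩ | ⟨m', n'⟩ <;>
      rcases m3 with (⟨k, l⟩ | ⟨k, l⟩) | (⟨k, l⟩ | ⟨k, l⟩) | ⟨k, l⟩ | ⟨k, l⟩ <;>
      simp [m, n, m', n', k, l, h1, h2, h3, h4, h5, h6] at nd ⊢

open Primrec in
theorem exists_succ_red : ∃ f : List ℕ → List (List ℕ), Primrec f ∧ ∀ v w, w ∈ f v ↔ Red v w := by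
  have h1 := Enum_ca.cut Primrec.id (Enum_ca.single (α := List ℕ × (List ℕ × ℕ × ℕ × List ℕ))
    (Primrec.eq.comp cp_ca cq_ca) (list_append.comp cx_ca cy_ca))
  have h2 := Enum_ca.cut Primrec.id (Enum_ca.cut (α := List ℕ × (List ℕ × ℕ × ℕ × List ℕ)) cy_ca
    (Enum_ca.single (pr_ca (cp_ca.comp fst) (cq_ca.comp fst) cp_ca cq_ca)
      (list_append.comp (cx_ca.comp fst) (list_append.comp cx_ca cy_ca))))
  dsimp only [id] at h1 h2
  refine (h1.or h2).congr fun v w => ⟨?_, fun h => ?_⟩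
  · rintro (⟨x, a, b, y, rfl, rfl, rfl⟩ | ⟨x, a, b, _, rfl, y, c, d, z, rfl,
      ⟨rfl, rfl⟩ | ⟨rfl, rfl⟩, rfl⟩)
    · exact Red.r1 x y a
    · exact Red.r2p x y z a b
    · exact Red.r2a x y z a b
  · cases h with
    | r1 x y a => exact Or.inl ⟨x, a, a, y, rfl, rfl, rfl⟩
    | r2p x y z a b => exact Or.inr ⟨x, a, b, _, rfl, y, a, b, z, rfl, Or.inl ⟨rfl, rfl⟩, rfl⟩
    | r2a x y z a b => exact Or.inr ⟨x, a, b, _, rfl, y, b, a, z, rfl, Or.inr ⟨rfl, rfl⟩, rfl⟩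

open Primrec in
theorem exists_succ_r3 : ∃ f : List ℕ → List (List ℕ), Primrec f ∧ ∀ v w, w ∈ f v ↔ R3 v w := by
  have h := Enum_ca.cut Primrec.id (Enum_ca.cut (α := List ℕ × (List ℕ × ℕ × ℕ × List ℕ)) cy_ca
    (Enum_ca.cut cy_ca (Enum_ca.single (tri_ca (cp_ca.comp (fst.comp fst))
      (cq_ca.comp (fst.comp fst)) (cp_ca.comp fst) (cq_ca.comp fst) cp_ca cq_ca)
      (list_append.comp (cx_ca.comp (fst.comp fst)) (list_cons.comp (cq_ca.comp (fst.comp fst))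
        (list_cons.comp (cp_ca.comp (fst.comp fst)) (list_append.comp (cx_ca.comp fst)
          (list_cons.comp (cq_ca.comp fst) (list_cons.comp (cp_ca.comp fst)
            (list_append.comp cx_ca (list_cons.comp cq_ca (list_cons.comp cp_ca cy_ca))))))))))))
  dsimp only [id] at h
  refine h.congr fun p q => ⟨?_, ?_⟩
  · rintro ⟨x, a, b, _, rfl, y, c, d, _, rfl, z, e, f, t, rfl, h, rfl⟩
    obtain ⟨u, v, w, h1, h2, h3, h4⟩ := tri_iff_ca.1 h
    exact ⟨x, y, z, t, a, b, c, d, e, f, u, v, w, h1, h2, h3, h4, rfl, rfl⟩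
  · rintro ⟨x, y, z, t, a, b, c, d, e, f, u, v, w, h1, h2, h3, h4, rfl, rfl⟩
    exact ⟨x, a, b, _, rfl, y, c, d, _, rfl, z, e, f, t, rfl,
      tri_iff_ca.2 ⟨u, v, w, h1, h2, h3, h4⟩, rfl⟩

open Primrec in
theorem exists_succ : ∃ f : List ℕ → List (List ℕ), Primrec f ∧ ∀ v w, w ∈ f v ↔ Step0 v w := by
  have h1 : Enum_ca fun v w => ∃ a x, v = a :: x ∧ w = x ++ [a] :=
    (Enum_ca.single (Primrec.eq.comp Primrec.id (const [])).not (list_append.comp list_tail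
      (list_cons.comp list_headI (const [])))).congr fun v w => by cases v <;> simp
  have h2 : Enum_ca fun (v : List ℕ) w => w = v.reverse :=
    (Enum_ca.single (Primrec.eq.comp Primrec.id Primrec.id) list_reverse).congr fun v w => by simp
  exact h1.or (h2.or (Enum_ca.or exists_succ_r3 exists_succ_red))

end Pool.Agent.P.MP_9b2cf8_gt
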