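import Pool.Agent.P.MP_9b2cf8_gt.CompDef

namespace Pool.Agent.P.MP_9b2cf8_gt

theorem canon_primrec : Primrec canon := by
  have h : Primrec₂ fun (w : List ℕ) (a : ℕ) => w.idxOf a :=
    (Primrec.list_idxOf.comp Primrec.snd Primrec.fst).of_eq fun _ => rfl
  exact (Primrec.list_map Primrec.id h).of_eq fun _ => rfl

theorem idxOf_map_cb (σ : Equiv.Perm ℕ) (v : List ℕ) (a : ℕ) :
    (v.map σ).idxOf (σ a) = v.idxOf a := by
  induction v with
  | nil => rfl
  | cons b l ih =>
    by_cases h : b = a
    · subst h; simp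
    · have h' : σ b ≠ σ a := fun e => h (σ.injective e)
      rw [List.map_cons, List.idxOf_cons_ne _ h', List.idxOf_cons_ne _ h, ih]

theorem canon_eq_iff {v w : List ℕ} : canon v = canon w ↔ ∃ σ : Equiv.Perm ℕ, w = v.map σ := by
  constructor
  · intro h
    have hlen : v.length = w.length := by
      have := congrArg List.length h
      simpa [canon] using this
    have hi : ∀ (i : ℕ) (h1 : i < v.length) (h2 : i < w.length),
        v.idxOf v[i] = w.idxOf w[i] := by
      intro i h1 h2
      have e : (canon v)[i]? = (canon w)[i]? := by rw [h]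
      simp only [canon, List.getElem?_map, List.getElem?_eq_getElem h1,
        List.getElem?_eq_getElem h2, Option.map_some, Option.some.injEq] at e
      exact e
    have hk : ∀ a ∈ v, w.idxOf (w.getD (v.idxOf a) 0) = v.idxOf a := by
      intro a ha
      have h1 : v.idxOf a < v.length := List.idxOf_lt_length_iff.2 ha
      have h2 : v.idxOf a < w.length := hlen ▸ h1
      have e := hi _ h1 h2
      rw [List.getElem_idxOf] at e
      rw [List.getD_eq_getElem _ _ h2]
      exact e.symm
    have : Finite {a // a ∈ v} := (List.finite_toSet v).to_subtype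
    obtain ⟨σ, hσ⟩ := Equiv.Perm.exists_extending_pair (fun a : {a // a ∈ v} => (a : ℕ))
      (fun a : {a // a ∈ v} => w.getD (v.idxOf (a : ℕ)) 0) Subtype.val_injective (by
        intro a b hab
        have e1 := hk a.1 a.2
        have e2 := hk b.1 b.2
        have hab' : w.getD (v.idxOf (a : ℕ)) 0 = w.getD (v.idxOf (b : ℕ)) 0 := hab
        rw [hab', e2] at e1
        exact Subtype.ext ((List.idxOf_inj b.2).1 e1).symm)
    refine ⟨σ, List.ext_getElem (by simp [hlen]) ?_⟩
    intro i h1 h2
    have h3 : i < v.length := hlen ▸ h1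
    have e := hσ ⟨v[i], List.getElem_mem h3⟩
    simp only at e
    rw [List.getElem_map, e, hi i h3 h1]
    have h4 : w.idxOf w[i] < w.length := List.idxOf_lt_length_iff.2 (List.getElem_mem h1)
    rw [List.getD_eq_getElem _ _ h4, List.getElem_idxOf]
  · rintro ⟨σ, rfl⟩
    simp only [canon, List.map_map]
    refine List.map_congr_left fun a _ => ?_
    exact (idxOf_map_cb σ v a).symm

theorem step0_le {v w : List ℕ} (h : Step0 v w) : w.length ≤ v.length ∧ ∀ a ∈ w, a ∈ v := by
  rcases h with ⟨a, x, rfl, rfl⟩ | rfl | ⟨x, y, z, t, a, b, c, d, e, f, u, v', w', -, -, -, -, rfl, rfl⟩ | h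
  · refine ⟨by simp, fun b hb => ?_⟩
    simp only [List.mem_append, List.mem_cons, List.not_mem_nil, or_false] at hb ⊢
    exact hb.symm
  · exact ⟨by simp, fun b hb => by simpa using hb⟩
  · refine ⟨by simp, fun g hg => ?_⟩
    simp only [List.mem_append, List.mem_cons] at hg ⊢
    tauto
  · refine ⟨(red_length h).le, fun g hg => ?_⟩
    cases h <;> simp only [List.mem_append, List.mem_cons] at hg ⊢ <;> tauto

theorem step0_map_cb (σ : Equiv.Perm ℕ) {v w : List ℕ} (h : Step0 v w) :
    Step0 (v.map σ) (w.map σ) := by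
  rcases h with ⟨a, x, rfl, rfl⟩ | rfl |
    ⟨x, y, z, t, a, b, c, d, e, f, u, v', w', h1, h2, h3, h4, rfl, rfl⟩ | h
  · exact Or.inl ⟨σ a, x.map σ, by simp, by simp⟩
  · exact Or.inr (Or.inl (by simp))
  · refine Or.inr (Or.inr (Or.inl ⟨x.map σ, y.map σ, z.map σ, t.map σ, σ a, σ b, σ c, σ d, σ e,
      σ f, σ u, σ v', σ w', fun q => h1 (σ.injective q), fun q => h2 (σ.injective q),
      fun q => h3 (σ.injective q), ?_, by simp, by simp⟩))
    have := congrArg (Multiset.map (Sym2.map σ)) h4
    simpa only [Multiset.insert_eq_cons, Multiset.map_cons, Multiset.map_singleton,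
      Sym2.map_mk, Prod.map] using this
  · refine Or.inr (Or.inr (Or.inr ?_))
    cases h with
    | r1 x y a => simpa using Red.r1 (x.map σ) (y.map σ) (σ a)
    | r2p x y z a b => simpa using Red.r2p (x.map σ) (y.map σ) (z.map σ) (σ a) (σ b)
    | r2a x y z a b => simpa using Red.r2a (x.map σ) (y.map σ) (z.map σ) (σ a) (σ b)

theorem flat_cases_cb {v w : List ℕ} (h : Flat v w) :
    Step0 v w ∨ ∃ σ : Equiv.Perm ℕ, w = v.map σ := by
  cases h with
  | rot a x => exact Or.inl (Or.inl ⟨a, x, rfl, rfl⟩)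
  | rev => exact Or.inl (Or.inr (Or.inl rfl))
  | ren σ => exact Or.inr ⟨σ, rfl⟩
  | r3 x y z t a b c d e f u v' w' h1 h2 h3 h4 =>
    exact Or.inl (Or.inr (Or.inr (Or.inl
      ⟨x, y, z, t, a, b, c, d, e, f, u, v', w', h1, h2, h3, h4, rfl, rfl⟩)))

theorem step0_cases_cb {v w : List ℕ} (h : Step0 v w) : Flat v w ∨ Red v w := by
  rcases h with ⟨a, x, rfl, rfl⟩ | rfl |
    ⟨x, y, z, t, a, b, c, d, e, f, u, v', w', h1, h2, h3, h4, rfl, rfl⟩ | h
  · exact Or.inl (Flat.rot a x)
  · exact Or.inl (Flat.rev _)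
  · exact Or.inl (Flat.r3 x y z t a b c d e f u v' w' h1 h2 h3 h4)
  · exact Or.inr h

theorem step_of_cb {v w : List ℕ} (hv : IsGauss v) (h : Flat v w ∨ Red v w) : Step v w := by
  refine ⟨hv, ?_, h⟩
  rcases h with h | h
  · exact flat_gauss h hv
  · exact red_gauss h hv

theorem down_iff {v z : List ℕ} (hv : IsGauss v) :
    Down v z ↔ ∃ (y : List ℕ) (σ : Equiv.Perm ℕ), Relation.ReflTransGen Step0 v y ∧ z = y.map σ := by
  constructor
  · intro h
    induction h with
    | refl => exact ⟨v, 1, Relation.ReflTransGen.refl, by simp⟩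
    | @tail b c _ hbc ih =>
      obtain ⟨y, σ, hy, rfl⟩ := ih
      have key : Step0 (y.map σ) c → ∃ (y' : List ℕ) (τ : Equiv.Perm ℕ),
          Relation.ReflTransGen Step0 v y' ∧ c = y'.map τ := by
        intro hs
        have h1 := step0_map_cb σ.symm hs
        have e : (y.map σ).map σ.symm = y := by simp
        rw [e] at h1
        exact ⟨c.map σ.symm, σ, hy.tail h1, by simp⟩
      rcases hbc.2.2 with h | h
      · rcases flat_cases_cb h with h | ⟨τ, rfl⟩
        · exact key h
        · exact ⟨y, σ.trans τ, hy, by simp⟩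
      · exact key (Or.inr (Or.inr (Or.inr h)))
  · rintro ⟨y, σ, hy, rfl⟩
    have h1 : Down v y := by
      induction hy with
      | refl => exact Relation.ReflTransGen.refl
      | tail _ hbc ih =>
        exact Relation.ReflTransGen.tail ih (step_of_cb (down_gauss ih hv) (step0_cases_cb hbc))
    exact Relation.ReflTransGen.tail h1 (step_of_cb (down_gauss h1 hv) (Or.inl (Flat.ren σ y)))

end Pool.Agent.P.MP_9b2cf8_gt
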