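import Pool.Agent.P.MP_9b2cf8_gt.CompDef

namespace Pool.Agent.P.MP_9b2cf8_gt

/-- All words over the letters of `v` of length at most `n`. -/
def allw_cc (v : List ℕ) (n : ℕ) : List (List ℕ) :=
  (fun L : List (List ℕ) => [] :: L.flatMap fun w => v.map fun a => a :: w)^[n] [[]]

theorem mem_allw_cc (v : List ℕ) (n : ℕ) (w : List ℕ) (h1 : w.length ≤ n) (h2 : ∀ a ∈ w, a ∈ v) :
    w ∈ allw_cc v n := by
  induction n generalizing w with
  | zero =>
    have : w = [] := List.length_eq_zero_iff.1 (by omega)
    simp [allw_cc, this]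
  | succ n ih =>
    unfold allw_cc
    rw [Function.iterate_succ_apply']
    cases w with
    | nil => exact List.mem_cons_self
    | cons a w =>
      refine List.mem_cons_of_mem _ (List.mem_flatMap.2 ⟨w, ?_, ?_⟩)
      · exact ih w (by simpa using h1) fun b hb => h2 b (List.mem_cons_of_mem _ hb)
      · exact List.mem_map.2 ⟨a, h2 a List.mem_cons_self, rfl⟩

theorem allw_cc_primrec : Primrec fun v : List ℕ => allw_cc v v.length := by
  have h0 : Primrec₂ fun (q : (List ℕ × List (List ℕ)) × List ℕ) (a : ℕ) => a :: q.2 :=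
    Primrec.list_cons.comp Primrec.snd (Primrec.snd.comp Primrec.fst)
  have h1 : Primrec₂ fun (q : List ℕ × List (List ℕ)) (w : List ℕ) => q.1.map fun a => a :: w :=
    Primrec.list_map (Primrec.fst.comp Primrec.fst) h0
  have h2 : Primrec₂ fun (v : List ℕ) (L : List (List ℕ)) =>
      ([] : List ℕ) :: L.flatMap fun w => v.map fun a => a :: w :=
    Primrec.list_cons.comp (Primrec.const []) (Primrec.list_flatMap Primrec.snd h1)
  exact Primrec.nat_iterate Primrec.list_length (Primrec.const [[]]) h2

/-- The words reached in at most `k` steps. -/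
def iter_cc (f : List ℕ → List (List ℕ)) (v : List ℕ) (k : ℕ) : List (List ℕ) :=
  (fun L : List (List ℕ) => L ++ L.flatMap f)^[k] [v]

theorem iter_cc_succ (f : List ℕ → List (List ℕ)) (v : List ℕ) (k : ℕ) :
    iter_cc f v (k + 1) = iter_cc f v k ++ (iter_cc f v k).flatMap f :=
  Function.iterate_succ_apply' _ _ _

theorem reach_of_mem_cc {f : List ℕ → List (List ℕ)} {v w : List ℕ} {k : ℕ}
    (h : w ∈ iter_cc f v k) : Relation.ReflTransGen (fun x y => y ∈ f x) v w := by
  induction k generalizing w with
  | zero =>
    have : w = v := by simpa [iter_cc] using h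
    rw [this]
  | succ k ih =>
    rw [iter_cc_succ, List.mem_append, List.mem_flatMap] at h
    rcases h with h | ⟨x, hx, h⟩
    · exact ih h
    · exact (ih hx).tail h

theorem self_mem_cc (f : List ℕ → List (List ℕ)) (v : List ℕ) (k : ℕ) : v ∈ iter_cc f v k := by
  induction k with
  | zero => simp [iter_cc]
  | succ k ih => rw [iter_cc_succ]; exact List.mem_append_left _ ih

theorem closed_or_cc (f : List ℕ → List (List ℕ)) (v : List ℕ) (k : ℕ) :
    (∀ x ∈ iter_cc f v k, ∀ y ∈ f x, y ∈ iter_cc f v k) ∨
      k + 1 ≤ (iter_cc f v k).toFinset.card := by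
  induction k with
  | zero => right; simp [iter_cc]
  | succ k ih =>
    by_cases hc : ∀ x ∈ iter_cc f v k, ∀ y ∈ f x, y ∈ iter_cc f v k
    · left
      intro x hx y hy
      rw [iter_cc_succ, List.mem_append] at hx ⊢
      left
      rcases hx with hx | hx
      · exact hc x hx y hy
      · obtain ⟨x', hx', hx⟩ := List.mem_flatMap.1 hx
        exact hc x (hc x' hx' x hx) y hy
    · right
      have h1 := ih.resolve_left hc
      simp only [not_forall] at hc
      obtain ⟨x, hx, y, hy, hn⟩ := hc
      have h2 : (iter_cc f v k).toFinset ⊂ (iter_cc f v (k + 1)).toFinset := by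
        rw [Finset.ssubset_iff_of_subset]
        · refine ⟨y, ?_, by simpa using hn⟩
          rw [List.mem_toFinset, iter_cc_succ]
          exact List.mem_append_right _ (List.mem_flatMap.2 ⟨x, hx, hy⟩)
        · intro z hz
          rw [List.mem_toFinset] at hz ⊢
          rw [iter_cc_succ]
          exact List.mem_append_left _ hz
      have := Finset.card_lt_card h2
      omega

theorem exists_reach (f : List ℕ → List (List ℕ)) (hf : Primrec f)
    (h : ∀ v w, w ∈ f v → w.length ≤ v.length ∧ ∀ a ∈ w, a ∈ v) :
    ∃ r : List ℕ → List (List ℕ), Primrec r ∧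
      ∀ v w, w ∈ r v ↔ Relation.ReflTransGen (fun x y => y ∈ f x) v w := by
  refine ⟨fun v => iter_cc f v (allw_cc v v.length).length, ?_, fun v w => ⟨reach_of_mem_cc, ?_⟩⟩
  · have h2 : Primrec₂ fun (_ : List ℕ) (L : List (List ℕ)) => L ++ L.flatMap f :=
      Primrec.list_append.comp Primrec.snd
        (Primrec.list_flatMap Primrec.snd (hf.comp Primrec.snd).to₂)
    exact Primrec.nat_iterate (Primrec.list_length.comp allw_cc_primrec)
      (Primrec.list_cons.comp Primrec.id (Primrec.const [])) h2
  · have hb : ∀ x, Relation.ReflTransGen (fun x y => y ∈ f x) v x →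
        x.length ≤ v.length ∧ ∀ a ∈ x, a ∈ v := by
      intro x hx
      induction hx with
      | refl => exact ⟨le_rfl, fun _ ha => ha⟩
      | tail _ h2 ih => exact ⟨(h _ _ h2).1.trans ih.1, fun a ha => ih.2 a ((h _ _ h2).2 a ha)⟩
    have hc : ∀ x ∈ iter_cc f v (allw_cc v v.length).length, ∀ y ∈ f x,
        y ∈ iter_cc f v (allw_cc v v.length).length := by
      refine (closed_or_cc f v _).resolve_right fun hk => ?_
      have h1 : (iter_cc f v (allw_cc v v.length).length).toFinset ⊆
          (allw_cc v v.length).toFinset := by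
        intro x hx
        rw [List.mem_toFinset] at hx ⊢
        exact mem_allw_cc v _ x (hb x (reach_of_mem_cc hx)).1 (hb x (reach_of_mem_cc hx)).2
      have h2 := (Finset.card_le_card h1).trans (List.toFinset_card_le _)
      omega
    intro hw
    induction hw with
    | refl => exact self_mem_cc f v _
    | tail _ h2 ih => exact hc _ ih _ h2

end Pool.Agent.P.MP_9b2cf8_gt
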