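import Pool.Agent.P.MP_9b2cf8_gt.Basic

namespace Pool.Agent.P.MP_9b2cf8_gt

def R3 (p q : List ℕ) : Prop :=
  ∃ (x y z t : List ℕ) (a b c d e f u v w : ℕ), u ≠ v ∧ v ≠ w ∧ w ≠ u ∧
    ({s(a, b), s(c, d), s(e, f)} : Multiset (Sym2 ℕ)) = {s(u, v), s(v, w), s(w, u)} ∧
    p = x ++ a :: b :: (y ++ c :: d :: (z ++ e :: f :: t)) ∧
    q = x ++ b :: a :: (y ++ d :: c :: (z ++ f :: e :: t))

/-- The non-increasing moves other than renaming. -/
def Step0 (v w : List ℕ) : Prop :=
  (∃ a x, v = a :: x ∧ w = x ++ [a]) ∨ w = v.reverse ∨ R3 v w ∨ Red v w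

def canon (w : List ℕ) : List ℕ := w.map fun a => w.idxOf a

/-- All ways to write `v = x ++ a :: b :: y`. -/
def cuts (v : List ℕ) : List (List ℕ × ℕ × ℕ × List ℕ) :=
  List.rec (motive := fun _ => List (List ℕ × ℕ × ℕ × List ℕ)) []
    (fun a l ih => (List.casesOn (motive := fun _ => List (List ℕ × ℕ × ℕ × List ℕ)) l []
      fun b y => [([], a, b, y)]) ++ ih.map fun c => (a :: c.1, c.2)) v

theorem mem_cuts {v x y : List ℕ} {a b : ℕ} : (x, a, b, y) ∈ cuts v ↔ v = x ++ a :: b :: y := by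
  induction v generalizing x with
  | nil => simp [cuts]
  | cons c l ih =>
    have e : cuts (c :: l) = (List.casesOn (motive := fun _ => List (List ℕ × ℕ × ℕ × List ℕ)) l []
      fun b y => [([], c, b, y)]) ++ (cuts l).map fun d => (c :: d.1, d.2) := rfl
    rw [e, List.mem_append, List.mem_map]
    constructor
    · rintro (h | ⟨⟨x', a', b', y'⟩, h, h'⟩)
      · cases l with
        | nil => simp at h
        | cons b' y' =>
          simp only [List.mem_singleton, Prod.mk.injEq] at h
          obtain ⟨rfl, rfl, rfl, rfl⟩ := h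
          rfl
      · simp only [Prod.mk.injEq] at h'
        obtain ⟨rfl, rfl, rfl, rfl⟩ := h'
        rw [ih.1 h]; rfl
    · intro h
      cases x with
      | nil =>
        simp only [List.nil_append, List.cons.injEq] at h
        obtain ⟨rfl, rfl⟩ := h
        left; simp
      | cons c' x =>
        simp only [List.cons_append, List.cons.injEq] at h
        obtain ⟨rfl, h⟩ := h
        exact Or.inr ⟨(x, a, b, y), ih.2 h, rfl⟩

theorem cuts_primrec : Primrec cuts := by
  have h1 : Primrec fun q : List ℕ × ℕ × List ℕ × List (List ℕ × ℕ × ℕ × List ℕ) =>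
      (List.casesOn (motive := fun _ => List (List ℕ × ℕ × ℕ × List ℕ)) q.2.2.1 []
        fun b y => [([], q.2.1, b, y)]) := by
    have h : Primrec₂ fun (q : List ℕ × ℕ × List ℕ × List (List ℕ × ℕ × ℕ × List ℕ))
        (r : ℕ × List ℕ) => [(([] : List ℕ), q.2.1, r.1, r.2)] :=
      Primrec.list_cons.comp ((Primrec.const []).pair
        ((Primrec.fst.comp (Primrec.snd.comp Primrec.fst)).pair Primrec.snd)) (Primrec.const [])
    exact Primrec.list_casesOn (Primrec.fst.comp (Primrec.snd.comp Primrec.snd))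
      (Primrec.const []) h
  have h2 : Primrec fun q : List ℕ × ℕ × List ℕ × List (List ℕ × ℕ × ℕ × List ℕ) =>
      q.2.2.2.map fun c => (q.2.1 :: c.1, c.2) := by
    have h : Primrec₂ fun (q : List ℕ × ℕ × List ℕ × List (List ℕ × ℕ × ℕ × List ℕ))
        (c : List ℕ × ℕ × ℕ × List ℕ) => (q.2.1 :: c.1, c.2) :=
      (Primrec.list_cons.comp (Primrec.fst.comp (Primrec.snd.comp Primrec.fst))
        (Primrec.fst.comp Primrec.snd)).pair (Primrec.snd.comp Primrec.snd)
    exact Primrec.list_map (Primrec.snd.comp (Primrec.snd.comp Primrec.snd)) h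
  have h3 : Primrec₂ fun (_ : List ℕ) (p : ℕ × List ℕ × List (List ℕ × ℕ × ℕ × List ℕ)) =>
      (List.casesOn (motive := fun _ => List (List ℕ × ℕ × ℕ × List ℕ)) p.2.1 []
        fun b y => [([], p.1, b, y)]) ++ p.2.2.map fun c => (p.1 :: c.1, c.2) :=
    Primrec.list_append.comp h1 h2
  exact (Primrec.list_rec Primrec.id (Primrec.const []) h3).of_eq fun v => rfl

end Pool.Agent.P.MP_9b2cf8_gt
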