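import Pool.Agent.P.MP_9b2cf8_gt.Defs

/-! Definitions used in the proof: states, skein functionals, bracket, coloured models. -/

namespace Pool.Agent.P.MP_9b2cf8_gt

/-- A crossing `(in1, in2, out1, out2)`; the strands are `in1 - out1` and `in2 - out2`. -/
abbrev Cr := ℕ × ℕ × ℕ × ℕ

/-- A functional on states (crossings, arcs). -/
abbrev Fn (R : Type) := Multiset Cr → Multiset (Sym2 ℕ) → R

/-- A pass `(name, in, out)`. -/
abbrev Pass := ℕ × ℕ × ℕ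

def legs (c : Cr) : List ℕ := [c.1, c.2.1, c.2.2.1, c.2.2.2]

/-- The label `m` does not occur in the state. -/
def Av (m : ℕ) (K : Multiset Cr) (P : Multiset (Sym2 ℕ)) : Prop :=
  (∀ c ∈ K, m ∉ legs c) ∧ ∀ e ∈ P, m ∉ e

/-- The oriented smoothing. -/
def aX (c : Cr) (P : Multiset (Sym2 ℕ)) : Multiset (Sym2 ℕ) :=
  s(c.1, c.2.2.2) ::ₘ s(c.2.1, c.2.2.1) ::ₘ P

/-- The other smoothing. -/
def aY (c : Cr) (P : Multiset (Sym2 ℕ)) : Multiset (Sym2 ℕ) :=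
  s(c.1, c.2.1) ::ₘ s(c.2.2.1, c.2.2.2) ::ₘ P

def T {R : Type} [CommSemiring R] (c : Cr) (x y z : R) (φ : Fn R) : Fn R :=
  fun K P => x * φ (c ::ₘ K) P + y * φ K (aX c P) + z * φ K (aY c P)

def br {R : Type} [CommSemiring R] (φ : Fn R) : List (Cr × R × R × R) → Fn R
  | [] => φ
  | e :: l => T e.1 e.2.1 e.2.2.1 e.2.2.2 (br φ l)

def AvL {R : Type} (m : ℕ) (l : List (Cr × R × R × R)) : Prop := ∀ e ∈ l, m ∉ legs e.1

/-- Symmetries of a crossing. -/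
structure Sy {R : Type} (φ : Fn R) : Prop where
  sw : ∀ a b c d K P, φ ((a, b, c, d) ::ₘ K) P = φ ((b, a, d, c) ::ₘ K) P
  fl : ∀ a b c d K P, φ ((a, b, c, d) ::ₘ K) P = φ ((c, b, a, d) ::ₘ K) P

/-- Skein rules. -/
structure Sk {R : Type} (φ : Fn R) (δ κ β : R → R) : Prop where
  sy : Sy φ
  fuse : ∀ a b m K P, Av m K P → m ≠ a → m ≠ b →
    φ K (s(a, m) ::ₘ s(m, b) ::ₘ P) = φ K (s(a, b) ::ₘ P)
  absorb : ∀ a b c d m K P, Av m K P → m ≠ a → m ≠ b → m ≠ c → m ≠ d →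
    φ ((m, b, c, d) ::ₘ K) (s(a, m) ::ₘ P) = φ ((a, b, c, d) ::ₘ K) P
  circ : ∀ m K P, Av m K P → φ K (s(m, m) ::ₘ P) = δ (φ K P)
  kink : ∀ a d m K P, Av m K P → m ≠ a → m ≠ d →
    φ ((a, m, m, d) ::ₘ K) P = κ (φ K (s(a, d) ::ₘ P))
  bigon : ∀ a b c d m n K P, Av m K P → Av n K P → m ≠ n → m ∉ [a, b, c, d] → n ∉ [a, b, c, d] →
    φ ((a, b, m, n) ::ₘ (m, n, c, d) ::ₘ K) P = β (φ ((a, b, d, c) ::ₘ K) P)
  r3 : ∀ a b c d e f m n p K P, Av m K P → Av n K P → Av p K P → m ≠ n → m ≠ p → n ≠ p →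
    m ∉ [a, b, c, d, e, f] → n ∉ [a, b, c, d, e, f] → p ∉ [a, b, c, d, e, f] →
    φ ((a, b, m, n) ::ₘ (m, c, d, p) ::ₘ (n, p, e, f) ::ₘ K) P =
      φ ((m, n, d, e) ::ₘ (a, p, m, f) ::ₘ (b, c, n, p) ::ₘ K) P

/-- Functionals on the Demazure skein module with circle value 2. -/
def DF (g : Fn ℂ) : Prop := Sk g (fun x => 2 * x) id id

def conn (P : Multiset (Sym2 ℕ)) : ℕ → ℕ → Prop := Relation.EqvGen fun x y => s(x, y) ∈ P

def Path (R : ℕ → ℕ → Prop) : ℕ → List Pass → ℕ → Prop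
  | s, [], t => R s t
  | s, p :: l, t => R s p.2.1 ∧ Path R p.2.2 l t

def passes (c : ℕ × Cr) : Multiset (ℕ × Sym2 ℕ) :=
  {(c.1, s(c.2.1, c.2.2.2.1)), (c.1, s(c.2.2.1, c.2.2.2.2))}

def tag (p : Pass) : ℕ × Sym2 ℕ := (p.1, s(p.2.1, p.2.2))

def FE (v w : List ℕ) : Prop := Relation.ReflTransGen Flat v w

/-- The state, read along its straight-ahead circuit, is the word `F` up to flat moves. -/
def Good (F : List ℕ) (K : Multiset Cr) (P : Multiset (Sym2 ℕ)) : Prop :=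
  ∃ (N : Multiset (ℕ × Cr)) (l : List Pass) (s : ℕ), N.map Prod.snd = K ∧
    (N.map Prod.fst).Nodup ∧ ((l.map tag : List (ℕ × Sym2 ℕ)) : Multiset (ℕ × Sym2 ℕ)) =
      N.bind passes ∧ Path (conn P) s l s ∧ FE (l.map Prod.fst) F

def Irr (F : List ℕ) : Prop := ∀ v w, IsGauss v → FE v F → ¬ Red v w

open Classical in
noncomputable def GF (F : List ℕ) : Fn ℕ := fun K P => if Good F K P then 1 else 0

def labs (K : Multiset Cr) (P : Multiset (Sym2 ℕ)) : Set ℕ :=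
  {x | (∃ c ∈ K, x ∈ legs c) ∨ ∃ e ∈ P, x ∈ e}

def Col (K : Multiset Cr) (P : Multiset (Sym2 ℕ)) : Set (ℕ → Bool) :=
  {f | (∀ x, x ∉ labs K P → f x = false) ∧ (∀ c ∈ K, ∀ x ∈ legs c, ∀ y ∈ legs c, f x = f y) ∧
    ∀ x y, s(x, y) ∈ P → f x = f y}

/-- Two to the number of connected components. -/
noncomputable def gam : Fn ℕ := fun K P => (Col K P).ncard

/-- Sum over all smoothings. -/
noncomputable def mc (φ : Fn ℕ) : Fn ℕ :=
  fun K P => br φ (K.toList.map fun c => (c, 1, 1, 1)) 0 P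

noncomputable def mu (φ : Fn ℕ) : Fn ℕ := fun K P => if mc φ K P = 0 then 0 else 1

noncomputable def gF (F : List ℕ) : Fn ℂ := fun K P => ((mu (GF F) K P * gam K P : ℕ) : ℂ)

noncomputable def lab (c : Cr) (A : ℂ) : Cr × ℂ × ℂ × ℂ := (c, A - 1, 1, -A)

noncomputable def chi (t : ZMod 4) : ℂ := Complex.I ^ t.val

def arcs : ℕ → List Pass → ℕ → Multiset (Sym2 ℕ)
  | s, [], t => {s(s, t)}
  | s, p :: l, t => s(s, p.2.1) ::ₘ arcs p.2.2 l t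

def lbl (l : List Pass) : List ℕ := l.flatMap fun p => [p.2.1, p.2.2]

def crs (e : Pass × Pass) : Cr := (e.1.2.1, e.2.2.1, e.1.2.2, e.2.2.2)

def tl (col : ℕ → ZMod 4) (e : Pass × Pass) : ZMod 4 := col e.1.2.1 + col e.2.2.1 + 1

/-- A coloured model of a word. -/
structure Mod where
  l : List Pass
  s : ℕ
  col : ℕ → ZMod 4
  cs : List (Pass × Pass)

structure Mod.Ok (M : Mod) (w : List ℕ) : Prop where
  word : M.l.map Prod.fst = w
  nd : (M.s :: lbl M.l).Nodup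
  chain : Path (fun x y => M.col x = M.col y) M.s M.l M.s
  perm : (M.cs.flatMap fun e => [e.1, e.2]).Perm M.l
  name : ∀ e ∈ M.cs, e.1.1 = e.2.1
  rule : ∀ e ∈ M.cs, M.col e.1.2.2 = M.col e.1.2.1 + 2 * M.col e.2.2.1 + 1 ∧
    M.col e.2.2.2 = M.col e.2.2.1 + 2 * M.col e.1.2.1 + 1

noncomputable def Mod.Phi (M : Mod) (g : Fn ℂ) : ℂ :=
  br g (M.cs.map fun e => lab (crs e) (chi (tl M.col e))) 0 (arcs M.s M.l M.s)

def Mod.NZ (M : Mod) : Prop := ∀ e ∈ M.cs, tl M.col e ≠ 0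

theorem av_consK {m : ℕ} {c : Cr} {K : Multiset Cr} {P : Multiset (Sym2 ℕ)} :
    Av m (c ::ₘ K) P ↔ m ∉ legs c ∧ Av m K P := by
  simp only [Av, Multiset.mem_cons, forall_eq_or_imp, and_assoc]

theorem av_consP {m a b : ℕ} {K : Multiset Cr} {P : Multiset (Sym2 ℕ)} :
    Av m K (s(a, b) ::ₘ P) ↔ m ≠ a ∧ m ≠ b ∧ Av m K P := by
  simp only [Av, Multiset.mem_cons, forall_eq_or_imp, Sym2.mem_iff, not_or]
  tauto

theorem not_mem_legs {m a b c d : ℕ} : m ∉ legs (a, b, c, d) ↔ m ≠ a ∧ m ≠ b ∧ m ≠ c ∧ m ≠ d := by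
  simp [legs, not_or]

end Pool.Agent.P.MP_9b2cf8_gt
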