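import Mathlib

/-! Free knots as Gauss words modulo the formal Reidemeister moves. -/

namespace Pool.Agent.P.MP_9b2cf8_gt

/-- A Gauss word: every letter that occurs in it occurs exactly twice. -/
def IsGauss (w : List ℕ) : Prop := ∀ a ∈ w, w.count a = 2

/-- Moves that keep the number of chords: change of base point, of orientation, of the names,
and the third Reidemeister move (three chords, three pairs of adjacent ends, each pair swapped). -/
inductive Flat : List ℕ → List ℕ → Prop
  | rot (a : ℕ) (w : List ℕ) : Flat (a :: w) (w ++ [a])
  | rev (w : List ℕ) : Flat w w.reverse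
  | ren (σ : Equiv.Perm ℕ) (w : List ℕ) : Flat w (w.map σ)
  | r3 (x y z t : List ℕ) (a b c d e f u v w : ℕ) (huv : u ≠ v) (hvw : v ≠ w) (hwu : w ≠ u)
      (h : ({s(a, b), s(c, d), s(e, f)} : Multiset (Sym2 ℕ)) = {s(u, v), s(v, w), s(w, u)}) :
      Flat (x ++ a :: b :: (y ++ c :: d :: (z ++ e :: f :: t)))
        (x ++ b :: a :: (y ++ d :: c :: (z ++ f :: e :: t)))

/-- The decreasing first and second Reidemeister moves. -/
inductive Red : List ℕ → List ℕ → Prop
  | r1 (x y : List ℕ) (a : ℕ) : Red (x ++ a :: a :: y) (x ++ y)
  | r2p (x y z : List ℕ) (a b : ℕ) : Red (x ++ a :: b :: (y ++ a :: b :: z)) (x ++ (y ++ z))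
  | r2a (x y z : List ℕ) (a b : ℕ) : Red (x ++ a :: b :: (y ++ b :: a :: z)) (x ++ (y ++ z))

/-- One non-increasing move between Gauss words. -/
def Step (v w : List ℕ) : Prop := IsGauss v ∧ IsGauss w ∧ (Flat v w ∨ Red v w)

/-- The two Gauss words represent the same free knot. -/
def SameKnot (v w : List ℕ) : Prop := Relation.EqvGen Step v w

/-- `w` is obtained from `v` by moves that never increase the number of chords. -/
def Down (v w : List ℕ) : Prop := Relation.ReflTransGen Step v w

/-- The letters between the first two occurrences of `a`. -/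
def between (w : List ℕ) (a : ℕ) : List ℕ :=
  (w.dropWhile fun x => x != a).tail.takeWhile fun x => x != a

/-- The chords linked with the chord `a`. -/
def linked (w : List ℕ) (a : ℕ) : Finset ℕ :=
  w.toFinset.filter fun b => (between w a).count b = 1

/-- Every even chord (linked with an even number of chords) is linked with an odd number of
even chords. -/
def ZClass (w : List ℕ) : Prop :=
  ∀ a ∈ w, Even (linked w a).card →
    Odd ((linked w a).filter fun b => Even (linked w b).card).card

/-- Gauss words that can be brought into `ZClass` by non-increasing moves. -/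
def ZStar (w : List ℕ) : Prop := IsGauss w ∧ ∃ z, Down w z ∧ ZClass z

end Pool.Agent.P.MP_9b2cf8_gt
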