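import Pool.Agent.P.MP_9b2cf8_gt.Br

namespace Pool.Agent.P.MP_9b2cf8_gt

section
variable {K K' : Multiset Cr} {P P' : Multiset (Sym2 ℕ)} {f f' : ℕ → Bool} {a b c d m x : ℕ}

def Cst (K : Multiset Cr) (P : Multiset (Sym2 ℕ)) (f : ℕ → Bool) : Prop :=
  (∀ c ∈ K, ∀ x ∈ legs c, ∀ y ∈ legs c, f x = f y) ∧ ∀ x y, s(x, y) ∈ P → f x = f y

theorem col_gam : f ∈ Col K P ↔ (∀ x, x ∉ labs K P → f x = false) ∧ Cst K P f := Iff.rfl

theorem av_gam (h : Av m K P) : m ∉ labs K P :=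
  fun h' => h'.elim (fun ⟨c, h1, h2⟩ => h.1 c h1 h2) fun ⟨e, h1, h2⟩ => h.2 e h1 h2

theorem labsK_gam : x ∈ labs ((a, b, c, d) ::ₘ K) P ↔ x = a ∨ x = b ∨ x = c ∨ x = d ∨ x ∈ labs K P := by
  simp [labs, legs, or_assoc]

theorem labsP_gam : x ∈ labs K (s(a, b) ::ₘ P) ↔ x = a ∨ x = b ∨ x ∈ labs K P := by
  simp only [labs, Set.mem_ofPred_eq, Multiset.mem_cons, exists_eq_or_imp, Sym2.mem_iff, or_assoc,
    or_left_comm]

theorem cstK_gam : Cst ((a, b, c, d) ::ₘ K) P f ↔ f a = f b ∧ f a = f c ∧ f a = f d ∧ Cst K P f := by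
  simp only [Cst, legs, Multiset.mem_cons, forall_eq_or_imp, List.mem_cons, List.not_mem_nil,
    or_false, forall_eq]
  grind

theorem cstP_gam : Cst K (s(a, b) ::ₘ P) f ↔ f a = f b ∧ Cst K P f := by
  simp only [Cst, Multiset.mem_cons, Sym2.eq_iff]
  refine ⟨fun h => ⟨h.2 a b (by simp), h.1, fun x y e => h.2 x y (.inr e)⟩, fun h => ⟨h.2.1, ?_⟩⟩
  rintro x y ((⟨rfl, rfl⟩ | ⟨rfl, rfl⟩) | e)
  exacts [h.1, h.1.symm, h.2.2 x y e]

theorem cst_upd_gam (hm : m ∉ labs K P) (v : Bool) (h : Cst K P f) :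
    Cst K P (Function.update f m v) := by
  have e : ∀ x ∈ labs K P, Function.update f m v x = f x := fun x hx =>
    Function.update_of_ne (fun e : x = m => hm (e ▸ hx)) _ _
  exact ⟨fun c hc x hx y hy => by
      rw [e x (.inl ⟨c, hc, hx⟩), e y (.inl ⟨c, hc, hy⟩)]; exact h.1 c hc x hx y hy,
    fun x y hxy => by
      rw [e x (.inr ⟨_, hxy, by simp⟩), e y (.inr ⟨_, hxy, by simp⟩)]; exact h.2 x y hxy⟩

theorem fin_gam (K : Multiset Cr) (P : Multiset (Sym2 ℕ)) : (Col K P).Finite := by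
  have h : (labs K P).Finite :=
    ((K.finite_toSet.biUnion fun c _ => (legs c).finite_toSet).union
      (P.finite_toSet.biUnion fun e _ => e.toFinset.finite_toSet)).subset fun x hx => by
        simpa [labs] using hx
  refine Set.Finite.of_finite_image (f := fun f => {x | f x = true})
    (h.finite_subsets.subset ?_) fun f _ g _ e => funext fun x => Bool.eq_iff_iff.2 (Set.ext_iff.1 e x)
  rintro _ ⟨f, hf, rfl⟩ x hx
  by_contra h'
  exact Bool.false_ne_true ((hf.1 x h').symm.trans hx)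

theorem same_gam (hl : ∀ x, x ∈ labs K' P' ↔ x ∈ labs K P) (hE : ∀ f, Cst K' P' f ↔ Cst K P f) :
    gam K' P' = gam K P := by
  have : Col K' P' = Col K P := Set.ext fun f => by simp only [col_gam, hl, hE]
  simp only [gam, this]

theorem rem_gam (m a : ℕ) (hm : m ∉ labs K P) (ha : a ∈ labs K P)
    (hl : ∀ x, x ∈ labs K' P' ↔ x = m ∨ x ∈ labs K P)
    (hE : ∀ f, Cst K' P' f ↔ Cst K P f ∧ f m = f a) : gam K' P' = gam K P := by
  have hn : a ≠ m := fun e => hm (e ▸ ha)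
  refine (Set.ncard_congr (fun f _ => Function.update f m (f a)) (fun f hf => ?_)
    (fun f g hf hg e => funext fun x => ?_) fun f hf => ?_).symm
  · refine ⟨fun x hx => ?_, (hE _).2 ⟨cst_upd_gam hm _ hf.2, by simp [hn]⟩⟩
    rw [hl, not_or] at hx
    rw [Function.update_of_ne hx.1, hf.1 x hx.2]
  · by_cases h : x = m
    · rw [h, hf.1 m hm, hg.1 m hm]
    · simpa [h] using congrFun e x
  · obtain ⟨h1, h2⟩ := (hE f).1 hf.2
    refine ⟨Function.update f m false, ⟨fun x hx => ?_, cst_upd_gam hm _ h1⟩, by simp [hn, ← h2]⟩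
    by_cases h : x = m
    · simp [h]
    · rw [Function.update_of_ne h, hf.1 x fun e => ((hl x).1 e).elim h hx]

theorem circ_gam (hm : m ∉ labs K P) : gam K (s(m, m) ::ₘ P) = 2 * gam K P := by
  have e : Col K (s(m, m) ::ₘ P) = Col K P ∪ (fun f => Function.update f m true) '' Col K P := by
    ext f
    simp only [col_gam, labsP_gam, cstP_gam, Set.mem_union, Set.mem_image, true_and, not_or]
    constructor
    · rintro ⟨h1, h2⟩
      cases h : f m
      · exact .inl ⟨fun x hx => if e : x = m then e ▸ h else h1 x ⟨e, e, hx⟩, h2⟩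
      · refine .inr ⟨Function.update f m false, ⟨fun x hx => ?_, cst_upd_gam hm _ h2⟩, by simp [← h]⟩
        by_cases e : x = m
        · simp [e]
        · rw [Function.update_of_ne e, h1 x ⟨e, e, hx⟩]
    · rintro (⟨h1, h2⟩ | ⟨g, ⟨h1, h2⟩, rfl⟩)
      · exact ⟨fun x hx => h1 x hx.2.2, h2⟩
      · exact ⟨fun x hx => by rw [Function.update_of_ne hx.1, h1 x hx.2.2], cst_upd_gam hm _ h2⟩
  rw [gam, e, Set.ncard_union_eq _ (fin_gam K P) ((fin_gam K P).image _), Set.InjOn.ncard_image,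
    two_mul, gam]
  · intro f hf g hg e
    funext x
    by_cases h : x = m
    · rw [h, hf.1 m hm, hg.1 m hm]
    · simpa [h] using congrFun e x
  · rw [Set.disjoint_left]
    rintro _ h ⟨g, -, rfl⟩
    simpa using h.1 m hm

end

theorem gam_ne_zero (K : Multiset Cr) (P : Multiset (Sym2 ℕ)) : gam K P ≠ 0 :=
  Set.ncard_ne_zero_of_mem (a := fun _ => false)
    ⟨fun _ _ => rfl, fun _ _ _ _ _ _ => rfl, fun _ _ _ => rfl⟩ (fin_gam K P)

theorem sk_gam : Sk gam (fun x => 2 * x) id id := by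
  refine ⟨⟨fun a b c d K P => same_gam ?_ ?_, fun a b c d K P => same_gam ?_ ?_⟩,
    fun a b m K P h _ _ => rem_gam m a ?_ ?_ ?_ ?_,
    fun a b c d m K P h _ _ _ _ => rem_gam m a ?_ ?_ ?_ ?_, fun m K P h => circ_gam (av_gam h),
    fun a d m K P h _ _ => rem_gam m a ?_ ?_ ?_ ?_,
    fun a b c d m n K P h h' _ _ _ => (rem_gam (K := (a, b, d, c) ::ₘ K) (P := s(n, a) ::ₘ P)
      m a ?_ ?_ ?_ ?_).trans (rem_gam n a ?_ ?_ ?_ ?_),
    fun a b c d e f m n p K P _ _ _ _ _ _ _ _ _ => same_gam ?_ ?_⟩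
  all_goals
    try have := av_gam h
    try have := av_gam h'
    simp only [labsK_gam, labsP_gam, cstK_gam, cstP_gam]
    grind

end Pool.Agent.P.MP_9b2cf8_gt
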