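import Pool.Agent.P.MP_9b2cf8_gt.Br

namespace Pool.Agent.P.MP_9b2cf8_gt

theorem conn_map_ga {P P' : Multiset (Sym2 ℕ)} {r : ℕ → ℕ}
    (h : ∀ x y, s(x, y) ∈ P → conn P' (r x) (r y)) {x y : ℕ} (hxy : conn P x y) :
    conn P' (r x) (r y) := by
  induction hxy with
  | rel x y hxy => exact h x y hxy
  | refl x => exact (conn_equiv P').refl _
  | symm x y _ ih => exact (conn_equiv P').symm ih
  | trans x y z _ _ ih₁ ih₂ => exact (conn_equiv P').trans ih₁ ih₂

theorem conn_mem_ga {P : Multiset (Sym2 ℕ)} {x y : ℕ} (h : s(x, y) ∈ P) : conn P x y :=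
  Relation.EqvGen.rel x y h

theorem conn_cons_ga {P : Multiset (Sym2 ℕ)} (e : Sym2 ℕ) {x y : ℕ} (h : conn P x y) :
    conn (e ::ₘ P) x y :=
  conn_map_ga (r := id) (fun _ _ h => conn_mem_ga (Multiset.mem_cons_of_mem h)) h

theorem path_map_ga {R R' : ℕ → ℕ → Prop} {r : ℕ → ℕ} (h : ∀ x y, R x y → R' (r x) (r y))
    {s t : ℕ} {l : List Pass} (hp : Path R s l t) :
    Path R' (r s) (l.map fun p => (p.1, r p.2.1, r p.2.2)) (r t) := by
  induction l generalizing s with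
  | nil => exact h _ _ hp
  | cons p l ih => exact ⟨h _ _ hp.1, ih hp.2⟩

/-- Relabelling of a crossing. -/
def crm_ga (r : ℕ → ℕ) (c : Cr) : Cr := (r c.1, r c.2.1, r c.2.2.1, r c.2.2.2)

theorem good_map_ga {F : List ℕ} {K : Multiset Cr} {P P' : Multiset (Sym2 ℕ)} (r : ℕ → ℕ)
    (h : ∀ x y, s(x, y) ∈ P → conn P' (r x) (r y)) (hg : Good F K P) :
    Good F (K.map (crm_ga r)) P' := by
  obtain ⟨N, l, s, rfl, h2, h3, h4, h5⟩ := hg
  refine ⟨N.map fun c => (c.1, crm_ga r c.2), l.map fun p => (p.1, r p.2.1, r p.2.2), r s,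
    ?_, ?_, ?_, path_map_ga (r := r) (fun x y => conn_map_ga h) h4, ?_⟩
  · simp only [Multiset.map_map, Function.comp_def]
  · simpa only [Multiset.map_map, Function.comp_def] using h2
  · have h6 := congrArg (Multiset.map fun t : ℕ × Sym2 ℕ => (t.1, t.2.map r)) h3
    rw [Multiset.map_coe, Multiset.map_bind] at h6
    rw [Multiset.bind_map]
    convert h6 using 2
    · simp only [List.map_map, Function.comp_def, tag, Sym2.map_mk]
    · simp [passes, crm_ga]
  · simpa only [List.map_map, Function.comp_def] using h5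

theorem good_mono_ga {F : List ℕ} {K : Multiset Cr} {P P' : Multiset (Sym2 ℕ)}
    (h : ∀ x y, s(x, y) ∈ P → conn P' x y) (hg : Good F K P) : Good F K P' := by
  have := good_map_ga id h hg
  rwa [show crm_ga id = id from rfl, Multiset.map_id] at this

theorem map_crm_ga {K : Multiset Cr} {m a : ℕ} (hm : ∀ c ∈ K, m ∉ legs c) :
    K.map (crm_ga fun x => if x = m then a else x) = K := by
  conv_rhs => rw [← Multiset.map_id K]
  refine Multiset.map_congr rfl fun c hc => ?_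
  obtain ⟨c1, c2, c3, c4⟩ := c
  obtain ⟨h1, h2, h3, h4⟩ := not_mem_legs.1 (hm _ hc)
  simp [crm_ga, h1.symm, h2.symm, h3.symm, h4.symm]

theorem good_cons_ga {F : List ℕ} {c : Cr} {K : Multiset Cr} {P : Multiset (Sym2 ℕ)} :
    Good F (c ::ₘ K) P ↔ ∃ (n : ℕ) (N : Multiset (ℕ × Cr)) (l : List Pass) (s : ℕ),
      N.map Prod.snd = K ∧ (n ::ₘ N.map Prod.fst).Nodup ∧
      ((l.map tag : List (ℕ × Sym2 ℕ)) : Multiset (ℕ × Sym2 ℕ)) =
        passes (n, c) + N.bind passes ∧ Path (conn P) s l s ∧ FE (l.map Prod.fst) F := by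
  classical
  constructor
  · rintro ⟨N, l, s, h1, h2, h3, h4, h5⟩
    obtain ⟨⟨n, c'⟩, he, rfl, h6⟩ := (Multiset.map_eq_cons _ _ _ _).2 h1
    rw [← Multiset.cons_erase he] at h2 h3
    exact ⟨n, _, l, s, h6, by simpa only [Multiset.map_cons] using h2,
      by simpa only [Multiset.cons_bind] using h3, h4, h5⟩
  · rintro ⟨n, N, l, s, rfl, h2, h3, h4, h5⟩
    exact ⟨(n, c) ::ₘ N, l, s, by simp only [Multiset.map_cons],
      by simpa only [Multiset.map_cons] using h2,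
      by simpa only [Multiset.cons_bind] using h3, h4, h5⟩

theorem tag_mid_ga (l₁ l₂ : List Pass) (p : Pass) :
    (((l₁ ++ p :: l₂).map tag : List (ℕ × Sym2 ℕ)) : Multiset (ℕ × Sym2 ℕ)) =
      tag p ::ₘ (((l₁ ++ l₂).map tag : List (ℕ × Sym2 ℕ)) : Multiset (ℕ × Sym2 ℕ)) := by
  rw [Multiset.cons_coe, Multiset.coe_eq_coe, ← List.map_cons]
  exact List.perm_middle.map _

theorem good_sw {F : List ℕ} {a b c d : ℕ} {K : Multiset Cr} {P : Multiset (Sym2 ℕ)}
    (h : Good F ((a, b, c, d) ::ₘ K) P) : Good F ((b, a, d, c) ::ₘ K) P := by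
  obtain ⟨n, N, l, s, h1, h2, h3, h4, h5⟩ := good_cons_ga.1 h
  refine good_cons_ga.2 ⟨n, N, l, s, h1, h2, ?_, h4, h5⟩
  rw [h3]
  congr 1
  exact Multiset.pair_comm _ _

theorem good_fl {F : List ℕ} {a b c d : ℕ} {K : Multiset Cr} {P : Multiset (Sym2 ℕ)}
    (h : Good F ((a, b, c, d) ::ₘ K) P) : Good F ((c, b, a, d) ::ₘ K) P := by
  obtain ⟨n, N, l, s, h1, h2, h3, h4, h5⟩ := good_cons_ga.1 h
  refine good_cons_ga.2 ⟨n, N, l, s, h1, h2, ?_, h4, h5⟩
  rw [h3]
  simp only [passes, Sym2.eq_swap (a := c)]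

theorem good_fuse {F : List ℕ} {a b m : ℕ} {K : Multiset Cr} {P : Multiset (Sym2 ℕ)}
    (hm : Av m K P) (ha : m ≠ a) (hb : m ≠ b) :
    Good F K (s(a, m) ::ₘ s(m, b) ::ₘ P) ↔ Good F K (s(a, b) ::ₘ P) := by
  constructor
  · intro h
    rw [← map_crm_ga (a := a) hm.1]
    refine good_map_ga _ (fun x y hxy => ?_) h
    simp only [Multiset.mem_cons, Sym2.eq_iff] at hxy
    have hab : conn (s(a, b) ::ₘ P) a b := conn_mem_ga (Multiset.mem_cons_self _ _)
    rcases hxy with (⟨rfl, rfl⟩ | ⟨rfl, rfl⟩) | (⟨rfl, rfl⟩ | ⟨rfl, rfl⟩) | hxy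
    · simpa [ha.symm] using (conn_equiv _).refl _
    · simpa [ha.symm] using (conn_equiv _).refl _
    · simpa [hb.symm] using hab
    · simpa [hb.symm] using (conn_equiv _).symm hab
    · have := hm.2 _ hxy
      rw [Sym2.mem_iff, not_or] at this
      rw [if_neg (Ne.symm this.1), if_neg (Ne.symm this.2)]
      exact conn_mem_ga (Multiset.mem_cons_of_mem hxy)
  · refine good_mono_ga fun x y hxy => ?_
    have hab : conn (s(a, m) ::ₘ s(m, b) ::ₘ P) a b :=
      (conn_equiv _).trans (conn_mem_ga (Multiset.mem_cons_self _ _))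
        (conn_mem_ga (Multiset.mem_cons_of_mem (Multiset.mem_cons_self _ _)))
    simp only [Multiset.mem_cons, Sym2.eq_iff] at hxy
    rcases hxy with (⟨rfl, rfl⟩ | ⟨rfl, rfl⟩) | hxy
    · exact hab
    · exact (conn_equiv _).symm hab
    · exact conn_mem_ga (Multiset.mem_cons_of_mem (Multiset.mem_cons_of_mem hxy))

theorem good_absorb {F : List ℕ} {a b c d m : ℕ} {K : Multiset Cr} {P : Multiset (Sym2 ℕ)}
    (hm : Av m K P) (ha : m ≠ a) (hb : m ≠ b) (hc : m ≠ c) (hd : m ≠ d) :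
    Good F ((m, b, c, d) ::ₘ K) (s(a, m) ::ₘ P) ↔ Good F ((a, b, c, d) ::ₘ K) P := by
  constructor
  · intro h
    have h1 := good_map_ga (P' := P) (fun x => if x = m then a else x) (fun x y hxy => ?_) h
    · rw [Multiset.map_cons, map_crm_ga hm.1] at h1
      simpa [crm_ga, hb.symm, hc.symm, hd.symm] using h1
    simp only [Multiset.mem_cons, Sym2.eq_iff] at hxy
    rcases hxy with (⟨rfl, rfl⟩ | ⟨rfl, rfl⟩) | hxy
    · simpa [ha.symm] using (conn_equiv _).refl _
    · simpa [ha.symm] using (conn_equiv _).refl _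
    · have := hm.2 _ hxy
      rw [Sym2.mem_iff, not_or] at this
      rw [if_neg (Ne.symm this.1), if_neg (Ne.symm this.2)]
      exact conn_mem_ga hxy
  · intro h
    obtain ⟨n, N, l, s, h1, h2, h3, h4, h5⟩ := good_cons_ga.1 h
    have h6 : (n, s(a, c)) ∈ ((l.map tag : List (ℕ × Sym2 ℕ)) : Multiset (ℕ × Sym2 ℕ)) := by
      rw [h3]
      simp [passes]
    obtain ⟨⟨n', x, y⟩, hp, hpt⟩ := List.mem_map.1 (Multiset.mem_coe.1 h6)
    obtain ⟨l₁, l₂, rfl⟩ := List.append_of_mem hp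
    rw [tag_mid_ga, hpt] at h3
    have h7 : (((l₁ ++ l₂).map tag : List (ℕ × Sym2 ℕ)) : Multiset (ℕ × Sym2 ℕ)) =
        (n, s(b, d)) ::ₘ N.bind passes := by
      rw [← Multiset.cons_inj_right (n, s(a, c)), h3]
      simp [passes]
    have h8 : Path (conn (s(a, m) ::ₘ P)) s (l₁ ++ (n', x, y) :: l₂) s :=
      path_mono (fun _ => True) (fun _ _ _ _ h => conn_cons_ga _ h) trivial trivial
        (fun _ _ => trivial) h4
    rw [path_mid] at h8
    have ham : conn (s(a, m) ::ₘ P) a m := conn_mem_ga (Multiset.mem_cons_self _ _)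
    simp only [tag, Prod.mk.injEq, Sym2.eq_iff] at hpt
    obtain ⟨rfl, ⟨rfl, rfl⟩ | ⟨rfl, rfl⟩⟩ := hpt
    · refine good_cons_ga.2 ⟨n', N, l₁ ++ (n', m, y) :: l₂, s, h1, h2, ?_,
        path_mid.2 ⟨path_right (conn_equiv _) ham h8.1, h8.2⟩, by simpa using h5⟩
      rw [tag_mid_ga, h7]
      simp [passes, tag]
    · refine good_cons_ga.2 ⟨n', N, l₁ ++ (n', x, m) :: l₂, s, h1, h2, ?_,
        path_mid.2 ⟨h8.1, path_left (conn_equiv _) ((conn_equiv _).symm ham) h8.2⟩,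
        by simpa using h5⟩
      rw [tag_mid_ga, h7]
      simp [passes, tag, Sym2.eq_swap (a := x)]

theorem good_circ {F : List ℕ} {m : ℕ} {K : Multiset Cr} {P : Multiset (Sym2 ℕ)} :
    Good F K (s(m, m) ::ₘ P) ↔ Good F K P := by
  constructor
  · refine good_mono_ga fun x y hxy => ?_
    simp only [Multiset.mem_cons, Sym2.eq_iff, or_self] at hxy
    rcases hxy with ⟨rfl, rfl⟩ | hxy
    · exact (conn_equiv _).refl _
    · exact conn_mem_ga hxy
  · exact good_mono_ga fun x y hxy => conn_mem_ga (Multiset.mem_cons_of_mem hxy)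

theorem good_card {F : List ℕ} {K : Multiset Cr} {P : Multiset (Sym2 ℕ)} (h : Good F K P) :
    F.length = 2 * Multiset.card K := by
  obtain ⟨N, l, s, rfl, -, h3, -, h5⟩ := h
  have h6 := congrArg Multiset.card h3
  rw [← fe_length h5]
  simp only [Multiset.coe_card, List.length_map, Multiset.card_bind, Multiset.card_map] at h6 ⊢
  rw [h6]
  simp [passes, mul_comm]

end Pool.Agent.P.MP_9b2cf8_gt
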