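import Pool.Agent.P.MP_9b2cf8_gt.Br

namespace Pool.Agent.P.MP_9b2cf8_gt

theorem conn_eq_gb {P : Multiset (Sym2 ℕ)} {m : ℕ} (hm : ∀ e ∈ P, m ∉ e) {x : ℕ}
    (h : conn P m x) : x = m := by
  have key : ∀ a b, conn P a b → (a = m ↔ b = m) := by
    intro a b hab
    induction hab with
    | rel a b hab =>
      have := hm _ hab
      simp only [Sym2.mem_iff, not_or] at this
      exact ⟨fun h => absurd h.symm this.1, fun h => absurd h.symm this.2⟩
    | refl a => exact Iff.rfl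
    | symm a b _ ih => exact ih.symm
    | trans a b c _ _ ih1 ih2 => exact ih1.trans ih2
  exact (key _ _ h).1 rfl

theorem path_end_gb {R : ℕ → ℕ → Prop} (hR : Equivalence R) {m : ℕ} (hm : ∀ x, R m x → x = m)
    {s : ℕ} {l : List Pass} (h : Path R s l m) :
    (l = [] ∧ s = m) ∨ ∃ q ∈ l, q.2.2 = m := by
  induction l generalizing s with
  | nil => exact Or.inl ⟨rfl, hm _ (hR.symm h)⟩
  | cons p l ih =>
    rcases ih h.2 with ⟨-, h1⟩ | ⟨q, hq, h1⟩
    · exact Or.inr ⟨p, List.mem_cons_self, h1⟩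
    · exact Or.inr ⟨q, List.mem_cons_of_mem _ hq, h1⟩

/-- On a closed path an isolated label that occurs is the exit of some pass. -/
theorem exists_out_gb {R : ℕ → ℕ → Prop} (hR : Equivalence R) {m : ℕ} (hm : ∀ x, R m x → x = m)
    {s : ℕ} {l : List Pass} (h : Path R s l s) {p : Pass} (hp : p ∈ l) (hmp : m ∈ (tag p).2) :
    ∃ q ∈ l, q.2.2 = m := by
  simp only [tag, Sym2.mem_iff] at hmp
  rcases hmp with hmp | hmp
  · obtain ⟨l₁, l₂, rfl⟩ := List.append_of_mem hp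
    have h1 := (path_mid.1 h).1
    rw [← hmp] at h1
    rcases path_end_gb hR hm h1 with ⟨-, rfl⟩ | ⟨q, hq, h2⟩
    · rcases path_end_gb hR hm h with ⟨h2, -⟩ | h2
      · simp at h2
      · exact h2
    · exact ⟨q, List.mem_append_left _ hq, h2⟩
  · exact ⟨p, hp, hmp.symm⟩

/-- A reading of a named state. -/
def Rd_gb (F : List ℕ) (N : Multiset (ℕ × Cr)) (P : Multiset (Sym2 ℕ)) (l : List Pass) : Prop :=
  ((l.map tag : List (ℕ × Sym2 ℕ)) : Multiset (ℕ × Sym2 ℕ)) = N.bind passes ∧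
    (∃ s, Path (conn P) s l s) ∧ FE (l.map Prod.fst) F

theorem rd_rotate_gb {F : List ℕ} {N : Multiset (ℕ × Cr)} {P : Multiset (Sym2 ℕ)}
    {l₁ l₂ : List Pass} (h : Rd_gb F N P (l₁ ++ l₂)) : Rd_gb F N P (l₂ ++ l₁) := by
  obtain ⟨h1, ⟨s, h2⟩, h3⟩ := h
  refine ⟨?_, path_rotate (conn_equiv P) h2, ?_⟩
  · rw [← h1, Multiset.coe_eq_coe]
    exact List.perm_append_comm.map _
  · rw [List.map_append] at h3 ⊢
    exact fe_trans (fe_rotate _ _) h3

theorem names_gb (N : Multiset (ℕ × Cr)) :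
    (N.bind passes).map Prod.fst = N.map Prod.fst + N.map Prod.fst := by
  induction N using Multiset.induction_on with
  | empty => simp
  | cons c N ih =>
    rw [Multiset.cons_bind, Multiset.map_add, ih]
    simp only [Multiset.map_cons, passes, Multiset.insert_eq_cons, Multiset.map_singleton,
      Multiset.cons_add, Multiset.add_cons, Multiset.singleton_add]

theorem rd_gauss_gb {F : List ℕ} {N : Multiset (ℕ × Cr)} {P : Multiset (Sym2 ℕ)} {l : List Pass}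
    (hN : (N.map Prod.fst).Nodup) (h : Rd_gb F N P l) : IsGauss (l.map Prod.fst) := by
  have e : ((l.map Prod.fst : List ℕ) : Multiset ℕ) = N.map Prod.fst + N.map Prod.fst := by
    rw [← names_gb, ← h.1, Multiset.map_coe, List.map_map]
    rfl
  intro a ha
  have h1 : a ∈ N.map Prod.fst := by
    have : a ∈ ((l.map Prod.fst : List ℕ) : Multiset ℕ) := ha
    rw [e, Multiset.mem_add, or_self] at this
    exact this
  rw [← Multiset.coe_count, e, Multiset.count_add, Multiset.count_eq_one_of_mem hN h1]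

theorem rd_mem_gb {F : List ℕ} {N : Multiset (ℕ × Cr)} {P : Multiset (Sym2 ℕ)} {l : List Pass}
    (h : Rd_gb F N P l) {t : ℕ × Sym2 ℕ} : t ∈ N.bind passes ↔ ∃ p ∈ l, tag p = t := by
  rw [← h.1, Multiset.mem_coe, List.mem_map]

theorem not_mem_bind_gb {N : Multiset (ℕ × Cr)} {m : ℕ} (hm : ∀ c ∈ N.map Prod.snd, m ∉ legs c)
    {t : ℕ × Sym2 ℕ} (ht : t ∈ N.bind passes) : m ∉ t.2 := by
  obtain ⟨c, hc, ht⟩ := Multiset.mem_bind.1 ht
  have := hm c.2 (Multiset.mem_map_of_mem _ hc)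
  simp only [legs, List.mem_cons, List.not_mem_nil, or_false, not_or] at this
  simp only [passes, Multiset.insert_eq_cons, Multiset.mem_cons, Multiset.mem_singleton] at ht
  rcases ht with rfl | rfl <;> simp only [Sym2.mem_iff] <;> tauto

/-- After a rotation the first two passes are joined by the isolated label. -/
theorem rd_adj_gb {F : List ℕ} {N : Multiset (ℕ × Cr)} {P : Multiset (Sym2 ℕ)} {l : List Pass}
    (hN : (N.map Prod.fst).Nodup) (h : Rd_gb F N P l) {m : ℕ} (hm : ∀ e ∈ P, m ∉ e)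
    {t : ℕ × Sym2 ℕ} (ht : t ∈ N.bind passes) (hmt : m ∈ t.2) :
    ∃ p q r, Rd_gb F N P (p :: q :: r) ∧ p.2.2 = m ∧ q.2.1 = m := by
  obtain ⟨p₀, hp₀, rfl⟩ := (rd_mem_gb h).1 ht
  obtain ⟨s, hs⟩ := h.2.1
  obtain ⟨p, hp, hpm⟩ := exists_out_gb (conn_equiv P) (fun x => conn_eq_gb hm) hs hp₀ hmt
  obtain ⟨l₁, l₂, rfl⟩ := List.append_of_mem hp
  have h' : Rd_gb F N P (p :: (l₂ ++ l₁)) := rd_rotate_gb h
  generalize l₂ ++ l₁ = r at h'
  cases r with
  | nil => simpa using rd_gauss_gb hN h' p.1 (by simp)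
  | cons q r =>
    obtain ⟨s', hs'⟩ := h'.2.1
    have h1 : conn P p.2.2 q.2.1 := hs'.2.1
    exact ⟨p, q, r, h', hpm, conn_eq_gb hm (hpm ▸ h1)⟩

theorem good_kink {F : List ℕ} (hF : Irr F) {a d m : ℕ} {K : Multiset Cr} {P : Multiset (Sym2 ℕ)}
    (hm : Av m K P) (ha : m ≠ a) (hd : m ≠ d) : ¬ Good F ((a, m, m, d) ::ₘ K) P := by
  have _ := And.intro ha hd
  rintro ⟨N, l, s, hK, hN, h1, h2, h3⟩
  obtain ⟨⟨u, c⟩, hc, rfl, hK'⟩ := (Multiset.map_eq_cons _ _ _ _).2 hK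
  obtain ⟨N', rfl⟩ := Multiset.exists_cons_of_mem hc
  rw [Multiset.erase_cons_head] at hK'
  obtain ⟨p, q, r, h, hp, hq⟩ := rd_adj_gb hN ⟨h1, ⟨s, h2⟩, h3⟩ hm.2 (t := (u, s(a, m)))
    (by simp [passes]) (by simp)
  have key : ∀ x ∈ p :: q :: r, m ∈ (tag x).2 → x.1 = u := by
    intro x hx hmx
    have := (rd_mem_gb h).2 ⟨x, hx, rfl⟩
    rw [Multiset.cons_bind, Multiset.mem_add] at this
    rcases this with h4 | h4
    · simp only [passes, Multiset.insert_eq_cons, Multiset.mem_cons, Multiset.mem_singleton] at h4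
      rcases h4 with h4 | h4 <;> exact congrArg Prod.fst h4
    · exact absurd hmx (not_mem_bind_gb (hK' ▸ hm.1) h4)
  have e1 := key p (by simp) (by simp [tag, hp])
  have e2 := key q (by simp) (by simp [tag, hq])
  refine hF _ (r.map Prod.fst) (rd_gauss_gb hN h) h.2.2 ?_
  simp only [List.map_cons, e1, e2]
  exact Red.r1 [] _ u

theorem good_bigon {F : List ℕ} (hF : Irr F) {a b c d m n : ℕ} {K : Multiset Cr}
    {P : Multiset (Sym2 ℕ)} (hm : Av m K P) (hn : Av n K P) (hmn : m ≠ n)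
    (hm' : m ∉ [a, b, c, d]) (hn' : n ∉ [a, b, c, d]) :
    ¬ Good F ((a, b, m, n) ::ₘ (m, n, c, d) ::ₘ K) P := by
  rintro ⟨N, l, s, hK, hN, h1, h2, h3⟩
  obtain ⟨⟨u, c₁⟩, hc, rfl, hK'⟩ := (Multiset.map_eq_cons _ _ _ _).2 hK
  obtain ⟨N₁, rfl⟩ := Multiset.exists_cons_of_mem hc
  rw [Multiset.erase_cons_head] at hK'
  obtain ⟨⟨v, c₂⟩, hc', rfl, hK''⟩ := (Multiset.map_eq_cons _ _ _ _).2 hK'
  obtain ⟨N', rfl⟩ := Multiset.exists_cons_of_mem hc'
  rw [Multiset.erase_cons_head] at hK''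
  simp only [List.mem_cons, List.not_mem_nil, or_false, not_or] at hm' hn'
  obtain ⟨p, q, r, h, hp, hq⟩ := rd_adj_gb hN ⟨h1, ⟨s, h2⟩, h3⟩ hm.2 (t := (u, s(a, m)))
    (by simp [passes]) (by simp)
  have key : ∀ x ∈ p :: q :: r, m ∈ (tag x).2 ∨ n ∈ (tag x).2 →
      (x.1 = u ∨ x.1 = v) ∧ ¬ (m ∈ (tag x).2 ∧ n ∈ (tag x).2) := by
    intro x hx hmx
    have := (rd_mem_gb h).2 ⟨x, hx, rfl⟩
    simp only [Multiset.cons_bind, Multiset.mem_add, passes, Multiset.insert_eq_cons,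
      Multiset.mem_cons, Multiset.mem_singleton] at this
    rcases this with (h4 | h4) | (h4 | h4) | h4
    · exact ⟨Or.inl (congrArg Prod.fst h4), by rw [h4]; simp [hn'.1, hmn.symm]⟩
    · exact ⟨Or.inl (congrArg Prod.fst h4), by rw [h4]; simp [hm'.2.1, hmn]⟩
    · exact ⟨Or.inr (congrArg Prod.fst h4), by rw [h4]; simp [hn'.2.2.1, hmn.symm]⟩
    · exact ⟨Or.inr (congrArg Prod.fst h4), by rw [h4]; simp [hm'.2.2.2, hmn]⟩
    · exact (hmx.elim (not_mem_bind_gb (hK'' ▸ hm.1) h4) (not_mem_bind_gb (hK'' ▸ hn.1) h4)).elim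
  have k1 := key p (by simp) (Or.inl (by simp [tag, hp]))
  have k2 := key q (by simp) (Or.inl (by simp [tag, hq]))
  obtain ⟨s', hs'⟩ := h.2.1
  obtain ⟨p₀, hp₀, e₀⟩ := (rd_mem_gb h (t := (u, s(b, n)))).1 (by simp [passes])
  obtain ⟨p', hp', hpn⟩ := exists_out_gb (conn_equiv P) (fun x => conn_eq_gb hn.2) hs' hp₀
    (by simp [e₀])
  have hr : p' ∈ r := by
    simp only [List.mem_cons] at hp'
    rcases hp' with rfl | rfl | hp'
    · exact absurd (hp.symm.trans hpn) hmn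
    · exact absurd ⟨by simp [tag, hq], by simp [tag, hpn]⟩ k2.2
    · exact hp'
  obtain ⟨r₁, r₂, rfl⟩ := List.append_of_mem hr
  have h5 : Path (conn P) n r₂ s' := hpn ▸ (path_mid.1 hs'.2.2).2
  cases r₂ with
  | nil =>
    have e1 : s' = n := conn_eq_gb hn.2 h5
    have e2 : p.2.1 = n := conn_eq_gb hn.2 (e1 ▸ hs'.1)
    exact k1.2 ⟨by simp [tag, hp], by simp [tag, e2]⟩
  | cons q' r₂ =>
    have hq' : q'.2.1 = n := conn_eq_gb hn.2 h5.1
    have k3 := key p' (by simp) (Or.inr (by simp [tag, hpn]))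
    have k4 := key q' (by simp) (Or.inr (by simp [tag, hq']))
    have hno := fun w => hF _ w (rd_gauss_gb hN h) h.2.2
    simp only [List.map_cons, List.map_append] at hno
    by_cases e1 : p.1 = q.1
    · rw [e1] at hno
      exact hno _ (Red.r1 [] _ _)
    by_cases e2 : p'.1 = q'.1
    · rw [e2] at hno
      exact hno _ (Red.r1 (p.1 :: q.1 :: r₁.map Prod.fst) _ _)
    have e3 : (p'.1 = p.1 ∧ q'.1 = q.1) ∨ (p'.1 = q.1 ∧ q'.1 = p.1) := by
      have := k1.1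
      have := k2.1
      have := k3.1
      have := k4.1
      omega
    rcases e3 with ⟨e3, e4⟩ | ⟨e3, e4⟩ <;> rw [e3, e4] at hno
    · exact hno _ (Red.r2p [] _ _ _ _)
    · exact hno _ (Red.r2a [] _ _ _ _)

end Pool.Agent.P.MP_9b2cf8_gt
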