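import Pool.Agent.P.MP_9b2cf8_gt.Br

namespace Pool.Agent.P.MP_9b2cf8_gt

theorem conn_fresh_gc {m : ℕ} {P : Multiset (Sym2 ℕ)} (h : ∀ e ∈ P, m ∉ e) {x y : ℕ}
    (hxy : conn P x y) : x = m ↔ y = m := by
  induction hxy with
  | rel x y hxy =>
    have := h _ hxy
    rw [Sym2.mem_iff, not_or] at this
    exact iff_of_false (Ne.symm this.1) (Ne.symm this.2)
  | refl x => rfl
  | symm x y _ ih => exact ih.symm
  | trans x y z _ _ ih ih' => exact ih.trans ih'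

theorem path_name_gc {R : ℕ → ℕ → Prop} {t : ℕ} {l l' : List Pass}
    (h : l.map Prod.snd = l'.map Prod.snd) {s : ℕ} (hp : Path R s l t) : Path R s l' t := by
  induction l generalizing l' s with
  | nil =>
    rw [List.map_nil, eq_comm, List.map_eq_nil_iff] at h
    rwa [h]
  | cons q l ih =>
    match l', h with
    | q' :: l', h =>
      rw [List.map_cons, List.map_cons, List.cons.injEq] at h
      exact ⟨h.1 ▸ hp.1, h.1 ▸ ih h.2 hp.2⟩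

theorem adj_gc {R : ℕ → ℕ → Prop} {n : ℕ} (hn : ∀ x y, R x y → (x = n ↔ y = n)) {t : ℕ}
    (ht : t ≠ n) {l : List Pass} {s : ℕ} (hs : s ≠ n) (hp : Path R s l t)
    (hl : ∃ q ∈ l, n ∈ (tag q).2) :
    ∃ x y q q', l = x ++ q :: q' :: y ∧ n ∈ (tag q).2 ∧ n ∈ (tag q').2 := by
  induction l generalizing s with
  | nil => simp at hl
  | cons q l ih =>
    have h1 : q.2.1 ≠ n := fun h => hs ((hn _ _ hp.1).2 h)
    by_cases h2 : q.2.2 = n
    · match l, hp with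
      | [], hp => exact absurd ((hn _ _ hp.2).1 h2) ht
      | q' :: l, hp =>
        exact ⟨[], l, q, q', rfl, by simp [tag, h2], by simp [tag, (hn _ _ hp.2.1).1 h2]⟩
    · obtain ⟨r, hr, hr'⟩ := hl
      rcases List.mem_cons.1 hr with rfl | hr
      · simp [tag, Ne.symm h1, Ne.symm h2] at hr'
      · obtain ⟨x, y, a, b, rfl, h⟩ := ih h2 hp.2 ⟨r, hr, hr'⟩
        exact ⟨q :: x, y, a, b, rfl, h⟩

theorem pair_gc {α : Type} {a b c d : α} (h : ({a, b} : Multiset α) = {c, d}) :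
    a = c ∧ b = d ∨ a = d ∧ b = c := by
  have h' : a ::ₘ ({b} : Multiset α) = c ::ₘ {d} := h
  rcases Multiset.cons_eq_cons.1 h' with ⟨h1, h2⟩ | ⟨-, cs, h1, h2⟩
  · exact Or.inl ⟨h1, Multiset.singleton_inj.1 h2⟩
  · exact Or.inr ⟨(Multiset.singleton_eq_cons_iff _).1 h2 |>.1.symm,
      (Multiset.singleton_eq_cons_iff _).1 h1 |>.1⟩

/-- the multiset of tags -/
def tg_gc (l : List Pass) : Multiset (ℕ × Sym2 ℕ) := (l.map tag : List (ℕ × Sym2 ℕ))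

theorem tg_mid_gc (x y : List Pass) (q q' : Pass) :
    tg_gc (x ++ q :: q' :: y) = {tag q, tag q'} + tg_gc (x ++ y) := by
  refine Eq.trans (Multiset.coe_eq_coe.2 (List.Perm.map tag
    (List.perm_middle.trans (List.perm_middle.cons q)))) ?_
  rfl

theorem mem_tg_gc {l : List Pass} {t : ℕ × Sym2 ℕ} (h : t ∈ tg_gc l) : ∃ q ∈ l, tag q = t :=
  List.mem_map.1 (Multiset.mem_coe.1 h)

theorem swap_gc {m u w : ℕ} {α β : Sym2 ℕ} {M : Multiset (ℕ × Sym2 ℕ)} (hM : ∀ t ∈ M, m ∉ t.2)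
    {x y : List Pass} {q q' : Pass} (hq : m ∈ (tag q).2) (hq' : m ∈ (tag q').2)
    (h : tg_gc (x ++ q :: q' :: y) = {(u, α), (w, β)} + M) :
    s(q.1, q'.1) = s(u, w) ∧ tg_gc (x ++ y) = M ∧
      ({tag (q'.1, q.2), tag (q.1, q'.2)} : Multiset (ℕ × Sym2 ℕ)) = {(w, α), (u, β)} ∧
      ∀ k, k ∉ α → k ∉ β → q.2.1 ≠ k ∧ q'.2.2 ≠ k ∧ k ∉ (tag q).2 ∧ k ∉ (tag q').2 := by
  classical
  rw [tg_mid_gc] at h
  have h1 : ({tag q, tag q'} : Multiset (ℕ × Sym2 ℕ)) = {(u, α), (w, β)} := by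
    refine Multiset.eq_of_le_of_card_le ?_ (by simp)
    have h2 := congrArg (Multiset.filter fun t : ℕ × Sym2 ℕ => m ∈ t.2) h
    rw [Multiset.filter_add, Multiset.filter_add, Multiset.filter_eq_nil.2 hM, add_zero,
      Multiset.filter_eq_self.2 (by simp [hq, hq'])] at h2
    exact ((Multiset.le_add_right _ _).trans h2.le).trans (Multiset.filter_le _ _)
  rw [h1] at h
  obtain ⟨a, i, o⟩ := q
  obtain ⟨a', i', o'⟩ := q'
  refine ⟨?_, add_left_cancel h, ?_⟩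
  all_goals
    simp only [tag] at h1 ⊢
    rcases pair_gc h1 with ⟨h2, h3⟩ | ⟨h2, h3⟩ <;> obtain ⟨rfl, rfl⟩ := Prod.mk.inj h2 <;>
      obtain ⟨rfl, rfl⟩ := Prod.mk.inj h3
  · rfl
  · exact Sym2.eq_swap
  · refine ⟨rfl, fun k h4 h5 => ⟨?_, ?_, h4, h5⟩⟩
    · rintro rfl
      simp at h4
    · rintro rfl
      simp at h5
  · refine ⟨Multiset.pair_comm _ _, fun k h4 h5 => ⟨?_, ?_, h5, h4⟩⟩
    · rintro rfl
      simp at h5
    · rintro rfl
      simp at h4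

theorem fin_gc {R : ℕ → ℕ → Prop} {u v w s : ℕ} (huv : u ≠ v) (hvw : v ≠ w) (hwu : w ≠ u)
    {x y z : List Pass} {a a' b b' c c' : Pass}
    (h : ({s(a.1, a'.1), s(b.1, b'.1), s(c.1, c'.1)} : Multiset (Sym2 ℕ)) =
      {s(u, v), s(v, w), s(w, u)})
    (hp : Path R s (a :: a' :: (x ++ b :: b' :: (y ++ c :: c' :: z))) s) :
    ∃ l, tg_gc l = {tag (a'.1, a.2), tag (a.1, a'.2)} + ({tag (b'.1, b.2), tag (b.1, b'.2)} +
        ({tag (c'.1, c.2), tag (c.1, c'.2)} + tg_gc (x ++ y ++ z))) ∧ Path R s l s ∧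
      FE (l.map Prod.fst) ((a :: a' :: (x ++ b :: b' :: (y ++ c :: c' :: z))).map Prod.fst) := by
  refine ⟨(a'.1, a.2) :: (a.1, a'.2) :: (x ++ (b'.1, b.2) :: (b.1, b'.2) ::
    (y ++ (c'.1, c.2) :: (c.1, c'.2) :: z)), ?_, path_name_gc (by simp) hp, ?_⟩
  · rw [← tg_mid_gc (x ++ y), List.append_assoc, ← tg_mid_gc x]
    exact tg_mid_gc [] _ _ _
  · have := flat_symm (Flat.r3 [] (x.map Prod.fst) (y.map Prod.fst) (z.map Prod.fst) a.1 a'.1
      b.1 b'.1 c.1 c'.1 u v w huv hvw hwu h)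
    simpa using this

theorem core_gc {R : ℕ → ℕ → Prop} (hR : Equivalence R) {m n p u v w s : ℕ}
    (hm : ∀ x y, R x y → (x = m ↔ y = m)) (hn : ∀ x y, R x y → (x = n ↔ y = n))
    (hp : ∀ x y, R x y → (x = p ↔ y = p)) (huv : u ≠ v) (hvw : v ≠ w) (hwu : w ≠ u)
    {α α' β β' γ γ' : Sym2 ℕ} (a1 : m ∈ α) (a2 : n ∈ β) (a3 : p ∈ γ)
    (b1 : m ∉ β ∧ m ∉ β' ∧ m ∉ γ ∧ m ∉ γ') (b2 : n ∉ α ∧ n ∉ α' ∧ n ∉ γ ∧ n ∉ γ')
    (b3 : p ∉ α ∧ p ∉ α' ∧ p ∉ β ∧ p ∉ β') {M : Multiset (ℕ × Sym2 ℕ)}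
    (hM : ∀ t ∈ M, m ∉ t.2 ∧ n ∉ t.2 ∧ p ∉ t.2) {l : List Pass}
    (hl : tg_gc l = {(u, α), (w, α')} + ({(u, β), (v, β')} + ({(w, γ), (v, γ')} + M)))
    (hs : Path R s l s) :
    ∃ l' s', tg_gc l' = {(w, α), (u, α')} + ({(v, β), (u, β')} + ({(v, γ), (w, γ')} + M)) ∧
      Path R s' l' s' ∧ FE (l'.map Prod.fst) (l.map Prod.fst) := by
  have rot : ∀ x y : List Pass, tg_gc (y ++ x) = tg_gc (x ++ y) := fun x y =>
    Multiset.coe_eq_coe.2 (List.perm_append_comm.map tag)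
  have rof : ∀ x y : List Pass, FE ((y ++ x).map Prod.fst) ((x ++ y).map Prod.fst) := fun x y => by
    rw [List.map_append, List.map_append]
    exact fe_rotate _ _
  obtain ⟨q, hq, hq'⟩ := mem_tg_gc (l := l) (t := (u, β)) (by simp [hl])
  obtain ⟨l₁, l₂, rfl⟩ := List.append_of_mem hq
  have hq1 : q.2.1 ≠ m := by
    rintro rfl
    exact b1.1 ((Prod.mk.inj hq').2 ▸ Sym2.mem_mk_left _ _)
  obtain ⟨r, hr⟩ := path_rotate hR hs
  have f1 := rof l₁ (q :: l₂)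
  rw [← rot] at hl
  have hr1 : Path R q.2.1 (q :: l₂ ++ l₁) q.2.1 :=
    path_right hR hr.1 (path_left hR (hR.symm hr.1) hr)
  obtain ⟨x₀, y₀, a, a', e, ha, ha'⟩ := adj_gc hm hq1 hq1 hr1 (by
    obtain ⟨t, ht, ht'⟩ := mem_tg_gc (l := q :: l₂ ++ l₁) (t := (u, α)) (by rw [hl]; simp)
    exact ⟨t, ht, ht' ▸ a1⟩)
  rw [e] at hl hr1 f1
  obtain ⟨s', hs'⟩ := path_rotate hR hr1
  have f2 := fe_trans (rof x₀ (a :: a' :: y₀)) f1
  rw [← rot] at hl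
  simp only [List.cons_append] at hl hs' f2
  generalize y₀ ++ x₀ = z at hl hs' f2
  generalize (l₁ ++ q :: l₂).map Prod.fst = W at f2 ⊢
  obtain ⟨c1, c2, c3, c4⟩ := swap_gc (x := []) (fun t ht => by
    simp only [Multiset.mem_add, Multiset.insert_eq_cons, Multiset.mem_cons,
      Multiset.mem_singleton] at ht
    rcases ht with (rfl | rfl) | (rfl | rfl) | ht
    exacts [b1.1, b1.2.1, b1.2.2.1, b1.2.2.2, (hM t ht).1]) ha ha' hl
  rw [List.nil_append] at c2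
  have hz : Path R a'.2.2 z a.2.1 := path_right hR hs'.1 hs'.2.2
  obtain ⟨x, y, b, b', rfl, hb, hb'⟩ := adj_gc hn (c4 n b2.1 b2.2.1).1 (c4 n b2.1 b2.2.1).2.1 hz (by
    obtain ⟨t, ht, ht'⟩ := mem_tg_gc (l := z) (t := (u, β)) (by simp [c2])
    exact ⟨t, ht, ht' ▸ a2⟩)
  obtain ⟨d1, d2, d3, d4⟩ := swap_gc (fun t ht => by
    simp only [Multiset.mem_add, Multiset.insert_eq_cons, Multiset.mem_cons,
      Multiset.mem_singleton] at ht
    rcases ht with (rfl | rfl) | ht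
    exacts [b2.2.2.1, b2.2.2.2, (hM t ht).2.1]) hb hb' c2
  obtain ⟨hx, -, hy⟩ := path_mid.1 hz
  obtain ⟨t, ht, ht'⟩ := mem_tg_gc (l := x ++ y) (t := (w, γ)) (by simp [d2])
  rcases List.mem_append.1 ht with ht | ht
  · obtain ⟨x₁, x₂, c, c', rfl, hc, hc'⟩ := adj_gc hp (d4 p b3.2.2.1 b3.2.2.2).1
      (c4 p b3.1 b3.2.1).2.1 hx ⟨t, ht, ht' ▸ a3⟩
    simp only [List.append_assoc, List.cons_append] at d2 hs' f2
    obtain ⟨e1, e2, e3, -⟩ := swap_gc (fun t ht => (hM t ht).2.2) hc hc' d2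
    obtain ⟨l', g1, g2, g3⟩ := fin_gc huv hvw hwu (by
      rw [c1, e1, d1, Sym2.eq_swap (a := u) (b := w), Sym2.eq_swap (a := w) (b := v)]
      simp only [Multiset.insert_eq_cons, ← Multiset.singleton_add]
      abel) hs'
    refine ⟨l', s', ?_, g2, fe_trans g3 f2⟩
    rw [g1, c3, d3, e3, List.append_assoc, e2]
    abel
  · obtain ⟨y₁, y₂, c, c', rfl, hc, hc'⟩ := adj_gc hp (c4 p b3.1 b3.2.1).1
      (d4 p b3.2.2.1 b3.2.2.2).2.1 hy ⟨t, ht, ht' ▸ a3⟩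
    rw [← List.append_assoc] at d2
    obtain ⟨e1, e2, e3, -⟩ := swap_gc (fun t ht => (hM t ht).2.2) hc hc' d2
    obtain ⟨l', g1, g2, g3⟩ := fin_gc huv hvw hwu (by
      rw [c1, e1, d1, Sym2.eq_swap (a := u) (b := w), Sym2.eq_swap (a := w) (b := v)]
      simp only [Multiset.insert_eq_cons, ← Multiset.singleton_add]
      abel) hs'
    refine ⟨l', s', ?_, g2, fe_trans g3 f2⟩
    rw [g1, c3, d3, e3, e2]

theorem map_cons_gc {N : Multiset (ℕ × Cr)} {c : Cr} {K : Multiset Cr}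
    (h : N.map Prod.snd = c ::ₘ K) : ∃ u N', N = (u, c) ::ₘ N' ∧ N'.map Prod.snd = K := by
  classical
  obtain ⟨⟨u, c'⟩, h1, rfl, h3⟩ := (Multiset.map_eq_cons Prod.snd N K c).2 h
  exact ⟨u, _, (Multiset.cons_erase h1).symm, h3⟩

theorem good_r3 {F : List ℕ} {a b c d e f m n p : ℕ} {K : Multiset Cr} {P : Multiset (Sym2 ℕ)}
    (hm : Av m K P) (hn : Av n K P) (hp : Av p K P) (hmn : m ≠ n) (hmp : m ≠ p) (hnp : n ≠ p)
    (hm' : m ∉ [a, b, c, d, e, f]) (hn' : n ∉ [a, b, c, d, e, f]) (hp' : p ∉ [a, b, c, d, e, f])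
    (h : Good F ((a, b, m, n) ::ₘ (m, c, d, p) ::ₘ (n, p, e, f) ::ₘ K) P) :
    Good F ((m, n, d, e) ::ₘ (a, p, m, f) ::ₘ (b, c, n, p) ::ₘ K) P := by
  obtain ⟨N, l, s, h1, h2, h3, h4, h5⟩ := h
  obtain ⟨u, N₁, rfl, h6⟩ := map_cons_gc h1
  obtain ⟨w, N₂, rfl, h7⟩ := map_cons_gc h6
  obtain ⟨v, N₃, rfl, rfl⟩ := map_cons_gc h7
  have hav : ∀ k, Av k (N₃.map Prod.snd) P → ∀ t ∈ N₃.bind passes, k ∉ t.2 := by
    intro k hk t ht
    obtain ⟨⟨x, y1, y2, y3, y4⟩, hx, ht⟩ := Multiset.mem_bind.1 ht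
    have := not_mem_legs.1 (hk.1 _ (Multiset.mem_map_of_mem Prod.snd hx))
    simp only [passes, Multiset.insert_eq_cons, Multiset.mem_cons, Multiset.mem_singleton] at ht
    rcases ht with rfl | rfl <;> simp [this]
  have h8 := h2
  simp only [Multiset.map_cons, Multiset.nodup_cons, Multiset.mem_cons, not_or] at h8
  simp only [List.mem_cons, List.not_mem_nil, or_false, not_or] at hm' hn' hp'
  obtain ⟨l', s', g1, g2, g3⟩ := core_gc (conn_equiv P) (fun _ _ => conn_fresh_gc hm.2)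
    (fun _ _ => conn_fresh_gc hn.2) (fun _ _ => conn_fresh_gc hp.2) (u := u) (v := v) (w := w)
    h8.1.2.1 (Ne.symm h8.2.1.1) (Ne.symm h8.1.1) (α := s(a, m)) (α' := s(m, d)) (β := s(b, n))
    (β' := s(n, e)) (γ := s(c, p)) (γ' := s(p, f)) (by simp) (by simp) (by simp)
    (by simp [hm', hmn, hmp]) (by simp [hn', hmn.symm, hnp]) (by simp [hp', hmp.symm, hnp.symm])
    (fun t ht => ⟨hav m hm t ht, hav n hn t ht, hav p hp t ht⟩) (l := l) (by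
      rw [tg_gc, h3, Multiset.cons_bind, Multiset.cons_bind, Multiset.cons_bind]
      simp only [passes, Multiset.insert_eq_cons, ← Multiset.singleton_add]
      abel) h4
  refine ⟨(u, m, n, d, e) ::ₘ (w, a, p, m, f) ::ₘ (v, b, c, n, p) ::ₘ N₃, l', s', by simp,
    by simpa using h2, g1.trans ?_, g2, fe_trans g3 h5⟩
  rw [Multiset.cons_bind, Multiset.cons_bind, Multiset.cons_bind]
  simp only [passes, Multiset.insert_eq_cons, ← Multiset.singleton_add]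
  abel

end Pool.Agent.P.MP_9b2cf8_gt
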