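import Pool.Agent.P.MP_9b2cf8_gt.TR

/-! Local invariance of the bracket (split form: inner labels joined by arcs). -/

namespace Pool.Agent.P.MP_9b2cf8_gt

def sl (x₁ x₂ x₃ x₄ : ℕ) : Bool → ℕ × ℕ
  | false => (x₁, x₂)
  | true => (x₃, x₄)

def cr2 (p q : ℕ × ℕ) : Cr := (p.1, q.1, p.2, q.2)

theorem br_addK {R : Type} [CommSemiring R] (φ : Fn R) (c : Cr) (l : List (Cr × R × R × R))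
    (K : Multiset Cr) (P : Multiset (Sym2 ℕ)) :
    br φ l (c ::ₘ K) P = br (fun K P => φ (c ::ₘ K) P) l K P := by
  induction l generalizing K P with
  | nil => rfl
  | cons e l ih => simp only [br_cons, T, Multiset.cons_swap e.1 c, ih]

theorem br_local {φ : Fn ℂ} (I : List ℕ) (L L' : List (Cr × ℂ × ℂ × ℂ)) (Q Q' : Multiset (Sym2 ℕ))
    (h : ∀ K P, (∀ m ∈ I, Av m K P) → br φ L K (Q + P) = br φ L' K (Q' + P))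
    (l : List (Cr × ℂ × ℂ × ℂ)) (hl : ∀ m ∈ I, AvL m l) (K : Multiset Cr) (P : Multiset (Sym2 ℕ))
    (hK : ∀ m ∈ I, Av m K P) : br φ (L ++ l) K (Q + P) = br φ (L' ++ l) K (Q' + P) := by
  rw [br_perm φ List.perm_append_comm, br_perm φ (l₁ := L' ++ l) List.perm_append_comm, br_append,
    br_append, br_addP, br_addP]
  exact br_congr I h l hl K P hK

theorem br_sw {g : Fn ℂ} (hg : DF g) (a b c d : ℕ) (A : ℂ) (l : List (Cr × ℂ × ℂ × ℂ)) :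
    br g (lab (a, b, c, d) A :: l) = br g (lab (b, a, d, c) A :: l) :=
  T_sw (sy_br hg.sy l) a b c d _ _ _

theorem br_fl {g : Fn ℂ} (hg : DF g) (a b c d : ℕ) {A : ℂ} (hA : A ≠ 0)
    (l : List (Cr × ℂ × ℂ × ℂ)) (K : Multiset Cr) (P : Multiset (Sym2 ℕ)) :
    br g (lab (a, b, c, d) A :: l) K P = -A * br g (lab (a, d, c, b) A⁻¹ :: l) K P :=
  T_fl (sy_br hg.sy l) a b c d hA K P

theorem br_swap (g : Fn ℂ) (e e' : Cr × ℂ × ℂ × ℂ) (l : List (Cr × ℂ × ℂ × ℂ)) :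
    br g (e :: e' :: l) = br g (e' :: e :: l) := br_perm g (List.Perm.swap _ _ _)

theorem br_rot3 (g : Fn ℂ) (e e' e'' : Cr × ℂ × ℂ × ℂ) (l : List (Cr × ℂ × ℂ × ℂ)) :
    br g (e :: e' :: e'' :: l) = br g (e' :: e'' :: e :: l) :=
  br_perm g ((List.Perm.swap _ _ _).trans (List.Perm.cons _ (List.Perm.swap _ _ _)))

theorem br_abs1 {g : Fn ℂ} (hg : DF g) {a b c d m : ℕ} (A : ℂ) {l : List (Cr × ℂ × ℂ × ℂ)}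
    {P : Multiset (Sym2 ℕ)} (hl : AvL m l) (hm : Av m 0 P) (ha : m ≠ a) (hb : m ≠ b) (hc : m ≠ c)
    (hd : m ≠ d) :
    br g (lab (m, b, c, d) A :: l) 0 (s(a, m) ::ₘ P) = br g (lab (a, b, c, d) A :: l) 0 P := by
  have := br_local (φ := g) [m] [lab (m, b, c, d) A] [lab (a, b, c, d) A] {s(a, m)} 0
    (fun K P hK => by
      simpa only [br, lab, Multiset.singleton_add, zero_add] using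
        T_abs hg (A - 1) 1 (-A) (hK m (by simp)) ha hb hc hd) l (by simpa using hl) 0 P
    (by simpa using hm)
  simpa using this

theorem br_abs2 {g : Fn ℂ} (hg : DF g) {a b c d m : ℕ} (A : ℂ) {l : List (Cr × ℂ × ℂ × ℂ)}
    {P : Multiset (Sym2 ℕ)} (hl : AvL m l) (hm : Av m 0 P) (ha : m ≠ a) (hb : m ≠ b) (hc : m ≠ c)
    (hd : m ≠ d) :
    br g (lab (b, m, c, d) A :: l) 0 (s(a, m) ::ₘ P) = br g (lab (b, a, c, d) A :: l) 0 P := by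
  rw [br_sw hg, br_abs1 hg A hl hm ha hb hd hc, br_sw hg]

theorem avL_cons {m : ℕ} {c : Cr} {A : ℂ} {l : List (Cr × ℂ × ℂ × ℂ)} :
    AvL m (lab c A :: l) ↔ m ∉ legs c ∧ AvL m l := by
  simp [AvL, lab]

theorem brT2 {g : Fn ℂ} (hg : DF g) {a b c d m n : ℕ} {A B : ℂ} (hAB : A * B = 1)
    {l : List (Cr × ℂ × ℂ × ℂ)} {P : Multiset (Sym2 ℕ)} (H : Fr2 a b c d m n 0 P) (hm : AvL m l)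
    (hn : AvL n l) :
    br g (lab (a, b, m, n) A :: lab (m, n, c, d) B :: l) 0 P =
      br g l 0 (s(a, c) ::ₘ s(b, d) ::ₘ P) := by
  have := br_local (φ := g) [m, n] [lab (a, b, m, n) A, lab (m, n, c, d) B] [] 0
    (s(a, c) ::ₘ {s(b, d)}) (fun K P hK => by
      simpa only [br, lab, Multiset.singleton_add, Multiset.cons_add, zero_add] using
        TR2 hg { H with vm := hK m (by simp), vn := hK n (by simp) } hAB) l (by simp [hm, hn]) 0 P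
    (by simp [H.vm, H.vn])
  simpa using this

theorem brT3 {g : Fn ℂ} (hg : DF g) {a b c d e f m n p : ℕ} {A B C : ℂ} (hC : C = A * B)
    {l : List (Cr × ℂ × ℂ × ℂ)} {P : Multiset (Sym2 ℕ)} (H : Fr3 a b c d e f m n p 0 P)
    (hm : AvL m l) (hn : AvL n l) (hp : AvL p l) :
    br g (lab (a, b, m, n) A :: lab (m, c, d, p) C :: lab (n, p, e, f) B :: l) 0 P =
      br g (lab (m, n, d, e) A :: lab (a, p, m, f) C :: lab (b, c, n, p) B :: l) 0 P := by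
  subst hC
  have := br_local (φ := g) [m, n, p]
    [lab (a, b, m, n) A, lab (m, c, d, p) (A * B), lab (n, p, e, f) B]
    [lab (m, n, d, e) A, lab (a, p, m, f) (A * B), lab (b, c, n, p) B] 0 0 (fun K P hK => by
      simpa only [br, lab, zero_add] using
        TR3 hg { H with vm := hK m (by simp), vn := hK n (by simp), vp := hK p (by simp) } A B) l
    (by simp [hm, hn, hp]) 0 P (by simp [H.vm, H.vn, H.vp])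
  simpa using this

theorem brR1 {g : Fn ℂ} (hg : DF g) (l : List (Cr × ℂ × ℂ × ℂ)) (P : Multiset (Sym2 ℕ))
    (i₁ i₂ o₁ o₂ : ℕ) (hne : o₁ ≠ i₂)
    (hfr : ∀ m ∈ [o₁, i₂], m ∉ [i₁, o₂] ∧ AvL m l ∧ Av m 0 P) :
    br g (lab (i₁, i₂, o₁, o₂) 1 :: l) 0 (s(o₁, i₂) ::ₘ P) = br g l 0 (s(i₁, o₂) ::ₘ P) := by
  simp only [List.mem_cons, List.not_mem_nil, or_false, forall_eq_or_imp, forall_eq, not_or] at hfr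
  obtain ⟨⟨⟨h1, h2⟩, h3, h4⟩, ⟨h5, h6⟩, h7, h8⟩ := hfr
  have e : br g (lab (i₁, i₂, o₁, o₂) 1 :: l) 0 (s(o₁, i₂) ::ₘ P) =
      br g (lab (i₁, o₁, o₁, o₂) 1 :: l) 0 P :=
    br_abs2 hg 1 h7 h8 hne.symm h5 hne.symm h6
  rw [e]
  have := br_local (φ := g) [o₁] [lab (i₁, o₁, o₁, o₂) 1] [] 0 {s(i₁, o₂)} (fun K P hK => by
    simpa only [br, lab, Multiset.singleton_add, zero_add] using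
      TR1 hg ⟨hK o₁ (by simp), h1, h2⟩) l (by simpa using h3) 0 P (by simpa using h4)
  simpa using this

theorem brR2p {g : Fn ℂ} (hg : DF g) (l : List (Cr × ℂ × ℂ × ℂ)) (P : Multiset (Sym2 ℕ))
    (i₁ i₂ o₁ o₂ j₁ j₂ q₁ q₂ : ℕ) {A B : ℂ} (hAB : A * B = 1) (hnd : [o₁, o₂, j₁, j₂].Nodup)
    (hfr : ∀ m ∈ [o₁, o₂, j₁, j₂], m ∉ [i₁, i₂, q₁, q₂] ∧ AvL m l ∧ Av m 0 P) :
    br g (lab (i₁, i₂, o₁, o₂) A :: lab (j₁, j₂, q₁, q₂) B :: l) 0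
        (s(o₁, j₁) ::ₘ s(o₂, j₂) ::ₘ P) = br g l 0 (s(i₁, q₁) ::ₘ s(i₂, q₂) ::ₘ P) := by
  simp only [List.mem_cons, List.not_mem_nil, or_false, forall_eq_or_imp, forall_eq, not_or,
    List.nodup_cons, not_false_eq_true, List.nodup_nil, and_true] at hfr hnd
  obtain ⟨⟨⟨a1, a2, a3, a4⟩, a5, a6⟩, ⟨⟨b1, b2, b3, b4⟩, b5, b6⟩, ⟨⟨c1, c2, c3, c4⟩, c5, c6⟩,
    ⟨d1, d2, d3, d4⟩, d5, d6⟩ := hfr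
  obtain ⟨⟨n1, n2, n3⟩, ⟨n4, n5⟩, n6⟩ := hnd
  rw [br_swap, br_abs1 hg B (avL_cons.2 ⟨not_mem_legs.2 ⟨c1, c2, Ne.symm n2, Ne.symm n4⟩, c5⟩)
    (av_consP.2 ⟨Ne.symm n4, n6, c6⟩) (Ne.symm n2) n6 c3 c4,
    br_abs2 hg B (avL_cons.2 ⟨not_mem_legs.2 ⟨d1, d2, Ne.symm n3, Ne.symm n5⟩, d5⟩) d6
    (Ne.symm n5) (Ne.symm n3) d3 d4, br_swap]
  exact brT2 hg hAB ⟨a6, b6, n1, a1, a2, a3, a4, b1, b2, b3, b4⟩ a5 b5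

theorem brR2a {g : Fn ℂ} (hg : DF g) (l : List (Cr × ℂ × ℂ × ℂ)) (P : Multiset (Sym2 ℕ))
    (i₁ i₂ o₁ o₂ j₁ j₂ q₁ q₂ : ℕ) {A B : ℂ} (hAB : A * B = 1) (hnd : [o₁, j₁, q₂, i₂].Nodup)
    (hfr : ∀ m ∈ [o₁, j₁, q₂, i₂], m ∉ [i₁, q₁, j₂, o₂] ∧ AvL m l ∧ Av m 0 P) :
    br g (lab (i₁, i₂, o₁, o₂) A :: lab (j₁, j₂, q₁, q₂) B :: l) 0
        (s(o₁, j₁) ::ₘ s(q₂, i₂) ::ₘ P) = br g l 0 (s(i₁, q₁) ::ₘ s(j₂, o₂) ::ₘ P) := by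
  simp only [List.mem_cons, List.not_mem_nil, or_false, forall_eq_or_imp, forall_eq, not_or,
    List.nodup_cons, not_false_eq_true, List.nodup_nil, and_true] at hfr hnd
  obtain ⟨⟨⟨a1, a2, a3, a4⟩, a5, a6⟩, ⟨⟨c1, c2, c3, c4⟩, c5, c6⟩, ⟨⟨b1, b2, b3, b4⟩, b5, b6⟩,
    ⟨d1, d2, d3, d4⟩, d5, d6⟩ := hfr
  obtain ⟨⟨n1, n2, n3⟩, ⟨n4, n5⟩, n6⟩ := hnd
  have hA : A ≠ 0 := left_ne_zero_of_mul_eq_one hAB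
  have hB : B ≠ 0 := right_ne_zero_of_mul_eq_one hAB
  have hAB' : A⁻¹ * B⁻¹ = 1 := by rw [← mul_inv, hAB, inv_one]
  rw [br_swap, br_abs1 hg B (avL_cons.2 ⟨not_mem_legs.2 ⟨c1, n5, Ne.symm n1, c4⟩, c5⟩)
    (av_consP.2 ⟨n4, n5, c6⟩) (Ne.symm n1) c3 c2 n4, br_swap,
    br_abs2 hg A (avL_cons.2 ⟨not_mem_legs.2 ⟨Ne.symm n3, d3, d2, Ne.symm n6⟩, d5⟩) d6
    (Ne.symm n6) d1 (Ne.symm n3) d4, br_fl hg _ _ _ _ hA, br_swap, br_fl hg _ _ _ _ hB, br_swap,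
    brT2 hg hAB' ⟨a6, b6, n2, a1, a4, a2, a3, b1, b4, b2, b3⟩ a5 b5, Sym2.eq_swap (a := o₂)]
  linear_combination (br g l 0 (s(i₁, q₁) ::ₘ s(j₂, o₂) ::ₘ P)) * hAB

structure Fr6 (a₁ a₂ a₃ a₄ b₁ b₂ b₃ b₄ c₁ c₂ c₃ c₄ : ℕ) (l : List (Cr × ℂ × ℂ × ℂ))
    (P : Multiset (Sym2 ℕ)) : Prop where
  la2 : AvL a₂ l
  va2 : Av a₂ 0 P
  la3 : AvL a₃ l
  va3 : Av a₃ 0 P
  lb2 : AvL b₂ l
  vb2 : Av b₂ 0 P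
  lb3 : AvL b₃ l
  vb3 : Av b₃ 0 P
  lc2 : AvL c₂ l
  vc2 : Av c₂ 0 P
  lc3 : AvL c₃ l
  vc3 : Av c₃ 0 P
  a2a3 : a₂ ≠ a₃
  a2b2 : a₂ ≠ b₂
  a2b3 : a₂ ≠ b₃
  a2c2 : a₂ ≠ c₂
  a2c3 : a₂ ≠ c₃
  a2a1 : a₂ ≠ a₁
  a2a4 : a₂ ≠ a₄
  a2b1 : a₂ ≠ b₁
  a2b4 : a₂ ≠ b₄
  a2c1 : a₂ ≠ c₁
  a2c4 : a₂ ≠ c₄
  a3b2 : a₃ ≠ b₂
  a3b3 : a₃ ≠ b₃
  a3c2 : a₃ ≠ c₂
  a3c3 : a₃ ≠ c₃
  a3a1 : a₃ ≠ a₁
  a3a4 : a₃ ≠ a₄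
  a3b1 : a₃ ≠ b₁
  a3b4 : a₃ ≠ b₄
  a3c1 : a₃ ≠ c₁
  a3c4 : a₃ ≠ c₄
  b2b3 : b₂ ≠ b₃
  b2c2 : b₂ ≠ c₂
  b2c3 : b₂ ≠ c₃
  b2a1 : b₂ ≠ a₁
  b2a4 : b₂ ≠ a₄
  b2b1 : b₂ ≠ b₁
  b2b4 : b₂ ≠ b₄
  b2c1 : b₂ ≠ c₁
  b2c4 : b₂ ≠ c₄
  b3c2 : b₃ ≠ c₂
  b3c3 : b₃ ≠ c₃
  b3a1 : b₃ ≠ a₁
  b3a4 : b₃ ≠ a₄
  b3b1 : b₃ ≠ b₁
  b3b4 : b₃ ≠ b₄
  b3c1 : b₃ ≠ c₁
  b3c4 : b₃ ≠ c₄
  c2c3 : c₂ ≠ c₃
  c2a1 : c₂ ≠ a₁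
  c2a4 : c₂ ≠ a₄
  c2b1 : c₂ ≠ b₁
  c2b4 : c₂ ≠ b₄
  c2c1 : c₂ ≠ c₁
  c2c4 : c₂ ≠ c₄
  c3a1 : c₃ ≠ a₁
  c3a4 : c₃ ≠ a₄
  c3b1 : c₃ ≠ b₁
  c3b4 : c₃ ≠ b₄
  c3c1 : c₃ ≠ c₁
  c3c4 : c₃ ≠ c₄

theorem br_share {g : Fn ℂ} (hg : DF g) {l : List (Cr × ℂ × ℂ × ℂ)} {P : Multiset (Sym2 ℕ)}
    {a₁ a₂ a₃ a₄ b₁ b₂ b₃ b₄ c₁ c₂ c₃ c₄ : ℕ} (H : Fr6 a₁ a₂ a₃ a₄ b₁ b₂ b₃ b₄ c₁ c₂ c₃ c₄ l P)
    (α β γ : Bool) (A B C : ℂ) :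
    br g (lab (cr2 (sl a₁ a₂ a₃ a₄ α) (sl b₁ b₂ b₃ b₄ (!β))) A ::
        lab (cr2 (sl b₁ b₂ b₃ b₄ β) (sl c₁ c₂ c₃ c₄ (!γ))) B ::
        lab (cr2 (sl c₁ c₂ c₃ c₄ γ) (sl a₁ a₂ a₃ a₄ (!α))) C :: l) 0 (s(a₂, a₃) ::ₘ s(b₂, b₃) ::ₘ s(c₂, c₃) ::ₘ P) =
    br g (lab (cr2 (sl a₁ a₂ a₂ a₄ α) (sl b₁ b₂ b₂ b₄ (!β))) A ::
        lab (cr2 (sl b₁ b₂ b₂ b₄ β) (sl c₁ c₂ c₂ c₄ (!γ))) B ::
        lab (cr2 (sl c₁ c₂ c₂ c₄ γ) (sl a₁ a₂ a₂ a₄ (!α))) C :: l) 0 P := by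
  cases α <;> cases β <;> cases γ <;> simp only [sl, cr2, Bool.not_true, Bool.not_false]
  · calc br g (lab (a₁, b₃, a₂, b₄) A :: lab (b₁, c₃, b₂, c₄) B :: lab (c₁, a₃, c₂, a₄) C :: l) 0 (s(a₂, a₃) ::ₘ s(b₂, b₃) ::ₘ s(c₂, c₃) ::ₘ P)
      _ = br g (lab (b₁, c₃, b₂, c₄) B :: lab (c₁, a₃, c₂, a₄) C :: lab (a₁, b₃, a₂, b₄) A :: l) 0 (s(a₂, a₃) ::ₘ s(b₂, b₃) ::ₘ s(c₂, c₃) ::ₘ P) :=
        by rw [br_rot3]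
      _ = br g (lab (c₁, a₃, c₂, a₄) C :: lab (a₁, b₃, a₂, b₄) A :: lab (b₁, c₃, b₂, c₄) B :: l) 0 (s(a₂, a₃) ::ₘ s(b₂, b₃) ::ₘ s(c₂, c₃) ::ₘ P) :=
        by rw [br_rot3]
      _ = br g (lab (c₁, a₂, c₂, a₄) C :: lab (a₁, b₃, a₂, b₄) A :: lab (b₁, c₃, b₂, c₄) B :: l) 0 (s(b₂, b₃) ::ₘ s(c₂, c₃) ::ₘ P) :=
        br_abs2 hg _ (avL_cons.2 ⟨not_mem_legs.2 ⟨H.a3a1, H.a3b3, H.a2a3.symm, H.a3b4⟩, (avL_cons.2 ⟨not_mem_legs.2 ⟨H.a3b1, H.a3c3, H.a3b2, H.a3c4⟩, H.la3⟩)⟩) (av_consP.2 ⟨H.a3b2, H.a3b3, (av_consP.2 ⟨H.a3c2, H.a3c3, H.va3⟩)⟩) H.a2a3.symm H.a3c1 H.a3c2 H.a3a4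
      _ = br g (lab (a₁, b₃, a₂, b₄) A :: lab (b₁, c₃, b₂, c₄) B :: lab (c₁, a₂, c₂, a₄) C :: l) 0 (s(b₂, b₃) ::ₘ s(c₂, c₃) ::ₘ P) :=
        by rw [br_rot3]
      _ = br g (lab (a₁, b₂, a₂, b₄) A :: lab (b₁, c₃, b₂, c₄) B :: lab (c₁, a₂, c₂, a₄) C :: l) 0 (s(c₂, c₃) ::ₘ P) :=
        br_abs2 hg _ (avL_cons.2 ⟨not_mem_legs.2 ⟨H.b3b1, H.b3c3, H.b2b3.symm, H.b3c4⟩, (avL_cons.2 ⟨not_mem_legs.2 ⟨H.b3c1, H.a2b3.symm, H.b3c2, H.b3a4⟩, H.lb3⟩)⟩) (av_consP.2 ⟨H.b3c2, H.b3c3, H.vb3⟩) H.b2b3.symm H.b3a1 H.a2b3.symm H.b3b4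
      _ = br g (lab (b₁, c₃, b₂, c₄) B :: lab (c₁, a₂, c₂, a₄) C :: lab (a₁, b₂, a₂, b₄) A :: l) 0 (s(c₂, c₃) ::ₘ P) :=
        by rw [br_rot3]
      _ = br g (lab (b₁, c₂, b₂, c₄) B :: lab (c₁, a₂, c₂, a₄) C :: lab (a₁, b₂, a₂, b₄) A :: l) 0 P :=
        br_abs2 hg _ (avL_cons.2 ⟨not_mem_legs.2 ⟨H.c3c1, H.a2c3.symm, H.c2c3.symm, H.c3a4⟩, (avL_cons.2 ⟨not_mem_legs.2 ⟨H.c3a1, H.b2c3.symm, H.a2c3.symm, H.c3b4⟩, H.lc3⟩)⟩) H.vc3 H.c2c3.symm H.c3b1 H.b2c3.symm H.c3c4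
      _ = br g (lab (c₁, a₂, c₂, a₄) C :: lab (a₁, b₂, a₂, b₄) A :: lab (b₁, c₂, b₂, c₄) B :: l) 0 P :=
        by rw [br_rot3]
      _ = br g (lab (a₁, b₂, a₂, b₄) A :: lab (b₁, c₂, b₂, c₄) B :: lab (c₁, a₂, c₂, a₄) C :: l) 0 P :=
        by rw [br_rot3]
  · calc br g (lab (a₁, b₃, a₂, b₄) A :: lab (b₁, c₁, b₂, c₂) B :: lab (c₃, a₃, c₄, a₄) C :: l) 0 (s(a₂, a₃) ::ₘ s(b₂, b₃) ::ₘ s(c₂, c₃) ::ₘ P)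
      _ = br g (lab (b₁, c₁, b₂, c₂) B :: lab (c₃, a₃, c₄, a₄) C :: lab (a₁, b₃, a₂, b₄) A :: l) 0 (s(a₂, a₃) ::ₘ s(b₂, b₃) ::ₘ s(c₂, c₃) ::ₘ P) :=
        by rw [br_rot3]
      _ = br g (lab (c₃, a₃, c₄, a₄) C :: lab (a₁, b₃, a₂, b₄) A :: lab (b₁, c₁, b₂, c₂) B :: l) 0 (s(a₂, a₃) ::ₘ s(b₂, b₃) ::ₘ s(c₂, c₃) ::ₘ P) :=
        by rw [br_rot3]
      _ = br g (lab (c₃, a₂, c₄, a₄) C :: lab (a₁, b₃, a₂, b₄) A :: lab (b₁, c₁, b₂, c₂) B :: l) 0 (s(b₂, b₃) ::ₘ s(c₂, c₃) ::ₘ P) :=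
        br_abs2 hg _ (avL_cons.2 ⟨not_mem_legs.2 ⟨H.a3a1, H.a3b3, H.a2a3.symm, H.a3b4⟩, (avL_cons.2 ⟨not_mem_legs.2 ⟨H.a3b1, H.a3c1, H.a3b2, H.a3c2⟩, H.la3⟩)⟩) (av_consP.2 ⟨H.a3b2, H.a3b3, (av_consP.2 ⟨H.a3c2, H.a3c3, H.va3⟩)⟩) H.a2a3.symm H.a3c3 H.a3c4 H.a3a4
      _ = br g (lab (a₁, b₃, a₂, b₄) A :: lab (b₁, c₁, b₂, c₂) B :: lab (c₃, a₂, c₄, a₄) C :: l) 0 (s(b₂, b₃) ::ₘ s(c₂, c₃) ::ₘ P) :=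
        by rw [br_rot3]
      _ = br g (lab (a₁, b₂, a₂, b₄) A :: lab (b₁, c₁, b₂, c₂) B :: lab (c₃, a₂, c₄, a₄) C :: l) 0 (s(c₂, c₃) ::ₘ P) :=
        br_abs2 hg _ (avL_cons.2 ⟨not_mem_legs.2 ⟨H.b3b1, H.b3c1, H.b2b3.symm, H.b3c2⟩, (avL_cons.2 ⟨not_mem_legs.2 ⟨H.b3c3, H.a2b3.symm, H.b3c4, H.b3a4⟩, H.lb3⟩)⟩) (av_consP.2 ⟨H.b3c2, H.b3c3, H.vb3⟩) H.b2b3.symm H.b3a1 H.a2b3.symm H.b3b4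
      _ = br g (lab (b₁, c₁, b₂, c₂) B :: lab (c₃, a₂, c₄, a₄) C :: lab (a₁, b₂, a₂, b₄) A :: l) 0 (s(c₂, c₃) ::ₘ P) :=
        by rw [br_rot3]
      _ = br g (lab (c₃, a₂, c₄, a₄) C :: lab (a₁, b₂, a₂, b₄) A :: lab (b₁, c₁, b₂, c₂) B :: l) 0 (s(c₂, c₃) ::ₘ P) :=
        by rw [br_rot3]
      _ = br g (lab (c₂, a₂, c₄, a₄) C :: lab (a₁, b₂, a₂, b₄) A :: lab (b₁, c₁, b₂, c₂) B :: l) 0 P :=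
        br_abs1 hg _ (avL_cons.2 ⟨not_mem_legs.2 ⟨H.c3a1, H.b2c3.symm, H.a2c3.symm, H.c3b4⟩, (avL_cons.2 ⟨not_mem_legs.2 ⟨H.c3b1, H.c3c1, H.b2c3.symm, H.c2c3.symm⟩, H.lc3⟩)⟩) H.vc3 H.c2c3.symm H.a2c3.symm H.c3c4 H.c3a4
      _ = br g (lab (a₁, b₂, a₂, b₄) A :: lab (b₁, c₁, b₂, c₂) B :: lab (c₂, a₂, c₄, a₄) C :: l) 0 P :=
        by rw [br_rot3]
  · calc br g (lab (a₁, b₁, a₂, b₂) A :: lab (b₃, c₃, b₄, c₄) B :: lab (c₁, a₃, c₂, a₄) C :: l) 0 (s(a₂, a₃) ::ₘ s(b₂, b₃) ::ₘ s(c₂, c₃) ::ₘ P)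
      _ = br g (lab (b₃, c₃, b₄, c₄) B :: lab (c₁, a₃, c₂, a₄) C :: lab (a₁, b₁, a₂, b₂) A :: l) 0 (s(a₂, a₃) ::ₘ s(b₂, b₃) ::ₘ s(c₂, c₃) ::ₘ P) :=
        by rw [br_rot3]
      _ = br g (lab (c₁, a₃, c₂, a₄) C :: lab (a₁, b₁, a₂, b₂) A :: lab (b₃, c₃, b₄, c₄) B :: l) 0 (s(a₂, a₃) ::ₘ s(b₂, b₃) ::ₘ s(c₂, c₃) ::ₘ P) :=
        by rw [br_rot3]
      _ = br g (lab (c₁, a₂, c₂, a₄) C :: lab (a₁, b₁, a₂, b₂) A :: lab (b₃, c₃, b₄, c₄) B :: l) 0 (s(b₂, b₃) ::ₘ s(c₂, c₃) ::ₘ P) :=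
        br_abs2 hg _ (avL_cons.2 ⟨not_mem_legs.2 ⟨H.a3a1, H.a3b1, H.a2a3.symm, H.a3b2⟩, (avL_cons.2 ⟨not_mem_legs.2 ⟨H.a3b3, H.a3c3, H.a3b4, H.a3c4⟩, H.la3⟩)⟩) (av_consP.2 ⟨H.a3b2, H.a3b3, (av_consP.2 ⟨H.a3c2, H.a3c3, H.va3⟩)⟩) H.a2a3.symm H.a3c1 H.a3c2 H.a3a4
      _ = br g (lab (a₁, b₁, a₂, b₂) A :: lab (b₃, c₃, b₄, c₄) B :: lab (c₁, a₂, c₂, a₄) C :: l) 0 (s(b₂, b₃) ::ₘ s(c₂, c₃) ::ₘ P) :=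
        by rw [br_rot3]
      _ = br g (lab (b₃, c₃, b₄, c₄) B :: lab (c₁, a₂, c₂, a₄) C :: lab (a₁, b₁, a₂, b₂) A :: l) 0 (s(b₂, b₃) ::ₘ s(c₂, c₃) ::ₘ P) :=
        by rw [br_rot3]
      _ = br g (lab (b₂, c₃, b₄, c₄) B :: lab (c₁, a₂, c₂, a₄) C :: lab (a₁, b₁, a₂, b₂) A :: l) 0 (s(c₂, c₃) ::ₘ P) :=
        br_abs1 hg _ (avL_cons.2 ⟨not_mem_legs.2 ⟨H.b3c1, H.a2b3.symm, H.b3c2, H.b3a4⟩, (avL_cons.2 ⟨not_mem_legs.2 ⟨H.b3a1, H.b3b1, H.a2b3.symm, H.b2b3.symm⟩, H.lb3⟩)⟩) (av_consP.2 ⟨H.b3c2, H.b3c3, H.vb3⟩) H.b2b3.symm H.b3c3 H.b3b4 H.b3c4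
      _ = br g (lab (b₂, c₂, b₄, c₄) B :: lab (c₁, a₂, c₂, a₄) C :: lab (a₁, b₁, a₂, b₂) A :: l) 0 P :=
        br_abs2 hg _ (avL_cons.2 ⟨not_mem_legs.2 ⟨H.c3c1, H.a2c3.symm, H.c2c3.symm, H.c3a4⟩, (avL_cons.2 ⟨not_mem_legs.2 ⟨H.c3a1, H.c3b1, H.a2c3.symm, H.b2c3.symm⟩, H.lc3⟩)⟩) H.vc3 H.c2c3.symm H.b2c3.symm H.c3b4 H.c3c4
      _ = br g (lab (c₁, a₂, c₂, a₄) C :: lab (a₁, b₁, a₂, b₂) A :: lab (b₂, c₂, b₄, c₄) B :: l) 0 P :=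
        by rw [br_rot3]
      _ = br g (lab (a₁, b₁, a₂, b₂) A :: lab (b₂, c₂, b₄, c₄) B :: lab (c₁, a₂, c₂, a₄) C :: l) 0 P :=
        by rw [br_rot3]
  · calc br g (lab (a₁, b₁, a₂, b₂) A :: lab (b₃, c₁, b₄, c₂) B :: lab (c₃, a₃, c₄, a₄) C :: l) 0 (s(a₂, a₃) ::ₘ s(b₂, b₃) ::ₘ s(c₂, c₃) ::ₘ P)
      _ = br g (lab (b₃, c₁, b₄, c₂) B :: lab (c₃, a₃, c₄, a₄) C :: lab (a₁, b₁, a₂, b₂) A :: l) 0 (s(a₂, a₃) ::ₘ s(b₂, b₃) ::ₘ s(c₂, c₃) ::ₘ P) :=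
        by rw [br_rot3]
      _ = br g (lab (c₃, a₃, c₄, a₄) C :: lab (a₁, b₁, a₂, b₂) A :: lab (b₃, c₁, b₄, c₂) B :: l) 0 (s(a₂, a₃) ::ₘ s(b₂, b₃) ::ₘ s(c₂, c₃) ::ₘ P) :=
        by rw [br_rot3]
      _ = br g (lab (c₃, a₂, c₄, a₄) C :: lab (a₁, b₁, a₂, b₂) A :: lab (b₃, c₁, b₄, c₂) B :: l) 0 (s(b₂, b₃) ::ₘ s(c₂, c₃) ::ₘ P) :=
        br_abs2 hg _ (avL_cons.2 ⟨not_mem_legs.2 ⟨H.a3a1, H.a3b1, H.a2a3.symm, H.a3b2⟩, (avL_cons.2 ⟨not_mem_legs.2 ⟨H.a3b3, H.a3c1, H.a3b4, H.a3c2⟩, H.la3⟩)⟩) (av_consP.2 ⟨H.a3b2, H.a3b3, (av_consP.2 ⟨H.a3c2, H.a3c3, H.va3⟩)⟩) H.a2a3.symm H.a3c3 H.a3c4 H.a3a4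
      _ = br g (lab (a₁, b₁, a₂, b₂) A :: lab (b₃, c₁, b₄, c₂) B :: lab (c₃, a₂, c₄, a₄) C :: l) 0 (s(b₂, b₃) ::ₘ s(c₂, c₃) ::ₘ P) :=
        by rw [br_rot3]
      _ = br g (lab (b₃, c₁, b₄, c₂) B :: lab (c₃, a₂, c₄, a₄) C :: lab (a₁, b₁, a₂, b₂) A :: l) 0 (s(b₂, b₃) ::ₘ s(c₂, c₃) ::ₘ P) :=
        by rw [br_rot3]
      _ = br g (lab (b₂, c₁, b₄, c₂) B :: lab (c₃, a₂, c₄, a₄) C :: lab (a₁, b₁, a₂, b₂) A :: l) 0 (s(c₂, c₃) ::ₘ P) :=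
        br_abs1 hg _ (avL_cons.2 ⟨not_mem_legs.2 ⟨H.b3c3, H.a2b3.symm, H.b3c4, H.b3a4⟩, (avL_cons.2 ⟨not_mem_legs.2 ⟨H.b3a1, H.b3b1, H.a2b3.symm, H.b2b3.symm⟩, H.lb3⟩)⟩) (av_consP.2 ⟨H.b3c2, H.b3c3, H.vb3⟩) H.b2b3.symm H.b3c1 H.b3b4 H.b3c2
      _ = br g (lab (c₃, a₂, c₄, a₄) C :: lab (a₁, b₁, a₂, b₂) A :: lab (b₂, c₁, b₄, c₂) B :: l) 0 (s(c₂, c₃) ::ₘ P) :=
        by rw [br_rot3]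
      _ = br g (lab (c₂, a₂, c₄, a₄) C :: lab (a₁, b₁, a₂, b₂) A :: lab (b₂, c₁, b₄, c₂) B :: l) 0 P :=
        br_abs1 hg _ (avL_cons.2 ⟨not_mem_legs.2 ⟨H.c3a1, H.c3b1, H.a2c3.symm, H.b2c3.symm⟩, (avL_cons.2 ⟨not_mem_legs.2 ⟨H.b2c3.symm, H.c3c1, H.c3b4, H.c2c3.symm⟩, H.lc3⟩)⟩) H.vc3 H.c2c3.symm H.a2c3.symm H.c3c4 H.c3a4
      _ = br g (lab (a₁, b₁, a₂, b₂) A :: lab (b₂, c₁, b₄, c₂) B :: lab (c₂, a₂, c₄, a₄) C :: l) 0 P :=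
        by rw [br_rot3]
  · calc br g (lab (a₃, b₃, a₄, b₄) A :: lab (b₁, c₃, b₂, c₄) B :: lab (c₁, a₁, c₂, a₂) C :: l) 0 (s(a₂, a₃) ::ₘ s(b₂, b₃) ::ₘ s(c₂, c₃) ::ₘ P)
      _ = br g (lab (a₂, b₃, a₄, b₄) A :: lab (b₁, c₃, b₂, c₄) B :: lab (c₁, a₁, c₂, a₂) C :: l) 0 (s(b₂, b₃) ::ₘ s(c₂, c₃) ::ₘ P) :=
        br_abs1 hg _ (avL_cons.2 ⟨not_mem_legs.2 ⟨H.a3b1, H.a3c3, H.a3b2, H.a3c4⟩, (avL_cons.2 ⟨not_mem_legs.2 ⟨H.a3c1, H.a3a1, H.a3c2, H.a2a3.symm⟩, H.la3⟩)⟩) (av_consP.2 ⟨H.a3b2, H.a3b3, (av_consP.2 ⟨H.a3c2, H.a3c3, H.va3⟩)⟩) H.a2a3.symm H.a3b3 H.a3a4 H.a3b4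
      _ = br g (lab (a₂, b₂, a₄, b₄) A :: lab (b₁, c₃, b₂, c₄) B :: lab (c₁, a₁, c₂, a₂) C :: l) 0 (s(c₂, c₃) ::ₘ P) :=
        br_abs2 hg _ (avL_cons.2 ⟨not_mem_legs.2 ⟨H.b3b1, H.b3c3, H.b2b3.symm, H.b3c4⟩, (avL_cons.2 ⟨not_mem_legs.2 ⟨H.b3c1, H.b3a1, H.b3c2, H.a2b3.symm⟩, H.lb3⟩)⟩) (av_consP.2 ⟨H.b3c2, H.b3c3, H.vb3⟩) H.b2b3.symm H.a2b3.symm H.b3a4 H.b3b4
      _ = br g (lab (b₁, c₃, b₂, c₄) B :: lab (c₁, a₁, c₂, a₂) C :: lab (a₂, b₂, a₄, b₄) A :: l) 0 (s(c₂, c₃) ::ₘ P) :=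
        by rw [br_rot3]
      _ = br g (lab (b₁, c₂, b₂, c₄) B :: lab (c₁, a₁, c₂, a₂) C :: lab (a₂, b₂, a₄, b₄) A :: l) 0 P :=
        br_abs2 hg _ (avL_cons.2 ⟨not_mem_legs.2 ⟨H.c3c1, H.c3a1, H.c2c3.symm, H.a2c3.symm⟩, (avL_cons.2 ⟨not_mem_legs.2 ⟨H.a2c3.symm, H.b2c3.symm, H.c3a4, H.c3b4⟩, H.lc3⟩)⟩) H.vc3 H.c2c3.symm H.c3b1 H.b2c3.symm H.c3c4
      _ = br g (lab (c₁, a₁, c₂, a₂) C :: lab (a₂, b₂, a₄, b₄) A :: lab (b₁, c₂, b₂, c₄) B :: l) 0 P :=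
        by rw [br_rot3]
      _ = br g (lab (a₂, b₂, a₄, b₄) A :: lab (b₁, c₂, b₂, c₄) B :: lab (c₁, a₁, c₂, a₂) C :: l) 0 P :=
        by rw [br_rot3]
  · calc br g (lab (a₃, b₃, a₄, b₄) A :: lab (b₁, c₁, b₂, c₂) B :: lab (c₃, a₁, c₄, a₂) C :: l) 0 (s(a₂, a₃) ::ₘ s(b₂, b₃) ::ₘ s(c₂, c₃) ::ₘ P)
      _ = br g (lab (a₂, b₃, a₄, b₄) A :: lab (b₁, c₁, b₂, c₂) B :: lab (c₃, a₁, c₄, a₂) C :: l) 0 (s(b₂, b₃) ::ₘ s(c₂, c₃) ::ₘ P) :=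
        br_abs1 hg _ (avL_cons.2 ⟨not_mem_legs.2 ⟨H.a3b1, H.a3c1, H.a3b2, H.a3c2⟩, (avL_cons.2 ⟨not_mem_legs.2 ⟨H.a3c3, H.a3a1, H.a3c4, H.a2a3.symm⟩, H.la3⟩)⟩) (av_consP.2 ⟨H.a3b2, H.a3b3, (av_consP.2 ⟨H.a3c2, H.a3c3, H.va3⟩)⟩) H.a2a3.symm H.a3b3 H.a3a4 H.a3b4
      _ = br g (lab (a₂, b₂, a₄, b₄) A :: lab (b₁, c₁, b₂, c₂) B :: lab (c₃, a₁, c₄, a₂) C :: l) 0 (s(c₂, c₃) ::ₘ P) :=
        br_abs2 hg _ (avL_cons.2 ⟨not_mem_legs.2 ⟨H.b3b1, H.b3c1, H.b2b3.symm, H.b3c2⟩, (avL_cons.2 ⟨not_mem_legs.2 ⟨H.b3c3, H.b3a1, H.b3c4, H.a2b3.symm⟩, H.lb3⟩)⟩) (av_consP.2 ⟨H.b3c2, H.b3c3, H.vb3⟩) H.b2b3.symm H.a2b3.symm H.b3a4 H.b3b4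
      _ = br g (lab (b₁, c₁, b₂, c₂) B :: lab (c₃, a₁, c₄, a₂) C :: lab (a₂, b₂, a₄, b₄) A :: l) 0 (s(c₂, c₃) ::ₘ P) :=
        by rw [br_rot3]
      _ = br g (lab (c₃, a₁, c₄, a₂) C :: lab (a₂, b₂, a₄, b₄) A :: lab (b₁, c₁, b₂, c₂) B :: l) 0 (s(c₂, c₃) ::ₘ P) :=
        by rw [br_rot3]
      _ = br g (lab (c₂, a₁, c₄, a₂) C :: lab (a₂, b₂, a₄, b₄) A :: lab (b₁, c₁, b₂, c₂) B :: l) 0 P :=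
        br_abs1 hg _ (avL_cons.2 ⟨not_mem_legs.2 ⟨H.a2c3.symm, H.b2c3.symm, H.c3a4, H.c3b4⟩, (avL_cons.2 ⟨not_mem_legs.2 ⟨H.c3b1, H.c3c1, H.b2c3.symm, H.c2c3.symm⟩, H.lc3⟩)⟩) H.vc3 H.c2c3.symm H.c3a1 H.c3c4 H.a2c3.symm
      _ = br g (lab (a₂, b₂, a₄, b₄) A :: lab (b₁, c₁, b₂, c₂) B :: lab (c₂, a₁, c₄, a₂) C :: l) 0 P :=
        by rw [br_rot3]
  · calc br g (lab (a₃, b₁, a₄, b₂) A :: lab (b₃, c₃, b₄, c₄) B :: lab (c₁, a₁, c₂, a₂) C :: l) 0 (s(a₂, a₃) ::ₘ s(b₂, b₃) ::ₘ s(c₂, c₃) ::ₘ P)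
      _ = br g (lab (a₂, b₁, a₄, b₂) A :: lab (b₃, c₃, b₄, c₄) B :: lab (c₁, a₁, c₂, a₂) C :: l) 0 (s(b₂, b₃) ::ₘ s(c₂, c₃) ::ₘ P) :=
        br_abs1 hg _ (avL_cons.2 ⟨not_mem_legs.2 ⟨H.a3b3, H.a3c3, H.a3b4, H.a3c4⟩, (avL_cons.2 ⟨not_mem_legs.2 ⟨H.a3c1, H.a3a1, H.a3c2, H.a2a3.symm⟩, H.la3⟩)⟩) (av_consP.2 ⟨H.a3b2, H.a3b3, (av_consP.2 ⟨H.a3c2, H.a3c3, H.va3⟩)⟩) H.a2a3.symm H.a3b1 H.a3a4 H.a3b2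
      _ = br g (lab (b₃, c₃, b₄, c₄) B :: lab (c₁, a₁, c₂, a₂) C :: lab (a₂, b₁, a₄, b₂) A :: l) 0 (s(b₂, b₃) ::ₘ s(c₂, c₃) ::ₘ P) :=
        by rw [br_rot3]
      _ = br g (lab (b₂, c₃, b₄, c₄) B :: lab (c₁, a₁, c₂, a₂) C :: lab (a₂, b₁, a₄, b₂) A :: l) 0 (s(c₂, c₃) ::ₘ P) :=
        br_abs1 hg _ (avL_cons.2 ⟨not_mem_legs.2 ⟨H.b3c1, H.b3a1, H.b3c2, H.a2b3.symm⟩, (avL_cons.2 ⟨not_mem_legs.2 ⟨H.a2b3.symm, H.b3b1, H.b3a4, H.b2b3.symm⟩, H.lb3⟩)⟩) (av_consP.2 ⟨H.b3c2, H.b3c3, H.vb3⟩) H.b2b3.symm H.b3c3 H.b3b4 H.b3c4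
      _ = br g (lab (b₂, c₂, b₄, c₄) B :: lab (c₁, a₁, c₂, a₂) C :: lab (a₂, b₁, a₄, b₂) A :: l) 0 P :=
        br_abs2 hg _ (avL_cons.2 ⟨not_mem_legs.2 ⟨H.c3c1, H.c3a1, H.c2c3.symm, H.a2c3.symm⟩, (avL_cons.2 ⟨not_mem_legs.2 ⟨H.a2c3.symm, H.c3b1, H.c3a4, H.b2c3.symm⟩, H.lc3⟩)⟩) H.vc3 H.c2c3.symm H.b2c3.symm H.c3b4 H.c3c4
      _ = br g (lab (c₁, a₁, c₂, a₂) C :: lab (a₂, b₁, a₄, b₂) A :: lab (b₂, c₂, b₄, c₄) B :: l) 0 P :=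
        by rw [br_rot3]
      _ = br g (lab (a₂, b₁, a₄, b₂) A :: lab (b₂, c₂, b₄, c₄) B :: lab (c₁, a₁, c₂, a₂) C :: l) 0 P :=
        by rw [br_rot3]
  · calc br g (lab (a₃, b₁, a₄, b₂) A :: lab (b₃, c₁, b₄, c₂) B :: lab (c₃, a₁, c₄, a₂) C :: l) 0 (s(a₂, a₃) ::ₘ s(b₂, b₃) ::ₘ s(c₂, c₃) ::ₘ P)
      _ = br g (lab (a₂, b₁, a₄, b₂) A :: lab (b₃, c₁, b₄, c₂) B :: lab (c₃, a₁, c₄, a₂) C :: l) 0 (s(b₂, b₃) ::ₘ s(c₂, c₃) ::ₘ P) :=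
        br_abs1 hg _ (avL_cons.2 ⟨not_mem_legs.2 ⟨H.a3b3, H.a3c1, H.a3b4, H.a3c2⟩, (avL_cons.2 ⟨not_mem_legs.2 ⟨H.a3c3, H.a3a1, H.a3c4, H.a2a3.symm⟩, H.la3⟩)⟩) (av_consP.2 ⟨H.a3b2, H.a3b3, (av_consP.2 ⟨H.a3c2, H.a3c3, H.va3⟩)⟩) H.a2a3.symm H.a3b1 H.a3a4 H.a3b2
      _ = br g (lab (b₃, c₁, b₄, c₂) B :: lab (c₃, a₁, c₄, a₂) C :: lab (a₂, b₁, a₄, b₂) A :: l) 0 (s(b₂, b₃) ::ₘ s(c₂, c₃) ::ₘ P) :=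
        by rw [br_rot3]
      _ = br g (lab (b₂, c₁, b₄, c₂) B :: lab (c₃, a₁, c₄, a₂) C :: lab (a₂, b₁, a₄, b₂) A :: l) 0 (s(c₂, c₃) ::ₘ P) :=
        br_abs1 hg _ (avL_cons.2 ⟨not_mem_legs.2 ⟨H.b3c3, H.b3a1, H.b3c4, H.a2b3.symm⟩, (avL_cons.2 ⟨not_mem_legs.2 ⟨H.a2b3.symm, H.b3b1, H.b3a4, H.b2b3.symm⟩, H.lb3⟩)⟩) (av_consP.2 ⟨H.b3c2, H.b3c3, H.vb3⟩) H.b2b3.symm H.b3c1 H.b3b4 H.b3c2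
      _ = br g (lab (c₃, a₁, c₄, a₂) C :: lab (a₂, b₁, a₄, b₂) A :: lab (b₂, c₁, b₄, c₂) B :: l) 0 (s(c₂, c₃) ::ₘ P) :=
        by rw [br_rot3]
      _ = br g (lab (c₂, a₁, c₄, a₂) C :: lab (a₂, b₁, a₄, b₂) A :: lab (b₂, c₁, b₄, c₂) B :: l) 0 P :=
        br_abs1 hg _ (avL_cons.2 ⟨not_mem_legs.2 ⟨H.a2c3.symm, H.c3b1, H.c3a4, H.b2c3.symm⟩, (avL_cons.2 ⟨not_mem_legs.2 ⟨H.b2c3.symm, H.c3c1, H.c3b4, H.c2c3.symm⟩, H.lc3⟩)⟩) H.vc3 H.c2c3.symm H.c3a1 H.c3c4 H.a2c3.symm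
      _ = br g (lab (a₂, b₁, a₄, b₂) A :: lab (b₂, c₁, b₄, c₂) B :: lab (c₂, a₁, c₄, a₂) C :: l) 0 P :=
        by rw [br_rot3]

theorem br_shared {g : Fn ℂ} (hg : DF g) {l : List (Cr × ℂ × ℂ × ℂ)} {P : Multiset (Sym2 ℕ)}
    {a₁ a₂ a₃ a₄ b₁ b₂ b₃ b₄ c₁ c₂ c₃ c₄ : ℕ} (H : Fr6 a₁ a₂ a₃ a₄ b₁ b₂ b₃ b₄ c₁ c₂ c₃ c₄ l P)
    (α β γ : Bool) (x y z : ZMod 4)
    (ht : (if α = β then -x else x) + (if β = γ then -y else y) + (if γ = α then -z else z) = 0) :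
    br g (lab (cr2 (sl a₁ a₂ a₂ a₄ α) (sl b₁ b₂ b₂ b₄ (!β))) (chi x) ::
        lab (cr2 (sl b₁ b₂ b₂ b₄ β) (sl c₁ c₂ c₂ c₄ (!γ))) (chi y) ::
        lab (cr2 (sl c₁ c₂ c₂ c₄ γ) (sl a₁ a₂ a₂ a₄ (!α))) (chi z) :: l) 0 P =
    br g (lab (cr2 (sl a₁ a₂ a₂ a₄ (!α)) (sl b₁ b₂ b₂ b₄ β)) (chi x) ::
        lab (cr2 (sl b₁ b₂ b₂ b₄ (!β)) (sl c₁ c₂ c₂ c₄ γ)) (chi y) ::
        lab (cr2 (sl c₁ c₂ c₂ c₄ (!γ)) (sl a₁ a₂ a₂ a₄ α)) (chi z) :: l) 0 P := by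
  cases α <;> cases β <;> cases γ <;>
    simp only [sl, cr2, Bool.not_true, Bool.not_false, if_true, Bool.false_eq_true, Bool.true_eq_false,
      if_false] at ht ⊢
  · have f1 : br g (lab (a₁, b₂, a₂, b₄) (chi x) :: lab (b₁, c₂, b₂, c₄) (chi y) :: lab (c₁, a₂, c₂, a₄) (chi z) :: l) 0 P = chi x * chi y * br g (lab (a₁, b₄, a₂, b₂) (chi x)⁻¹ :: lab (c₂, b₂, c₄, b₁) (chi y)⁻¹ :: lab (c₁, a₂, c₂, a₄) (chi z) :: l) 0 P := by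
      rw [br_fl hg _ _ _ _ (chi_ne_zero x), br_swap, br_sw hg, br_fl hg _ _ _ _ (chi_ne_zero y), br_swap]
      ring
    have f2 : br g (lab (a₂, b₁, a₄, b₂) (chi x) :: lab (b₂, c₁, b₄, c₂) (chi y) :: lab (c₂, a₁, c₄, a₂) (chi z) :: l) 0 P = chi x * chi y * br g (lab (a₂, b₂, a₄, b₁) (chi x)⁻¹ :: lab (c₁, b₄, c₂, b₂) (chi y)⁻¹ :: lab (c₂, a₁, c₄, a₂) (chi z) :: l) 0 P := by
      rw [br_fl hg _ _ _ _ (chi_ne_zero x), br_swap, br_sw hg, br_fl hg _ _ _ _ (chi_ne_zero y), br_swap]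
      ring
    rw [f1, f2]
    congr 1
    calc br g (lab (a₁, b₄, a₂, b₂) (chi x)⁻¹ :: lab (c₂, b₂, c₄, b₁) (chi y)⁻¹ :: lab (c₁, a₂, c₂, a₄) (chi z) :: l) 0 P
      _ = br g (lab (c₂, b₂, c₄, b₁) (chi y)⁻¹ :: lab (c₁, a₂, c₂, a₄) (chi z) :: lab (a₁, b₄, a₂, b₂) (chi x)⁻¹ :: l) 0 P :=
        by rw [br_rot3]
      _ = br g (lab (b₂, c₂, b₁, c₄) (chi y)⁻¹ :: lab (c₁, a₂, c₂, a₄) (chi z) :: lab (a₁, b₄, a₂, b₂) (chi x)⁻¹ :: l) 0 P :=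
        by rw [br_sw hg]
      _ = br g (lab (c₁, a₂, c₂, a₄) (chi z) :: lab (a₁, b₄, a₂, b₂) (chi x)⁻¹ :: lab (b₂, c₂, b₁, c₄) (chi y)⁻¹ :: l) 0 P :=
        by rw [br_rot3]
      _ = br g (lab (a₂, c₁, a₄, c₂) (chi z) :: lab (a₁, b₄, a₂, b₂) (chi x)⁻¹ :: lab (b₂, c₂, b₁, c₄) (chi y)⁻¹ :: l) 0 P :=
        by rw [br_sw hg]
      _ = br g (lab (a₁, b₄, a₂, b₂) (chi x)⁻¹ :: lab (b₂, c₂, b₁, c₄) (chi y)⁻¹ :: lab (a₂, c₁, a₄, c₂) (chi z) :: l) 0 P :=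
        by rw [br_rot3]
      _ = br g (lab (b₂, c₂, b₁, c₄) (chi y)⁻¹ :: lab (a₂, c₁, a₄, c₂) (chi z) :: lab (a₁, b₄, a₂, b₂) (chi x)⁻¹ :: l) 0 P :=
        by rw [br_rot3]
      _ = br g (lab (a₂, c₁, a₄, c₂) (chi z) :: lab (b₂, c₂, b₁, c₄) (chi y)⁻¹ :: lab (a₁, b₄, a₂, b₂) (chi x)⁻¹ :: l) 0 P :=
        by rw [br_swap]
      _ = br g (lab (b₂, c₂, b₁, c₄) (chi y)⁻¹ :: lab (a₁, b₄, a₂, b₂) (chi x)⁻¹ :: lab (a₂, c₁, a₄, c₂) (chi z) :: l) 0 P :=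
        by rw [br_rot3]
      _ = br g (lab (a₁, b₄, a₂, b₂) (chi x)⁻¹ :: lab (a₂, c₁, a₄, c₂) (chi z) :: lab (b₂, c₂, b₁, c₄) (chi y)⁻¹ :: l) 0 P :=
        by rw [br_rot3]
      _ = br g (lab (a₂, b₂, a₄, b₁) (chi x)⁻¹ :: lab (a₁, c₂, a₂, c₄) (chi z) :: lab (b₄, c₁, b₂, c₂) (chi y)⁻¹ :: l) 0 P :=
        brT3 hg (by rw [← chi_neg, ← chi_neg, ← chi_add]; congr 1; linear_combination -ht) ⟨H.va2, H.vb2, H.vc2, H.a2b2, H.a2c2, H.a2a1, H.a2b4, H.a2c1, H.a2a4, H.a2b1, H.a2c4, H.b2c2, H.b2a1, H.b2b4, H.b2c1, H.b2a4, H.b2b1, H.b2c4, H.c2a1, H.c2b4, H.c2c1, H.c2a4, H.c2b1, H.c2c4⟩ H.la2 H.lb2 H.lc2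
      _ = br g (lab (a₁, c₂, a₂, c₄) (chi z) :: lab (b₄, c₁, b₂, c₂) (chi y)⁻¹ :: lab (a₂, b₂, a₄, b₁) (chi x)⁻¹ :: l) 0 P :=
        by rw [br_rot3]
      _ = br g (lab (c₂, a₁, c₄, a₂) (chi z) :: lab (b₄, c₁, b₂, c₂) (chi y)⁻¹ :: lab (a₂, b₂, a₄, b₁) (chi x)⁻¹ :: l) 0 P :=
        by rw [br_sw hg]
      _ = br g (lab (b₄, c₁, b₂, c₂) (chi y)⁻¹ :: lab (a₂, b₂, a₄, b₁) (chi x)⁻¹ :: lab (c₂, a₁, c₄, a₂) (chi z) :: l) 0 P :=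
        by rw [br_rot3]
      _ = br g (lab (c₁, b₄, c₂, b₂) (chi y)⁻¹ :: lab (a₂, b₂, a₄, b₁) (chi x)⁻¹ :: lab (c₂, a₁, c₄, a₂) (chi z) :: l) 0 P :=
        by rw [br_sw hg]
      _ = br g (lab (a₂, b₂, a₄, b₁) (chi x)⁻¹ :: lab (c₂, a₁, c₄, a₂) (chi z) :: lab (c₁, b₄, c₂, b₂) (chi y)⁻¹ :: l) 0 P :=
        by rw [br_rot3]
      _ = br g (lab (c₂, a₁, c₄, a₂) (chi z) :: lab (c₁, b₄, c₂, b₂) (chi y)⁻¹ :: lab (a₂, b₂, a₄, b₁) (chi x)⁻¹ :: l) 0 P :=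
        by rw [br_rot3]
      _ = br g (lab (c₁, b₄, c₂, b₂) (chi y)⁻¹ :: lab (c₂, a₁, c₄, a₂) (chi z) :: lab (a₂, b₂, a₄, b₁) (chi x)⁻¹ :: l) 0 P :=
        by rw [br_swap]
      _ = br g (lab (c₂, a₁, c₄, a₂) (chi z) :: lab (a₂, b₂, a₄, b₁) (chi x)⁻¹ :: lab (c₁, b₄, c₂, b₂) (chi y)⁻¹ :: l) 0 P :=
        by rw [br_rot3]
      _ = br g (lab (a₂, b₂, a₄, b₁) (chi x)⁻¹ :: lab (c₁, b₄, c₂, b₂) (chi y)⁻¹ :: lab (c₂, a₁, c₄, a₂) (chi z) :: l) 0 P :=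
        by rw [br_rot3]
  · calc br g (lab (a₁, b₂, a₂, b₄) (chi x) :: lab (b₁, c₁, b₂, c₂) (chi y) :: lab (c₂, a₂, c₄, a₄) (chi z) :: l) 0 P
      _ = br g (lab (b₂, a₁, b₄, a₂) (chi x) :: lab (b₁, c₁, b₂, c₂) (chi y) :: lab (c₂, a₂, c₄, a₄) (chi z) :: l) 0 P :=
        by rw [br_sw hg]
      _ = br g (lab (b₁, c₁, b₂, c₂) (chi y) :: lab (c₂, a₂, c₄, a₄) (chi z) :: lab (b₂, a₁, b₄, a₂) (chi x) :: l) 0 P :=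
        by rw [br_rot3]
      _ = br g (lab (c₂, a₂, c₄, a₄) (chi z) :: lab (b₂, a₁, b₄, a₂) (chi x) :: lab (b₁, c₁, b₂, c₂) (chi y) :: l) 0 P :=
        by rw [br_rot3]
      _ = br g (lab (b₂, a₁, b₄, a₂) (chi x) :: lab (b₁, c₁, b₂, c₂) (chi y) :: lab (c₂, a₂, c₄, a₄) (chi z) :: l) 0 P :=
        by rw [br_rot3]
      _ = br g (lab (b₁, c₁, b₂, c₂) (chi y) :: lab (c₂, a₂, c₄, a₄) (chi z) :: lab (b₂, a₁, b₄, a₂) (chi x) :: l) 0 P :=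
        by rw [br_rot3]
      _ = br g (lab (c₂, a₂, c₄, a₄) (chi z) :: lab (b₂, a₁, b₄, a₂) (chi x) :: lab (b₁, c₁, b₂, c₂) (chi y) :: l) 0 P :=
        by rw [br_rot3]
      _ = br g (lab (b₂, a₁, b₄, a₂) (chi x) :: lab (c₂, a₂, c₄, a₄) (chi z) :: lab (b₁, c₁, b₂, c₂) (chi y) :: l) 0 P :=
        by rw [br_swap]
      _ = br g (lab (c₂, a₂, c₄, a₄) (chi z) :: lab (b₁, c₁, b₂, c₂) (chi y) :: lab (b₂, a₁, b₄, a₂) (chi x) :: l) 0 P :=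
        by rw [br_rot3]
      _ = br g (lab (b₁, c₁, b₂, c₂) (chi y) :: lab (b₂, a₁, b₄, a₂) (chi x) :: lab (c₂, a₂, c₄, a₄) (chi z) :: l) 0 P :=
        by rw [br_rot3]
      _ = br g (lab (b₂, c₂, b₄, c₄) (chi y) :: lab (b₁, a₂, b₂, a₄) (chi x) :: lab (c₁, a₁, c₂, a₂) (chi z) :: l) 0 P :=
        brT3 hg (by rw [← chi_add]; congr 1; linear_combination -ht) ⟨H.vb2, H.vc2, H.va2, H.b2c2, H.a2b2.symm, H.b2b1, H.b2c1, H.b2a1, H.b2b4, H.b2c4, H.b2a4, H.a2c2.symm, H.c2b1, H.c2c1, H.c2a1, H.c2b4, H.c2c4, H.c2a4, H.a2b1, H.a2c1, H.a2a1, H.a2b4, H.a2c4, H.a2a4⟩ H.lb2 H.lc2 H.la2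
      _ = br g (lab (b₁, a₂, b₂, a₄) (chi x) :: lab (c₁, a₁, c₂, a₂) (chi z) :: lab (b₂, c₂, b₄, c₄) (chi y) :: l) 0 P :=
        by rw [br_rot3]
      _ = br g (lab (a₂, b₁, a₄, b₂) (chi x) :: lab (c₁, a₁, c₂, a₂) (chi z) :: lab (b₂, c₂, b₄, c₄) (chi y) :: l) 0 P :=
        by rw [br_sw hg]
      _ = br g (lab (c₁, a₁, c₂, a₂) (chi z) :: lab (b₂, c₂, b₄, c₄) (chi y) :: lab (a₂, b₁, a₄, b₂) (chi x) :: l) 0 P :=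
        by rw [br_rot3]
      _ = br g (lab (b₂, c₂, b₄, c₄) (chi y) :: lab (a₂, b₁, a₄, b₂) (chi x) :: lab (c₁, a₁, c₂, a₂) (chi z) :: l) 0 P :=
        by rw [br_rot3]
      _ = br g (lab (a₂, b₁, a₄, b₂) (chi x) :: lab (c₁, a₁, c₂, a₂) (chi z) :: lab (b₂, c₂, b₄, c₄) (chi y) :: l) 0 P :=
        by rw [br_rot3]
      _ = br g (lab (c₁, a₁, c₂, a₂) (chi z) :: lab (b₂, c₂, b₄, c₄) (chi y) :: lab (a₂, b₁, a₄, b₂) (chi x) :: l) 0 P :=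
        by rw [br_rot3]
      _ = br g (lab (b₂, c₂, b₄, c₄) (chi y) :: lab (c₁, a₁, c₂, a₂) (chi z) :: lab (a₂, b₁, a₄, b₂) (chi x) :: l) 0 P :=
        by rw [br_swap]
      _ = br g (lab (c₁, a₁, c₂, a₂) (chi z) :: lab (a₂, b₁, a₄, b₂) (chi x) :: lab (b₂, c₂, b₄, c₄) (chi y) :: l) 0 P :=
        by rw [br_rot3]
      _ = br g (lab (a₂, b₁, a₄, b₂) (chi x) :: lab (b₂, c₂, b₄, c₄) (chi y) :: lab (c₁, a₁, c₂, a₂) (chi z) :: l) 0 P :=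
        by rw [br_rot3]
  · calc br g (lab (a₁, b₁, a₂, b₂) (chi x) :: lab (b₂, c₂, b₄, c₄) (chi y) :: lab (c₁, a₂, c₂, a₄) (chi z) :: l) 0 P
      _ = br g (lab (b₂, c₂, b₄, c₄) (chi y) :: lab (c₁, a₂, c₂, a₄) (chi z) :: lab (a₁, b₁, a₂, b₂) (chi x) :: l) 0 P :=
        by rw [br_rot3]
      _ = br g (lab (c₁, a₂, c₂, a₄) (chi z) :: lab (a₁, b₁, a₂, b₂) (chi x) :: lab (b₂, c₂, b₄, c₄) (chi y) :: l) 0 P :=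
        by rw [br_rot3]
      _ = br g (lab (a₂, c₁, a₄, c₂) (chi z) :: lab (a₁, b₁, a₂, b₂) (chi x) :: lab (b₂, c₂, b₄, c₄) (chi y) :: l) 0 P :=
        by rw [br_sw hg]
      _ = br g (lab (a₁, b₁, a₂, b₂) (chi x) :: lab (b₂, c₂, b₄, c₄) (chi y) :: lab (a₂, c₁, a₄, c₂) (chi z) :: l) 0 P :=
        by rw [br_rot3]
      _ = br g (lab (b₂, c₂, b₄, c₄) (chi y) :: lab (a₂, c₁, a₄, c₂) (chi z) :: lab (a₁, b₁, a₂, b₂) (chi x) :: l) 0 P :=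
        by rw [br_rot3]
      _ = br g (lab (a₂, c₁, a₄, c₂) (chi z) :: lab (b₂, c₂, b₄, c₄) (chi y) :: lab (a₁, b₁, a₂, b₂) (chi x) :: l) 0 P :=
        by rw [br_swap]
      _ = br g (lab (b₂, c₂, b₄, c₄) (chi y) :: lab (a₁, b₁, a₂, b₂) (chi x) :: lab (a₂, c₁, a₄, c₂) (chi z) :: l) 0 P :=
        by rw [br_rot3]
      _ = br g (lab (a₁, b₁, a₂, b₂) (chi x) :: lab (a₂, c₁, a₄, c₂) (chi z) :: lab (b₂, c₂, b₄, c₄) (chi y) :: l) 0 P :=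
        by rw [br_rot3]
      _ = br g (lab (a₂, b₂, a₄, b₄) (chi x) :: lab (a₁, c₂, a₂, c₄) (chi z) :: lab (b₁, c₁, b₂, c₂) (chi y) :: l) 0 P :=
        brT3 hg (by rw [← chi_add]; congr 1; linear_combination -ht) ⟨H.va2, H.vb2, H.vc2, H.a2b2, H.a2c2, H.a2a1, H.a2b1, H.a2c1, H.a2a4, H.a2b4, H.a2c4, H.b2c2, H.b2a1, H.b2b1, H.b2c1, H.b2a4, H.b2b4, H.b2c4, H.c2a1, H.c2b1, H.c2c1, H.c2a4, H.c2b4, H.c2c4⟩ H.la2 H.lb2 H.lc2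
      _ = br g (lab (a₁, c₂, a₂, c₄) (chi z) :: lab (b₁, c₁, b₂, c₂) (chi y) :: lab (a₂, b₂, a₄, b₄) (chi x) :: l) 0 P :=
        by rw [br_rot3]
      _ = br g (lab (c₂, a₁, c₄, a₂) (chi z) :: lab (b₁, c₁, b₂, c₂) (chi y) :: lab (a₂, b₂, a₄, b₄) (chi x) :: l) 0 P :=
        by rw [br_sw hg]
      _ = br g (lab (b₁, c₁, b₂, c₂) (chi y) :: lab (a₂, b₂, a₄, b₄) (chi x) :: lab (c₂, a₁, c₄, a₂) (chi z) :: l) 0 P :=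
        by rw [br_rot3]
      _ = br g (lab (a₂, b₂, a₄, b₄) (chi x) :: lab (c₂, a₁, c₄, a₂) (chi z) :: lab (b₁, c₁, b₂, c₂) (chi y) :: l) 0 P :=
        by rw [br_rot3]
      _ = br g (lab (c₂, a₁, c₄, a₂) (chi z) :: lab (b₁, c₁, b₂, c₂) (chi y) :: lab (a₂, b₂, a₄, b₄) (chi x) :: l) 0 P :=
        by rw [br_rot3]
      _ = br g (lab (b₁, c₁, b₂, c₂) (chi y) :: lab (c₂, a₁, c₄, a₂) (chi z) :: lab (a₂, b₂, a₄, b₄) (chi x) :: l) 0 P :=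
        by rw [br_swap]
      _ = br g (lab (c₂, a₁, c₄, a₂) (chi z) :: lab (a₂, b₂, a₄, b₄) (chi x) :: lab (b₁, c₁, b₂, c₂) (chi y) :: l) 0 P :=
        by rw [br_rot3]
      _ = br g (lab (a₂, b₂, a₄, b₄) (chi x) :: lab (b₁, c₁, b₂, c₂) (chi y) :: lab (c₂, a₁, c₄, a₂) (chi z) :: l) 0 P :=
        by rw [br_rot3]
  · calc br g (lab (a₁, b₁, a₂, b₂) (chi x) :: lab (b₂, c₁, b₄, c₂) (chi y) :: lab (c₂, a₂, c₄, a₄) (chi z) :: l) 0 P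
      _ = br g (lab (b₁, a₁, b₂, a₂) (chi x) :: lab (b₂, c₁, b₄, c₂) (chi y) :: lab (c₂, a₂, c₄, a₄) (chi z) :: l) 0 P :=
        by rw [br_sw hg]
      _ = br g (lab (b₂, c₁, b₄, c₂) (chi y) :: lab (c₂, a₂, c₄, a₄) (chi z) :: lab (b₁, a₁, b₂, a₂) (chi x) :: l) 0 P :=
        by rw [br_rot3]
      _ = br g (lab (c₂, a₂, c₄, a₄) (chi z) :: lab (b₁, a₁, b₂, a₂) (chi x) :: lab (b₂, c₁, b₄, c₂) (chi y) :: l) 0 P :=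
        by rw [br_rot3]
      _ = br g (lab (a₂, c₂, a₄, c₄) (chi z) :: lab (b₁, a₁, b₂, a₂) (chi x) :: lab (b₂, c₁, b₄, c₂) (chi y) :: l) 0 P :=
        by rw [br_sw hg]
      _ = br g (lab (b₁, a₁, b₂, a₂) (chi x) :: lab (b₂, c₁, b₄, c₂) (chi y) :: lab (a₂, c₂, a₄, c₄) (chi z) :: l) 0 P :=
        by rw [br_rot3]
      _ = br g (lab (b₂, a₂, b₄, a₄) (chi x) :: lab (b₁, c₂, b₂, c₄) (chi y) :: lab (a₁, c₁, a₂, c₂) (chi z) :: l) 0 P :=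
        brT3 hg (by rw [← chi_add]; congr 1; linear_combination -ht) ⟨H.vb2, H.va2, H.vc2, H.a2b2.symm, H.b2c2, H.b2b1, H.b2a1, H.b2c1, H.b2b4, H.b2a4, H.b2c4, H.a2c2, H.a2b1, H.a2a1, H.a2c1, H.a2b4, H.a2a4, H.a2c4, H.c2b1, H.c2a1, H.c2c1, H.c2b4, H.c2a4, H.c2c4⟩ H.lb2 H.la2 H.lc2
      _ = br g (lab (a₂, b₂, a₄, b₄) (chi x) :: lab (b₁, c₂, b₂, c₄) (chi y) :: lab (a₁, c₁, a₂, c₂) (chi z) :: l) 0 P :=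
        by rw [br_sw hg]
      _ = br g (lab (b₁, c₂, b₂, c₄) (chi y) :: lab (a₁, c₁, a₂, c₂) (chi z) :: lab (a₂, b₂, a₄, b₄) (chi x) :: l) 0 P :=
        by rw [br_rot3]
      _ = br g (lab (a₁, c₁, a₂, c₂) (chi z) :: lab (a₂, b₂, a₄, b₄) (chi x) :: lab (b₁, c₂, b₂, c₄) (chi y) :: l) 0 P :=
        by rw [br_rot3]
      _ = br g (lab (c₁, a₁, c₂, a₂) (chi z) :: lab (a₂, b₂, a₄, b₄) (chi x) :: lab (b₁, c₂, b₂, c₄) (chi y) :: l) 0 P :=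
        by rw [br_sw hg]
      _ = br g (lab (a₂, b₂, a₄, b₄) (chi x) :: lab (b₁, c₂, b₂, c₄) (chi y) :: lab (c₁, a₁, c₂, a₂) (chi z) :: l) 0 P :=
        by rw [br_rot3]
  · calc br g (lab (a₂, b₂, a₄, b₄) (chi x) :: lab (b₁, c₂, b₂, c₄) (chi y) :: lab (c₁, a₁, c₂, a₂) (chi z) :: l) 0 P
      _ = br g (lab (b₁, c₂, b₂, c₄) (chi y) :: lab (c₁, a₁, c₂, a₂) (chi z) :: lab (a₂, b₂, a₄, b₄) (chi x) :: l) 0 P :=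
        by rw [br_rot3]
      _ = br g (lab (c₂, b₁, c₄, b₂) (chi y) :: lab (c₁, a₁, c₂, a₂) (chi z) :: lab (a₂, b₂, a₄, b₄) (chi x) :: l) 0 P :=
        by rw [br_sw hg]
      _ = br g (lab (c₁, a₁, c₂, a₂) (chi z) :: lab (a₂, b₂, a₄, b₄) (chi x) :: lab (c₂, b₁, c₄, b₂) (chi y) :: l) 0 P :=
        by rw [br_rot3]
      _ = br g (lab (a₂, b₂, a₄, b₄) (chi x) :: lab (c₂, b₁, c₄, b₂) (chi y) :: lab (c₁, a₁, c₂, a₂) (chi z) :: l) 0 P :=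
        by rw [br_rot3]
      _ = br g (lab (c₂, b₁, c₄, b₂) (chi y) :: lab (c₁, a₁, c₂, a₂) (chi z) :: lab (a₂, b₂, a₄, b₄) (chi x) :: l) 0 P :=
        by rw [br_rot3]
      _ = br g (lab (c₁, a₁, c₂, a₂) (chi z) :: lab (a₂, b₂, a₄, b₄) (chi x) :: lab (c₂, b₁, c₄, b₂) (chi y) :: l) 0 P :=
        by rw [br_rot3]
      _ = br g (lab (a₂, b₂, a₄, b₄) (chi x) :: lab (c₂, b₁, c₄, b₂) (chi y) :: lab (c₁, a₁, c₂, a₂) (chi z) :: l) 0 P :=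
        by rw [br_rot3]
      _ = br g (lab (c₂, b₁, c₄, b₂) (chi y) :: lab (a₂, b₂, a₄, b₄) (chi x) :: lab (c₁, a₁, c₂, a₂) (chi z) :: l) 0 P :=
        by rw [br_swap]
      _ = br g (lab (a₂, b₂, a₄, b₄) (chi x) :: lab (c₁, a₁, c₂, a₂) (chi z) :: lab (c₂, b₁, c₄, b₂) (chi y) :: l) 0 P :=
        by rw [br_rot3]
      _ = br g (lab (c₁, a₁, c₂, a₂) (chi z) :: lab (c₂, b₁, c₄, b₂) (chi y) :: lab (a₂, b₂, a₄, b₄) (chi x) :: l) 0 P :=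
        by rw [br_rot3]
      _ = br g (lab (c₂, a₂, c₄, a₄) (chi z) :: lab (c₁, b₂, c₂, b₄) (chi y) :: lab (a₁, b₁, a₂, b₂) (chi x) :: l) 0 P :=
        brT3 hg (by rw [← chi_add]; congr 1; linear_combination -ht) ⟨H.vc2, H.va2, H.vb2, H.a2c2.symm, H.b2c2.symm, H.c2c1, H.c2a1, H.c2b1, H.c2c4, H.c2a4, H.c2b4, H.a2b2, H.a2c1, H.a2a1, H.a2b1, H.a2c4, H.a2a4, H.a2b4, H.b2c1, H.b2a1, H.b2b1, H.b2c4, H.b2a4, H.b2b4⟩ H.lc2 H.la2 H.lb2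
      _ = br g (lab (c₁, b₂, c₂, b₄) (chi y) :: lab (a₁, b₁, a₂, b₂) (chi x) :: lab (c₂, a₂, c₄, a₄) (chi z) :: l) 0 P :=
        by rw [br_rot3]
      _ = br g (lab (b₂, c₁, b₄, c₂) (chi y) :: lab (a₁, b₁, a₂, b₂) (chi x) :: lab (c₂, a₂, c₄, a₄) (chi z) :: l) 0 P :=
        by rw [br_sw hg]
      _ = br g (lab (a₁, b₁, a₂, b₂) (chi x) :: lab (c₂, a₂, c₄, a₄) (chi z) :: lab (b₂, c₁, b₄, c₂) (chi y) :: l) 0 P :=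
        by rw [br_rot3]
      _ = br g (lab (c₂, a₂, c₄, a₄) (chi z) :: lab (b₂, c₁, b₄, c₂) (chi y) :: lab (a₁, b₁, a₂, b₂) (chi x) :: l) 0 P :=
        by rw [br_rot3]
      _ = br g (lab (b₂, c₁, b₄, c₂) (chi y) :: lab (a₁, b₁, a₂, b₂) (chi x) :: lab (c₂, a₂, c₄, a₄) (chi z) :: l) 0 P :=
        by rw [br_rot3]
      _ = br g (lab (a₁, b₁, a₂, b₂) (chi x) :: lab (c₂, a₂, c₄, a₄) (chi z) :: lab (b₂, c₁, b₄, c₂) (chi y) :: l) 0 P :=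
        by rw [br_rot3]
      _ = br g (lab (c₂, a₂, c₄, a₄) (chi z) :: lab (b₂, c₁, b₄, c₂) (chi y) :: lab (a₁, b₁, a₂, b₂) (chi x) :: l) 0 P :=
        by rw [br_rot3]
      _ = br g (lab (b₂, c₁, b₄, c₂) (chi y) :: lab (c₂, a₂, c₄, a₄) (chi z) :: lab (a₁, b₁, a₂, b₂) (chi x) :: l) 0 P :=
        by rw [br_swap]
      _ = br g (lab (c₂, a₂, c₄, a₄) (chi z) :: lab (a₁, b₁, a₂, b₂) (chi x) :: lab (b₂, c₁, b₄, c₂) (chi y) :: l) 0 P :=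
        by rw [br_rot3]
      _ = br g (lab (a₁, b₁, a₂, b₂) (chi x) :: lab (b₂, c₁, b₄, c₂) (chi y) :: lab (c₂, a₂, c₄, a₄) (chi z) :: l) 0 P :=
        by rw [br_rot3]
  · calc br g (lab (a₂, b₂, a₄, b₄) (chi x) :: lab (b₁, c₁, b₂, c₂) (chi y) :: lab (c₂, a₁, c₄, a₂) (chi z) :: l) 0 P
      _ = br g (lab (b₂, a₂, b₄, a₄) (chi x) :: lab (b₁, c₁, b₂, c₂) (chi y) :: lab (c₂, a₁, c₄, a₂) (chi z) :: l) 0 P :=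
        by rw [br_sw hg]
      _ = br g (lab (b₁, c₁, b₂, c₂) (chi y) :: lab (c₂, a₁, c₄, a₂) (chi z) :: lab (b₂, a₂, b₄, a₄) (chi x) :: l) 0 P :=
        by rw [br_rot3]
      _ = br g (lab (c₁, b₁, c₂, b₂) (chi y) :: lab (c₂, a₁, c₄, a₂) (chi z) :: lab (b₂, a₂, b₄, a₄) (chi x) :: l) 0 P :=
        by rw [br_sw hg]
      _ = br g (lab (c₂, a₁, c₄, a₂) (chi z) :: lab (b₂, a₂, b₄, a₄) (chi x) :: lab (c₁, b₁, c₂, b₂) (chi y) :: l) 0 P :=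
        by rw [br_rot3]
      _ = br g (lab (b₂, a₂, b₄, a₄) (chi x) :: lab (c₁, b₁, c₂, b₂) (chi y) :: lab (c₂, a₁, c₄, a₂) (chi z) :: l) 0 P :=
        by rw [br_rot3]
      _ = br g (lab (c₁, b₁, c₂, b₂) (chi y) :: lab (c₂, a₁, c₄, a₂) (chi z) :: lab (b₂, a₂, b₄, a₄) (chi x) :: l) 0 P :=
        by rw [br_rot3]
      _ = br g (lab (c₂, b₂, c₄, b₄) (chi y) :: lab (c₁, a₂, c₂, a₄) (chi z) :: lab (b₁, a₁, b₂, a₂) (chi x) :: l) 0 P :=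
        brT3 hg (by rw [← chi_add]; congr 1; linear_combination -ht) ⟨H.vc2, H.vb2, H.va2, H.b2c2.symm, H.a2c2.symm, H.c2c1, H.c2b1, H.c2a1, H.c2c4, H.c2b4, H.c2a4, H.a2b2.symm, H.b2c1, H.b2b1, H.b2a1, H.b2c4, H.b2b4, H.b2a4, H.a2c1, H.a2b1, H.a2a1, H.a2c4, H.a2b4, H.a2a4⟩ H.lc2 H.lb2 H.la2
      _ = br g (lab (b₂, c₂, b₄, c₄) (chi y) :: lab (c₁, a₂, c₂, a₄) (chi z) :: lab (b₁, a₁, b₂, a₂) (chi x) :: l) 0 P :=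
        by rw [br_sw hg]
      _ = br g (lab (c₁, a₂, c₂, a₄) (chi z) :: lab (b₁, a₁, b₂, a₂) (chi x) :: lab (b₂, c₂, b₄, c₄) (chi y) :: l) 0 P :=
        by rw [br_rot3]
      _ = br g (lab (b₁, a₁, b₂, a₂) (chi x) :: lab (b₂, c₂, b₄, c₄) (chi y) :: lab (c₁, a₂, c₂, a₄) (chi z) :: l) 0 P :=
        by rw [br_rot3]
      _ = br g (lab (a₁, b₁, a₂, b₂) (chi x) :: lab (b₂, c₂, b₄, c₄) (chi y) :: lab (c₁, a₂, c₂, a₄) (chi z) :: l) 0 P :=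
        by rw [br_sw hg]
      _ = br g (lab (b₂, c₂, b₄, c₄) (chi y) :: lab (c₁, a₂, c₂, a₄) (chi z) :: lab (a₁, b₁, a₂, b₂) (chi x) :: l) 0 P :=
        by rw [br_rot3]
      _ = br g (lab (c₁, a₂, c₂, a₄) (chi z) :: lab (a₁, b₁, a₂, b₂) (chi x) :: lab (b₂, c₂, b₄, c₄) (chi y) :: l) 0 P :=
        by rw [br_rot3]
      _ = br g (lab (a₁, b₁, a₂, b₂) (chi x) :: lab (b₂, c₂, b₄, c₄) (chi y) :: lab (c₁, a₂, c₂, a₄) (chi z) :: l) 0 P :=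
        by rw [br_rot3]
  · calc br g (lab (a₂, b₁, a₄, b₂) (chi x) :: lab (b₂, c₂, b₄, c₄) (chi y) :: lab (c₁, a₁, c₂, a₂) (chi z) :: l) 0 P
      _ = br g (lab (b₂, c₂, b₄, c₄) (chi y) :: lab (c₁, a₁, c₂, a₂) (chi z) :: lab (a₂, b₁, a₄, b₂) (chi x) :: l) 0 P :=
        by rw [br_rot3]
      _ = br g (lab (c₂, b₂, c₄, b₄) (chi y) :: lab (c₁, a₁, c₂, a₂) (chi z) :: lab (a₂, b₁, a₄, b₂) (chi x) :: l) 0 P :=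
        by rw [br_sw hg]
      _ = br g (lab (c₁, a₁, c₂, a₂) (chi z) :: lab (a₂, b₁, a₄, b₂) (chi x) :: lab (c₂, b₂, c₄, b₄) (chi y) :: l) 0 P :=
        by rw [br_rot3]
      _ = br g (lab (a₁, c₁, a₂, c₂) (chi z) :: lab (a₂, b₁, a₄, b₂) (chi x) :: lab (c₂, b₂, c₄, b₄) (chi y) :: l) 0 P :=
        by rw [br_sw hg]
      _ = br g (lab (a₂, b₁, a₄, b₂) (chi x) :: lab (c₂, b₂, c₄, b₄) (chi y) :: lab (a₁, c₁, a₂, c₂) (chi z) :: l) 0 P :=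
        by rw [br_rot3]
      _ = br g (lab (c₂, b₂, c₄, b₄) (chi y) :: lab (a₁, c₁, a₂, c₂) (chi z) :: lab (a₂, b₁, a₄, b₂) (chi x) :: l) 0 P :=
        by rw [br_rot3]
      _ = br g (lab (a₁, c₁, a₂, c₂) (chi z) :: lab (a₂, b₁, a₄, b₂) (chi x) :: lab (c₂, b₂, c₄, b₄) (chi y) :: l) 0 P :=
        by rw [br_rot3]
      _ = br g (lab (a₂, c₂, a₄, c₄) (chi z) :: lab (a₁, b₂, a₂, b₄) (chi x) :: lab (c₁, b₁, c₂, b₂) (chi y) :: l) 0 P :=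
        brT3 hg (by rw [← chi_add]; congr 1; linear_combination -ht) ⟨H.va2, H.vc2, H.vb2, H.a2c2, H.a2b2, H.a2a1, H.a2c1, H.a2b1, H.a2a4, H.a2c4, H.a2b4, H.b2c2.symm, H.c2a1, H.c2c1, H.c2b1, H.c2a4, H.c2c4, H.c2b4, H.b2a1, H.b2c1, H.b2b1, H.b2a4, H.b2c4, H.b2b4⟩ H.la2 H.lc2 H.lb2
      _ = br g (lab (c₂, a₂, c₄, a₄) (chi z) :: lab (a₁, b₂, a₂, b₄) (chi x) :: lab (c₁, b₁, c₂, b₂) (chi y) :: l) 0 P :=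
        by rw [br_sw hg]
      _ = br g (lab (a₁, b₂, a₂, b₄) (chi x) :: lab (c₁, b₁, c₂, b₂) (chi y) :: lab (c₂, a₂, c₄, a₄) (chi z) :: l) 0 P :=
        by rw [br_rot3]
      _ = br g (lab (c₁, b₁, c₂, b₂) (chi y) :: lab (c₂, a₂, c₄, a₄) (chi z) :: lab (a₁, b₂, a₂, b₄) (chi x) :: l) 0 P :=
        by rw [br_rot3]
      _ = br g (lab (b₁, c₁, b₂, c₂) (chi y) :: lab (c₂, a₂, c₄, a₄) (chi z) :: lab (a₁, b₂, a₂, b₄) (chi x) :: l) 0 P :=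
        by rw [br_sw hg]
      _ = br g (lab (c₂, a₂, c₄, a₄) (chi z) :: lab (a₁, b₂, a₂, b₄) (chi x) :: lab (b₁, c₁, b₂, c₂) (chi y) :: l) 0 P :=
        by rw [br_rot3]
      _ = br g (lab (a₁, b₂, a₂, b₄) (chi x) :: lab (b₁, c₁, b₂, c₂) (chi y) :: lab (c₂, a₂, c₄, a₄) (chi z) :: l) 0 P :=
        by rw [br_rot3]
  · have f1 : br g (lab (a₂, b₁, a₄, b₂) (chi x) :: lab (b₂, c₁, b₄, c₂) (chi y) :: lab (c₂, a₁, c₄, a₂) (chi z) :: l) 0 P = chi x * chi y * br g (lab (a₂, b₂, a₄, b₁) (chi x)⁻¹ :: lab (c₁, b₄, c₂, b₂) (chi y)⁻¹ :: lab (c₂, a₁, c₄, a₂) (chi z) :: l) 0 P := by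
      rw [br_fl hg _ _ _ _ (chi_ne_zero x), br_swap, br_sw hg, br_fl hg _ _ _ _ (chi_ne_zero y), br_swap]
      ring
    have f2 : br g (lab (a₁, b₂, a₂, b₄) (chi x) :: lab (b₁, c₂, b₂, c₄) (chi y) :: lab (c₁, a₂, c₂, a₄) (chi z) :: l) 0 P = chi x * chi y * br g (lab (a₁, b₄, a₂, b₂) (chi x)⁻¹ :: lab (c₂, b₂, c₄, b₁) (chi y)⁻¹ :: lab (c₁, a₂, c₂, a₄) (chi z) :: l) 0 P := by
      rw [br_fl hg _ _ _ _ (chi_ne_zero x), br_swap, br_sw hg, br_fl hg _ _ _ _ (chi_ne_zero y), br_swap]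
      ring
    rw [f1, f2]
    congr 1
    calc br g (lab (a₂, b₂, a₄, b₁) (chi x)⁻¹ :: lab (c₁, b₄, c₂, b₂) (chi y)⁻¹ :: lab (c₂, a₁, c₄, a₂) (chi z) :: l) 0 P
      _ = br g (lab (c₁, b₄, c₂, b₂) (chi y)⁻¹ :: lab (c₂, a₁, c₄, a₂) (chi z) :: lab (a₂, b₂, a₄, b₁) (chi x)⁻¹ :: l) 0 P :=
        by rw [br_rot3]
      _ = br g (lab (b₄, c₁, b₂, c₂) (chi y)⁻¹ :: lab (c₂, a₁, c₄, a₂) (chi z) :: lab (a₂, b₂, a₄, b₁) (chi x)⁻¹ :: l) 0 P :=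
        by rw [br_sw hg]
      _ = br g (lab (c₂, a₁, c₄, a₂) (chi z) :: lab (a₂, b₂, a₄, b₁) (chi x)⁻¹ :: lab (b₄, c₁, b₂, c₂) (chi y)⁻¹ :: l) 0 P :=
        by rw [br_rot3]
      _ = br g (lab (a₁, c₂, a₂, c₄) (chi z) :: lab (a₂, b₂, a₄, b₁) (chi x)⁻¹ :: lab (b₄, c₁, b₂, c₂) (chi y)⁻¹ :: l) 0 P :=
        by rw [br_sw hg]
      _ = br g (lab (a₂, b₂, a₄, b₁) (chi x)⁻¹ :: lab (b₄, c₁, b₂, c₂) (chi y)⁻¹ :: lab (a₁, c₂, a₂, c₄) (chi z) :: l) 0 P :=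
        by rw [br_rot3]
      _ = br g (lab (b₄, c₁, b₂, c₂) (chi y)⁻¹ :: lab (a₁, c₂, a₂, c₄) (chi z) :: lab (a₂, b₂, a₄, b₁) (chi x)⁻¹ :: l) 0 P :=
        by rw [br_rot3]
      _ = br g (lab (a₁, c₂, a₂, c₄) (chi z) :: lab (b₄, c₁, b₂, c₂) (chi y)⁻¹ :: lab (a₂, b₂, a₄, b₁) (chi x)⁻¹ :: l) 0 P :=
        by rw [br_swap]
      _ = br g (lab (b₄, c₁, b₂, c₂) (chi y)⁻¹ :: lab (a₂, b₂, a₄, b₁) (chi x)⁻¹ :: lab (a₁, c₂, a₂, c₄) (chi z) :: l) 0 P :=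
        by rw [br_rot3]
      _ = br g (lab (a₂, b₂, a₄, b₁) (chi x)⁻¹ :: lab (a₁, c₂, a₂, c₄) (chi z) :: lab (b₄, c₁, b₂, c₂) (chi y)⁻¹ :: l) 0 P :=
        by rw [br_rot3]
      _ = br g (lab (a₁, b₄, a₂, b₂) (chi x)⁻¹ :: lab (a₂, c₁, a₄, c₂) (chi z) :: lab (b₂, c₂, b₁, c₄) (chi y)⁻¹ :: l) 0 P :=
        (brT3 hg (by rw [← chi_neg, ← chi_neg, ← chi_add]; congr 1; linear_combination -ht) ⟨H.va2, H.vb2, H.vc2, H.a2b2, H.a2c2, H.a2a1, H.a2b4, H.a2c1, H.a2a4, H.a2b1, H.a2c4, H.b2c2, H.b2a1, H.b2b4, H.b2c1, H.b2a4, H.b2b1, H.b2c4, H.c2a1, H.c2b4, H.c2c1, H.c2a4, H.c2b1, H.c2c4⟩ H.la2 H.lb2 H.lc2).symm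
      _ = br g (lab (a₂, c₁, a₄, c₂) (chi z) :: lab (b₂, c₂, b₁, c₄) (chi y)⁻¹ :: lab (a₁, b₄, a₂, b₂) (chi x)⁻¹ :: l) 0 P :=
        by rw [br_rot3]
      _ = br g (lab (c₁, a₂, c₂, a₄) (chi z) :: lab (b₂, c₂, b₁, c₄) (chi y)⁻¹ :: lab (a₁, b₄, a₂, b₂) (chi x)⁻¹ :: l) 0 P :=
        by rw [br_sw hg]
      _ = br g (lab (b₂, c₂, b₁, c₄) (chi y)⁻¹ :: lab (a₁, b₄, a₂, b₂) (chi x)⁻¹ :: lab (c₁, a₂, c₂, a₄) (chi z) :: l) 0 P :=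
        by rw [br_rot3]
      _ = br g (lab (c₂, b₂, c₄, b₁) (chi y)⁻¹ :: lab (a₁, b₄, a₂, b₂) (chi x)⁻¹ :: lab (c₁, a₂, c₂, a₄) (chi z) :: l) 0 P :=
        by rw [br_sw hg]
      _ = br g (lab (a₁, b₄, a₂, b₂) (chi x)⁻¹ :: lab (c₁, a₂, c₂, a₄) (chi z) :: lab (c₂, b₂, c₄, b₁) (chi y)⁻¹ :: l) 0 P :=
        by rw [br_rot3]
      _ = br g (lab (c₁, a₂, c₂, a₄) (chi z) :: lab (c₂, b₂, c₄, b₁) (chi y)⁻¹ :: lab (a₁, b₄, a₂, b₂) (chi x)⁻¹ :: l) 0 P :=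
        by rw [br_rot3]
      _ = br g (lab (c₂, b₂, c₄, b₁) (chi y)⁻¹ :: lab (c₁, a₂, c₂, a₄) (chi z) :: lab (a₁, b₄, a₂, b₂) (chi x)⁻¹ :: l) 0 P :=
        by rw [br_swap]
      _ = br g (lab (c₁, a₂, c₂, a₄) (chi z) :: lab (a₁, b₄, a₂, b₂) (chi x)⁻¹ :: lab (c₂, b₂, c₄, b₁) (chi y)⁻¹ :: l) 0 P :=
        by rw [br_rot3]
      _ = br g (lab (a₁, b₄, a₂, b₂) (chi x)⁻¹ :: lab (c₂, b₂, c₄, b₁) (chi y)⁻¹ :: lab (c₁, a₂, c₂, a₄) (chi z) :: l) 0 P :=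
        by rw [br_rot3]

theorem brR3 {g : Fn ℂ} (hg : DF g) (l : List (Cr × ℂ × ℂ × ℂ)) (P : Multiset (Sym2 ℕ))
    (α β γ : Bool) (a₁ a₂ a₃ a₄ b₁ b₂ b₃ b₄ c₁ c₂ c₃ c₄ : ℕ) (tAB tBC tCA : ZMod 4)
    (ht : (if α = β then -tAB else tAB) + (if β = γ then -tBC else tBC) +
      (if γ = α then -tCA else tCA) = 0)
    (hnd : [a₂, a₃, b₂, b₃, c₂, c₃].Nodup)
    (hfr : ∀ m ∈ [a₂, a₃, b₂, b₃, c₂, c₃], m ∉ [a₁, a₄, b₁, b₄, c₁, c₄] ∧ AvL m l ∧ Av m 0 P) :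
    br g (lab (cr2 (sl a₁ a₂ a₃ a₄ α) (sl b₁ b₂ b₃ b₄ (!β))) (chi tAB) ::
          lab (cr2 (sl b₁ b₂ b₃ b₄ β) (sl c₁ c₂ c₃ c₄ (!γ))) (chi tBC) ::
          lab (cr2 (sl c₁ c₂ c₃ c₄ γ) (sl a₁ a₂ a₃ a₄ (!α))) (chi tCA) :: l) 0
        (s(a₂, a₃) ::ₘ s(b₂, b₃) ::ₘ s(c₂, c₃) ::ₘ P) =
      br g (lab (cr2 (sl a₁ a₂ a₃ a₄ (!α)) (sl b₁ b₂ b₃ b₄ β)) (chi tAB) ::
          lab (cr2 (sl b₁ b₂ b₃ b₄ (!β)) (sl c₁ c₂ c₃ c₄ γ)) (chi tBC) ::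
          lab (cr2 (sl c₁ c₂ c₃ c₄ (!γ)) (sl a₁ a₂ a₃ a₄ α)) (chi tCA) :: l) 0
        (s(a₂, a₃) ::ₘ s(b₂, b₃) ::ₘ s(c₂, c₃) ::ₘ P) := by
  simp only [List.mem_cons, List.not_mem_nil, or_false, forall_eq_or_imp, forall_eq, not_or,
    List.nodup_cons, not_false_eq_true, List.nodup_nil, and_true] at hfr hnd
  obtain ⟨⟨⟨a2a1, a2a4, a2b1, a2b4, a2c1, a2c4⟩, la2, va2⟩, ⟨⟨a3a1, a3a4, a3b1, a3b4, a3c1, a3c4⟩, la3, va3⟩, ⟨⟨b2a1, b2a4, b2b1, b2b4, b2c1, b2c4⟩, lb2, vb2⟩, ⟨⟨b3a1, b3a4, b3b1, b3b4, b3c1, b3c4⟩, lb3, vb3⟩, ⟨⟨c2a1, c2a4, c2b1, c2b4, c2c1, c2c4⟩, lc2, vc2⟩, ⟨⟨c3a1, c3a4, c3b1, c3b4, c3c1, c3c4⟩, lc3, vc3⟩⟩ := hfr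
  obtain ⟨⟨a2a3, a2b2, a2b3, a2c2, a2c3⟩, ⟨a3b2, a3b3, a3c2, a3c3⟩, ⟨b2b3, b2c2, b2c3⟩, ⟨b3c2, b3c3⟩, c2c3⟩ := hnd
  have H : Fr6 a₁ a₂ a₃ a₄ b₁ b₂ b₃ b₄ c₁ c₂ c₃ c₄ l P :=
    ⟨la2, va2, la3, va3, lb2, vb2, lb3, vb3, lc2, vc2, lc3, vc3, a2a3, a2b2, a2b3, a2c2, a2c3, a2a1, a2a4, a2b1, a2b4, a2c1, a2c4, a3b2, a3b3, a3c2, a3c3, a3a1, a3a4, a3b1, a3b4, a3c1, a3c4, b2b3, b2c2, b2c3, b2a1, b2a4, b2b1, b2b4, b2c1, b2c4, b3c2, b3c3, b3a1, b3a4, b3b1, b3b4, b3c1, b3c4, c2c3, c2a1, c2a4, c2b1, c2b4, c2c1, c2c4, c3a1, c3a4, c3b1, c3b4, c3c1, c3c4⟩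
  have e := br_share hg H (!α) (!β) (!γ) (chi tAB) (chi tBC) (chi tCA)
  simp only [Bool.not_not] at e
  rw [br_share hg H, e]
  exact br_shared hg H α β γ tAB tBC tCA ht

end Pool.Agent.P.MP_9b2cf8_gt
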