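import Pool.Agent.P.MP_9b2cf8_gt.Br

namespace Pool.Agent.P.MP_9b2cf8_gt

namespace RPull

/-- The passes of a list of crossings. -/
def fl (cs : List (Pass × Pass)) : List Pass := cs.flatMap fun e => [e.1, e.2]

theorem fl_cons (e : Pass × Pass) (cs : List (Pass × Pass)) :
    fl (e :: cs) = e.1 :: e.2 :: fl cs := rfl

theorem mem_fl {p : Pass} {cs : List (Pass × Pass)} : p ∈ fl cs ↔ ∃ e ∈ cs, p = e.1 ∨ p = e.2 := by
  simp [fl]

/-- Reordering of the crossings and of the two passes of a crossing. -/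
inductive Sim : List (Pass × Pass) → List (Pass × Pass) → Prop
  | perm {cs ds} : cs.Perm ds → Sim cs ds
  | swap (e cs) : Sim (e :: cs) (e.swap :: cs)
  | cons (e) {cs ds} : Sim cs ds → Sim (e :: cs) (e :: ds)
  | trans {cs ds es} : Sim cs ds → Sim ds es → Sim cs es

theorem Sim.symm {cs ds : List (Pass × Pass)} (h : Sim cs ds) : Sim ds cs := by
  induction h with
  | perm h => exact Sim.perm h.symm
  | swap e cs => simpa using Sim.swap e.swap cs
  | cons e _ ih => exact Sim.cons e ih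
  | trans _ _ ih1 ih2 => exact Sim.trans ih2 ih1

theorem Sim.fl_perm {cs ds : List (Pass × Pass)} (h : Sim cs ds) : (fl cs).Perm (fl ds) := by
  induction h with
  | perm h => exact h.flatMap_right _
  | swap e cs => exact List.Perm.swap _ _ _
  | cons e _ ih => exact (ih.cons _).cons _
  | trans _ _ ih1 ih2 => exact ih1.trans ih2

theorem Sim.all {P : Pass × Pass → Prop} (hP : ∀ e, P e → P e.swap) {cs ds : List (Pass × Pass)}
    (h : Sim cs ds) (hc : ∀ e ∈ cs, P e) : ∀ e ∈ ds, P e := by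
  induction h with
  | perm h => exact fun e he => hc e (h.mem_iff.2 he)
  | swap e cs =>
    rw [List.forall_mem_cons] at hc ⊢
    exact ⟨hP _ hc.1, hc.2⟩
  | cons e _ ih =>
    rw [List.forall_mem_cons] at hc ⊢
    exact ⟨hc.1, ih hc.2⟩
  | trans _ _ ih1 ih2 => exact ih2 (ih1 hc)

theorem tl_swap (col : ℕ → ZMod 4) (e : Pass × Pass) : tl col e.swap = tl col e := by
  simp only [tl, Prod.fst_swap, Prod.snd_swap]
  ring

theorem Sim.br_eq {g : Fn ℂ} (hg : Sy g) (col : ℕ → ZMod 4) {cs ds : List (Pass × Pass)}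
    (h : Sim cs ds) : br g (cs.map fun e => lab (crs e) (chi (tl col e))) =
      br g (ds.map fun e => lab (crs e) (chi (tl col e))) := by
  induction h with
  | perm h => exact br_perm g (h.map _)
  | swap e cs =>
    simp only [List.map_cons, br_cons, tl_swap, lab, crs, Prod.fst_swap, Prod.snd_swap]
    exact T_sw (sy_br hg _) _ _ _ _ _ _ _
  | cons e _ ih => simp only [List.map_cons, br_cons, ih]
  | trans _ _ ih1 ih2 => exact ih1.trans ih2

theorem pull_core (ps cs : List (Pass × Pass)) (hn : ∀ e ∈ cs, e.1.1 = e.2.1)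
    (hc : ∀ a, ((fl cs).map Prod.fst).count a ≤ 2) (hnd : (fl ps).Nodup)
    (hmem : ∀ e ∈ ps, e.1 ∈ fl cs ∧ e.2 ∈ fl cs ∧ e.1.1 = e.2.1) :
    ∃ ds, Sim cs (ps ++ ds) := by
  induction ps generalizing cs with
  | nil => exact ⟨cs, Sim.perm (List.Perm.refl _)⟩
  | cons e ps ih =>
    obtain ⟨h1, h2, h3⟩ := hmem e List.mem_cons_self
    obtain ⟨c, hcm, hc1⟩ := mem_fl.1 h1
    obtain ⟨u, v, rfl⟩ := List.append_of_mem hcm
    have hp : (u ++ c :: v).Perm (c :: (u ++ v)) := List.perm_middle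
    have hp' := (Sim.perm hp).fl_perm
    rw [fl_cons, List.nodup_cons, List.nodup_cons, List.mem_cons, not_or] at hnd
    have hcn := hn c hcm
    have h4 : e.2 ∉ fl (u ++ v) := by
      intro h
      have h5 := hc e.1.1
      rw [(hp'.map _).count_eq, fl_cons, List.map_cons, List.map_cons] at h5
      have h6 : c.1.1 = e.1.1 := by
        rcases hc1 with h | h
        · rw [h]
        · rw [h]; exact hcn
      have h7 : 0 < ((fl (u ++ v)).map Prod.fst).count e.1.1 :=
        List.count_pos_iff.2 (List.mem_map.2 ⟨_, h, h3.symm⟩)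
      rw [← hcn, h6, List.count_cons_self, List.count_cons_self] at h5
      omega
    have h5 : e.2 = c.1 ∨ e.2 = c.2 := by
      have := hp'.mem_iff.1 h2
      rw [fl_cons, List.mem_cons, List.mem_cons] at this
      tauto
    have hs : Sim (u ++ c :: v) (e :: (u ++ v)) := by
      rcases hc1 with h | h <;> rcases h5 with h' | h'
      · exact absurd (h.trans h'.symm) hnd.1.1
      · rw [show e = c from Prod.ext h h']
        exact Sim.perm hp
      · rw [show e = c.swap from Prod.ext h h']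
        exact Sim.trans (Sim.perm hp) (Sim.swap _ _)
      · exact absurd (h.trans h'.symm) hnd.1.1
    have hq := hs.fl_perm
    have hin : ∀ p ∈ fl ps, p ∈ fl (u ++ c :: v) → p ∈ fl (u ++ v) := by
      intro p hp1 hp2
      have := hq.mem_iff.1 hp2
      rw [fl_cons, List.mem_cons, List.mem_cons] at this
      rcases this with rfl | rfl | h
      · exact absurd hp1 hnd.1.2
      · exact absurd hp1 hnd.2.1
      · exact h
    obtain ⟨ds, hds⟩ := ih (u ++ v)
      (fun d hd => hn d (hp.mem_iff.2 (List.mem_cons_of_mem _ hd)))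
      (fun a => by
        have h6 := hc a
        rw [(hp'.map _).count_eq, fl_cons, List.map_cons, List.map_cons] at h6
        exact le_trans (le_trans List.count_le_count_cons List.count_le_count_cons) h6)
      hnd.2.2
      (fun d hd => by
        obtain ⟨k1, k2, k3⟩ := hmem d (List.mem_cons_of_mem _ hd)
        exact ⟨hin _ (mem_fl.2 ⟨d, hd, Or.inl rfl⟩) k1, hin _ (mem_fl.2 ⟨d, hd, Or.inr rfl⟩) k2, k3⟩)
    exact ⟨ds, Sim.trans hs (Sim.cons e hds)⟩

theorem labels_mem {M : Mod} {w : List ℕ} (hM : M.Ok w) {e : Pass × Pass} (he : e ∈ M.cs) :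
    e.1.2.1 ∈ lbl M.l ∧ e.1.2.2 ∈ lbl M.l ∧ e.2.2.1 ∈ lbl M.l ∧ e.2.2.2 ∈ lbl M.l := by
  have h1 : e.1 ∈ M.l := hM.perm.mem_iff.1 (mem_fl.2 ⟨e, he, Or.inl rfl⟩)
  have h2 : e.2 ∈ M.l := hM.perm.mem_iff.1 (mem_fl.2 ⟨e, he, Or.inr rfl⟩)
  exact ⟨mem_lbl.2 ⟨_, h1, Or.inl rfl⟩, mem_lbl.2 ⟨_, h1, Or.inr rfl⟩,
    mem_lbl.2 ⟨_, h2, Or.inl rfl⟩, mem_lbl.2 ⟨_, h2, Or.inr rfl⟩⟩

/-- Reversal of a pass. -/
def rv (p : Pass) : Pass := (p.1, p.2.2, p.2.1)

theorem lbl_rv (l : List Pass) : lbl (l.map rv).reverse = (lbl l).reverse := by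
  induction l with
  | nil => rfl
  | cons p l ih =>
    rw [List.map_cons, List.reverse_cons, lbl_append, ih, lbl_cons, lbl_cons]
    simp [rv, lbl]

theorem arcs_rv (s t : ℕ) (l : List Pass) : arcs s (l.map rv).reverse t = arcs t l s := by
  induction l generalizing t with
  | nil => simp [arcs, Sym2.eq_swap]
  | cons p l ih =>
    rw [List.map_cons, List.reverse_cons, arcs_mid, ih]
    simp only [arcs, rv]
    rw [add_comm, Multiset.singleton_add, Sym2.eq_swap]

theorem path_rv {R : ℕ → ℕ → Prop} (hR : ∀ x y, R x y → R y x) {s t : ℕ} {l : List Pass}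
    (h : Path R t l s) : Path R s (l.map rv).reverse t := by
  induction l generalizing t with
  | nil => exact hR _ _ h
  | cons p l ih =>
    rw [List.map_cons, List.reverse_cons, path_mid]
    exact ⟨ih h.2, hR _ _ h.1⟩

theorem path_imp {R R' : ℕ → ℕ → Prop} (hR : ∀ x y, R x y → R' x y) {s t : ℕ} {l : List Pass}
    (h : Path R s l t) : Path R' s l t := by
  induction l generalizing s with
  | nil => exact hR _ _ h
  | cons p l ih => exact ⟨hR _ _ h.1, ih h.2⟩

theorem fl_map (f : Pass → Pass) (cs : List (Pass × Pass)) :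
    fl (cs.map fun e => (f e.1, f e.2)) = (fl cs).map f := by
  induction cs with
  | nil => rfl
  | cons e cs ih => rw [List.map_cons, fl_cons, fl_cons, ih]; rfl

/-- Renaming of a pass. -/
def rn (σ : ℕ → ℕ) (p : Pass) : Pass := (σ p.1, p.2)

theorem lbl_rn (σ : ℕ → ℕ) (l : List Pass) : lbl (l.map (rn σ)) = lbl l := by
  induction l with
  | nil => rfl
  | cons p l ih => rw [List.map_cons, lbl_cons, lbl_cons, ih]; rfl

theorem arcs_rn (σ : ℕ → ℕ) (s t : ℕ) (l : List Pass) : arcs s (l.map (rn σ)) t = arcs s l t := by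
  induction l generalizing s with
  | nil => rfl
  | cons p l ih => simp only [List.map_cons, arcs, ih]; rfl

theorem path_rn (σ : ℕ → ℕ) {R : ℕ → ℕ → Prop} {s t : ℕ} {l : List Pass} (h : Path R s l t) :
    Path R s (l.map (rn σ)) t := by
  induction l generalizing s with
  | nil => exact h
  | cons p l ih => exact ⟨h.1, ih h.2⟩

theorem br_rv {g : Fn ℂ} (hg : Sy g) (col : ℕ → ZMod 4) (cs : List (Pass × Pass))
    (h : ∀ e ∈ cs, tl (fun x => -col x - 1) (rv e.1, rv e.2) = tl col e) :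
    br g ((cs.map fun e => (rv e.1, rv e.2)).map
      fun e => lab (crs e) (chi (tl (fun x => -col x - 1) e))) =
      br g (cs.map fun e => lab (crs e) (chi (tl col e))) := by
  induction cs with
  | nil => rfl
  | cons e cs ih =>
    rw [List.forall_mem_cons] at h
    simp only [List.map_cons, br_cons, h.1]
    rw [ih h.2]
    simp only [lab, crs, rv]
    exact T_rev (sy_br hg _) _ _ _ _ _ _ _

end RPull

open RPull

/-- Chosen crossings can be brought to the front of the list, with their passes in a chosen order. -/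
theorem pull {M : Mod} {w : List ℕ} (hM : M.Ok w) (hw : IsGauss w) (ps : List (Pass × Pass))
    (hnd : (ps.flatMap fun e => [e.1, e.2]).Nodup)
    (hmem : ∀ e ∈ ps, e.1 ∈ M.l ∧ e.2 ∈ M.l ∧ e.1.1 = e.2.1) :
    ∃ cs : List (Pass × Pass), (Mod.mk M.l M.s M.col (ps ++ cs)).Ok w ∧
      (∀ g : Fn ℂ, Sy g → (Mod.mk M.l M.s M.col (ps ++ cs)).Phi g = M.Phi g) ∧
      ((Mod.mk M.l M.s M.col (ps ++ cs)).NZ ↔ M.NZ) := by
  obtain ⟨ds, hds⟩ := pull_core ps M.cs hM.name
    (fun a => by
      have h1 : ((fl M.cs).map Prod.fst).Perm w := hM.word ▸ hM.perm.map _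
      rw [h1.count_eq]
      by_cases ha : a ∈ w
      · exact (hw a ha).le
      · rw [List.count_eq_zero_of_not_mem ha]; omega)
    hnd
    (fun e he => ⟨hM.perm.mem_iff.2 (hmem e he).1, hM.perm.mem_iff.2 (hmem e he).2.1,
      (hmem e he).2.2⟩)
  refine ⟨ds, ⟨hM.word, hM.nd, hM.chain, hds.fl_perm.symm.trans hM.perm, ?_, ?_⟩, ?_, ?_⟩
  · exact hds.all (P := fun e => e.1.1 = e.2.1) (fun e h => h.symm) hM.name
  · exact hds.all (P := fun e => M.col e.1.2.2 = M.col e.1.2.1 + 2 * M.col e.2.2.1 + 1 ∧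
      M.col e.2.2.2 = M.col e.2.2.1 + 2 * M.col e.1.2.1 + 1) (fun e h => h.symm) hM.rule
  · intro g hg
    simp only [Mod.Phi]
    rw [hds.br_eq hg]
  · exact ⟨hds.symm.all (P := fun e => tl M.col e ≠ 0) fun e h => by rwa [tl_swap],
      hds.all (P := fun e => tl M.col e ≠ 0) fun e h => by rwa [tl_swap]⟩

theorem tr_rot {g : Fn ℂ} (hg : DF g) {M : Mod} {a : ℕ} {w : List ℕ} (hM : M.Ok (a :: w)) :
    ∃ M' : Mod, M'.Ok (w ++ [a]) ∧ M'.Phi g = M.Phi g ∧ (M.NZ → M'.NZ) := by
  obtain ⟨p, l, hl, hp, hw⟩ := List.map_eq_cons_iff.1 hM.word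
  have hnd := hM.nd
  have hch := hM.chain
  have hpm := hM.perm
  rw [hl] at hnd hch hpm
  have hs : M.s ∉ lbl (p :: l) := (List.nodup_cons.1 hnd).1
  have hs' := hs
  rw [lbl_cons, List.mem_cons, List.mem_cons, not_or, not_or] at hs'
  have hcol : ∀ x ∈ lbl (p :: l), Function.update M.col M.s (M.col p.2.2) x = M.col x := by
    intro x hx
    exact Function.update_of_ne (fun h : x = M.s => hs (h ▸ hx)) _ _
  have hlab : ∀ e ∈ M.cs, e.1.2.1 ∈ lbl (p :: l) ∧ e.1.2.2 ∈ lbl (p :: l) ∧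
      e.2.2.1 ∈ lbl (p :: l) ∧ e.2.2.2 ∈ lbl (p :: l) := fun e he => hl ▸ labels_mem hM he
  have htl : ∀ e ∈ M.cs, tl (Function.update M.col M.s (M.col p.2.2)) e = tl M.col e := by
    intro e he
    obtain ⟨h1, -, h3, -⟩ := hlab e he
    simp only [tl, hcol _ h1, hcol _ h3]
  have hperm : (l ++ [p]).Perm (p :: l) := List.perm_append_singleton p l
  refine ⟨⟨l ++ [p], M.s, Function.update M.col M.s (M.col p.2.2), M.cs⟩,
    ⟨?_, ?_, ?_, hpm.trans hperm.symm, hM.name, ?_⟩, ?_, ?_⟩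
  · simp [hw, hp]
  · exact ((hperm.flatMap_right _).cons _).nodup_iff.2 hnd
  · have hout : Function.update M.col M.s (M.col p.2.2) p.2.2 = M.col p.2.2 :=
      hcol _ (by simp [lbl_cons])
    have hss : Function.update M.col M.s (M.col p.2.2) M.s = M.col p.2.2 :=
      Function.update_self _ _ _
    refine path_mid.2 ⟨?_, hout.trans hss.symm⟩
    refine path_left (col_equiv _) (s := p.2.2) (hss.trans hout.symm) ?_
    have h1 := path_right (col_equiv _) hch.1 hch.2
    refine path_mono (S := fun x => x ∈ lbl (p :: l)) ?_ (by simp [lbl_cons]) (by simp [lbl_cons])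
      (fun m hm => by simp [lbl_cons, hm]) h1
    intro x y hx hy h
    simp only [hcol x hx, hcol y hy]
    exact h
  · intro e he
    obtain ⟨h1, h2, h3, h4⟩ := hlab e he
    simp only [hcol _ h1, hcol _ h2, hcol _ h3, hcol _ h4]
    exact hM.rule e he
  · simp only [Mod.Phi]
    rw [List.map_congr_left (fun e he => by rw [htl e he]), hl]
    have hav : AvL M.s (M.cs.map fun e => lab (crs e) (chi (tl M.col e))) := by
      intro c hc
      obtain ⟨e, he, rfl⟩ := List.mem_map.1 hc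
      obtain ⟨h1, h2, h3, h4⟩ := hlab e he
      simp only [lab, crs, not_mem_legs]
      exact ⟨fun h => hs (h ▸ h1), fun h => hs (h ▸ h3), fun h => hs (h ▸ h2),
        fun h => hs (h ▸ h4)⟩
    have hK : Av M.s 0 0 := ⟨by simp, by simp⟩
    have e1 := br_glue hg _ p.2.2 M.s p.2.1 l [] 0 0 hav hK hs'.2.1 hs'.2.2 (by simp [lbl]) hs'.1
    have e2 := br_glue hg _ p.2.2 M.s p.2.1 [] l 0 0 hav hK hs'.2.1 (by simp [lbl]) hs'.2.2 hs'.1
    rw [List.append_nil, add_zero] at e1
    rw [List.nil_append, add_zero] at e2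
    rw [arcs_mid, add_comm, e2, ← e1, add_comm]
    rfl
  · intro h e he
    rw [htl e he]
    exact h e he

theorem tr_rev {g : Fn ℂ} (hg : DF g) {M : Mod} {w : List ℕ} (hM : M.Ok w) :
    ∃ M' : Mod, M'.Ok w.reverse ∧ M'.Phi g = M.Phi g ∧ (M.NZ → M'.NZ) := by
  have htl : ∀ e ∈ M.cs, tl (fun x => -M.col x - 1) (rv e.1, rv e.2) = tl M.col e := by
    intro e he
    obtain ⟨h1, h2⟩ := hM.rule e he
    simp only [tl, rv, h1, h2]
    generalize M.col e.1.2.1 = a
    generalize M.col e.2.2.1 = b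
    revert a b
    decide
  refine ⟨⟨(M.l.map rv).reverse, M.s, fun x => -M.col x - 1, M.cs.map fun e => (rv e.1, rv e.2)⟩,
    ⟨?_, ?_, ?_, ?_, ?_, ?_⟩, ?_, ?_⟩
  · rw [← hM.word]
    simp only [List.map_reverse, List.map_map]
    rfl
  · simp only [lbl_rv]
    exact ((List.reverse_perm _).cons _).nodup_iff.2 hM.nd
  · refine path_rv (fun _ _ h => h.symm) (path_imp (fun x y h => ?_) hM.chain)
    simp only [h]
  · exact (fl_map rv M.cs ▸ hM.perm.map rv : (fl _).Perm _).trans (List.reverse_perm _).symm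
  · intro c hc
    obtain ⟨e, he, rfl⟩ := List.mem_map.1 hc
    exact hM.name e he
  · intro c hc
    obtain ⟨e, he, rfl⟩ := List.mem_map.1 hc
    obtain ⟨h1, h2⟩ := hM.rule e he
    simp only [rv, h1, h2]
    generalize M.col e.1.2.1 = a
    generalize M.col e.2.2.1 = b
    revert a b
    decide
  · simp only [Mod.Phi]
    rw [br_rv hg.sy _ _ htl, arcs_rv]
  · intro h c hc
    obtain ⟨e, he, rfl⟩ := List.mem_map.1 hc
    rw [htl e he]
    exact h e he

theorem tr_ren {g : Fn ℂ} {M : Mod} {w : List ℕ} (σ : Equiv.Perm ℕ) (hM : M.Ok w) :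
    ∃ M' : Mod, M'.Ok (w.map σ) ∧ M'.Phi g = M.Phi g ∧ (M.NZ → M'.NZ) := by
  refine ⟨⟨M.l.map (rn σ), M.s, M.col, M.cs.map fun e => (rn σ e.1, rn σ e.2)⟩,
    ⟨?_, ?_, path_rn σ hM.chain, ?_, ?_, ?_⟩, ?_, ?_⟩
  · rw [← hM.word]
    simp only [List.map_map]
    rfl
  · simp only [lbl_rn]
    exact hM.nd
  · exact (fl_map (rn σ) M.cs ▸ hM.perm.map (rn σ) : (fl _).Perm _)
  · intro c hc
    obtain ⟨e, he, rfl⟩ := List.mem_map.1 hc
    exact congrArg σ (hM.name e he)
  · intro c hc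
    obtain ⟨e, he, rfl⟩ := List.mem_map.1 hc
    exact hM.rule e he
  · simp only [Mod.Phi, arcs_rn, List.map_map]
    rfl
  · intro h c hc
    obtain ⟨e, he, rfl⟩ := List.mem_map.1 hc
    exact h e he

end Pool.Agent.P.MP_9b2cf8_gt
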