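import Pool.Agent.P.MP_9b2cf8_gt.Loc
import Pool.Agent.P.MP_9b2cf8_gt.Pull

namespace Pool.Agent.P.MP_9b2cf8_gt

theorem avl_r1 {cs : List (Pass × Pass)} {l : List Pass} (col : ℕ → ZMod 4) {m : ℕ}
    (h : (cs.flatMap fun e => [e.1, e.2]).Perm l) (hm : m ∉ lbl l) :
    AvL m (cs.map fun e => lab (crs e) (chi (tl col e))) := by
  intro e' he' hl
  obtain ⟨e, he, rfl⟩ := List.mem_map.1 he'
  have h1 : e.1 ∈ l := h.subset (List.mem_flatMap.2 ⟨e, he, by simp⟩)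
  have h2 : e.2 ∈ l := h.subset (List.mem_flatMap.2 ⟨e, he, by simp⟩)
  simp only [lab, crs, legs, List.mem_cons, List.not_mem_nil, or_false] at hl
  rcases hl with hl | hl | hl | hl
  exacts [hm (mem_lbl.2 ⟨_, h1, .inl hl⟩), hm (mem_lbl.2 ⟨_, h2, .inl hl⟩),
    hm (mem_lbl.2 ⟨_, h1, .inr hl⟩), hm (mem_lbl.2 ⟨_, h2, .inr hl⟩)]

theorem perm_r1 (l₁ l₂ : List Pass) (p q : Pass) :
    (l₁ ++ p :: q :: l₂).Perm (p :: q :: (l₁ ++ l₂)) :=
  List.perm_middle.trans (List.perm_middle.cons p)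

theorem lbl_r1 (s : ℕ) (l₁ l₂ : List Pass) (p q : Pass) : (s :: lbl (l₁ ++ p :: q :: l₂)).Perm
    (p.2.1 :: p.2.2 :: q.2.1 :: q.2.2 :: s :: lbl (l₁ ++ l₂)) := by
  have := ((perm_r1 l₁ l₂ p q).flatMap_right fun p => [p.2.1, p.2.2]).cons s
  exact this.trans (List.perm_middle (l₁ := [p.2.1, p.2.2, q.2.1, q.2.2])).symm

theorem core_r1 {g : Fn ℂ} (hg : DF g) {l₁ l₂ : List Pass} {p q : Pass} {s : ℕ} {col : ℕ → ZMod 4}
    {cs : List (Pass × Pass)} {w : List ℕ}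
    (h : (Mod.mk (l₁ ++ p :: q :: l₂) s col ((p, q) :: cs)).Ok w) :
    (Mod.mk (l₁ ++ l₂) s col cs).Ok ((l₁ ++ l₂).map Prod.fst) ∧
      (Mod.mk (l₁ ++ l₂) s col cs).Phi g =
        (Mod.mk (l₁ ++ p :: q :: l₂) s col ((p, q) :: cs)).Phi g := by
  obtain ⟨a, i₁, o₁⟩ := p
  obtain ⟨b, i₂, o₂⟩ := q
  have nd := (lbl_r1 s l₁ l₂ _ _).nodup_iff.1 h.nd
  have pm : (cs.flatMap fun e => [e.1, e.2]).Perm (l₁ ++ l₂) :=
    ((h.perm.trans (perm_r1 _ _ _ _)).cons_inv).cons_inv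
  obtain ⟨c1, c2, c3⟩ := path_mid.1 h.chain
  obtain ⟨r1, r2⟩ := h.rule _ List.mem_cons_self
  simp only at c1 c2 c3 r1 r2
  have t0 : tl col ((a, i₁, o₁), (b, i₂, o₂)) = 0 := by
    simp only [tl]
    linear_combination c2 - r1
  have t1 : col i₁ = col o₂ := by linear_combination r1 - c2 - r2
  simp only [List.nodup_cons, List.mem_cons, not_or] at nd
  obtain ⟨⟨n1, n2, n3, n4, n5⟩, ⟨n6, n7, n8, n9⟩, ⟨n10, n11, n12⟩, ⟨n13, n14⟩, nd⟩ := nd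
  refine ⟨⟨rfl, List.nodup_cons.2 nd, path_glue (col_equiv col) (path_right (col_equiv col) t1 c1) c3,
    pm, fun e he => h.name e (List.mem_cons_of_mem _ he),
    fun e he => h.rule e (List.mem_cons_of_mem _ he)⟩, ?_⟩
  have A := fun m => avl_r1 col (m := m) pm
  have B : ∀ m, Av m 0 0 := fun m => ⟨by simp, by simp⟩
  have e1 : arcs s (l₁ ++ (a, i₁, o₁) :: (b, i₂, o₂) :: l₂) s =
      s(o₁, i₂) ::ₘ (arcs s l₁ i₁ + (arcs o₂ l₂ s + 0)) := by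
    rw [arcs_mid]; simp [arcs]
  have e2 : s(i₁, o₂) ::ₘ (arcs s l₁ i₁ + (arcs o₂ l₂ s + 0)) =
      arcs s l₁ i₁ + arcs i₁ [] o₂ + (arcs o₂ l₂ s + 0) := by
    simp only [arcs, add_assoc, Multiset.singleton_add, Multiset.add_cons]
  have L : ∀ {m}, m ∉ lbl (l₁ ++ l₂) → m ∉ lbl l₁ ∧ m ∉ lbl l₂ := fun h => by
    simpa only [lbl_append, List.mem_append, not_or] using h
  simp only [Mod.Phi, List.map_cons, t0, chi_zero, e1]
  rw [show crs ((a, i₁, o₁), (b, i₂, o₂)) = (i₁, i₂, o₁, o₂) from rfl, brR1 hg _ _ _ _ _ _ n6, e2,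
    br_glue hg _ _ _ _ _ _ _ _ (A _ n5) (av_add (not_mem_arcs n3 (L n5).2 n4) (B _)) n4 (L n5).1
      (by simp [lbl]) n3, List.append_nil, ← add_assoc,
    br_glue hg _ _ _ _ _ _ _ _ (A _ n14) (B _) n13 (L n14).1 (L n14).2 n13, add_zero]
  simp only [List.mem_cons, List.not_mem_nil, or_false, forall_eq_or_imp, forall_eq, not_or]
  exact ⟨⟨⟨Ne.symm n1, n7⟩, A _ n9, av_add (not_mem_arcs n8 (L n9).1 (Ne.symm n1))
      (av_add (not_mem_arcs n7 (L n9).2 n8) (B _))⟩,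
    ⟨Ne.symm n2, n10⟩, A _ n12, av_add (not_mem_arcs n11 (L n12).1 (Ne.symm n2))
      (av_add (not_mem_arcs n10 (L n12).2 n11) (B _))⟩

theorem tr_r1_down {g : Fn ℂ} (hg : DF g) {M : Mod} {x y : List ℕ} {a : ℕ}
    (hw : IsGauss (x ++ a :: a :: y)) (hM : M.Ok (x ++ a :: a :: y)) :
    ∃ M' : Mod, M'.Ok (x ++ y) ∧ M'.Phi g = M.Phi g ∧ (M.NZ → M'.NZ) := by
  obtain ⟨l, s, col, cs⟩ := M
  obtain ⟨l₁, l', rfl, rfl, h⟩ := List.map_eq_append_iff.1 hM.word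
  obtain ⟨p, l', rfl, h1, h⟩ := List.map_eq_cons_iff.1 h
  obtain ⟨q, l₂, rfl, h2, rfl⟩ := List.map_eq_cons_iff.1 h
  have nd := (lbl_r1 s l₁ l₂ _ _).nodup_iff.1 hM.nd
  obtain ⟨cs', k1, k2, k3⟩ := pull hM hw [(p, q)]
    (by
      simp only [List.nodup_cons, List.mem_cons, not_or] at nd
      simpa using fun e : p = q => nd.1.2.1 (e ▸ rfl))
    (by simp [h1, h2])
  obtain ⟨j1, j2⟩ := core_r1 hg k1
  exact ⟨_, List.map_append ▸ j1, j2.trans (k2 g hg.sy),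
    fun h e he => k3.2 h e (List.mem_cons_of_mem _ he)⟩

theorem tr_r1_up {g : Fn ℂ} (hg : DF g) {M : Mod} {x y : List ℕ} (a : ℕ) (hM : M.Ok (x ++ y)) :
    ∃ M' : Mod, M'.Ok (x ++ a :: a :: y) ∧ M'.Phi g = M.Phi g := by
  obtain ⟨l, s, col, cs⟩ := M
  obtain ⟨l₁, l₂, rfl, rfl, rfl⟩ := List.map_eq_append_iff.1 hM.word
  obtain ⟨B, hB⟩ : ∃ B, ∀ m ∈ s :: lbl (l₁ ++ l₂), m < B :=
    ⟨_, fun m hm => Nat.lt_succ_of_le (List.single_le_sum (fun _ _ => Nat.zero_le _) m hm)⟩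
  obtain ⟨r, c1, c2⟩ := path_split (col_equiv col) hM.chain
  simp only at c1 c2
  obtain ⟨col', e0, e1, e2, e3, e4⟩ : ∃ col' : ℕ → ZMod 4, (∀ m < B, col' m = col m) ∧
      col' B = col r ∧ col' (B + 1) = -col r - 1 ∧ col' (B + 2) = -col r - 1 ∧
      col' (B + 3) = col r :=
    ⟨fun m => if m < B then col m else if m = B ∨ m = B + 3 then col r else -col r - 1,
      fun m h => if_pos h, by simp, by simp, by simp, by simp⟩
  have hs := hB s List.mem_cons_self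
  have hl : ∀ m ∈ lbl (l₁ ++ l₂), m < B := fun m h => hB m (List.mem_cons_of_mem _ h)
  have hc : ∀ e ∈ cs, col' e.1.2.1 = col e.1.2.1 ∧ col' e.1.2.2 = col e.1.2.2 ∧
      col' e.2.2.1 = col e.2.2.1 ∧ col' e.2.2.2 = col e.2.2.2 := fun e he => by
    have h1 := hM.perm.subset (List.mem_flatMap.2 ⟨e, he, (by simp : e.1 ∈ _)⟩)
    have h2 := hM.perm.subset (List.mem_flatMap.2 ⟨e, he, (by simp : e.2 ∈ _)⟩)
    exact ⟨e0 _ (hl _ (mem_lbl.2 ⟨_, h1, .inl rfl⟩)), e0 _ (hl _ (mem_lbl.2 ⟨_, h1, .inr rfl⟩)),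
      e0 _ (hl _ (mem_lbl.2 ⟨_, h2, .inl rfl⟩)), e0 _ (hl _ (mem_lbl.2 ⟨_, h2, .inr rfl⟩))⟩
  have P : ∀ (l : List Pass) u u' v v', (∀ m ∈ lbl l, m < B) → col' u' = col u → col' v' = col v →
      Path (fun x y => col x = col y) u l v → Path (fun x y => col' x = col' y) u' l v' := by
    intro l
    induction l with
    | nil => exact fun u u' v v' _ a b c => a.trans (Eq.trans c b.symm)
    | cons p l ih =>
      intro u u' v v' h a b c
      rw [lbl_cons] at h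
      exact ⟨a.trans (Eq.trans c.1 (e0 _ (h _ (by simp))).symm),
        ih _ _ _ _ (fun m hm => h m (by simp [hm])) (e0 _ (h _ (by simp))) b c.2⟩
  have ok : (Mod.mk (l₁ ++ (a, B, B + 1) :: (a, B + 2, B + 3) :: l₂) s col'
      (((a, B, B + 1), (a, B + 2, B + 3)) :: cs)).Ok
      (l₁.map Prod.fst ++ a :: a :: l₂.map Prod.fst) := by
    refine ⟨by simp, (lbl_r1 s l₁ l₂ _ _).nodup_iff.2 ?_, path_mid.2 ⟨?_, e2.trans e3.symm, ?_⟩,
      ((hM.perm.cons _).cons _).trans (perm_r1 _ _ _ _).symm, ?_, ?_⟩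
    · have N : ∀ m, B ≤ m → m ∉ s :: lbl (l₁ ++ l₂) := fun m h h' => (hB m h').not_ge h
      refine List.nodup_cons.2 ⟨?_, List.nodup_cons.2 ⟨?_, List.nodup_cons.2 ⟨?_,
        List.nodup_cons.2 ⟨N _ (by simp), hM.nd⟩⟩⟩⟩
      · simpa using N B le_rfl
      · simpa using N (B + 1) (by simp)
      · simpa using N (B + 2) (by simp)
    · exact P _ _ _ _ _ (fun m h => hl m (by simp [lbl_append, h])) (e0 _ hs) e1 c1
    · exact P _ _ _ _ _ (fun m h => hl m (by simp [lbl_append, h])) e4 (e0 _ hs) c2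
    · exact List.forall_mem_cons.2 ⟨rfl, hM.name⟩
    · refine List.forall_mem_cons.2 ⟨?_, fun e he => ?_⟩
      · simp only [e1, e2, e3, e4]
        constructor <;> ring
      · obtain ⟨h1, h2, h3, h4⟩ := hc e he
        simp only [h1, h2, h3, h4]
        exact hM.rule e he
  refine ⟨_, ok, (core_r1 hg ok).2.symm.trans ?_⟩
  simp only [Mod.Phi]
  congr 1
  exact List.map_congr_left fun e he => by simp only [tl, (hc e he).1, (hc e he).2.2.1]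

end Pool.Agent.P.MP_9b2cf8_gt
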