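import Pool.Agent.P.MP_9b2cf8_gt.Loc
import Pool.Agent.P.MP_9b2cf8_gt.Pull

namespace Pool.Agent.P.MP_9b2cf8_gt

theorem perm_big_r2a {α : Type} (l₁ l₂ l₃ : List α) (p₁ p₂ p₃ p₄ : α) :
    (l₁ ++ p₁ :: p₂ :: (l₂ ++ p₃ :: p₄ :: l₃)).Perm
      (p₁ :: p₄ :: p₂ :: p₃ :: (l₁ ++ (l₂ ++ l₃))) := by
  classical
  rw [List.perm_iff_count]
  intro a
  simp only [List.count_append, List.count_cons]
  omega

theorem lbl_perm_r2a (s : ℕ) (l₁ l₂ l₃ : List Pass) (p₁ p₂ p₃ p₄ : Pass) :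
    (s :: lbl (l₁ ++ p₁ :: p₂ :: (l₂ ++ p₃ :: p₄ :: l₃))).Perm
      ([p₁.2.1, p₁.2.2, p₂.2.1, p₂.2.2, p₃.2.1, p₃.2.2, p₄.2.1, p₄.2.2] ++
        s :: lbl (l₁ ++ (l₂ ++ l₃))) := by
  rw [List.perm_iff_count]
  intro a
  simp only [lbl_append, lbl_cons, List.count_append, List.count_cons, List.count_nil]
  omega

theorem mem_of_perm_r2a {cs : List (Pass × Pass)} {l : List Pass}
    (hp : (cs.flatMap fun e => [e.1, e.2]).Perm l) {e : Pass × Pass} (he : e ∈ cs) :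
    e.1 ∈ l ∧ e.2 ∈ l :=
  ⟨hp.mem_iff.1 (List.mem_flatMap.2 ⟨e, he, by simp⟩),
    hp.mem_iff.1 (List.mem_flatMap.2 ⟨e, he, by simp⟩)⟩

theorem avl_r2a {cs : List (Pass × Pass)} {l : List Pass} (col : ℕ → ZMod 4)
    (hp : (cs.flatMap fun e => [e.1, e.2]).Perm l) {m : ℕ} (hm : m ∉ lbl l) :
    AvL m (cs.map fun e => lab (crs e) (chi (tl col e))) := by
  intro e he
  obtain ⟨e', he', rfl⟩ := List.mem_map.1 he
  obtain ⟨h1, h2⟩ := mem_of_perm_r2a hp he'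
  simp only [lab, crs, not_mem_legs]
  refine ⟨fun h => hm (mem_lbl.2 ⟨_, h1, Or.inl h⟩), fun h => hm (mem_lbl.2 ⟨_, h2, Or.inl h⟩),
    fun h => hm (mem_lbl.2 ⟨_, h1, Or.inr h⟩), fun h => hm (mem_lbl.2 ⟨_, h2, Or.inr h⟩)⟩

theorem av_zero_r2a (m : ℕ) : Av m 0 0 := ⟨by simp, by simp⟩

theorem av_arcs_r2a {s t m : ℕ} {l : List Pass} {P : Multiset (Sym2 ℕ)} (hs : m ≠ s)
    (hl : m ∉ lbl l) (ht : m ≠ t) (h : Av m 0 P) : Av m 0 (arcs s l t + P) :=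
  av_add (not_mem_arcs hs hl ht) h

theorem colours_r2a (x y m₁ m₂ u v : ZMod 4) (h1 : m₁ = x + 2 * m₂ + 1) (h2 : v = m₂ + 2 * x + 1)
    (h3 : u = m₁ + 2 * y + 1) (h4 : m₂ = y + 2 * m₁ + 1) :
    u = x ∧ v = y ∧ (x + m₂ + 1) + (m₁ + y + 1) = 0 := by
  subst h2 h3
  revert x y m₁ m₂
  decide

theorem core_r2a {g : Fn ℂ} (hg : DF g) (l₁ l₂ l₃ : List Pass) (p₁ p₂ p₃ p₄ : Pass) (s : ℕ)
    (col : ℕ → ZMod 4) (cs : List (Pass × Pass)) {w : List ℕ}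
    (h : (Mod.mk (l₁ ++ p₁ :: p₂ :: (l₂ ++ p₃ :: p₄ :: l₃)) s col
      ((p₁, p₄) :: (p₂, p₃) :: cs)).Ok w) :
    (Mod.mk (l₁ ++ (l₂ ++ l₃)) s col cs).Ok ((l₁ ++ (l₂ ++ l₃)).map Prod.fst) ∧
      (Mod.mk (l₁ ++ (l₂ ++ l₃)) s col cs).Phi g =
        (Mod.mk (l₁ ++ p₁ :: p₂ :: (l₂ ++ p₃ :: p₄ :: l₃)) s col
          ((p₁, p₄) :: (p₂, p₃) :: cs)).Phi g := by
  obtain ⟨-, hnd, hch, hperm, hname, hrule⟩ := h
  dsimp only at hnd hch hperm hname hrule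
  have hnd' := (lbl_perm_r2a s l₁ l₂ l₃ p₁ p₂ p₃ p₄).nodup_iff.1 hnd
  rw [List.nodup_append] at hnd'
  obtain ⟨hn8, hns, hdis⟩ := hnd'
  have hperm' : (cs.flatMap fun e => [e.1, e.2]).Perm (l₁ ++ (l₂ ++ l₃)) := by
    have := hperm.trans (perm_big_r2a l₁ l₂ l₃ p₁ p₂ p₃ p₄)
    simp only [List.flatMap_cons, List.cons_append, List.nil_append] at this
    exact this.cons_inv.cons_inv.cons_inv.cons_inv
  rw [path_mid] at hch
  obtain ⟨hc1, hc2, hc3⟩ := hch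
  rw [path_mid] at hc3
  obtain ⟨hc3, hc4, hc5⟩ := hc3
  obtain ⟨hr1, hr2⟩ := hrule (p₁, p₄) (by simp)
  obtain ⟨hr3, hr4⟩ := hrule (p₂, p₃) (by simp)
  obtain ⟨a₁, i₁, o₁⟩ := p₁
  obtain ⟨a₂, j₁, q₁⟩ := p₂
  obtain ⟨a₃, j₂, q₂⟩ := p₃
  obtain ⟨a₄, i₂, o₂⟩ := p₄
  dsimp only at hn8 hdis hc1 hc2 hc3 hc4 hc5 hr1 hr2 hr3 hr4
  obtain ⟨k1, k2, k3⟩ := colours_r2a (col i₁) (col j₂) (col j₁) (col i₂) (col q₁) (col o₂)
    (hc2 ▸ hr1) hr2 hr3 (hc4 ▸ hr4)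
  have hfr : ∀ m ∈ [i₁, o₁, j₁, q₁, j₂, q₂, i₂, o₂],
      m ≠ s ∧ m ∉ lbl l₁ ∧ m ∉ lbl l₂ ∧ m ∉ lbl l₃ := by
    intro m hm
    have h1 := hdis m hm
    refine ⟨h1 s (by simp), fun h2 => h1 m ?_ rfl, fun h2 => h1 m ?_ rfl, fun h2 => h1 m ?_ rfl⟩ <;>
      simp [lbl_append, h2]
  have hav : ∀ m ∈ [i₁, o₁, j₁, q₁, j₂, q₂, i₂, o₂],
      AvL m (cs.map fun e => lab (crs e) (chi (tl col e))) := by
    intro m hm
    obtain ⟨-, h1, h2, h3⟩ := hfr m hm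
    exact avl_r2a col hperm' (by simp [lbl_append, h1, h2, h3])
  refine ⟨⟨rfl, hns, ?_, hperm', fun e he => hname e (by simp [he]),
    fun e he => hrule e (by simp [he])⟩, ?_⟩
  · refine path_glue (col_equiv col) hc1 (path_glue (col_equiv col)
      (path_left (col_equiv col) k1.symm hc3) (path_left (col_equiv col) k2.symm hc5))
  · have hAB : chi (col i₁ + col i₂ + 1) * chi (col j₁ + col j₂ + 1) = 1 := by
      rw [← chi_add, k3, chi_zero]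
    simp only [List.nodup_cons, List.mem_cons, List.not_mem_nil, or_false, not_or,
      List.nodup_nil, and_true, not_false_eq_true] at hn8
    obtain ⟨⟨n01, n02, n03, n04, n05, n06, n07⟩, ⟨n12, n13, n14, n15, n16, n17⟩,
      ⟨n23, n24, n25, n26, n27⟩, ⟨n34, n35, n36, n37⟩, ⟨n45, n46, n47⟩, ⟨n56, n57⟩, n67⟩ := hn8
    obtain ⟨s0, f01, f02, f03⟩ := hfr i₁ (by simp)
    obtain ⟨s1, f11, f12, f13⟩ := hfr o₁ (by simp)
    obtain ⟨s2, f21, f22, f23⟩ := hfr j₁ (by simp)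
    obtain ⟨s3, f31, f32, f33⟩ := hfr q₁ (by simp)
    obtain ⟨s4, f41, f42, f43⟩ := hfr j₂ (by simp)
    obtain ⟨s5, f51, f52, f53⟩ := hfr q₂ (by simp)
    obtain ⟨s6, f61, f62, f63⟩ := hfr i₂ (by simp)
    obtain ⟨s7, f71, f72, f73⟩ := hfr o₂ (by simp)
    have e1 : arcs s (l₁ ++ (a₁, i₁, o₁) :: (a₂, j₁, q₁) ::
          (l₂ ++ (a₃, j₂, q₂) :: (a₄, i₂, o₂) :: l₃)) s =
        s(o₁, j₁) ::ₘ s(q₂, i₂) ::ₘ
          (arcs s l₁ i₁ + (arcs q₁ l₂ j₂ + (arcs o₂ l₃ s + 0))) := by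
      simp only [arcs_mid, arcs, Multiset.add_cons, add_zero]
    have key := brR2a hg (cs.map fun e => lab (crs e) (chi (tl col e)))
      (arcs s l₁ i₁ + (arcs q₁ l₂ j₂ + (arcs o₂ l₃ s + 0))) i₁ i₂ o₁ o₂ j₁ j₂ q₁ q₂ hAB
      (by simp [n12, n15, n16, n25, n26, n56]) (by
        intro m hm
        simp only [List.mem_cons, List.not_mem_nil, or_false] at hm
        rcases hm with rfl | rfl | rfl | rfl
        · exact ⟨by simp [Ne.symm n01, n13, n14, n17], hav _ (by simp),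
            av_arcs_r2a s1 f11 (Ne.symm n01) (av_arcs_r2a n13 f12 n14
              (av_arcs_r2a n17 f13 s1 (av_zero_r2a _)))⟩
        · exact ⟨by simp [Ne.symm n02, n23, n24, n27], hav _ (by simp),
            av_arcs_r2a s2 f21 (Ne.symm n02) (av_arcs_r2a n23 f22 n24
              (av_arcs_r2a n27 f23 s2 (av_zero_r2a _)))⟩
        · exact ⟨by simp [Ne.symm n05, Ne.symm n35, Ne.symm n45, n57], hav _ (by simp),
            av_arcs_r2a s5 f51 (Ne.symm n05) (av_arcs_r2a (Ne.symm n35) f52 (Ne.symm n45)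
              (av_arcs_r2a n57 f53 s5 (av_zero_r2a _)))⟩
        · exact ⟨by simp [Ne.symm n06, Ne.symm n36, Ne.symm n46, n67], hav _ (by simp),
            av_arcs_r2a s6 f61 (Ne.symm n06) (av_arcs_r2a (Ne.symm n36) f62 (Ne.symm n46)
              (av_arcs_r2a n67 f63 s6 (av_zero_r2a _)))⟩)
    have g1 := br_glue hg (cs.map fun e => lab (crs e) (chi (tl col e))) s i₁ q₁ l₁ [] 0
      (arcs q₁ l₂ j₂ + (arcs j₂ [] o₂ + (arcs o₂ l₃ s + 0))) (hav _ (by simp))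
      (av_arcs_r2a n03 f02 n04 (av_arcs_r2a n04 (by simp [lbl]) n07
        (av_arcs_r2a n07 f03 s0 (av_zero_r2a _)))) s0 f01 (by simp [lbl]) n03
    have g2 := br_glue hg (cs.map fun e => lab (crs e) (chi (tl col e))) s q₁ j₂ l₁ l₂ 0
      (arcs j₂ [] o₂ + (arcs o₂ l₃ s + 0)) (hav _ (by simp))
      (av_arcs_r2a n34 (by simp [lbl]) n37 (av_arcs_r2a n37 f33 s3 (av_zero_r2a _)))
      s3 f31 f32 n34
    have g3 := br_glue hg (cs.map fun e => lab (crs e) (chi (tl col e))) s j₂ o₂ (l₁ ++ l₂) [] 0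
      (arcs o₂ l₃ s + 0) (hav _ (by simp)) (av_arcs_r2a n47 f43 s4 (av_zero_r2a _))
      s4 (by simp [lbl_append, f41, f42]) (by simp [lbl]) n47
    have g4 := br_glue hg (cs.map fun e => lab (crs e) (chi (tl col e))) s o₂ s (l₁ ++ l₂) l₃ 0
      0 (hav _ (by simp)) (av_zero_r2a _) s7 (by simp [lbl_append, f71, f72]) f73 s7
    have e2 : s(i₁, q₁) ::ₘ s(j₂, o₂) ::ₘ (arcs s l₁ i₁ + (arcs q₁ l₂ j₂ + (arcs o₂ l₃ s + 0))) =
        arcs s l₁ i₁ + arcs i₁ [] q₁ + (arcs q₁ l₂ j₂ + (arcs j₂ [] o₂ + (arcs o₂ l₃ s + 0))) := by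
      simp only [arcs, ← Multiset.singleton_add]
      abel
    simp only [List.append_nil] at g1 g3
    rw [add_assoc] at g2 g3 g4
    rw [e2, g1, g2, g3, g4, add_zero (arcs s (l₁ ++ l₂ ++ l₃) s), List.append_assoc] at key
    simp only [Mod.Phi, List.map_cons, e1]
    exact key.symm

theorem tr_r2a_down {g : Fn ℂ} (hg : DF g) {M : Mod} {x y z : List ℕ} {a b : ℕ}
    (hw : IsGauss (x ++ a :: b :: (y ++ b :: a :: z)))
    (hM : M.Ok (x ++ a :: b :: (y ++ b :: a :: z))) :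
    ∃ M' : Mod, M'.Ok (x ++ (y ++ z)) ∧ M'.Phi g = M.Phi g ∧ (M.NZ → M'.NZ) := by
  obtain ⟨l₁, r₁, hl, rfl, hr₁⟩ := List.map_eq_append_iff.1 hM.word
  obtain ⟨p₁, r₂, rfl, ha₁, hr₂⟩ := List.map_eq_cons_iff.1 hr₁
  obtain ⟨p₂, r₃, rfl, ha₂, hr₃⟩ := List.map_eq_cons_iff.1 hr₂
  obtain ⟨l₂, r₄, rfl, rfl, hr₄⟩ := List.map_eq_append_iff.1 hr₃
  obtain ⟨p₃, r₅, rfl, ha₃, hr₅⟩ := List.map_eq_cons_iff.1 hr₄
  obtain ⟨p₄, l₃, rfl, ha₄, rfl⟩ := List.map_eq_cons_iff.1 hr₅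
  have hnd := hM.nd
  rw [hl] at hnd
  have hn8 := (List.nodup_append.1 ((lbl_perm_r2a M.s l₁ l₂ l₃ p₁ p₂ p₃ p₄).nodup_iff.1 hnd)).1
  simp only [List.nodup_cons, List.mem_cons, List.not_mem_nil, or_false, not_or,
    List.nodup_nil, and_true, not_false_eq_true] at hn8
  obtain ⟨⟨-, n02, -, n04, -, n06, -⟩, -, ⟨-, n24, -, n26, -⟩, -, ⟨-, n46, -⟩, -, -⟩ := hn8
  have h12 : p₁ ≠ p₂ := fun h => n02 (by rw [h])
  have h13 : p₁ ≠ p₃ := fun h => n04 (by rw [h])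
  have h14 : p₁ ≠ p₄ := fun h => n06 (by rw [h])
  have h23 : p₂ ≠ p₃ := fun h => n24 (by rw [h])
  have h42 : p₄ ≠ p₂ := fun h => n26 (by rw [h])
  have h43 : p₄ ≠ p₃ := fun h => n46 (by rw [h])
  obtain ⟨cs, hok, hphi, hnz⟩ := pull hM hw [(p₁, p₄), (p₂, p₃)]
    (by simp [h12, h13, h14, h23, h42, h43]) (by
      intro e he
      simp only [List.mem_cons, List.not_mem_nil, or_false] at he
      rcases he with rfl | rfl
      · exact ⟨by simp [hl], by simp [hl], ha₁.trans ha₄.symm⟩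
      · exact ⟨by simp [hl], by simp [hl], ha₂.trans ha₃.symm⟩)
  have hphi' := hphi g hg.sy
  rw [hl] at hok hphi' hnz
  obtain ⟨k1, k2⟩ := core_r2a hg l₁ l₂ l₃ p₁ p₂ p₃ p₄ M.s M.col cs hok
  refine ⟨_, by simpa only [List.map_append] using k1, k2.trans hphi', fun h e he => ?_⟩
  exact hnz.2 h e (by simp [show e ∈ cs from he])

/-- Colours of the eight new labels. -/
def newcol_r2a (B : ℕ) (col : ℕ → ZMod 4) (x y : ZMod 4) (n : ℕ) : ZMod 4 :=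
  if n < B then col n else
    if n = B ∨ n = B + 3 then x else
      if n = B + 1 ∨ n = B + 2 then x - 2 * y - 1 else
        if n = B + 4 ∨ n = B + 7 then y else y - 2 * x - 1

theorem colours_up_r2a (x y : ZMod 4) :
    (x - 2 * y - 1 = x + 2 * (y - 2 * x - 1) + 1 ∧ y = y - 2 * x - 1 + 2 * x + 1) ∧
      x = x - 2 * y - 1 + 2 * y + 1 ∧ y - 2 * x - 1 = y + 2 * (x - 2 * y - 1) + 1 := by
  revert x y
  decide

theorem tr_r2a_up {g : Fn ℂ} (hg : DF g) {M : Mod} {x y z : List ℕ} (a b : ℕ)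
    (hM : M.Ok (x ++ (y ++ z))) :
    ∃ M' : Mod, M'.Ok (x ++ a :: b :: (y ++ b :: a :: z)) ∧ M'.Phi g = M.Phi g := by
  obtain ⟨l, s, col, cs⟩ := M
  obtain ⟨hword, hnd, hch, hperm, hname, hrule⟩ := hM
  dsimp only at hword hnd hch hperm hname hrule
  obtain ⟨l₁, r₁, rfl, rfl, hr⟩ := List.map_eq_append_iff.1 hword
  obtain ⟨l₂, l₃, rfl, rfl, rfl⟩ := List.map_eq_append_iff.1 hr
  obtain ⟨r₁, hc1, hc2⟩ := path_split (col_equiv col) hch
  obtain ⟨r₂, hc2, hc3⟩ := path_split (col_equiv col) hc2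
  obtain ⟨B, hB⟩ : ∃ B : ℕ, ∀ m ∈ r₁ :: r₂ :: s :: lbl (l₁ ++ (l₂ ++ l₃)), m < B :=
    ⟨(r₁ :: r₂ :: s :: lbl (l₁ ++ (l₂ ++ l₃))).sum + 1, fun m hm =>
      Nat.lt_succ_of_le (List.single_le_sum (fun _ _ => Nat.zero_le _) m hm)⟩
  set c := newcol_r2a B col (col r₁) (col r₂) with hc
  have hlow : ∀ m, m < B → c m = col m := fun m hm => by simp [hc, newcol_r2a, hm]
  have c0 : c B = col r₁ := by simp [hc, newcol_r2a]
  have c1 : c (B + 1) = col r₁ - 2 * col r₂ - 1 := by simp [hc, newcol_r2a]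
  have c2 : c (B + 2) = col r₁ - 2 * col r₂ - 1 := by simp [hc, newcol_r2a]
  have c3 : c (B + 3) = col r₁ := by simp [hc, newcol_r2a]
  have c4 : c (B + 4) = col r₂ := by simp [hc, newcol_r2a]
  have c5 : c (B + 5) = col r₂ - 2 * col r₁ - 1 := by simp [hc, newcol_r2a]
  have c6 : c (B + 6) = col r₂ - 2 * col r₁ - 1 := by simp [hc, newcol_r2a]
  have c7 : c (B + 7) = col r₂ := by simp [hc, newcol_r2a]
  have hs : s < B := hB s (by simp)
  have hr₁ : r₁ < B := hB r₁ (by simp)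
  have hr₂ : r₂ < B := hB r₂ (by simp)
  have hl : ∀ m ∈ lbl (l₁ ++ (l₂ ++ l₃)), m < B := fun m hm => hB m (by simp [hm])
  have hmono : ∀ u v, u < B → v < B → col u = col v → c u = c v := fun u v hu hv h => by
    rw [hlow u hu, hlow v hv, h]
  have hd1 : Path (fun u v => c u = c v) s l₁ r₁ :=
    path_mono (· < B) hmono hs hr₁ (fun m hm => hl m (by simp [lbl_append, hm])) hc1
  have hd2 : Path (fun u v => c u = c v) r₁ l₂ r₂ :=
    path_mono (· < B) hmono hr₁ hr₂ (fun m hm => hl m (by simp [lbl_append, hm])) hc2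
  have hd3 : Path (fun u v => c u = c v) r₂ l₃ s :=
    path_mono (· < B) hmono hr₂ hs (fun m hm => hl m (by simp [lbl_append, hm])) hc3
  have hcs : ∀ e ∈ cs, c e.1.2.1 = col e.1.2.1 ∧ c e.1.2.2 = col e.1.2.2 ∧
      c e.2.2.1 = col e.2.2.1 ∧ c e.2.2.2 = col e.2.2.2 := by
    intro e he
    obtain ⟨h1, h2⟩ := mem_of_perm_r2a hperm he
    exact ⟨hlow _ (hl _ (mem_lbl.2 ⟨_, h1, Or.inl rfl⟩)),
      hlow _ (hl _ (mem_lbl.2 ⟨_, h1, Or.inr rfl⟩)),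
      hlow _ (hl _ (mem_lbl.2 ⟨_, h2, Or.inl rfl⟩)),
      hlow _ (hl _ (mem_lbl.2 ⟨_, h2, Or.inr rfl⟩))⟩
  have hok : (Mod.mk (l₁ ++ (a, B, B + 1) :: (b, B + 2, B + 3) ::
      (l₂ ++ (b, B + 4, B + 5) :: (a, B + 6, B + 7) :: l₃)) s c
      (((a, B, B + 1), (a, B + 6, B + 7)) :: ((b, B + 2, B + 3), (b, B + 4, B + 5)) :: cs)).Ok
      (l₁.map Prod.fst ++ a :: b :: (l₂.map Prod.fst ++ b :: a :: l₃.map Prod.fst)) := by
    refine ⟨by simp, ?_, ?_, ?_, ?_, ?_⟩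
    · refine (lbl_perm_r2a s l₁ l₂ l₃ _ _ _ _).nodup_iff.2 (List.nodup_append.2 ⟨by simp, hnd, ?_⟩)
      intro u hu v hv
      have h1 : v < B := hB v (List.mem_cons_of_mem _ (List.mem_cons_of_mem _ hv))
      simp only [List.mem_cons, List.not_mem_nil, or_false] at hu
      omega
    · refine path_mid.2 ⟨path_right (col_equiv c) ?_ hd1, ?_, path_mid.2
        ⟨path_left (col_equiv c) ?_ (path_right (col_equiv c) ?_ hd2), ?_,
          path_left (col_equiv c) ?_ hd3⟩⟩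
      · exact (hlow _ hr₁).trans c0.symm
      · exact c1.trans c2.symm
      · exact c3.trans (hlow _ hr₁).symm
      · exact (hlow _ hr₂).trans c4.symm
      · exact c5.trans c6.symm
      · exact c7.trans (hlow _ hr₂).symm
    · refine List.Perm.trans ?_ (perm_big_r2a l₁ l₂ l₃ _ _ _ _).symm
      simp only [List.flatMap_cons, List.cons_append, List.nil_append]
      exact (((hperm.cons _).cons _).cons _).cons _
    · intro e he
      simp only [List.mem_cons] at he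
      rcases he with rfl | rfl | he
      · rfl
      · rfl
      · exact hname e he
    · intro e he
      simp only [List.mem_cons] at he
      rcases he with rfl | rfl | he
      · dsimp only
        rw [c0, c1, c6, c7]
        exact (colours_up_r2a _ _).1
      · dsimp only
        rw [c2, c3, c4, c5]
        exact (colours_up_r2a _ _).2
      · obtain ⟨h1, h2, h3, h4⟩ := hcs e he
        dsimp only
        rw [h1, h2, h3, h4]
        exact hrule e he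
  refine ⟨_, hok, (core_r2a hg l₁ l₂ l₃ _ _ _ _ s c cs hok).2.symm.trans ?_⟩
  simp only [Mod.Phi]
  congr 1
  refine List.map_congr_left fun e he => ?_
  obtain ⟨h1, -, h3, -⟩ := hcs e he
  simp only [tl, h1, h3]

end Pool.Agent.P.MP_9b2cf8_gt
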