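import Pool.Agent.P.MP_9b2cf8_gt.Loc
import Pool.Agent.P.MP_9b2cf8_gt.Pull

namespace Pool.Agent.P.MP_9b2cf8_gt

theorem perm_r2p {α : Type} (l₁ l₂ l₃ : List α) (p₁ p₂ p₃ p₄ : α) :
    (l₁ ++ p₁ :: p₂ :: (l₂ ++ p₃ :: p₄ :: l₃)).Perm (p₁ :: p₃ :: p₂ :: p₄ :: (l₁ ++ (l₂ ++ l₃))) := by
  rw [← Multiset.coe_eq_coe]
  simp only [← Multiset.coe_add, ← Multiset.cons_coe, ← Multiset.singleton_add]
  abel

theorem nd_r2p (s : ℕ) (l₁ l₂ l₃ : List Pass) (a b c d i₁ o₁ j₁ q₁ i₂ o₂ j₂ q₂ : ℕ) :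
    (s :: lbl (l₁ ++ (a, i₁, o₁) :: (b, j₁, q₁) :: (l₂ ++ (c, i₂, o₂) :: (d, j₂, q₂) :: l₃))).Nodup ↔
      (i₁ :: o₁ :: i₂ :: o₂ :: j₁ :: q₁ :: j₂ :: q₂ :: s :: lbl (l₁ ++ (l₂ ++ l₃))).Nodup := by
  refine List.Perm.nodup_iff ?_
  rw [← Multiset.coe_eq_coe]
  simp only [lbl_append, lbl_cons, ← Multiset.coe_add, ← Multiset.cons_coe,
    ← Multiset.singleton_add]
  abel

theorem mem_r2p {cs : List (Pass × Pass)} {l : List Pass}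
    (h : (cs.flatMap fun e => [e.1, e.2]).Perm l) {e : Pass × Pass} (he : e ∈ cs) :
    e.1.2.1 ∈ lbl l ∧ e.1.2.2 ∈ lbl l ∧ e.2.2.1 ∈ lbl l ∧ e.2.2.2 ∈ lbl l := by
  have h1 : e.1 ∈ l := h.mem_iff.1 (List.mem_flatMap.2 ⟨e, he, by simp⟩)
  have h2 : e.2 ∈ l := h.mem_iff.1 (List.mem_flatMap.2 ⟨e, he, by simp⟩)
  exact ⟨mem_lbl.2 ⟨_, h1, Or.inl rfl⟩, mem_lbl.2 ⟨_, h1, Or.inr rfl⟩,
    mem_lbl.2 ⟨_, h2, Or.inl rfl⟩, mem_lbl.2 ⟨_, h2, Or.inr rfl⟩⟩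

theorem avL_r2p {cs : List (Pass × Pass)} {l : List Pass}
    (h : (cs.flatMap fun e => [e.1, e.2]).Perm l) (col : ℕ → ZMod 4) {m : ℕ} (hm : m ∉ lbl l) :
    AvL m (cs.map fun e => lab (crs e) (chi (tl col e))) := by
  intro e he
  obtain ⟨e, he', rfl⟩ := List.mem_map.1 he
  obtain ⟨h1, h2, h3, h4⟩ := mem_r2p h he'
  exact not_mem_legs.2 ⟨fun h => hm (h ▸ h1), fun h => hm (h ▸ h3), fun h => hm (h ▸ h2),
    fun h => hm (h ▸ h4)⟩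

theorem glue_r2p {g : Fn ℂ} (hg : DF g) (L : List (Cr × ℂ × ℂ × ℂ)) (s i q t : ℕ)
    (l₁ l₂ : List Pass) (P : Multiset (Sym2 ℕ)) (hiq : i ≠ q)
    (h : ∀ m ∈ [i, q], AvL m L ∧ Av m 0 P ∧ m ≠ s ∧ m ∉ lbl l₁ ∧ m ∉ lbl l₂ ∧ m ≠ t) :
    br g L 0 (s(i, q) ::ₘ (arcs s l₁ i + arcs q l₂ t + P)) =
      br g L 0 (arcs s (l₁ ++ l₂) t + P) := by
  obtain ⟨h1, h2, h3, h4, h5, h6⟩ := h i (by simp)
  obtain ⟨k1, k2, k3, k4, k5, k6⟩ := h q (by simp)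
  have e1 := br_glue hg L s i q l₁ [] 0 (arcs q l₂ t + P) h1
    (av_add (not_mem_arcs hiq h5 h6) h2) h3 h4 (by simp [lbl]) hiq
  have e2 := br_glue hg L s q t l₁ l₂ 0 P k1 k2 k3 k4 k5 k6
  rw [List.append_nil] at e1
  rw [← e2, add_assoc (arcs s l₁ q), ← e1]
  congr 1
  simp only [arcs, ← Multiset.singleton_add]
  abel

theorem av_zero_r2p (m : ℕ) : Av m 0 0 := ⟨by simp, by simp⟩

theorem core_r2p {g : Fn ℂ} (hg : DF g) (s : ℕ) (l₁ l₂ l₃ : List Pass)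
    (a b c d i₁ o₁ j₁ q₁ i₂ o₂ j₂ q₂ : ℕ) (col : ℕ → ZMod 4) (cs : List (Pass × Pass))
    (hnd : (i₁ :: o₁ :: i₂ :: o₂ :: j₁ :: q₁ :: j₂ :: q₂ :: s :: lbl (l₁ ++ (l₂ ++ l₃))).Nodup)
    (hp : (cs.flatMap fun e => [e.1, e.2]).Perm (l₁ ++ (l₂ ++ l₃)))
    (ht : col i₁ + col i₂ + 1 + (col j₁ + col j₂ + 1) = 0) :
    (Mod.mk (l₁ ++ (a, i₁, o₁) :: (b, j₁, q₁) :: (l₂ ++ (c, i₂, o₂) :: (d, j₂, q₂) :: l₃)) s col
      (((a, i₁, o₁), (c, i₂, o₂)) :: ((b, j₁, q₁), (d, j₂, q₂)) :: cs)).Phi g =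
      (Mod.mk (l₁ ++ (l₂ ++ l₃)) s col cs).Phi g := by
  have hL := fun m (hm : m ∉ lbl (l₁ ++ (l₂ ++ l₃))) => avL_r2p hp col hm
  simp only [Mod.Phi, List.map_cons]
  generalize (cs.map fun e => lab (crs e) (chi (tl col e))) = L at hL ⊢
  simp only [lbl_append, List.mem_append, not_or] at hL
  simp only [List.nodup_cons, List.mem_cons, lbl_append, List.mem_append, not_or] at hnd
  obtain ⟨⟨a1, a2, a3, a4, a5, a6, a7, a8, a9, a10, a11⟩, ⟨b1, b2, b3, b4, b5, b6, b7, b8, b9, b10⟩,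
    ⟨c1, c2, c3, c4, c5, c6, c7, c8, c9⟩, ⟨d1, d2, d3, d4, d5, d6, d7, d8⟩,
    ⟨e1, e2, e3, e4, e5, e6, e7⟩, ⟨f1, f2, f3, f4, f5, f6⟩, ⟨g1, g2, g3, g4, g5⟩,
    ⟨k1, k2, k3, k4⟩, -⟩ := hnd
  have harcs : arcs s (l₁ ++ (a, i₁, o₁) :: (b, j₁, q₁) ::
      (l₂ ++ (c, i₂, o₂) :: (d, j₂, q₂) :: l₃)) s =
      s(o₁, j₁) ::ₘ s(o₂, j₂) ::ₘ (arcs s l₁ i₁ + (arcs q₁ l₂ i₂ + (arcs q₂ l₃ s + 0))) := by
    simp only [arcs_mid, arcs, ← Multiset.singleton_add]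
    abel
  have hav : ∀ m, m ≠ s → m ≠ i₁ → m ≠ q₁ → m ≠ i₂ → m ≠ q₂ → m ∉ lbl l₁ → m ∉ lbl l₂ →
      m ∉ lbl l₃ → m ∉ [i₁, i₂, q₁, q₂] ∧ AvL m L ∧
        Av m 0 (arcs s l₁ i₁ + (arcs q₁ l₂ i₂ + (arcs q₂ l₃ s + 0))) :=
    fun m h1 h2 h3 h4 h5 h6 h7 h8 => ⟨by simp [h2, h3, h4, h5], hL m ⟨h6, h7, h8⟩,
      av_add (not_mem_arcs h1 h6 h2) (av_add (not_mem_arcs h3 h7 h4)
        (av_add (not_mem_arcs h5 h8 h1) (av_zero_r2p m)))⟩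
  rw [harcs]
  refine (brR2p hg L _ i₁ i₂ o₁ o₂ j₁ j₂ q₁ q₂ ?_ ?_ ?_).trans ?_
  · rw [← chi_add]
    exact (congrArg chi ht).trans chi_zero
  · simp [b2, b3, b5, d1, d3, e2]
  · intro m hm
    simp only [List.mem_cons, List.not_mem_nil, or_false] at hm
    rcases hm with rfl | rfl | rfl | rfl
    · exact hav _ b7 (Ne.symm a1) b4 b1 b6 b8 b9 b10
    · exact hav _ d5 (Ne.symm a3) d2 (Ne.symm c1) d4 d6 d7 d8
    · exact hav _ e4 (Ne.symm a4) e1 (Ne.symm c2) e3 e5 e6 e7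
    · exact hav _ g2 (Ne.symm a6) (Ne.symm f1) (Ne.symm c4) g1 g3 g4 g5
  have s1 := glue_r2p hg L q₁ i₂ q₂ s l₂ l₃ (s(i₁, q₁) ::ₘ (arcs s l₁ i₁ + 0)) c5 (by
    intro m hm
    simp only [List.mem_cons, List.not_mem_nil, or_false] at hm
    rcases hm with rfl | rfl
    · exact ⟨hL _ ⟨c7, c8, c9⟩, av_consP.2 ⟨Ne.symm a2, c3,
        av_add (not_mem_arcs c6 c7 (Ne.symm a2)) (av_zero_r2p _)⟩, c3, c8, c9, c6⟩
    · exact ⟨hL _ ⟨k2, k3, k4⟩, av_consP.2 ⟨Ne.symm a7, Ne.symm f2,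
        av_add (not_mem_arcs k1 k2 (Ne.symm a7)) (av_zero_r2p _)⟩, Ne.symm f2, k3, k4, k1⟩)
  have s2 := glue_r2p hg L s i₁ q₁ s l₁ (l₂ ++ l₃) 0 a5 (by
    intro m hm
    simp only [List.mem_cons, List.not_mem_nil, or_false] at hm
    rcases hm with rfl | rfl
    · exact ⟨hL _ ⟨a9, a10, a11⟩, av_zero_r2p _, a8, a9, by simp [lbl_append, a10, a11], a8⟩
    · exact ⟨hL _ ⟨f4, f5, f6⟩, av_zero_r2p _, f3, f4, by simp [lbl_append, f5, f6], f3⟩)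
  rw [add_zero (arcs s (l₁ ++ (l₂ ++ l₃)) s)] at s2
  refine Eq.trans ?_ (Eq.trans s1 (Eq.trans ?_ s2))
  · congr 1
    simp only [← Multiset.singleton_add]
    abel
  · congr 1
    simp only [← Multiset.singleton_add]
    abel

theorem recol_r2p {col col' : ℕ → ZMod 4} {l : List Pass} (h : ∀ m ∈ lbl l, col' m = col m)
    {s t s' t' : ℕ} (hs : col' s' = col s) (ht : col' t' = col t)
    (hp : Path (fun x y => col x = col y) s l t) : Path (fun x y => col' x = col' y) s' l t' := by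
  induction l generalizing s s' with
  | nil => exact hs.trans (Eq.trans hp ht.symm)
  | cons p l ih =>
    rw [lbl_cons] at h
    exact ⟨hs.trans (Eq.trans hp.1 (h _ (by simp)).symm),
      ih (fun m hm => h m (by simp [hm])) (h _ (by simp)) hp.2⟩

theorem tr_r2p_down {g : Fn ℂ} (hg : DF g) {M : Mod} {x y z : List ℕ} {a b : ℕ}
    (hw : IsGauss (x ++ a :: b :: (y ++ a :: b :: z)))
    (hM : M.Ok (x ++ a :: b :: (y ++ a :: b :: z))) :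
    ∃ M' : Mod, M'.Ok (x ++ (y ++ z)) ∧ M'.Phi g = M.Phi g ∧ (M.NZ → M'.NZ) := by
  obtain ⟨l, s, col, cs₀⟩ := M
  obtain ⟨l₁, r₁, rfl, rfl, h1⟩ := List.map_eq_append_iff.1 hM.word
  obtain ⟨⟨_, i₁, o₁⟩, r₂, rfl, rfl, h2⟩ := List.map_eq_cons_iff.1 h1
  obtain ⟨⟨_, j₁, q₁⟩, r₃, rfl, rfl, h3⟩ := List.map_eq_cons_iff.1 h2
  obtain ⟨l₂, r₄, rfl, rfl, h4⟩ := List.map_eq_append_iff.1 h3
  obtain ⟨⟨a, i₂, o₂⟩, r₅, rfl, ha, h5⟩ := List.map_eq_cons_iff.1 h4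
  obtain ⟨⟨b, j₂, q₂⟩, l₃, rfl, hb, rfl⟩ := List.map_eq_cons_iff.1 h5
  simp only at ha hb
  subst ha hb
  have hnd := (nd_r2p s l₁ l₂ l₃ a b a b i₁ o₁ j₁ q₁ i₂ o₂ j₂ q₂).1 hM.nd
  obtain ⟨cs, hok, hphi, hnz⟩ := pull hM hw
    [((a, i₁, o₁), (a, i₂, o₂)), ((b, j₁, q₁), (b, j₂, q₂))] (by
      simp only [List.nodup_cons, List.mem_cons, not_or] at hnd
      simp [hnd.1.2.1, hnd.1.2.2.2.1, hnd.1.2.2.2.2.2.1, hnd.2.2.1.2.1, hnd.2.2.1.2.2.2.1,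
        hnd.2.2.2.2.1.2.1]) (by simp)
  have hp : (cs.flatMap fun e => [e.1, e.2]).Perm (l₁ ++ (l₂ ++ l₃)) :=
    (hok.perm.trans (perm_r2p l₁ l₂ l₃ _ _ _ _)).cons_inv.cons_inv.cons_inv.cons_inv
  obtain ⟨c1, c2, c3⟩ := path_mid.1 hok.chain
  obtain ⟨c3, c4, c5⟩ := path_mid.1 c3
  obtain ⟨r1, r2⟩ := hok.rule _ List.mem_cons_self
  obtain ⟨r3, r4⟩ := hok.rule _ (List.mem_cons_of_mem _ List.mem_cons_self)
  simp only at c1 c2 c3 c4 c5 r1 r2 r3 r4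
  have h4 : (4 : ZMod 4) = 0 := rfl
  have e1 : col i₁ = col q₁ := by
    linear_combination -r3 + c2 - r1 + 2 * c4 - 2 * r2 - (col i₁ + col i₂ + 1) * h4
  have e2 : col i₂ = col q₂ := by
    linear_combination -r4 + c4 - r2 + 2 * c2 - 2 * r1 - (col i₁ + col i₂ + 1) * h4
  refine ⟨Mod.mk (l₁ ++ (l₂ ++ l₃)) s col cs, ⟨by simp, ?_, ?_, hp, ?_, ?_⟩, ?_, ?_⟩
  · exact hnd.of_cons.of_cons.of_cons.of_cons.of_cons.of_cons.of_cons.of_cons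
  · exact path_glue (col_equiv col) (path_right (col_equiv col) e1 c1)
      (path_glue (col_equiv col) (path_right (col_equiv col) e2 c3) c5)
  · exact fun e he => hok.name e (by simp [he])
  · exact fun e he => hok.rule e (by simp [he])
  · rw [← hphi g hg.sy]
    refine (core_r2p hg s l₁ l₂ l₃ a b a b i₁ o₁ j₁ q₁ i₂ o₂ j₂ q₂ col cs hnd hp ?_).symm
    linear_combination r1 + r2 - c2 - c4 + (col i₁ + col i₂ + 1) * h4
  · exact fun h e he => hnz.2 h e (by simp [he])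

theorem tr_r2p_up {g : Fn ℂ} (hg : DF g) {M : Mod} {x y z : List ℕ} (a b : ℕ)
    (hM : M.Ok (x ++ (y ++ z))) :
    ∃ M' : Mod, M'.Ok (x ++ a :: b :: (y ++ a :: b :: z)) ∧ M'.Phi g = M.Phi g := by
  obtain ⟨l, s, col, cs⟩ := M
  obtain ⟨l₁, r, rfl, rfl, h1⟩ := List.map_eq_append_iff.1 hM.word
  obtain ⟨l₂, l₃, rfl, rfl, rfl⟩ := List.map_eq_append_iff.1 h1
  obtain ⟨r₁, c1, c2⟩ := path_split (col_equiv col) hM.chain
  obtain ⟨r₂, c2, c3⟩ := path_split (col_equiv col) c2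
  obtain ⟨B, hB⟩ : ∃ B, ∀ m ∈ s :: lbl (l₁ ++ (l₂ ++ l₃)), m ≤ B :=
    ⟨_, fun m hm => List.single_le_sum (fun _ _ => Nat.zero_le _) m hm⟩
  obtain ⟨col', h0, k1, k2, k3, k4, k5, k6, k7, k8⟩ : ∃ col' : ℕ → ZMod 4,
      (∀ m ≤ B, col' m = col m) ∧ col' (B + 1) = col r₁ ∧ col' (B + 2) = col r₁ ∧
      col' (B + 3) = col r₂ ∧ col' (B + 4) = col r₂ ∧ col' (B + 5) = col r₁ + 2 * col r₂ + 1 ∧
      col' (B + 6) = col r₁ + 2 * col r₂ + 1 ∧ col' (B + 7) = col r₂ + 2 * col r₁ + 1 ∧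
      col' (B + 8) = col r₂ + 2 * col r₁ + 1 :=
    ⟨fun m => if m ≤ B then col m else if m ≤ B + 2 then col r₁ else if m ≤ B + 4 then col r₂
      else if m ≤ B + 6 then col r₁ + 2 * col r₂ + 1 else col r₂ + 2 * col r₁ + 1,
      fun m hm => if_pos hm, by simp, by simp, by simp, by simp, by simp, by simp, by simp, by simp⟩
  have hs : col' s = col s := h0 s (hB s List.mem_cons_self)
  have hl : ∀ m ∈ lbl (l₁ ++ (l₂ ++ l₃)), col' m = col m :=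
    fun m hm => h0 m (hB m (List.mem_cons_of_mem _ hm))
  have hnd : ((B + 1) :: (B + 5) :: (B + 3) :: (B + 7) :: (B + 6) :: (B + 2) :: (B + 8) ::
      (B + 4) :: s :: lbl (l₁ ++ (l₂ ++ l₃))).Nodup := by
    have hn : ∀ k, B + (k + 1) ∉ s :: lbl (l₁ ++ (l₂ ++ l₃)) := fun k hk => by
      have := hB _ hk
      omega
    have := hM.nd
    generalize s :: lbl (l₁ ++ (l₂ ++ l₃)) = t at hn this
    simp [this, hn 0, hn 1, hn 2, hn 3, hn 4, hn 5, hn 6, hn 7]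
  have h4 : (4 : ZMod 4) = 0 := rfl
  refine ⟨Mod.mk (l₁ ++ (a, B + 1, B + 5) :: (b, B + 6, B + 2) ::
      (l₂ ++ (a, B + 3, B + 7) :: (b, B + 8, B + 4) :: l₃)) s col'
      (((a, B + 1, B + 5), (a, B + 3, B + 7)) :: ((b, B + 6, B + 2), (b, B + 8, B + 4)) :: cs),
    ⟨by simp, (nd_r2p s l₁ l₂ l₃ a b a b _ _ _ _ _ _ _ _).2 hnd, ?_, ?_, ?_, ?_⟩, ?_⟩
  · simp only [lbl_append, List.mem_append] at hl
    exact path_mid.2 ⟨recol_r2p (fun m hm => hl m (Or.inl hm)) hs k1 c1, k5.trans k6.symm,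
      path_mid.2 ⟨recol_r2p (fun m hm => hl m (Or.inr (Or.inl hm))) k2 k3 c2, k7.trans k8.symm,
        recol_r2p (fun m hm => hl m (Or.inr (Or.inr hm))) k4 hs c3⟩⟩
  · exact ((((hM.perm.cons _).cons _).cons _).cons _).trans (perm_r2p l₁ l₂ l₃ _ _ _ _).symm
  · intro e he
    simp only [List.mem_cons] at he
    rcases he with rfl | rfl | he
    · rfl
    · rfl
    · exact hM.name e he
  · intro e he
    simp only [List.mem_cons] at he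
    rcases he with rfl | rfl | he
    · simp only [k1, k3, k5, k7, and_self]
    · simp only [k2, k4, k6, k8]
      constructor
      · linear_combination -(col r₁ + col r₂ + 1) * h4
      · linear_combination -(col r₁ + col r₂ + 1) * h4
    · obtain ⟨m1, m2, m3, m4⟩ := mem_r2p hM.perm he
      simp only [hl _ m1, hl _ m2, hl _ m3, hl _ m4]
      exact hM.rule e he
  · rw [core_r2p hg s l₁ l₂ l₃ a b a b _ _ _ _ _ _ _ _ col' cs hnd hM.perm (by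
      rw [k1, k3, k6, k8]
      linear_combination (col r₁ + col r₂ + 1) * h4)]
    simp only [Mod.Phi]
    rw [List.map_congr_left fun e he => ?_]
    obtain ⟨m1, -, m3, -⟩ := mem_r2p hM.perm he
    simp only [tl, hl _ m1, hl _ m3]

end Pool.Agent.P.MP_9b2cf8_gt
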