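import Pool.Agent.P.MP_9b2cf8_gt.Loc
import Pool.Agent.P.MP_9b2cf8_gt.Pull

namespace Pool.Agent.P.MP_9b2cf8_gt

/-- The pass in a given slot of a strand with two passes. -/
def slot_r3 (n₁ n₂ x₁ x₂ x₃ x₄ : ℕ) : Bool → Pass
  | false => (n₁, x₁, x₂)
  | true => (n₂, x₃, x₄)

theorem tri_r3 {X : Type} {x y z p q r : X} (hpq : p ≠ q) (hqr : q ≠ r) (hrp : r ≠ p)
    (h : ({x, y, z} : Multiset X) = {p, q, r}) :
    (x = p ∧ y = q ∧ z = r) ∨ (x = q ∧ y = r ∧ z = p) ∨ (x = r ∧ y = p ∧ z = q) ∨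
      (x = p ∧ y = r ∧ z = q) ∨ (x = q ∧ y = p ∧ z = r) ∨ (x = r ∧ y = q ∧ z = p) := by
  have h4 : p ∈ ({x, y, z} : Multiset X) := h ▸ by simp
  have h5 : q ∈ ({x, y, z} : Multiset X) := h ▸ by simp
  have h6 : r ∈ ({x, y, z} : Multiset X) := h ▸ by simp
  clear h
  simp only [Multiset.insert_eq_cons, Multiset.mem_cons, Multiset.mem_singleton] at h4 h5 h6
  rcases h4 with rfl | rfl | rfl <;> rcases h5 with rfl | rfl | rfl <;>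
    rcases h6 with rfl | rfl | rfl <;> simp at hpq hqr hrp ⊢

theorem pat0_r3 {a b c d e f u v w : ℕ} (h1 : s(a, b) = s(u, v)) (h2 : s(c, d) = s(v, w))
    (h3 : s(e, f) = s(w, u)) :
    ∃ α β γ : Bool, cond α b a = cond β c d ∧ cond β d c = cond γ e f ∧
      cond γ f e = cond α a b := by
  rcases Sym2.eq_iff.1 h1 with ⟨rfl, rfl⟩ | ⟨rfl, rfl⟩ <;>
    rcases Sym2.eq_iff.1 h2 with ⟨rfl, rfl⟩ | ⟨rfl, rfl⟩ <;>
    rcases Sym2.eq_iff.1 h3 with ⟨rfl, rfl⟩ | ⟨rfl, rfl⟩ <;> simp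

theorem pat_r3 {a b c d e f u v w : ℕ} (huv : u ≠ v) (hvw : v ≠ w) (hwu : w ≠ u)
    (h : ({s(a, b), s(c, d), s(e, f)} : Multiset (Sym2 ℕ)) = {s(u, v), s(v, w), s(w, u)}) :
    ∃ α β γ : Bool, cond α b a = cond β c d ∧ cond β d c = cond γ e f ∧
      cond γ f e = cond α a b := by
  rcases tri_r3 (by simp only [Ne, Sym2.eq_iff]; omega) (by simp only [Ne, Sym2.eq_iff]; omega)
    (by simp only [Ne, Sym2.eq_iff]; omega) h with h | h | h | h | h | h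
  · exact pat0_r3 h.1 h.2.1 h.2.2
  · exact pat0_r3 h.1 h.2.1 h.2.2
  · exact pat0_r3 h.1 h.2.1 h.2.2
  all_goals
    exact pat0_r3 (h.1.trans Sym2.eq_swap) (h.2.1.trans Sym2.eq_swap) (h.2.2.trans Sym2.eq_swap)

theorem arith_r3 (α β γ : Bool) (kA kB kC mA mB mC oA oB oC : ZMod 4)
    (h1 : cond α oA mA = cond α mA kA + 2 * cond β kB mB + 1 ∧
      cond β mB oB = cond β kB mB + 2 * cond α mA kA + 1)
    (h2 : cond β oB mB = cond β mB kB + 2 * cond γ kC mC + 1 ∧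
      cond γ mC oC = cond γ kC mC + 2 * cond β mB kB + 1)
    (h3 : cond γ oC mC = cond γ mC kC + 2 * cond α kA mA + 1 ∧
      cond α mA oA = cond α kA mA + 2 * cond γ mC kC + 1) :
    ∃ nA nB nC : ZMod 4,
      ((cond α nA oA = cond α kA nA + 2 * cond β nB kB + 1 ∧
        cond β oB nB = cond β nB kB + 2 * cond α kA nA + 1) ∧
      (cond β nB oB = cond β kB nB + 2 * cond γ nC kC + 1 ∧
        cond γ oC nC = cond γ nC kC + 2 * cond β kB nB + 1) ∧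
      (cond γ nC oC = cond γ kC nC + 2 * cond α nA kA + 1 ∧
        cond α oA nA = cond α nA kA + 2 * cond γ kC nC + 1)) ∧
      (cond α kA nA + cond β nB kB + 1 = cond α mA kA + cond β kB mB + 1 ∧
        cond β kB nB + cond γ nC kC + 1 = cond β mB kB + cond γ kC mC + 1 ∧
        cond γ kC nC + cond α nA kA + 1 = cond γ mC kC + cond α kA mA + 1) ∧
      (if α = β then -(cond α mA kA + cond β kB mB + 1) else cond α mA kA + cond β kB mB + 1) +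
        (if β = γ then -(cond β mB kB + cond γ kC mC + 1) else cond β mB kB + cond γ kC mC + 1) +
        (if γ = α then -(cond γ mC kC + cond α kA mA + 1) else cond γ mC kC + cond α kA mA + 1) =
        0 := by
  refine ⟨kA + 1 + cond α (2 * kB + cond β 2 0) (2 * kC + cond γ 0 2),
    kB + 1 + cond β (2 * kC + cond γ 2 0) (2 * kA + cond α 0 2),
    kC + 1 + cond γ (2 * kA + cond α 2 0) (2 * kB + cond β 0 2), ?_⟩
  obtain ⟨h1, h1'⟩ := h1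
  obtain ⟨h2, h2'⟩ := h2
  obtain ⟨h3, h3'⟩ := h3
  have key : ∀ m k x : ZMod 4, m = k + 2 * x + 1 → 2 * m = 2 * k + 2 := by decide
  have hA : 2 * mA = 2 * kA + 2 := by
    cases α
    · exact key _ _ _ h1
    · exact key _ _ _ h3'
  have hB : 2 * mB = 2 * kB + 2 := by
    cases β
    · exact key _ _ _ h2
    · exact key _ _ _ h1'
  have hC : 2 * mC = 2 * kC + 2 := by
    cases γ
    · exact key _ _ _ h3
    · exact key _ _ _ h2'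
  cases α <;> cases β <;> cases γ <;>
    simp only [cond_true, cond_false, hA, hB, hC] at h1 h1' h2 h2' h3 h3' <;>
    clear hA hB hC <;> subst_vars <;> revert kA kB kC <;> decide

theorem slot_perm_r3 (n₁ n₂ x₁ x₂ x₃ x₄ : ℕ) (α : Bool) (p : Pass) :
    [slot_r3 n₁ n₂ x₁ x₂ x₃ x₄ α].count p + [slot_r3 n₁ n₂ x₁ x₂ x₃ x₄ (!α)].count p =
      [(n₁, x₁, x₂)].count p + [(n₂, x₃, x₄)].count p := by
  cases α
  · rfl
  · exact add_comm _ _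

theorem six_perm_r3 (a b c d e f a₁ a₂ a₃ a₄ b₁ b₂ b₃ b₄ c₁ c₂ c₃ c₄ : ℕ) (α β γ : Bool)
    (l₁ l₂ l₃ l₄ : List Pass) :
    (([(slot_r3 a b a₁ a₂ a₃ a₄ α, slot_r3 c d b₁ b₂ b₃ b₄ (!β)),
        (slot_r3 c d b₁ b₂ b₃ b₄ β, slot_r3 e f c₁ c₂ c₃ c₄ (!γ)),
        (slot_r3 e f c₁ c₂ c₃ c₄ γ, slot_r3 a b a₁ a₂ a₃ a₄ (!α))].flatMap
        fun e => [e.1, e.2]) ++ (l₁ ++ (l₂ ++ (l₃ ++ l₄)))).Perm
      (l₁ ++ (a, a₁, a₂) :: (b, a₃, a₄) :: (l₂ ++ (c, b₁, b₂) :: (d, b₃, b₄) ::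
        (l₃ ++ (e, c₁, c₂) :: (f, c₃, c₄) :: l₄))) := by
  refine List.perm_iff_count.2 fun p => ?_
  have hA := slot_perm_r3 a b a₁ a₂ a₃ a₄ α p
  have hB := slot_perm_r3 c d b₁ b₂ b₃ b₄ β p
  have hC := slot_perm_r3 e f c₁ c₂ c₃ c₄ γ p
  simp only [List.flatMap_cons, List.flatMap_nil, List.count_append, List.count_cons,
    List.count_nil] at hA hB hC ⊢
  omega

theorem six_perm_r3' (a b c d e f a₁ a₂ a₃ a₄ b₁ b₂ b₃ b₄ c₁ c₂ c₃ c₄ : ℕ) (α β γ : Bool)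
    (l₁ l₂ l₃ l₄ : List Pass) :
    (([(slot_r3 a b a₁ a₂ a₃ a₄ (!α), slot_r3 c d b₁ b₂ b₃ b₄ β),
        (slot_r3 c d b₁ b₂ b₃ b₄ (!β), slot_r3 e f c₁ c₂ c₃ c₄ γ),
        (slot_r3 e f c₁ c₂ c₃ c₄ (!γ), slot_r3 a b a₁ a₂ a₃ a₄ α)].flatMap
        fun e => [e.1, e.2]) ++ (l₁ ++ (l₂ ++ (l₃ ++ l₄)))).Perm
      (l₁ ++ (a, a₁, a₂) :: (b, a₃, a₄) :: (l₂ ++ (c, b₁, b₂) :: (d, b₃, b₄) ::
        (l₃ ++ (e, c₁, c₂) :: (f, c₃, c₄) :: l₄))) := by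
  simpa only [Bool.not_not] using
    six_perm_r3 a b c d e f a₁ a₂ a₃ a₄ b₁ b₂ b₃ b₄ c₁ c₂ c₃ c₄ (!α) (!β) (!γ) l₁ l₂ l₃ l₄

theorem crs_slot_r3 (a b c d a₁ a₂ a₃ a₄ b₁ b₂ b₃ b₄ : ℕ) (α β : Bool) :
    crs (slot_r3 a b a₁ a₂ a₃ a₄ α, slot_r3 c d b₁ b₂ b₃ b₄ β) =
      cr2 (sl a₁ a₂ a₃ a₄ α) (sl b₁ b₂ b₃ b₄ β) := by
  cases α <;> cases β <;> rfl

theorem in_slot_r3 (col : ℕ → ZMod 4) (a b a₁ a₂ a₃ a₄ : ℕ) (α : Bool) :
    col (slot_r3 a b a₁ a₂ a₃ a₄ α).2.1 = cond α (col a₃) (col a₁) := by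
  cases α <;> rfl

theorem out_slot_r3 (col : ℕ → ZMod 4) (a b a₁ a₂ a₃ a₄ : ℕ) (α : Bool) :
    col (slot_r3 a b a₁ a₂ a₃ a₄ α).2.2 = cond α (col a₄) (col a₂) := by
  cases α <;> rfl

theorem name_slot_r3 (a b a₁ a₂ a₃ a₄ : ℕ) (α : Bool) :
    (slot_r3 a b a₁ a₂ a₃ a₄ α).1 = cond α b a := by
  cases α <;> rfl

theorem arcs_r3 (s a b c d e f a₁ a₂ a₃ a₄ b₁ b₂ b₃ b₄ c₁ c₂ c₃ c₄ : ℕ) (l₁ l₂ l₃ l₄ : List Pass) :
    arcs s (l₁ ++ (a, a₁, a₂) :: (b, a₃, a₄) :: (l₂ ++ (c, b₁, b₂) :: (d, b₃, b₄) ::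
        (l₃ ++ (e, c₁, c₂) :: (f, c₃, c₄) :: l₄))) s =
      s(a₂, a₃) ::ₘ s(b₂, b₃) ::ₘ s(c₂, c₃) ::ₘ
        (arcs s l₁ a₁ + (arcs a₄ l₂ b₁ + (arcs b₄ l₃ c₁ + arcs c₄ l₄ s))) := by
  simp only [arcs_mid, arcs, ← Multiset.singleton_add]
  abel

theorem core_r3 {g : Fn ℂ} (hg : DF g) {l₁ l₂ l₃ l₄ : List Pass}
    {s a b c d e f a₁ a₂ a₃ a₄ b₁ b₂ b₃ b₄ c₁ c₂ c₃ c₄ : ℕ} {col : ℕ → ZMod 4}
    {cs : List (Pass × Pass)} {α β γ : Bool} {M : Mod} {w : List ℕ}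
    (hMe : M = ⟨l₁ ++ (a, a₁, a₂) :: (b, a₃, a₄) :: (l₂ ++ (c, b₁, b₂) :: (d, b₃, b₄) ::
        (l₃ ++ (e, c₁, c₂) :: (f, c₃, c₄) :: l₄)), s, col,
      [(slot_r3 a b a₁ a₂ a₃ a₄ α, slot_r3 c d b₁ b₂ b₃ b₄ (!β)),
        (slot_r3 c d b₁ b₂ b₃ b₄ β, slot_r3 e f c₁ c₂ c₃ c₄ (!γ)),
        (slot_r3 e f c₁ c₂ c₃ c₄ γ, slot_r3 a b a₁ a₂ a₃ a₄ (!α))] ++ cs⟩) (hM : M.Ok w) :
    ∃ M' : Mod, M'.Ok (l₁.map Prod.fst ++ b :: a :: (l₂.map Prod.fst ++ d :: c ::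
      (l₃.map Prod.fst ++ f :: e :: l₄.map Prod.fst))) ∧ M'.Phi g = M.Phi g ∧ (M.NZ → M'.NZ) := by
  subst hMe
  obtain ⟨-, nd, chain, perm, name, rule⟩ := hM
  dsimp only at nd chain perm name rule
  have hp : (cs.flatMap fun e => [e.1, e.2]).Perm (l₁ ++ (l₂ ++ (l₃ ++ l₄))) := by
    rw [List.flatMap_append] at perm
    exact (List.perm_append_left_iff _).1 (perm.trans (six_perm_r3 ..).symm)
  have hnd : ([a₂, a₃, b₂, b₃, c₂, c₃] ++ ([a₁, a₄, b₁, b₄, c₁, c₄] ++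
      s :: lbl (l₁ ++ (l₂ ++ (l₃ ++ l₄))))).Nodup := by
    refine (List.Perm.nodup_iff (List.perm_iff_count.2 fun m => ?_)).1 nd
    simp only [lbl_append, lbl_cons, List.count_append, List.count_cons, List.count_nil]
    omega
  have hI : [a₂, a₃, b₂, b₃, c₂, c₃].Nodup := (List.nodup_append.1 hnd).1
  have hD : ∀ m ∈ [a₂, a₃, b₂, b₃, c₂, c₃], m ∉ [a₁, a₄, b₁, b₄, c₁, c₄] ∧ m ≠ s ∧ m ∉ lbl l₁ ∧
      m ∉ lbl l₂ ∧ m ∉ lbl l₃ ∧ m ∉ lbl l₄ := by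
    intro m hm
    have h : m ∉ [a₁, a₄, b₁, b₄, c₁, c₄] ++ s :: lbl (l₁ ++ (l₂ ++ (l₃ ++ l₄))) :=
      fun h => (List.nodup_append.1 hnd).2.2 m hm m h rfl
    rw [List.mem_append, List.mem_cons (b := s)] at h
    simpa only [lbl_append, List.mem_append, not_or] using h
  have hcs : ∀ e ∈ cs, ∀ m ∈ legs (crs e), m ∉ [a₂, a₃, b₂, b₃, c₂, c₃] := by
    intro e he m hm hI
    have h1 : e.1 ∈ l₁ ++ (l₂ ++ (l₃ ++ l₄)) :=
      hp.subset (List.mem_flatMap.2 ⟨e, he, by simp⟩)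
    have h2 : e.2 ∈ l₁ ++ (l₂ ++ (l₃ ++ l₄)) :=
      hp.subset (List.mem_flatMap.2 ⟨e, he, by simp⟩)
    have h3 : m ∈ lbl (l₁ ++ (l₂ ++ (l₃ ++ l₄))) := by
      simp only [legs, crs, List.mem_cons, List.not_mem_nil, or_false] at hm
      rcases hm with h | h | h | h
      · exact mem_lbl.2 ⟨_, h1, Or.inl h⟩
      · exact mem_lbl.2 ⟨_, h2, Or.inl h⟩
      · exact mem_lbl.2 ⟨_, h1, Or.inr h⟩
      · exact mem_lbl.2 ⟨_, h2, Or.inr h⟩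
    have := hD m hI
    simp only [lbl_append, List.mem_append] at h3
    tauto
  simp only [path_mid, Path] at chain
  obtain ⟨p₁, eA, p₂, eB, p₃, eC, p₄⟩ := chain
  simp only [List.cons_append, List.nil_append, List.mem_cons, forall_eq_or_imp, in_slot_r3,
    out_slot_r3, name_slot_r3, Bool.cond_not, ← eA, ← eB, ← eC] at name rule
  obtain ⟨nA, nB, nC, hr, ht, ht'⟩ := arith_r3 α β γ _ _ _ _ _ _ _ _ _ rule.1 rule.2.1 rule.2.2.1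
  obtain ⟨col', hout, hA₂, hA₃, hB₂, hB₃, hC₂, hC₃⟩ : ∃ col' : ℕ → ZMod 4,
      (∀ m, m ∉ [a₂, a₃, b₂, b₃, c₂, c₃] → col' m = col m) ∧ col' a₂ = nA ∧ col' a₃ = nA ∧
        col' b₂ = nB ∧ col' b₃ = nB ∧ col' c₂ = nC ∧ col' c₃ = nC := by
    refine ⟨fun m => if m = a₂ ∨ m = a₃ then nA else if m = b₂ ∨ m = b₃ then nB else
      if m = c₂ ∨ m = c₃ then nC else col m, fun m hm => ?_, ?_⟩
    · simp only [List.mem_cons, List.not_mem_nil, not_or] at hm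
      simp [hm]
    · simp only [List.nodup_cons, List.mem_cons, List.not_mem_nil, not_or, or_false] at hI
      obtain ⟨⟨-, n₁, n₂, n₃, n₄⟩, ⟨n₅, n₆, n₇, n₈⟩, ⟨-, n₉, n₁₀⟩, ⟨n₁₁, n₁₂⟩, -⟩ := hI
      simp [Ne.symm n₁, Ne.symm n₂, Ne.symm n₃, Ne.symm n₄, Ne.symm n₅, Ne.symm n₆, Ne.symm n₇,
        Ne.symm n₈, Ne.symm n₉, Ne.symm n₁₀, Ne.symm n₁₁, Ne.symm n₁₂]
  have ho : ∀ m ∈ [a₁, a₄, b₁, b₄, c₁, c₄], col' m = col m :=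
    fun m hm => hout m fun h => (hD m h).1 hm
  simp only [List.mem_cons, List.not_mem_nil, or_false, forall_eq_or_imp, forall_eq] at ho
  obtain ⟨o₁, o₂, o₃, o₄, o₅, o₆⟩ := ho
  have hpath : ∀ (l : List Pass) (u v : ℕ), (∀ m ∈ [a₂, a₃, b₂, b₃, c₂, c₃], m ≠ u ∧ m ≠ v ∧
      m ∉ lbl l) → Path (fun x y => col x = col y) u l v →
      Path (fun x y => col' x = col' y) u l v := by
    intro l u v h hp
    refine path_mono (fun m => m ∉ [a₂, a₃, b₂, b₃, c₂, c₃]) (fun x y hx hy hxy => ?_)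
      (fun hu => (h u hu).1 rfl) (fun hv => (h v hv).2.1 rfl) (fun m hm hI => (h m hI).2.2 hm) hp
    rw [hout x hx, hout y hy, hxy]
  have hne : ∀ m ∈ [a₂, a₃, b₂, b₃, c₂, c₃], m ≠ a₁ ∧ m ≠ a₄ ∧ m ≠ b₁ ∧ m ≠ b₄ ∧ m ≠ c₁ ∧
      m ≠ c₄ := by
    intro m hm
    simpa only [List.mem_cons, List.not_mem_nil, or_false, not_or] using (hD m hm).1
  have hcol : ∀ e ∈ cs, col' e.1.2.1 = col e.1.2.1 ∧ col' e.2.2.1 = col e.2.2.1 ∧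
      col' e.1.2.2 = col e.1.2.2 ∧ col' e.2.2.2 = col e.2.2.2 := fun e he =>
    ⟨hout _ (hcs e he _ (by simp [legs, crs])), hout _ (hcs e he _ (by simp [legs, crs])),
      hout _ (hcs e he _ (by simp [legs, crs])), hout _ (hcs e he _ (by simp [legs, crs]))⟩
  have htl : ∀ e ∈ cs, tl col' e = tl col e := fun e he => by
    rw [tl, tl, (hcol e he).1, (hcol e he).2.1]
  refine ⟨⟨l₁ ++ (b, a₁, a₂) :: (a, a₃, a₄) :: (l₂ ++ (d, b₁, b₂) :: (c, b₃, b₄) ::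
        (l₃ ++ (f, c₁, c₂) :: (e, c₃, c₄) :: l₄)), s, col',
      [(slot_r3 b a a₁ a₂ a₃ a₄ (!α), slot_r3 d c b₁ b₂ b₃ b₄ β),
        (slot_r3 d c b₁ b₂ b₃ b₄ (!β), slot_r3 f e c₁ c₂ c₃ c₄ γ),
        (slot_r3 f e c₁ c₂ c₃ c₄ (!γ), slot_r3 b a a₁ a₂ a₃ a₄ α)] ++ cs⟩,
    ⟨by simp, ?_, ?_, ?_, ?_, ?_⟩, ?_, ?_⟩
  · simpa only [lbl_append, lbl_cons] using nd
  · simp only [path_mid, Path]
    refine ⟨hpath _ _ _ (fun m hm => ?_) p₁, hA₂.trans hA₃.symm, hpath _ _ _ (fun m hm => ?_) p₂,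
      hB₂.trans hB₃.symm, hpath _ _ _ (fun m hm => ?_) p₃, hC₂.trans hC₃.symm,
      hpath _ _ _ (fun m hm => ?_) p₄⟩
    all_goals
      have h1 := hD m hm
      have h2 := hne m hm
      tauto
  · dsimp only
    rw [List.flatMap_append]
    exact (hp.append_left _).trans (six_perm_r3' ..)
  · simpa only [List.cons_append, List.nil_append, List.mem_cons, forall_eq_or_imp, name_slot_r3,
      Bool.cond_not] using name
  · simp only [List.cons_append, List.nil_append, List.mem_cons, forall_eq_or_imp, in_slot_r3,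
      out_slot_r3, Bool.cond_not, hA₂, hA₃, hB₂, hB₃, hC₂, hC₃, o₁, o₂, o₃, o₄, o₅, o₆]
    refine ⟨hr.1, hr.2.1, hr.2.2, fun e he => ?_⟩
    obtain ⟨e₁, e₂, e₃, e₄⟩ := hcol e he
    rw [e₁, e₂, e₃, e₄]
    exact rule.2.2.2 e he
  · have hm : (cs.map fun e => lab (crs e) (chi (tl col' e))) =
        cs.map fun e => lab (crs e) (chi (tl col e)) :=
      List.map_congr_left fun e he => by rw [htl e he]
    simp only [Mod.Phi, List.cons_append, List.nil_append, List.map_cons, hm, arcs_r3,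
      crs_slot_r3]
    simp only [tl, in_slot_r3, Bool.cond_not, hA₃, hB₃, hC₃, o₁, o₃, o₅, ← eA, ← eB, ← eC, ht.1,
      ht.2.1, ht.2.2]
    refine (brR3 hg _ _ α β γ a₁ a₂ a₃ a₄ b₁ b₂ b₃ b₄ c₁ c₂ c₃ c₄ _ _ _ ht' hI fun m hm =>
      ⟨(hD m hm).1, ?_, by simp, ?_⟩).symm
    · intro q hq hq'
      obtain ⟨e, he, rfl⟩ := List.mem_map.1 hq
      exact hcs e he m hq' hm
    · have h1 := hD m hm
      have h2 := hne m hm
      simp only [Multiset.mem_add]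
      rintro q (h | h | h | h) <;> refine not_mem_arcs ?_ ?_ ?_ q h <;> tauto
  · simp only [Mod.NZ, List.cons_append, List.nil_append, List.mem_cons, forall_eq_or_imp]
    rintro ⟨h1, h2, h3, h4⟩
    refine ⟨?_, ?_, ?_, fun e he => htl e he ▸ h4 e he⟩
    all_goals
      simp only [tl, in_slot_r3, Bool.cond_not, hA₃, hB₃, hC₃, o₁, o₃, o₅, ← eA, ← eB, ← eC, ht.1,
        ht.2.1, ht.2.2] at h1 h2 h3 ⊢
      assumption

theorem tr_r3 {g : Fn ℂ} (hg : DF g) {M : Mod} {x y z t : List ℕ} {a b c d e f u v w : ℕ}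
    (huv : u ≠ v) (hvw : v ≠ w) (hwu : w ≠ u)
    (h : ({s(a, b), s(c, d), s(e, f)} : Multiset (Sym2 ℕ)) = {s(u, v), s(v, w), s(w, u)})
    (hw : IsGauss (x ++ a :: b :: (y ++ c :: d :: (z ++ e :: f :: t))))
    (hM : M.Ok (x ++ a :: b :: (y ++ c :: d :: (z ++ e :: f :: t)))) :
    ∃ M' : Mod, M'.Ok (x ++ b :: a :: (y ++ d :: c :: (z ++ f :: e :: t))) ∧
      M'.Phi g = M.Phi g ∧ (M.NZ → M'.NZ) := by
  obtain ⟨α, β, γ, n₁, n₂, n₃⟩ := pat_r3 huv hvw hwu h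
  have hl := hM.word
  simp only [List.map_eq_append_iff, List.map_eq_cons_iff] at hl
  obtain ⟨l₁, _, hl, rfl, ⟨_, a₁, a₂⟩, _, rfl, rfl, ⟨_, a₃, a₄⟩, _, rfl, rfl, l₂, _, rfl, rfl,
    ⟨_, b₁, b₂⟩, _, rfl, rfl, ⟨_, b₃, b₄⟩, _, rfl, rfl, l₃, _, rfl, rfl, ⟨_, c₁, c₂⟩, _, rfl, rfl,
    ⟨_, c₃, c₄⟩, l₄, rfl, rfl, rfl⟩ := hl
  rename_i a b c d e f
  have hp := six_perm_r3 a b c d e f a₁ a₂ a₃ a₄ b₁ b₂ b₃ b₄ c₁ c₂ c₃ c₄ α β γ l₁ l₂ l₃ l₄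
  rw [← hl] at hp
  have hnd : M.l.Nodup := by
    have h1 : (lbl M.l).Nodup := hM.nd.of_cons
    refine List.Pairwise.imp ?_ (List.nodup_flatMap.1 h1).2
    rintro p q hpq rfl
    exact hpq (a := p.2.1) (by simp) (by simp)
  have hmem : ∀ p ∈ [(slot_r3 a b a₁ a₂ a₃ a₄ α, slot_r3 c d b₁ b₂ b₃ b₄ (!β)),
        (slot_r3 c d b₁ b₂ b₃ b₄ β, slot_r3 e f c₁ c₂ c₃ c₄ (!γ)),
        (slot_r3 e f c₁ c₂ c₃ c₄ γ, slot_r3 a b a₁ a₂ a₃ a₄ (!α))], p.1 ∈ M.l ∧ p.2 ∈ M.l :=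
    fun p hq => ⟨hp.subset (List.mem_append_left _ (List.mem_flatMap.2 ⟨p, hq, by simp⟩)),
      hp.subset (List.mem_append_left _ (List.mem_flatMap.2 ⟨p, hq, by simp⟩))⟩
  obtain ⟨cs, hok, hphi, hnz⟩ := pull hM hw _ (List.nodup_append.1 (hp.nodup_iff.2 hnd)).1
    fun p hq => ⟨(hmem p hq).1, (hmem p hq).2, by
      simp only [List.mem_cons, List.not_mem_nil, or_false] at hq
      rcases hq with rfl | rfl | rfl <;> simp only [name_slot_r3, Bool.cond_not] <;> assumption⟩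
  obtain ⟨M', h1, h2, h3⟩ := core_r3 hg (by rw [hl]) hok
  exact ⟨M', h1, h2.trans (hphi g hg.sy), fun hn => h3 (hnz.2 hn)⟩

end Pool.Agent.P.MP_9b2cf8_gt
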