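import Pool.Agent.P.MP_9b2cf8_gt.Br

namespace Pool.Agent.P.MP_9b2cf8_gt

/-- The two ends of a pass. -/
def epUq (p : Pass) : Sym2 ℕ := s(p.2.1, p.2.2)

/-- The two strands of a crossing. -/
def ppUq (c : Cr) : Multiset (Sym2 ℕ) := {s(c.1, c.2.2.1), s(c.2.1, c.2.2.2)}

/-- The reversed pass. -/
def rvUq (p : Pass) : Pass := (p.1, p.2.2, p.2.1)

theorem count_uq (cs : List (Pass × Pass)) (h : ∀ e ∈ cs, e.1.1 = e.2.1) (a : ℕ) :
    ((cs.flatMap fun e => [e.1, e.2]).map Prod.fst).count a =
      2 * (cs.map fun e => e.1.1).count a := by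
  induction cs with
  | nil => rfl
  | cons e cs ih =>
    have h1 := h e List.mem_cons_self
    simp only [List.flatMap_cons, List.map_append, List.map_cons, List.map_nil, List.count_append,
      List.count_cons, List.count_nil, ← h1, ih fun e he => h e (List.mem_cons_of_mem _ he)]
    split_ifs <;> omega

theorem tags_uq (cs : List (Pass × Pass)) (h : ∀ e ∈ cs, e.1.1 = e.2.1) :
    (((cs.flatMap fun e => [e.1, e.2]).map tag : List _) : Multiset (ℕ × Sym2 ℕ)) =
      ((cs.map fun e => (e.1.1, crs e) : List _) : Multiset (ℕ × Cr)).bind passes := by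
  induction cs with
  | nil => rfl
  | cons e cs ih =>
    rw [List.map_cons, ← Multiset.cons_coe, Multiset.cons_bind,
      ← ih fun e he => h e (List.mem_cons_of_mem _ he), List.flatMap_cons, List.map_append,
      ← Multiset.coe_add]
    congr 1
    simp only [passes, tag, crs, List.map_cons, List.map_nil, ← h e List.mem_cons_self]
    rfl

theorem self_uq {M : Mod} {w : List ℕ} (hM : M.Ok w) (hw : IsGauss w) :
    ∃ N : Multiset (ℕ × Cr), N.map Prod.snd = (M.cs.map crs : List Cr) ∧ (N.map Prod.fst).Nodup ∧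
      ((M.l.map tag : List _) : Multiset (ℕ × Sym2 ℕ)) = N.bind passes := by
  refine ⟨(M.cs.map fun e => (e.1.1, crs e) : List _), ?_, ?_, ?_⟩
  · rw [Multiset.map_coe, List.map_map]
    rfl
  · rw [Multiset.map_coe, List.map_map, Multiset.coe_nodup, List.nodup_iff_count_le_one]
    intro a
    have h1 := count_uq M.cs hM.name a
    rw [(hM.perm.map Prod.fst).count_eq, hM.word] at h1
    change (M.cs.map fun e => e.1.1).count a ≤ 1
    by_cases h2 : a ∈ w
    · have := hw a h2
      omega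
    · have := List.count_eq_zero_of_not_mem h2
      omega
  · rw [← tags_uq M.cs hM.name]
    exact Multiset.coe_eq_coe.2 (hM.perm.symm.map tag)

theorem ep_uq {l : List Pass} {N : Multiset (ℕ × Cr)}
    (h : ((l.map tag : List _) : Multiset (ℕ × Sym2 ℕ)) = N.bind passes) :
    ((l.map epUq : List _) : Multiset (Sym2 ℕ)) = (N.map Prod.snd).bind ppUq := by
  have := congrArg (Multiset.map Prod.snd) h
  rw [Multiset.map_coe, List.map_map, Multiset.map_bind] at this
  rw [Multiset.bind_map]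
  exact this

theorem lbl_uq (l : List Pass) :
    (lbl l : Multiset ℕ) = ((l.map epUq : List _) : Multiset (Sym2 ℕ)).bind Sym2.toMultiset := by
  induction l with
  | nil => rfl
  | cons p l ih =>
    rw [List.map_cons, ← Multiset.cons_coe, Multiset.cons_bind, ← ih, lbl_cons]
    rfl

theorem pass_uq {l : List Pass} (h : (lbl l).Nodup) {p q : Pass} (hp : p ∈ l) (hq : q ∈ l) {a : ℕ}
    (h1 : a = p.2.1 ∨ a = p.2.2) (h2 : a = q.2.1 ∨ a = q.2.2) : p = q ∧ p.2.1 ≠ p.2.2 := by
  induction l with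
  | nil => cases hp
  | cons r l ih =>
    simp only [lbl_cons, List.nodup_cons, List.mem_cons, not_or] at h
    have key : ∀ x ∈ l, (a = x.2.1 ∨ a = x.2.2) → ¬ (a = r.2.1 ∨ a = r.2.2) := fun x hx h3 h4 => by
      have h5 : a ∈ lbl l := mem_lbl.2 ⟨x, hx, h3⟩
      rcases h4 with rfl | rfl
      exacts [h.1.2 h5, h.2.1 h5]
    rcases List.mem_cons.1 hp with rfl | hp' <;> rcases List.mem_cons.1 hq with rfl | hq'
    · exact ⟨rfl, h.1.1⟩
    · exact (key q hq' h2 h1).elim
    · exact (key p hp' h1 h2).elim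
    · exact ih h.2.2 hp' hq'

theorem other_uq {l : List Pass} (h : (lbl l).Nodup) {a b c : ℕ} (h1 : s(a, b) ∈ l.map epUq)
    (h2 : s(a, c) ∈ l.map epUq) : b = c := by
  obtain ⟨p, hp, e1⟩ := List.mem_map.1 h1
  obtain ⟨q, hq, e2⟩ := List.mem_map.1 h2
  obtain ⟨rfl, -⟩ := pass_uq h hp hq (a := a) (Sym2.mem_iff.1 (e1 ▸ Sym2.mem_mk_left a b :
    a ∈ epUq p)) (Sym2.mem_iff.1 (e2 ▸ Sym2.mem_mk_left a c : a ∈ epUq q))
  exact Sym2.congr_right.1 (e1.symm.trans e2)

theorem nodup_ep_uq {l : List Pass} (h : (lbl l).Nodup) : (l.map epUq).Nodup := by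
  induction l with
  | nil => exact List.nodup_nil
  | cons r l ih =>
    simp only [lbl_cons, List.nodup_cons, List.mem_cons, not_or] at h
    refine List.nodup_cons.2 ⟨fun h1 => ?_, ih h.2.2⟩
    obtain ⟨p, hp, e⟩ := List.mem_map.1 h1
    exact h.1.2 (mem_lbl.2 ⟨p, hp, Sym2.mem_iff.1 (e ▸ Sym2.mem_mk_left _ _ : r.2.1 ∈ epUq p)⟩)

theorem arcs_uq {s t : ℕ} {l : List Pass} {e : Sym2 ℕ} (he : e ∈ arcs s l t) :
    ∃ A a b B, s :: lbl l ++ [t] = A ++ a :: b :: B ∧ A.length % 2 = 0 ∧ e = s(a, b) := by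
  induction l generalizing s with
  | nil => exact ⟨[], s, t, [], rfl, rfl, Multiset.mem_singleton.1 he⟩
  | cons p l ih =>
    rcases Multiset.mem_cons.1 he with rfl | he
    · exact ⟨[], s, p.2.1, p.2.2 :: lbl l ++ [t], by rw [lbl_cons]; rfl, rfl, rfl⟩
    · obtain ⟨A, a, b, B, h1, h2, h3⟩ := ih he
      refine ⟨s :: p.2.1 :: A, a, b, B, ?_, ?_, h3⟩
      · rw [lbl_cons, List.cons_append, List.cons_append, h1]
        rfl
      · simp only [List.length_cons]
        omega

/-- A component of the arcs contains at most two labels of passes. -/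
theorem cls_uq {s : ℕ} {l : List Pass} (h : (s :: lbl l).Nodup) {x y z : ℕ} (hx : x ∈ lbl l)
    (hy : y ∈ lbl l) (hz : z ∈ lbl l) (h1 : conn (arcs s l s) x y) (h2 : conn (arcs s l s) x z)
    (n1 : x ≠ y) (n2 : x ≠ z) : y = z := by
  let c : ℕ → ℕ := fun x =>
    if (s :: lbl l).idxOf x = (lbl l).length then 0 else (s :: lbl l).idxOf x / 2
  have hl : (lbl l).length % 2 = 0 := by
    clear h hx hy hz h1 h2 c
    induction l with
    | nil => rfl
    | cons p l ih =>
      simp only [lbl_cons, List.length_cons]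
      omega
  have hc : ∀ x y, conn (arcs s l s) x y → c x = c y := by
    intro x y h1
    induction h1 with
    | refl => rfl
    | symm _ _ _ ih => exact ih.symm
    | trans _ _ _ _ _ ih ih' => exact ih.trans ih'
    | rel x y he =>
      obtain ⟨A, a, b, B, h1, h2, h3⟩ := arcs_uq he
      have key : c a = c b := by
        rcases List.eq_nil_or_concat B with rfl | ⟨B', t, rfl⟩
        · obtain ⟨h4, h5⟩ := List.append_inj' (h1.trans (List.append_assoc A [a] [b]).symm) rfl
          obtain rfl : s = b := by simpa using h5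
          have h6 := congrArg List.length h4
          have h7 : a ∉ A := fun h7 => by
            rw [h4, List.nodup_append] at h
            exact h.2.2 a h7 a List.mem_cons_self rfl
          have h8 : (s :: lbl l).idxOf a = A.length := by
            rw [h4, List.idxOf_append_of_notMem h7, List.idxOf_cons_self, add_zero]
          simp only [List.length_cons, List.length_append, List.length_nil] at h6
          simp only [c, h8, List.idxOf_cons_self]
          split_ifs <;> omega
        · obtain ⟨h4, -⟩ := List.append_inj' (s₂ := A ++ a :: b :: B') (t₂ := [t])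
            (h1.trans (by simp)) rfl
          have h6 := congrArg List.length h4
          rw [h4, List.nodup_append] at h
          have h7 : a ≠ b := by
            have := h.2.1
            simp only [List.nodup_cons, List.mem_cons, not_or] at this
            exact this.1.1
          have h8 : (s :: lbl l).idxOf a = A.length := by
            rw [h4, List.idxOf_append_of_notMem fun h7 => h.2.2 a h7 a List.mem_cons_self rfl,
              List.idxOf_cons_self, add_zero]
          have h9 : (s :: lbl l).idxOf b = A.length + 1 := by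
            rw [h4, List.idxOf_append_of_notMem fun h7 => h.2.2 b h7 b (by simp) rfl,
              List.idxOf_cons_ne _ h7, List.idxOf_cons_self]
          simp only [List.length_cons, List.length_append] at h6
          simp only [c, h8, h9]
          split_ifs <;> omega
      rcases Sym2.eq_iff.1 h3 with ⟨rfl, rfl⟩ | ⟨rfl, rfl⟩
      exacts [key, key.symm]
  have hi : ∀ x ∈ lbl l, 0 < (s :: lbl l).idxOf x ∧ (s :: lbl l).idxOf x ≤ (lbl l).length :=
    fun x hx => by
      rw [List.idxOf_cons_ne _ fun e : s = x => (List.nodup_cons.1 h).1 (e ▸ hx)]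
      exact ⟨Nat.succ_pos _, List.idxOf_lt_length_of_mem hx⟩
  have hj : ∀ x ∈ lbl l, ∀ y, (s :: lbl l).idxOf x = (s :: lbl l).idxOf y → x = y :=
    fun x hx y e => (List.idxOf_inj (List.mem_cons_of_mem _ hx)).1 e
  have a1 := hc x y h1
  have a2 := hc x z h2
  have b1 := mt (hj x hx y) n1
  have b2 := mt (hj x hx z) n2
  have c1 := hi x hx
  have c2 := hi y hy
  have c3 := hi z hz
  refine hj y hy z ?_
  simp only [c] at a1 a2
  split_ifs at a1 a2 <;> omega

theorem follow_uq {s : ℕ} {l : List Pass} (h : (s :: lbl l).Nodup) {u u' : List Pass} {x t t' : ℕ}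
    (hx : x ∈ lbl l) (hl : u.length = u'.length) (n1 : (x :: lbl u).Nodup)
    (n2 : (x :: lbl u').Nodup) (e1 : ∀ p ∈ u, epUq p ∈ l.map epUq)
    (e2 : ∀ p ∈ u', epUq p ∈ l.map epUq) (p1 : Path (conn (arcs s l s)) x u t)
    (p2 : Path (conn (arcs s l s)) x u' t') : u.map Prod.snd = u'.map Prod.snd := by
  have hm : ∀ p : Pass, epUq p ∈ l.map epUq → p.2.1 ∈ lbl l ∧ p.2.2 ∈ lbl l := fun p hp => by
    obtain ⟨q, hq, e⟩ := List.mem_map.1 hp
    exact ⟨mem_lbl.2 ⟨q, hq, Sym2.mem_iff.1 (e ▸ Sym2.mem_mk_left _ _ : p.2.1 ∈ epUq q)⟩,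
      mem_lbl.2 ⟨q, hq, Sym2.mem_iff.1 (e ▸ Sym2.mem_mk_right _ _ : p.2.2 ∈ epUq q)⟩⟩
  induction u generalizing u' x with
  | nil => rw [List.length_eq_zero_iff.1 hl.symm]
  | cons p u ih =>
    cases u' with
    | nil => cases hl
    | cons q u' =>
      rw [lbl_cons, List.nodup_cons, List.nodup_cons] at n1 n2
      have a1 := e1 p List.mem_cons_self
      have a2 := e2 q List.mem_cons_self
      have a3 : p.2.1 = q.2.1 := cls_uq h hx (hm p a1).1 (hm q a2).1 p1.1 p2.1
        (fun e => n1.1 (e ▸ List.mem_cons_self)) fun e => n2.1 (e ▸ List.mem_cons_self)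
      have a4 : p.2.2 = q.2.2 := other_uq (List.nodup_cons.1 h).2 a1 (a3 ▸ a2)
      rw [List.map_cons, List.map_cons, Prod.ext a3 a4, ih (hm p a1).2 (Nat.succ.inj hl) n1.2.2
        (a4 ▸ n2.2.2) (fun p hp => e1 p (List.mem_cons_of_mem _ hp))
        (fun p hp => e2 p (List.mem_cons_of_mem _ hp)) p1.2 (a4 ▸ p2.2)]

theorem path_rv_uq {R : ℕ → ℕ → Prop} (hR : Equivalence R) {s t : ℕ} {l : List Pass}
    (h : Path R s l t) : Path R t (l.reverse.map rvUq) s := by
  induction l generalizing s with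
  | nil => exact hR.symm h
  | cons p l ih =>
    rw [List.reverse_cons, List.map_append]
    exact path_mid.2 ⟨ih h.2, hR.symm h.1⟩

theorem name_uq {N : Multiset (ℕ × Cr)} (h1 : (N.map Prod.fst).Nodup)
    (h2 : ((N.map Prod.snd).bind ppUq).Nodup) {x y : ℕ × Sym2 ℕ} (hx : x ∈ N.bind passes)
    (hy : y ∈ N.bind passes) :
    x.1 = y.1 ↔ ∃ c ∈ N.map Prod.snd, x.2 ∈ ppUq c ∧ y.2 ∈ ppUq c := by
  have hp : ∀ c x, x ∈ passes c → x.1 = c.1 ∧ x.2 ∈ ppUq c.2 := fun c x hx => by
    simp only [passes, Multiset.insert_eq_cons, Multiset.mem_cons, Multiset.mem_singleton] at hx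
    rcases hx with rfl | rfl <;> simp [ppUq]
  obtain ⟨c, hc, h3⟩ := Multiset.mem_bind.1 hx
  obtain ⟨d, hd, h4⟩ := Multiset.mem_bind.1 hy
  obtain ⟨a1, a2⟩ := hp c x h3
  obtain ⟨b1, b2⟩ := hp d y h4
  rw [a1, b1]
  constructor
  · intro e
    obtain rfl := Multiset.inj_on_of_nodup_map h1 c hc d hd e
    exact ⟨c.2, Multiset.mem_map_of_mem _ hc, a2, b2⟩
  · rintro ⟨_, h5, h6, h7⟩
    obtain ⟨e, he, rfl⟩ := Multiset.mem_map.1 h5
    have key : ∀ c ∈ N, ∀ z ∈ ppUq c.2, z ∈ ppUq e.2 → c = e := fun c hc z h8 h9 => by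
      by_contra hn
      obtain ⟨N', rfl⟩ := Multiset.exists_cons_of_mem hc
      rw [Multiset.map_cons, Multiset.cons_bind, Multiset.nodup_add] at h2
      exact Multiset.disjoint_left.1 h2.2.2 h8 (Multiset.mem_bind.2 ⟨e.2, Multiset.mem_map_of_mem _
        ((Multiset.mem_cons.1 he).resolve_left (Ne.symm hn)), h9⟩)
    rw [key c hc _ a2 h6, key d hd _ b2 h7]

theorem perm_uq {ι : Type} (s : Finset ι) (f g : ι → ℕ)
    (h : ∀ i ∈ s, ∀ j ∈ s, f i = f j ↔ g i = g j) :
    ∃ σ : Equiv.Perm ℕ, ∀ i ∈ s, σ (f i) = g i := by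
  classical
  induction s using Finset.induction_on with
  | empty => exact ⟨1, by simp⟩
  | insert a s _ ih =>
    obtain ⟨σ, hσ⟩ := ih fun i hi j hj =>
      h i (Finset.mem_insert_of_mem hi) j (Finset.mem_insert_of_mem hj)
    refine ⟨Equiv.swap (σ (f a)) (g a) * σ, fun i hi => ?_⟩
    have h1 := h i hi a (Finset.mem_insert_self _ _)
    rw [Equiv.Perm.mul_apply]
    by_cases h2 : f i = f a
    · rw [h2, Equiv.swap_apply_left, h1.1 h2]
    · have h3 := hσ i ((Finset.mem_insert.1 hi).resolve_left fun e => h2 (e ▸ rfl))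
      rw [Equiv.swap_apply_of_ne_of_ne (σ.injective.ne h2) (h3 ▸ mt h1.2 h2), h3]

theorem ren_uq {u u' : List Pass} (h : u.map Prod.snd = u'.map Prod.snd)
    (hn : ∀ p ∈ u, ∀ q ∈ u, ∀ p' ∈ u', ∀ q' ∈ u', p.2 = p'.2 → q.2 = q'.2 →
      (p.1 = q.1 ↔ p'.1 = q'.1)) : FE (u.map Prod.fst) (u'.map Prod.fst) := by
  obtain ⟨σ, hσ⟩ := perm_uq ((u.toFinset ×ˢ u'.toFinset).filter fun x => x.1.2 = x.2.2)
    (fun x => x.1.1) (fun x => x.2.1) fun i hi j hj => by
      simp only [Finset.mem_filter, Finset.mem_product, List.mem_toFinset] at hi hj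
      exact hn _ hi.1.1 _ hj.1.1 _ hi.1.2 _ hj.1.2 hi.2 hj.2
  have h1 : ∀ p ∈ u, ∀ p' ∈ u', p.2 = p'.2 → σ p.1 = p'.1 := fun p hp p' hp' e =>
    hσ (p, p') (by simp [hp, hp', e])
  have h2 : (u.map Prod.fst).map σ = u'.map Prod.fst := by
    clear hn hσ
    induction u generalizing u' with
    | nil => rw [List.map_eq_nil_iff.1 h.symm]; rfl
    | cons p u ih =>
      cases u' with
      | nil => cases h
      | cons q u' =>
        rw [List.map_cons, List.map_cons, List.cons.injEq] at h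
        rw [List.map_cons, List.map_cons, List.map_cons,
          h1 p List.mem_cons_self q List.mem_cons_self h.1, ih h.2 fun p hp p' hp' =>
            h1 p (List.mem_cons_of_mem _ hp) p' (List.mem_cons_of_mem _ hp')]
  exact h2 ▸ fe_of_flat (Flat.ren σ _)

theorem good_self {M : Mod} {w : List ℕ} (hM : M.Ok w) (hw : IsGauss w) :
    Good w ((M.cs.map crs : List Cr) : Multiset Cr) (arcs M.s M.l M.s) := by
  obtain ⟨N, h1, h2, h3⟩ := self_uq hM hw
  exact ⟨N, M.l, M.s, h1, h2, h3, by simpa using path_arcs M.s M.s M.l 0, hM.word ▸ fe_refl _⟩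

theorem good_uniq {M : Mod} {w F : List ℕ} (hM : M.Ok w) (hw : IsGauss w)
    (h : Good F ((M.cs.map crs : List Cr) : Multiset Cr) (arcs M.s M.l M.s)) : FE w F := by
  obtain ⟨N, l', s', h1, h2, h3, h4, h5⟩ := h
  obtain ⟨N₀, g1, g2, g3⟩ := self_uq hM hw
  refine fe_trans ?_ h5
  have nd := (List.nodup_cons.1 hM.nd).2
  have k1 := ep_uq h3
  have k2 := ep_uq g3
  have k3 : ((M.l.map epUq : List _) : Multiset (Sym2 ℕ)).Nodup := nodup_ep_uq nd
  have hl : ∀ u : List Pass, (u.map epUq).Perm (M.l.map epUq) → (lbl u).Nodup := fun u hu => by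
    rw [← Multiset.coe_nodup, lbl_uq, Multiset.coe_eq_coe.2 hu, ← lbl_uq]
    exact nd
  have k4 : (l'.map epUq).Perm (M.l.map epUq) := by
    rw [← Multiset.coe_eq_coe, k1, k2, h1, g1]
  cases l' with
  | nil =>
    rw [← hM.word, List.map_eq_nil_iff.1 k4.nil_eq.symm]
    exact fe_refl _
  | cons q u' =>
    have key : ∀ (u : List Pass) (r : ℕ), (u.map tag).Perm (M.l.map tag) →
        Path (conn (arcs M.s M.l M.s)) r u r → (∃ p ∈ u, p.2 = q.2) →
        FE (u.map Prod.fst) ((q :: u').map Prod.fst) := by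
      rintro u r a1 a2 ⟨p, hp, a3⟩
      obtain ⟨l₁, l₂, rfl⟩ := List.append_of_mem hp
      obtain ⟨r', a4⟩ := path_rotate (conn_equiv _) a2
      have a5 : ((p :: l₂ ++ l₁).map tag).Perm (M.l.map tag) :=
        (List.perm_append_comm.map tag).trans a1
      have a6 : ((p :: l₂ ++ l₁).map epUq).Perm (M.l.map epUq) := by
        have := a5.map Prod.snd
        rwa [List.map_map, List.map_map] at this
      have a7 := hl _ a6
      have a8 := hl _ k4
      rw [List.cons_append, lbl_cons] at a7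
      rw [lbl_cons, ← a3] at a8
      have a9 := follow_uq hM.nd (u := l₂ ++ l₁) (u' := u') (x := p.2.2)
        ((Multiset.coe_eq_coe.1 ((lbl_uq (p :: l₂ ++ l₁)).trans (by
          rw [Multiset.coe_eq_coe.2 a6, lbl_uq]))).subset
          (mem_lbl.2 ⟨p, List.mem_cons_self, .inr rfl⟩))
        (by simpa using (a6.trans k4.symm).length_eq) (List.nodup_cons.1 a7).2
        (List.nodup_cons.1 a8).2
        (fun x hx => a6.subset (List.mem_map_of_mem (List.mem_cons_of_mem _ hx)))
        (fun x hx => k4.subset (List.mem_map_of_mem (List.mem_cons_of_mem _ hx))) a4.2 (a3 ▸ h4.2)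
      rw [List.map_append]
      refine fe_trans (fe_rotate _ _) ?_
      rw [← List.map_append]
      refine ren_uq (by rw [List.cons_append, List.map_cons, List.map_cons, a3, a9])
        fun x hx y hy x' hx' y' hy' e1 e2 => ?_
      have b1 := name_uq g2 (k2 ▸ k3)
        (g3 ▸ Multiset.mem_coe.2 (a5.subset (List.mem_map_of_mem hx)))
        (g3 ▸ Multiset.mem_coe.2 (a5.subset (List.mem_map_of_mem hy)))
      have b2 := name_uq h2 (k1 ▸ Multiset.coe_eq_coe.2 k4 ▸ k3)
        (h3 ▸ Multiset.mem_coe.2 (List.mem_map_of_mem (f := tag) hx'))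
        (h3 ▸ Multiset.mem_coe.2 (List.mem_map_of_mem (f := tag) hy'))
      simp only [tag, g1, e1, e2] at b1
      simp only [tag, h1] at b2
      exact b1.trans b2.symm
    have hP : Path (conn (arcs M.s M.l M.s)) M.s M.l M.s := by
      simpa using path_arcs M.s M.s M.l 0
    obtain ⟨p, hp, e⟩ := List.mem_map.1 (k4.subset List.mem_cons_self)
    rw [← hM.word]
    rcases Sym2.eq_iff.1 e with e | e
    · exact key M.l M.s (List.Perm.refl _) hP ⟨p, hp, Prod.ext e.1 e.2⟩
    · refine fe_trans (fe_of_flat (Flat.rev _)) ?_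
      have := key (M.l.reverse.map rvUq) M.s (by
        rw [List.map_map, show tag ∘ rvUq = tag from funext fun x => Prod.ext rfl Sym2.eq_swap]
        exact (List.reverse_perm _).map tag) (path_rv_uq (conn_equiv _) hP)
        ⟨rvUq p, List.mem_map_of_mem (List.mem_reverse.2 hp), Prod.ext e.2 e.1⟩
      rwa [List.map_map, show Prod.fst ∘ rvUq = Prod.fst from rfl, List.map_reverse] at this

end Pool.Agent.P.MP_9b2cf8_gt
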