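import Pool.Agent.P.MP_9b2cf8_gt.Br

namespace Pool.Agent.P.MP_9b2cf8_gt

/-- The passes of a word, numbered from `n` on. -/
def mk_z4 : ℕ → List ℕ → List Pass
  | _, [] => []
  | n, a :: w => (a, 2 * n + 1, 2 * n + 2) :: mk_z4 (n + 1) w

theorem mk_word_z4 (n : ℕ) (w : List ℕ) : (mk_z4 n w).map Prod.fst = w := by
  induction w generalizing n with
  | nil => rfl
  | cons a w ih => simp [mk_z4, ih]

theorem mk_lbl_z4 (n : ℕ) (w : List ℕ) :
    lbl (mk_z4 n w) = List.range' (2 * n + 1) (2 * w.length) := by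
  induction w generalizing n with
  | nil => rfl
  | cons a w ih =>
    rw [mk_z4, lbl_cons, ih, List.length_cons, show 2 * (w.length + 1) = 2 * w.length + 1 + 1 by ring,
      List.range'_succ, List.range'_succ]
    rfl

theorem mk_mem_z4 {n : ℕ} {w : List ℕ} {p : Pass} (h : p ∈ mk_z4 n w) :
    ∃ x y, w = x ++ p.1 :: y ∧ p.2.1 = 2 * (n + x.length) + 1 ∧ p.2.2 = 2 * (n + x.length) + 2 := by
  induction w generalizing n with
  | nil => simp [mk_z4] at h
  | cons a w ih =>
    rcases List.mem_cons.1 h with rfl | h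
    · exact ⟨[], w, rfl, rfl, rfl⟩
    · obtain ⟨x, y, h1, h2, h3⟩ := ih h
      refine ⟨a :: x, y, by rw [h1]; rfl, ?_, ?_⟩ <;> simp only [List.length_cons] <;> omega

theorem mk_path_z4 (k : ℕ → ZMod 4) (n t : ℕ) (w : List ℕ) (ht : k (n + w.length) = k (t / 2)) :
    Path (fun x y => k (x / 2) = k (y / 2)) (2 * n) (mk_z4 n w) t := by
  induction w generalizing n with
  | nil =>
    show k (2 * n / 2) = k (t / 2)
    rw [show 2 * n / 2 = n by omega]
    exact ht
  | cons a w ih =>
    refine ⟨?_, ih (n + 1) (by rw [← ht, List.length_cons]; congr 1; omega)⟩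
    show k (2 * n / 2) = k ((2 * n + 1) / 2)
    congr 1
    omega

theorem lbl_nodup_z4 {l : List Pass} (h : (lbl l).Nodup) : l.Nodup := by
  induction l with
  | nil => exact List.nodup_nil
  | cons p l ih =>
    rw [lbl_cons, List.nodup_cons, List.nodup_cons] at h
    exact List.nodup_cons.2 ⟨fun hp => h.2.1 (mem_lbl.2 ⟨p, hp, Or.inr rfl⟩), ih h.2.2⟩

theorem pairs_z4 : ∀ (N : ℕ) (l : List Pass), l.length ≤ N → IsGauss (l.map Prod.fst) →
    ∃ cs : List (Pass × Pass), (cs.flatMap fun e => [e.1, e.2]).Perm l ∧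
      ∀ e ∈ cs, e.1.1 = e.2.1 := by
  intro N
  induction N with
  | zero =>
    intro l hl _
    rw [List.length_eq_zero_iff.1 (Nat.le_zero.1 hl)]
    exact ⟨[], List.Perm.refl _, by simp⟩
  | succ N ih =>
    intro l hl hg
    match l, hl, hg with
    | [], _, _ => exact ⟨[], List.Perm.refl _, by simp⟩
    | p :: l, hl, hg =>
      have h1 := hg p.1 (by simp)
      rw [List.map_cons, List.count_cons_self] at h1
      have h2 : p.1 ∈ l.map Prod.fst := List.count_pos_iff.1 (by omega)
      obtain ⟨q, hq, hqp⟩ := List.mem_map.1 h2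
      obtain ⟨l₁, l₂, rfl⟩ := List.append_of_mem hq
      have hp : (p :: (l₁ ++ q :: l₂)).Perm (p :: q :: (l₁ ++ l₂)) := List.perm_middle.cons p
      have h3 : IsGauss ((l₁ ++ l₂).map Prod.fst) := by
        have h4 := gauss_of_perm (hp.map Prod.fst) hg
        rw [List.map_cons, List.map_cons, hqp] at h4
        exact red_gauss (Red.r1 [] _ p.1) h4
      obtain ⟨cs, h5, h6⟩ := ih (l₁ ++ l₂) (by simp at hl ⊢; omega) h3
      refine ⟨(p, q) :: cs, ((h5.cons q).cons p).trans hp.symm, ?_⟩
      intro e he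
      rcases List.mem_cons.1 he with rfl | he
      · exact hqp.symm
      · exact h6 e he

theorem countP_z4 (s : Finset ℕ) (P : ℕ → Prop) [DecidablePred P] (y : List ℕ)
    (hy : ∀ b ∈ y, b ∈ s) : y.countP (fun b => P b) = ∑ b ∈ s.filter P, y.count b := by
  induction y with
  | nil => simp
  | cons a y ih =>
    rw [List.countP_cons, ih fun b hb => hy b (List.mem_cons_of_mem _ hb)]
    simp only [List.count_cons, Finset.sum_add_distrib, beq_iff_eq, Finset.sum_ite_eq,
      Finset.mem_filter, hy a List.mem_cons_self, true_and, decide_eq_true_eq]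

theorem par_z4 (s : Finset ℕ) (P : ℕ → Prop) [DecidablePred P] (y : List ℕ)
    (hy : ∀ b ∈ y, b ∈ s) (h2 : ∀ b, y.count b ≤ 2) :
    y.countP (fun b => P b) % 2 = ((s.filter fun b => y.count b = 1).filter P).card % 2 := by
  rw [countP_z4 s P y hy, Finset.filter_comm, Finset.card_filter, Finset.sum_nat_mod,
    Finset.sum_nat_mod _ _ (fun b => if y.count b = 1 then 1 else 0)]
  congr 1
  refine Finset.sum_congr rfl fun b _ => ?_
  have := h2 b
  split_ifs <;> omega

theorem between_z4 {x y z : List ℕ} {a : ℕ} (hx : a ∉ x) (hy : a ∉ y) :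
    between (x ++ a :: (y ++ a :: z)) a = y := by
  unfold between
  rw [List.dropWhile_append_of_pos (fun b hb => by simpa using fun h : b = a => hx (h ▸ hb)),
    List.dropWhile_cons_of_neg (by simp), List.tail_cons,
    List.takeWhile_append_of_pos (fun b hb => by simpa using fun h : b = a => hy (h ▸ hb)),
    List.takeWhile_cons_of_neg (by simp), List.append_nil]

/-- The colour of the gap number `i`. -/
def kk_z4 (w : List ℕ) (i : ℕ) : ZMod 4 :=
  (i : ZMod 4) ^ 2 + 2 * ((w.take i).countP fun b => Even (linked w b).card : ℕ)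

theorem count_le_z4 {w : List ℕ} (hw : IsGauss w) (b : ℕ) : w.count b ≤ 2 := by
  by_cases hb : b ∈ w
  · exact (hw b hb).le
  · rw [List.count_eq_zero_of_not_mem hb]
    omega

theorem kk_end_z4 {w : List ℕ} (hw : IsGauss w) : kk_z4 w w.length = 0 := by
  have h0 : (w.toFinset.filter fun b => w.count b = 1) = ∅ := by
    refine Finset.filter_eq_empty_iff.2 fun b hb => ?_
    rw [hw b (List.mem_toFinset.1 hb)]
    omega
  have h1 := par_z4 w.toFinset (fun _ => True) w (fun b hb => List.mem_toFinset.2 hb)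
    (count_le_z4 hw)
  have h2 := par_z4 w.toFinset (fun b => Even (linked w b).card) w
    (fun b hb => List.mem_toFinset.2 hb) (count_le_z4 hw)
  rw [h0] at h1 h2
  simp only [decide_true, List.countP_true, Finset.filter_empty, Finset.card_empty] at h1 h2
  obtain ⟨m, hm⟩ : ∃ m, w.length = 2 * m := ⟨w.length / 2, by omega⟩
  obtain ⟨c, hc⟩ : ∃ c, (w.countP fun b => Even (linked w b).card) = 2 * c :=
    ⟨(w.countP fun b => Even (linked w b).card) / 2, by omega⟩
  rw [kk_z4, List.take_length, hc, hm]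
  push_cast
  generalize (m : ZMod 4) = m
  generalize (c : ZMod 4) = c
  revert m c
  decide

theorem key_z4 {w x y z : List ℕ} {a : ℕ} (hw : IsGauss w) (hz : ZClass w)
    (h : w = x ++ a :: (y ++ a :: z)) {i j : ℕ} (hi : i = x.length)
    (hj : j = x.length + y.length + 1) :
    kk_z4 w (i + 1) = kk_z4 w i + 2 * kk_z4 w j + 1 ∧
      kk_z4 w (j + 1) = kk_z4 w j + 2 * kk_z4 w i + 1 ∧ kk_z4 w i + kk_z4 w j + 1 ≠ 0 := by
  have ha : a ∈ w := by simp [h]
  have hc := hw a ha
  have hc' : x.count a + (y.count a + (z.count a + 1) + 1) = 2 := by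
    rw [← hc, h]
    simp [List.count_append]
  have hb : between w a = y := by
    rw [h]
    exact between_z4 (List.count_eq_zero.1 (by omega)) (List.count_eq_zero.1 (by omega))
  have hys : ∀ b ∈ y, b ∈ w.toFinset := fun b hb => by simp [h, hb]
  have hy2 : ∀ b, y.count b ≤ 2 := by
    intro b
    have h1 := count_le_z4 hw b
    rw [h] at h1
    simp only [List.count_append, List.count_cons] at h1
    omega
  have hl : linked w a = w.toFinset.filter fun b => y.count b = 1 := by rw [linked, hb]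
  have h1 := par_z4 w.toFinset (fun _ => True) y hys hy2
  have h2 := par_z4 w.toFinset (fun b => Even (linked w b).card) y hys hy2
  rw [← hl] at h1 h2
  simp only [decide_true, List.countP_true, Finset.filter_true] at h1
  have t1 : w.take i = x := by rw [h, hi, List.take_left]
  have t2 : w.take (i + 1) = x ++ [a] := by
    rw [h, show x ++ a :: (y ++ a :: z) = (x ++ [a]) ++ (y ++ a :: z) by simp]
    exact List.take_left' (by simp [hi])
  have t3 : w.take j = x ++ a :: y := by
    rw [h, show x ++ a :: (y ++ a :: z) = (x ++ a :: y) ++ a :: z by simp]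
    exact List.take_left' (by simp [hj]; omega)
  have t4 : w.take (j + 1) = x ++ a :: (y ++ [a]) := by
    rw [h, show x ++ a :: (y ++ a :: z) = (x ++ a :: (y ++ [a])) ++ z by simp]
    exact List.take_left' (by simp [hj]; omega)
  have hz' := hz a ha
  simp only [kk_z4, t1, t2, t3, t4, List.countP_append, List.countP_cons, List.countP_nil]
  generalize (x.countP fun b => Even (linked w b).card) = E
  generalize (y.countP fun b => Even (linked w b).card) = c at h2
  by_cases he : Even (linked w a).card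
  · have h3 := Nat.odd_iff.1 (hz' he)
    have h4 := Nat.even_iff.1 he
    obtain ⟨m, hm⟩ : ∃ m, j = i + 2 * m + 1 := ⟨y.length / 2, by omega⟩
    obtain ⟨c', rfl⟩ : ∃ c', c = 2 * c' + 1 := ⟨c / 2, by omega⟩
    simp only [he, decide_true, if_true, hm]
    push_cast
    generalize (m : ZMod 4) = m
    generalize (c' : ZMod 4) = c'
    generalize (E : ZMod 4) = E
    generalize (i : ZMod 4) = i
    revert m c' E i
    decide
  · have h4 := Nat.odd_iff.1 (Nat.not_even_iff_odd.1 he)
    obtain ⟨m, hm⟩ : ∃ m, j = i + 2 * m + 2 := ⟨y.length / 2, by omega⟩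
    simp only [he, decide_false, Bool.false_eq_true, if_false, hm]
    push_cast
    generalize (m : ZMod 4) = m
    generalize (c : ZMod 4) = c
    generalize (E : ZMod 4) = E
    generalize (i : ZMod 4) = i
    revert m c E i
    decide

theorem key2_z4 {w x y x' y' : List ℕ} {a : ℕ} (hw : IsGauss w) (hz : ZClass w)
    (h : w = x ++ a :: y) (h' : w = x' ++ a :: y') (hne : x.length ≠ x'.length) :
    kk_z4 w (x.length + 1) = kk_z4 w x.length + 2 * kk_z4 w x'.length + 1 ∧
      kk_z4 w (x'.length + 1) = kk_z4 w x'.length + 2 * kk_z4 w x.length + 1 ∧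
        kk_z4 w x.length + kk_z4 w x'.length + 1 ≠ 0 := by
  rcases List.append_eq_append_iff.1 (h.symm.trans h') with ⟨m, h1, h2⟩ | ⟨m, h1, h2⟩
  · match m, h1, h2 with
    | [], h1, _ => exact absurd (by simp [h1]) hne
    | b :: m, h1, h2 =>
      obtain ⟨rfl, rfl⟩ := List.cons.inj h2
      exact key_z4 hw hz h rfl (by simp [h1]; omega)
  · match m, h1, h2 with
    | [], h1, _ => exact absurd (by simp [h1]) hne
    | b :: m, h1, h2 =>
      obtain ⟨rfl, rfl⟩ := List.cons.inj h2
      obtain ⟨h3, h4, h5⟩ := key_z4 (i := x'.length) (j := x.length) hw hz h' rfl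
        (by simp [h1]; omega)
      exact ⟨h4, h3, by rwa [add_comm (kk_z4 w x.length)]⟩

theorem zmodel {w : List ℕ} (hw : IsGauss w) (hz : ZClass w) : ∃ M : Mod, M.Ok w ∧ M.NZ := by
  obtain ⟨cs, hp, hn⟩ := pairs_z4 _ (mk_z4 0 w) le_rfl (by rwa [mk_word_z4])
  have hnd : (0 :: lbl (mk_z4 0 w)).Nodup := by
    rw [mk_lbl_z4]
    exact List.nodup_cons.2 ⟨by simp, List.nodup_range'⟩
  have hnd' := hp.nodup_iff.2 (lbl_nodup_z4 (List.nodup_cons.1 hnd).2)
  have key : ∀ e ∈ cs,
      kk_z4 w (e.1.2.2 / 2) = kk_z4 w (e.1.2.1 / 2) + 2 * kk_z4 w (e.2.2.1 / 2) + 1 ∧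
      kk_z4 w (e.2.2.2 / 2) = kk_z4 w (e.2.2.1 / 2) + 2 * kk_z4 w (e.1.2.1 / 2) + 1 ∧
        kk_z4 w (e.1.2.1 / 2) + kk_z4 w (e.2.2.1 / 2) + 1 ≠ 0 := by
    intro e he
    obtain ⟨x, y, h1, h2, h3⟩ := mk_mem_z4 (hp.subset (List.mem_flatMap.2 ⟨e, he, by simp⟩) :
      e.1 ∈ mk_z4 0 w)
    obtain ⟨x', y', h1', h2', h3'⟩ := mk_mem_z4
      (hp.subset (List.mem_flatMap.2 ⟨e, he, by simp⟩) : e.2 ∈ mk_z4 0 w)
    have hne : e.1 ≠ e.2 := by simpa using (List.nodup_flatMap.1 hnd').1 e he
    have hne' : x.length ≠ x'.length := fun h =>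
      hne (Prod.ext (hn e he) (Prod.ext (by omega) (by omega)))
    rw [show e.1.2.2 / 2 = x.length + 1 by omega, show e.1.2.1 / 2 = x.length by omega,
      show e.2.2.2 / 2 = x'.length + 1 by omega, show e.2.2.1 / 2 = x'.length by omega]
    exact key2_z4 hw hz h1 (hn e he ▸ h1') hne'
  refine ⟨⟨mk_z4 0 w, 0, fun x => kk_z4 w (x / 2), cs⟩, ⟨mk_word_z4 0 w, hnd, ?_, hp, hn,
    fun e he => ⟨(key e he).1, (key e he).2.1⟩⟩, fun e he => (key e he).2.2⟩
  refine mk_path_z4 (kk_z4 w) 0 0 w ?_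
  rw [zero_add, kk_end_z4 hw]
  simp [kk_z4]

end Pool.Agent.P.MP_9b2cf8_gt
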