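import Pool.Agent.P.MP_9b2cf8_gt.Minor
import Pool.Agent.P.MP_9b2cf8_gt.MvR1
import Pool.Agent.P.MP_9b2cf8_gt.MvR2p
import Pool.Agent.P.MP_9b2cf8_gt.MvR2a
import Pool.Agent.P.MP_9b2cf8_gt.MvR3
import Pool.Agent.P.MP_9b2cf8_gt.Uniq
import Pool.Agent.P.MP_9b2cf8_gt.ZMod4
import Pool.Agent.P.MP_9b2cf8_gt.CompA
import Pool.Agent.P.MP_9b2cf8_gt.CompB
import Pool.Agent.P.MP_9b2cf8_gt.CompC

namespace Pool.Agent.P.MP_9b2cf8_gt

theorem tr_flat {g : Fn ℂ} (hg : DF g) {M : Mod} {v w : List ℕ} (h : Flat v w) (hv : IsGauss v)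
    (hM : M.Ok v) : ∃ M' : Mod, M'.Ok w ∧ M'.Phi g = M.Phi g ∧ (M.NZ → M'.NZ) := by
  cases h with
  | rot a w => exact tr_rot hg hM
  | rev => exact tr_rev hg hM
  | ren σ => exact tr_ren σ hM
  | r3 x y z t a b c d e f u v w huv hvw hwu h => exact tr_r3 hg huv hvw hwu h hv hM

theorem tr_fe {g : Fn ℂ} (hg : DF g) {M : Mod} {v w : List ℕ} (h : FE v w) (hv : IsGauss v)
    (hM : M.Ok v) : ∃ M' : Mod, M'.Ok w ∧ M'.Phi g = M.Phi g := by
  induction h with
  | refl => exact ⟨M, hM, rfl⟩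
  | tail h1 h ih =>
    obtain ⟨M', h2, h3⟩ := ih
    obtain ⟨M'', h4, h5, -⟩ := tr_flat hg h (fe_gauss h1 hv) h2
    exact ⟨M'', h4, h5.trans h3⟩

theorem tr_step {g : Fn ℂ} (hg : DF g) {M : Mod} {v w : List ℕ} (h : Step v w) (hM : M.Ok v) :
    ∃ M' : Mod, M'.Ok w ∧ M'.Phi g = M.Phi g ∧ (M.NZ → M'.NZ) := by
  obtain ⟨hv, -, h | h⟩ := h
  · exact tr_flat hg h hv hM
  · cases h with
    | r1 x y a => exact tr_r1_down hg hv hM
    | r2p x y z a b => exact tr_r2p_down hg hv hM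
    | r2a x y z a b => exact tr_r2a_down hg hv hM

theorem tr_step_up {g : Fn ℂ} (hg : DF g) {M : Mod} {v w : List ℕ} (h : Step v w) (hM : M.Ok w) :
    ∃ M' : Mod, M'.Ok v ∧ M'.Phi g = M.Phi g := by
  obtain ⟨-, hw, h | h⟩ := h
  · exact tr_fe hg (flat_symm h) hw hM
  · cases h with
    | r1 x y a => exact tr_r1_up hg a hM
    | r2p x y z a b => exact tr_r2p_up hg a b hM
    | r2a x y z a b => exact tr_r2a_up hg a b hM

theorem tr_same {g : Fn ℂ} (hg : DF g) {v w : List ℕ} (h : SameKnot v w) :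
    (∀ M : Mod, M.Ok v → ∃ M' : Mod, M'.Ok w ∧ M'.Phi g = M.Phi g) ∧
      ∀ M : Mod, M.Ok w → ∃ M' : Mod, M'.Ok v ∧ M'.Phi g = M.Phi g := by
  induction h with
  | rel v w h =>
    exact ⟨fun M hM => (tr_step hg h hM).imp fun _ h => ⟨h.1, h.2.1⟩, fun M hM => tr_step_up hg h hM⟩
  | refl v => exact ⟨fun M hM => ⟨M, hM, rfl⟩, fun M hM => ⟨M, hM, rfl⟩⟩
  | symm v w _ ih => exact ⟨ih.2, ih.1⟩
  | trans u v w _ _ ih1 ih2 =>
    constructor
    · intro M hM
      obtain ⟨M', h1, h2⟩ := ih1.1 M hM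
      obtain ⟨M'', h3, h4⟩ := ih2.1 M' h1
      exact ⟨M'', h3, h4.trans h2⟩
    · intro M hM
      obtain ⟨M', h1, h2⟩ := ih2.2 M hM
      obtain ⟨M'', h3, h4⟩ := ih1.2 M' h1
      exact ⟨M'', h3, h4.trans h2⟩

theorem df_zero : DF fun _ _ => 0 :=
  ⟨⟨by simp, by simp⟩, by simp, by simp, by simp, by simp, by simp, by simp⟩

theorem nz_down {v w : List ℕ} (h : Down v w) {M : Mod} (hM : M.Ok v) (hz : M.NZ) :
    ∃ M' : Mod, M'.Ok w ∧ M'.NZ := by
  induction h with
  | refl => exact ⟨M, hM, hz⟩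
  | tail _ h ih =>
    obtain ⟨M', h1, h2⟩ := ih
    obtain ⟨M'', h3, -, h4⟩ := tr_step df_zero h h1
    exact ⟨M'', h3, h4 h2⟩

theorem ok_length {M : Mod} {w : List ℕ} (hM : M.Ok w) : w.length = 2 * M.cs.length := by
  rw [← hM.word, List.length_map, ← hM.perm.length_eq, List.length_flatMap]
  simp [mul_comm]

theorem phi_top {M : Mod} {w F : List ℕ} (hM : M.Ok w) (h : w.length ≤ F.length) :
    M.Phi (gF F) = (M.cs.map fun e => chi (tl M.col e) - 1).prod *
      gF F ((M.cs.map crs : List Cr) : Multiset Cr) (arcs M.s M.l M.s) := by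
  have hl := ok_length hM
  rw [Mod.Phi, br_top M.cs.length (gF_low (by omega)) _ _ _ (by simp)]
  simp [List.map_map, Function.comp_def, lab]

/-- An irreducible word with non-zero labels is flat equivalent to every equivalent word that
is not longer. -/
theorem fe_of_same {F w : List ℕ} (hF : IsGauss F) (hw : IsGauss w) (hi : Irr F) {M : Mod}
    (hM : M.Ok F) (hz : M.NZ) (h : SameKnot F w) (hl : w.length ≤ F.length) : FE w F := by
  obtain ⟨M', hM', e⟩ := (tr_same (df_gF hi) h).1 M hM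
  have h1 := ok_length hM
  have h2 := ok_length hM'
  have h3 : M.Phi (gF F) ≠ 0 := by
    rw [phi_top hM le_rfl]
    refine mul_ne_zero (List.prod_ne_zero ?_) ((gF_top (by simp; omega)).2 (good_self hM hF))
    intro h0
    obtain ⟨x, hx, h0⟩ := List.mem_map.1 h0
    exact chi_ne_one (hz x hx) (sub_eq_zero.1 h0)
  rw [← e, phi_top hM' hl] at h3
  exact good_uniq hM' hw ((gF_top (by simp; omega)).1 (right_ne_zero_of_mul h3))

theorem zstar_nf {v : List ℕ} (h : ZStar v) :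
    ∃ F, Down v F ∧ Irr F ∧ ∃ M : Mod, M.Ok F ∧ M.NZ := by
  obtain ⟨hv, z, h1, h2⟩ := h
  have hz := down_gauss h1 hv
  obtain ⟨M, hM, hn⟩ := zmodel hz h2
  obtain ⟨F, h3, h4⟩ := exists_irr hz
  exact ⟨F, h1.trans h3, h4, nz_down h3 hM hn⟩

theorem same_iff_join {v w : List ℕ} (hv : ZStar v) (hw : ZStar w) :
    SameKnot v w ↔ ∃ z, Down v z ∧ Down w z := by
  constructor
  · intro h
    obtain ⟨F, f1, f2, M, f3, f4⟩ := zstar_nf hv
    obtain ⟨G, g1, g2, N, g3, g4⟩ := zstar_nf hw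
    have hF := down_gauss f1 hv.1
    have hG := down_gauss g1 hw.1
    have hFG : SameKnot F G := Relation.EqvGen.trans _ _ _
      (Relation.EqvGen.symm _ _ (down_same f1)) (Relation.EqvGen.trans _ _ _ h (down_same g1))
    rcases le_total G.length F.length with hl | hl
    · exact ⟨F, f1, g1.trans (fe_down (fe_of_same hF hG f2 f3 f4 hFG hl) hG)⟩
    · exact ⟨G, f1.trans (fe_down (fe_of_same hG hF g2 g3 g4
        (Relation.EqvGen.symm _ _ hFG) hl) hF), g1⟩
  · rintro ⟨z, h1, h2⟩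
    exact Relation.EqvGen.trans _ _ _ (down_same h1) (Relation.EqvGen.symm _ _ (down_same h2))

theorem join_computable : ∃ f : List ℕ × List ℕ → Bool, Computable f ∧
    ∀ v w, IsGauss v → IsGauss w → (f (v, w) = true ↔ ∃ z, Down v z ∧ Down w z) := by
  obtain ⟨s, hs, hs'⟩ := exists_succ
  obtain ⟨r, hr, hr'⟩ := exists_reach s hs fun v w h => step0_le ((hs' v w).1 h)
  have e : (fun x y => y ∈ s x) = Step0 := by
    funext x y
    exact propext (hs' x y)
  rw [e] at hr'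
  have hc : Primrec fun v => (r v).map canon :=
    Primrec.list_map hr (canon_primrec.comp Primrec.snd).to₂
  have hi : Primrec fun p : List ℕ × List ℕ => ((r p.1).map canon).flatMap fun x =>
      ((r p.2).map canon).flatMap fun y => if x = y then [0] else [] := by
    refine Primrec.list_flatMap (hc.comp Primrec.fst) ?_
    have h2 : Primrec fun q : (List ℕ × List ℕ) × List ℕ => (r q.1.2).map canon :=
      hc.comp (Primrec.snd.comp Primrec.fst)
    refine Primrec.list_flatMap h2 ?_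
    exact Primrec.ite (Primrec.eq.comp (Primrec.snd.comp Primrec.fst) Primrec.snd)
      (Primrec.const [0]) (Primrec.const [])
  refine ⟨fun p => decide (0 < (((r p.1).map canon).flatMap fun x =>
      ((r p.2).map canon).flatMap fun y => if x = y then [0] else []).length),
    (Primrec.nat_lt.comp (Primrec.const 0) (Primrec.list_length.comp hi)).decide.to_comp, ?_⟩
  intro v w hv hw
  simp only [decide_eq_true_eq, List.length_pos_iff_exists_mem, List.mem_flatMap,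
    List.mem_map, down_iff hv, down_iff hw, hr']
  constructor
  · rintro ⟨k, x, ⟨y, hy, rfl⟩, x', ⟨y', hy', rfl⟩, hk⟩
    split_ifs at hk with h
    · obtain ⟨σ, hσ⟩ := canon_eq_iff.1 h.symm
      exact ⟨y, ⟨y, 1, hy, by simp⟩, y', σ, hy', hσ⟩
    · simp at hk
  · rintro ⟨z, ⟨y, σ, hy, h1⟩, y', τ, hy', h2⟩
    have h3 : canon y = canon z := canon_eq_iff.2 ⟨σ, h1⟩
    have h4 : canon y' = canon z := canon_eq_iff.2 ⟨τ, h2⟩
    refine ⟨0, canon y, ⟨y, hy, rfl⟩, canon y', ⟨y', hy', rfl⟩, ?_⟩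
    rw [if_pos (h3.trans h4.symm)]
    simp

end Pool.Agent.P.MP_9b2cf8_gt
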