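import Pool.Agent.P.MP_9b2cf8_gt.TR
import Pool.Agent.P.MP_9b2cf8_gt.GoodA
import Pool.Agent.P.MP_9b2cf8_gt.GoodB
import Pool.Agent.P.MP_9b2cf8_gt.GoodC
import Pool.Agent.P.MP_9b2cf8_gt.Gam

/-! The indicator of being a smoothing minor is a Demazure functional. -/

namespace Pool.Agent.P.MP_9b2cf8_gt

theorem mu_local {φ : Fn ℕ} (I : List ℕ) (L L' : List Cr) (Q Q' : Multiset (Sym2 ℕ))
    (h : ∀ K P, (∀ m ∈ I, Av m K P) → (br φ (L.map fun c => (c, 1, 1, 1)) K (Q + P) = 0 ↔
      br φ (L'.map fun c => (c, 1, 1, 1)) K (Q' + P) = 0))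
    (K : Multiset Cr) (P : Multiset (Sym2 ℕ)) (hK : ∀ m ∈ I, Av m K P) :
    mu φ ((L : Multiset Cr) + K) (Q + P) = mu φ ((L' : Multiset Cr) + K) (Q' + P) := by
  have : mc φ ((L : Multiset Cr) + K) (Q + P) = 0 ↔ mc φ ((L' : Multiset Cr) + K) (Q' + P) = 0 := by
    rw [mc_add, mc_add, br_addP, br_addP]
    exact br_ne_congr I h _ (fun m hm c hc => (hK m hm).1 c (Multiset.mem_toList.1 hc)) _ _
      fun m hm => ⟨by simp, (hK m hm).2⟩
  simp only [mu, this]

theorem sk_mu {φ : Fn ℕ} (h : Sk φ id (fun _ => 0) fun _ => 0) : Sk (mu φ) id id id := by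
  refine ⟨⟨?_, ?_⟩, ?_, ?_, ?_, ?_, ?_, ?_⟩
  · intro a b c d K P
    have := mu_local (φ := φ) [] [(a, b, c, d)] [(b, a, d, c)] 0 0
      (fun K P _ => by simp only [List.map_cons, List.map_nil, br, T_sw h.sy a b c d]) K P (by simp)
    simpa using this
  · intro a b c d K P
    have := mu_local (φ := φ) [] [(a, b, c, d)] [(c, b, a, d)] 0 0 (fun K P _ => by
      simp only [List.map_cons, List.map_nil, br, T, aX, aY, h.sy.fl a b c d, zero_add,
        Multiset.cons_swap s(a, d), Multiset.cons_swap s(a, b), Sym2.eq_swap (a := b) (b := c),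
        Sym2.eq_swap (a := b) (b := a)]
      omega) K P (by simp)
    simpa using this
  · intro a b m K P hm ha hb
    have := mu_local (φ := φ) [m] [] [] (s(a, m) ::ₘ {s(m, b)}) {s(a, b)} (fun K P hK => by
      have := h.fuse a b m K P (hK m (by simp)) ha hb
      simp only [List.map_nil, br, Multiset.cons_add, Multiset.singleton_add, this]) K P
      (by simpa using hm)
    simpa using this
  · intro a b c d m K P hm ha hb hc hd
    have := mu_local (φ := φ) [m] [(m, b, c, d)] [(a, b, c, d)] {s(a, m)} 0 (fun K P hK => by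
      have := T_abs h 1 1 1 (hK m (by simp)) ha hb hc hd
      simp only [List.map_cons, List.map_nil, br, Multiset.singleton_add, zero_add, this]) K P
      (by simpa using hm)
    simpa using this
  · intro m K P hm
    have := mu_local (φ := φ) [m] [] [] {s(m, m)} 0 (fun K P hK => by
      have := h.circ m K P (hK m (by simp))
      simp only [List.map_nil, br, Multiset.singleton_add, zero_add, this, id]) K P
      (by simpa using hm)
    simpa using this
  · intro a d m K P hm ha hd
    have := mu_local (φ := φ) [m] [(a, m, m, d)] [] 0 {s(a, d)} (fun K P hK => by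
      have := MR1 h ⟨hK m (by simp), ha, hd⟩
      simpa only [List.map_cons, List.map_nil, br, Multiset.singleton_add, zero_add] using this)
      K P (by simpa using hm)
    simpa using this
  · intro a b c d m n K P hm hn hmn hm' hn'
    simp only [List.mem_cons, List.not_mem_nil, or_false, not_or] at hm' hn'
    have := mu_local (φ := φ) [m, n] [(a, b, m, n), (m, n, c, d)] [(a, b, d, c)] 0 0
      (fun K P hK => by
        have := MR2 h ⟨hK m (by simp), hK n (by simp), hmn, hm'.1, hm'.2.1, hm'.2.2.1, hm'.2.2.2,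
          hn'.1, hn'.2.1, hn'.2.2.1, hn'.2.2.2⟩
        simpa only [List.map_cons, List.map_nil, br, zero_add] using this)
      K P (by simp [hm, hn])
    simpa [← Multiset.cons_coe] using this
  · intro a b c d e f m n p K P hm hn hp hmn hmp hnp hm' hn' hp'
    simp only [List.mem_cons, List.not_mem_nil, or_false, not_or] at hm' hn' hp'
    obtain ⟨m1, m2, m3, m4, m5, m6⟩ := hm'
    obtain ⟨n1, n2, n3, n4, n5, n6⟩ := hn'
    obtain ⟨p1, p2, p3, p4, p5, p6⟩ := hp'
    have := mu_local (φ := φ) [m, n, p] [(a, b, m, n), (m, c, d, p), (n, p, e, f)]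
      [(m, n, d, e), (a, p, m, f), (b, c, n, p)] 0 0
      (fun K P hK => by
        have := MR3 h ⟨hK m (by simp), hK n (by simp), hK p (by simp), hmn, hmp, m1, m2, m3, m4,
          m5, m6, hnp, n1, n2, n3, n4, n5, n6, p1, p2, p3, p4, p5, p6⟩
        simpa only [List.map_cons, List.map_nil, br, zero_add] using this)
      K P (by simp [hm, hn, hp])
    simpa only [← Multiset.cons_coe, Multiset.coe_nil, Multiset.cons_add, zero_add] using this

theorem good_rev {F : List ℕ} {a b c d : ℕ} {K : Multiset Cr} {P : Multiset (Sym2 ℕ)}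
    (h : Good F ((a, b, c, d) ::ₘ K) P) : Good F ((c, d, a, b) ::ₘ K) P :=
  good_sw (good_fl (good_sw (good_fl h)))

theorem gf_congr {F : List ℕ} {K K' : Multiset Cr} {P P' : Multiset (Sym2 ℕ)}
    (h : Good F K P ↔ Good F K' P') : GF F K P = GF F K' P' := by
  unfold GF
  rw [show Good F K P = Good F K' P' from propext h]

theorem sk_GF {F : List ℕ} (hF : Irr F) : Sk (GF F) id (fun _ => 0) fun _ => 0 := by
  refine ⟨⟨?_, ?_⟩, ?_, ?_, ?_, ?_, ?_, ?_⟩
  · exact fun a b c d K P => gf_congr ⟨good_sw, good_sw⟩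
  · exact fun a b c d K P => gf_congr ⟨good_fl, good_fl⟩
  · exact fun a b m K P hm ha hb => gf_congr (good_fuse hm ha hb)
  · exact fun a b c d m K P hm ha hb hc hd => gf_congr (good_absorb hm ha hb hc hd)
  · exact fun m K P _ => gf_congr good_circ
  · intro a d m K P hm ha hd
    simp only [GF, good_kink hF hm ha hd, if_false]
  · intro a b c d m n K P hm hn hmn hm' hn'
    simp only [GF, good_bigon hF hm hn hmn hm' hn', if_false]
  · intro a b c d e f m n p K P hm hn hp hmn hmp hnp hm' hn' hp'
    refine gf_congr ⟨good_r3 hm hn hp hmn hmp hnp hm' hn' hp', fun h => ?_⟩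
    have h1 := good_rev h
    rw [Multiset.cons_swap] at h1
    have h2 := good_rev h1
    rw [Multiset.cons_swap (d, e, m, n), Multiset.cons_swap] at h2
    have h3 := good_rev h2
    rw [Multiset.cons_swap, Multiset.cons_swap (n, p, b, c), Multiset.cons_swap] at h3
    have h4 := good_r3 hm hn hp hmn hmp hnp (by simp only [List.mem_cons] at hm' ⊢; tauto)
      (by simp only [List.mem_cons] at hn' ⊢; tauto) (by simp only [List.mem_cons] at hp' ⊢; tauto)
      h3
    have h5 := good_rev h4
    rw [Multiset.cons_swap] at h5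
    have h6 := good_rev h5
    rw [Multiset.cons_swap (a, b, m, n), Multiset.cons_swap] at h6
    have h7 := good_rev h6
    rw [Multiset.cons_swap, Multiset.cons_swap (n, p, e, f), Multiset.cons_swap] at h7
    exact h7

theorem df_gF {F : List ℕ} (hF : Irr F) : DF (gF F) := by
  have h1 := sk_mu (sk_GF hF)
  have h2 := sk_gam
  refine ⟨⟨?_, ?_⟩, ?_, ?_, ?_, ?_, ?_, ?_⟩
  · intro a b c d K P
    simp only [gF, h1.sy.sw a b c d, h2.sy.sw a b c d]
  · intro a b c d K P
    simp only [gF, h1.sy.fl a b c d, h2.sy.fl a b c d]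
  · intro a b m K P hm ha hb
    simp only [gF, h1.fuse a b m K P hm ha hb, h2.fuse a b m K P hm ha hb]
  · intro a b c d m K P hm ha hb hc hd
    simp only [gF, h1.absorb a b c d m K P hm ha hb hc hd, h2.absorb a b c d m K P hm ha hb hc hd]
  · intro m K P hm
    simp only [gF, h1.circ m K P hm, h2.circ m K P hm, id]
    push_cast
    ring
  · intro a d m K P hm ha hd
    simp only [gF, h1.kink a d m K P hm ha hd, h2.kink a d m K P hm ha hd, id]
  · intro a b c d m n K P hm hn hmn hm' hn'
    simp only [gF, h1.bigon a b c d m n K P hm hn hmn hm' hn',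
      h2.bigon a b c d m n K P hm hn hmn hm' hn', id]
  · intro a b c d e f m n p K P hm hn hp hmn hmp hnp hm' hn' hp'
    simp only [gF, h1.r3 a b c d e f m n p K P hm hn hp hmn hmp hnp hm' hn' hp',
      h2.r3 a b c d e f m n p K P hm hn hp hmn hmp hnp hm' hn' hp']

theorem gf_low {F : List ℕ} {N : ℕ} (hN : 2 * N ≤ F.length) (K : Multiset Cr)
    (P : Multiset (Sym2 ℕ)) (hK : Multiset.card K < N) : GF F K P = 0 := by
  have : ¬ Good F K P := fun h => by have := good_card h; omega
  simp only [GF, this, if_false]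

theorem gF_low {F : List ℕ} {N : ℕ} (hN : 2 * N ≤ F.length) (K : Multiset Cr)
    (P : Multiset (Sym2 ℕ)) (hK : Multiset.card K < N) : gF F K P = 0 := by
  simp [gF, mu, mc_low N (gf_low hN) K P hK]

theorem gF_top {F : List ℕ} {K : Multiset Cr} {P : Multiset (Sym2 ℕ)}
    (hK : 2 * Multiset.card K ≤ F.length) : gF F K P ≠ 0 ↔ Good F K P := by
  have := gam_ne_zero K P
  by_cases h : Good F K P <;>
    simp [gF, mu, mc_top _ (gf_low hK) K P rfl, GF, h, this]

end Pool.Agent.P.MP_9b2cf8_gt
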