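import Pool.Agent.P.MP_9b2cf8_gt.Br

/-! Normal forms of the local states (generated). -/

namespace Pool.Agent.P.MP_9b2cf8_gt

structure Fr1 (a d m : ℕ) (K : Multiset Cr) (P : Multiset (Sym2 ℕ)) : Prop where
  vm : Av m K P
  ma : m ≠ a
  md : m ≠ d

structure Fr2 (a b c d m n : ℕ) (K : Multiset Cr) (P : Multiset (Sym2 ℕ)) : Prop where
  vm : Av m K P
  vn : Av n K P
  mn : m ≠ n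
  ma : m ≠ a
  mb : m ≠ b
  mc : m ≠ c
  md : m ≠ d
  na : n ≠ a
  nb : n ≠ b
  nc : n ≠ c
  nd : n ≠ d

structure Fr3 (a b c d e f m n p : ℕ) (K : Multiset Cr) (P : Multiset (Sym2 ℕ)) : Prop where
  vm : Av m K P
  vn : Av n K P
  vp : Av p K P
  mn : m ≠ n
  mp : m ≠ p
  ma : m ≠ a
  mb : m ≠ b
  mc : m ≠ c
  md : m ≠ d
  me : m ≠ e
  mf : m ≠ f
  np : n ≠ p
  na : n ≠ a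
  nb : n ≠ b
  nc : n ≠ c
  nd : n ≠ d
  ne : n ≠ e
  nf : n ≠ f
  pa : p ≠ a
  pb : p ≠ b
  pc : p ≠ c
  pd : p ≠ d
  pe : p ≠ e
  pf : p ≠ f

variable {R : Type} {φ : Fn R} {δ κ β : R → R} {a b c d e f m n p : ℕ} {K : Multiset Cr}
  {P : Multiset (Sym2 ℕ)}

theorem stK_s (h : Sk φ δ κ β) (H : Fr1 a d m K P) :
    φ ((a, m, m, d) ::ₘ K) P =
      κ (φ K (s(a, d) ::ₘ P)) := by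
  have e0 : φ ((a, m, m, d) ::ₘ K) P = κ (φ K (s(a, d) ::ₘ P)) :=
    h.kink a d m _ _ H.vm H.ma H.md
  rw [e0]

theorem stK_X (h : Sk φ δ κ β) (H : Fr1 a d m K P) :
    φ K (s(a, d) ::ₘ s(m, m) ::ₘ P) =
      δ (φ K (s(a, d) ::ₘ P)) := by
  have e0 : φ K (s(a, d) ::ₘ s(m, m) ::ₘ P) = φ K (s(m, m) ::ₘ s(a, d) ::ₘ P) :=
    by rw [Multiset.cons_swap s(a, d) s(m, m)]
  have e1 : φ K (s(m, m) ::ₘ s(a, d) ::ₘ P) = δ (φ K (s(a, d) ::ₘ P)) :=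
    h.circ m _ _ (av_consP.2 ⟨H.ma, H.md, H.vm⟩)
  rw [e0, e1]

theorem stK_Y (h : Sk φ δ κ β) (H : Fr1 a d m K P) :
    φ K (s(a, m) ::ₘ s(m, d) ::ₘ P) =
      φ K (s(a, d) ::ₘ P) := by
  have e0 : φ K (s(a, m) ::ₘ s(m, d) ::ₘ P) = φ K (s(a, d) ::ₘ P) :=
    h.fuse a d m _ _ H.vm H.ma H.md
  rw [e0]

theorem stB_ss (h : Sk φ δ κ β) (H : Fr2 a b c d m n K P) :
    φ ((m, n, c, d) ::ₘ (a, b, m, n) ::ₘ K) P =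
      β (φ ((a, b, d, c) ::ₘ K) P) := by
  have e0 : φ ((m, n, c, d) ::ₘ (a, b, m, n) ::ₘ K) P = φ ((a, b, m, n) ::ₘ (m, n, c, d) ::ₘ K) P :=
    by rw [Multiset.cons_swap (m, n, c, d) (a, b, m, n)]
  have e1 : φ ((a, b, m, n) ::ₘ (m, n, c, d) ::ₘ K) P = β (φ ((a, b, d, c) ::ₘ K) P) :=
    h.bigon a b c d m n _ _ H.vm H.vn H.mn (not_mem_legs.2 ⟨H.ma, H.mb, H.mc, H.md⟩) (not_mem_legs.2 ⟨H.na, H.nb, H.nc, H.nd⟩)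
  rw [e0, e1]

theorem stB_sX (h : Sk φ δ κ β) (H : Fr2 a b c d m n K P) :
    φ ((a, b, m, n) ::ₘ K) (s(m, d) ::ₘ s(n, c) ::ₘ P) =
      φ ((a, b, d, c) ::ₘ K) P := by
  have e0 : φ ((a, b, m, n) ::ₘ K) (s(m, d) ::ₘ s(n, c) ::ₘ P) = φ ((a, b, m, n) ::ₘ K) (s(n, c) ::ₘ s(m, d) ::ₘ P) :=
    by rw [Multiset.cons_swap s(m, d) s(n, c)]
  have e1 : φ ((a, b, m, n) ::ₘ K) (s(n, c) ::ₘ s(m, d) ::ₘ P) = φ ((a, b, m, n) ::ₘ K) (s(c, n) ::ₘ s(m, d) ::ₘ P) :=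
    by rw [Sym2.eq_swap (a := n) (b := c)]
  have e2 : φ ((a, b, m, n) ::ₘ K) (s(c, n) ::ₘ s(m, d) ::ₘ P) = φ ((b, a, n, m) ::ₘ K) (s(c, n) ::ₘ s(m, d) ::ₘ P) :=
    h.sy.sw a b m n _ _
  have e3 : φ ((b, a, n, m) ::ₘ K) (s(c, n) ::ₘ s(m, d) ::ₘ P) = φ ((n, a, b, m) ::ₘ K) (s(c, n) ::ₘ s(m, d) ::ₘ P) :=
    h.sy.fl b a n m _ _
  have e4 : φ ((n, a, b, m) ::ₘ K) (s(c, n) ::ₘ s(m, d) ::ₘ P) = φ ((c, a, b, m) ::ₘ K) (s(m, d) ::ₘ P) :=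
    h.absorb c a b m n _ _ (av_consP.2 ⟨H.mn.symm, H.nd, H.vn⟩) H.nc H.na H.nb H.mn.symm
  have e5 : φ ((c, a, b, m) ::ₘ K) (s(m, d) ::ₘ P) = φ ((c, a, b, m) ::ₘ K) (s(d, m) ::ₘ P) :=
    by rw [Sym2.eq_swap (a := m) (b := d)]
  have e6 : φ ((c, a, b, m) ::ₘ K) (s(d, m) ::ₘ P) = φ ((a, c, m, b) ::ₘ K) (s(d, m) ::ₘ P) :=
    h.sy.sw c a b m _ _
  have e7 : φ ((a, c, m, b) ::ₘ K) (s(d, m) ::ₘ P) = φ ((m, c, a, b) ::ₘ K) (s(d, m) ::ₘ P) :=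
    h.sy.fl a c m b _ _
  have e8 : φ ((m, c, a, b) ::ₘ K) (s(d, m) ::ₘ P) = φ ((d, c, a, b) ::ₘ K) P :=
    h.absorb d c a b m _ _ H.vm H.md H.mc H.ma H.mb
  have e9 : φ ((d, c, a, b) ::ₘ K) P = φ ((c, d, b, a) ::ₘ K) P :=
    h.sy.sw d c a b _ _
  have e10 : φ ((c, d, b, a) ::ₘ K) P = φ ((b, d, c, a) ::ₘ K) P :=
    h.sy.fl c d b a _ _
  have e11 : φ ((b, d, c, a) ::ₘ K) P = φ ((d, b, a, c) ::ₘ K) P :=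
    h.sy.sw b d c a _ _
  have e12 : φ ((d, b, a, c) ::ₘ K) P = φ ((a, b, d, c) ::ₘ K) P :=
    h.sy.fl d b a c _ _
  rw [e0, e1, e2, e3, e4, e5, e6, e7, e8, e9, e10, e11, e12]

theorem stB_sY (h : Sk φ δ κ β) (H : Fr2 a b c d m n K P) :
    φ ((a, b, m, n) ::ₘ K) (s(m, n) ::ₘ s(c, d) ::ₘ P) =
      κ (φ K (s(a, b) ::ₘ s(c, d) ::ₘ P)) := by
  have e0 : φ ((a, b, m, n) ::ₘ K) (s(m, n) ::ₘ s(c, d) ::ₘ P) = φ ((b, a, n, m) ::ₘ K) (s(m, n) ::ₘ s(c, d) ::ₘ P) :=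
    h.sy.sw a b m n _ _
  have e1 : φ ((b, a, n, m) ::ₘ K) (s(m, n) ::ₘ s(c, d) ::ₘ P) = φ ((n, a, b, m) ::ₘ K) (s(m, n) ::ₘ s(c, d) ::ₘ P) :=
    h.sy.fl b a n m _ _
  have e2 : φ ((n, a, b, m) ::ₘ K) (s(m, n) ::ₘ s(c, d) ::ₘ P) = φ ((m, a, b, m) ::ₘ K) (s(c, d) ::ₘ P) :=
    h.absorb m a b m n _ _ (av_consP.2 ⟨H.nc, H.nd, H.vn⟩) H.mn.symm H.na H.nb H.mn.symm
  have e3 : φ ((m, a, b, m) ::ₘ K) (s(c, d) ::ₘ P) = φ ((a, m, m, b) ::ₘ K) (s(c, d) ::ₘ P) :=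
    h.sy.sw m a b m _ _
  have e4 : φ ((a, m, m, b) ::ₘ K) (s(c, d) ::ₘ P) = κ (φ K (s(a, b) ::ₘ s(c, d) ::ₘ P)) :=
    h.kink a b m _ _ (av_consP.2 ⟨H.mc, H.md, H.vm⟩) H.ma H.mb
  rw [e0, e1, e2, e3, e4]

theorem stB_Xs (h : Sk φ δ κ β) (H : Fr2 a b c d m n K P) :
    φ ((m, n, c, d) ::ₘ K) (s(a, n) ::ₘ s(b, m) ::ₘ P) =
      φ ((a, b, d, c) ::ₘ K) P := by
  have e0 : φ ((m, n, c, d) ::ₘ K) (s(a, n) ::ₘ s(b, m) ::ₘ P) = φ ((n, m, d, c) ::ₘ K) (s(a, n) ::ₘ s(b, m) ::ₘ P) :=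
    h.sy.sw m n c d _ _
  have e1 : φ ((n, m, d, c) ::ₘ K) (s(a, n) ::ₘ s(b, m) ::ₘ P) = φ ((a, m, d, c) ::ₘ K) (s(b, m) ::ₘ P) :=
    h.absorb a m d c n _ _ (av_consP.2 ⟨H.nb, H.mn.symm, H.vn⟩) H.na H.mn.symm H.nd H.nc
  have e2 : φ ((a, m, d, c) ::ₘ K) (s(b, m) ::ₘ P) = φ ((m, a, c, d) ::ₘ K) (s(b, m) ::ₘ P) :=
    h.sy.sw a m d c _ _
  have e3 : φ ((m, a, c, d) ::ₘ K) (s(b, m) ::ₘ P) = φ ((b, a, c, d) ::ₘ K) P :=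
    h.absorb b a c d m _ _ H.vm H.mb H.ma H.mc H.md
  have e4 : φ ((b, a, c, d) ::ₘ K) P = φ ((a, b, d, c) ::ₘ K) P :=
    h.sy.sw b a c d _ _
  rw [e0, e1, e2, e3, e4]

theorem stB_XX (h : Sk φ δ κ β) (H : Fr2 a b c d m n K P) :
    φ K (s(m, d) ::ₘ s(n, c) ::ₘ s(a, n) ::ₘ s(b, m) ::ₘ P) =
      φ K (s(a, c) ::ₘ s(b, d) ::ₘ P) := by
  have e0 : φ K (s(m, d) ::ₘ s(n, c) ::ₘ s(a, n) ::ₘ s(b, m) ::ₘ P) = φ K (s(n, c) ::ₘ s(m, d) ::ₘ s(a, n) ::ₘ s(b, m) ::ₘ P) :=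
    by rw [Multiset.cons_swap s(m, d) s(n, c)]
  have e1 : φ K (s(n, c) ::ₘ s(m, d) ::ₘ s(a, n) ::ₘ s(b, m) ::ₘ P) = φ K (s(n, c) ::ₘ s(a, n) ::ₘ s(m, d) ::ₘ s(b, m) ::ₘ P) :=
    by rw [Multiset.cons_swap s(m, d) s(a, n)]
  have e2 : φ K (s(n, c) ::ₘ s(a, n) ::ₘ s(m, d) ::ₘ s(b, m) ::ₘ P) = φ K (s(c, n) ::ₘ s(a, n) ::ₘ s(m, d) ::ₘ s(b, m) ::ₘ P) :=
    by rw [Sym2.eq_swap (a := n) (b := c)]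
  have e3 : φ K (s(c, n) ::ₘ s(a, n) ::ₘ s(m, d) ::ₘ s(b, m) ::ₘ P) = φ K (s(c, n) ::ₘ s(n, a) ::ₘ s(m, d) ::ₘ s(b, m) ::ₘ P) :=
    by rw [Sym2.eq_swap (a := a) (b := n)]
  have e4 : φ K (s(c, n) ::ₘ s(n, a) ::ₘ s(m, d) ::ₘ s(b, m) ::ₘ P) = φ K (s(c, a) ::ₘ s(m, d) ::ₘ s(b, m) ::ₘ P) :=
    h.fuse c a n _ _ (av_consP.2 ⟨H.mn.symm, H.nd, (av_consP.2 ⟨H.nb, H.mn.symm, H.vn⟩)⟩) H.nc H.na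
  have e5 : φ K (s(c, a) ::ₘ s(m, d) ::ₘ s(b, m) ::ₘ P) = φ K (s(m, d) ::ₘ s(c, a) ::ₘ s(b, m) ::ₘ P) :=
    by rw [Multiset.cons_swap s(c, a) s(m, d)]
  have e6 : φ K (s(m, d) ::ₘ s(c, a) ::ₘ s(b, m) ::ₘ P) = φ K (s(m, d) ::ₘ s(b, m) ::ₘ s(c, a) ::ₘ P) :=
    by rw [Multiset.cons_swap s(c, a) s(b, m)]
  have e7 : φ K (s(m, d) ::ₘ s(b, m) ::ₘ s(c, a) ::ₘ P) = φ K (s(d, m) ::ₘ s(b, m) ::ₘ s(c, a) ::ₘ P) :=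
    by rw [Sym2.eq_swap (a := m) (b := d)]
  have e8 : φ K (s(d, m) ::ₘ s(b, m) ::ₘ s(c, a) ::ₘ P) = φ K (s(d, m) ::ₘ s(m, b) ::ₘ s(c, a) ::ₘ P) :=
    by rw [Sym2.eq_swap (a := b) (b := m)]
  have e9 : φ K (s(d, m) ::ₘ s(m, b) ::ₘ s(c, a) ::ₘ P) = φ K (s(d, b) ::ₘ s(c, a) ::ₘ P) :=
    h.fuse d b m _ _ (av_consP.2 ⟨H.mc, H.ma, H.vm⟩) H.md H.mb
  have e10 : φ K (s(d, b) ::ₘ s(c, a) ::ₘ P) = φ K (s(b, d) ::ₘ s(c, a) ::ₘ P) :=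
    by rw [Sym2.eq_swap (a := d) (b := b)]
  have e11 : φ K (s(b, d) ::ₘ s(c, a) ::ₘ P) = φ K (s(b, d) ::ₘ s(a, c) ::ₘ P) :=
    by rw [Sym2.eq_swap (a := c) (b := a)]
  have e12 : φ K (s(b, d) ::ₘ s(a, c) ::ₘ P) = φ K (s(a, c) ::ₘ s(b, d) ::ₘ P) :=
    by rw [Multiset.cons_swap s(b, d) s(a, c)]
  rw [e0, e1, e2, e3, e4, e5, e6, e7, e8, e9, e10, e11, e12]

theorem stB_XY (h : Sk φ δ κ β) (H : Fr2 a b c d m n K P) :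
    φ K (s(m, n) ::ₘ s(c, d) ::ₘ s(a, n) ::ₘ s(b, m) ::ₘ P) =
      φ K (s(a, b) ::ₘ s(c, d) ::ₘ P) := by
  have e0 : φ K (s(m, n) ::ₘ s(c, d) ::ₘ s(a, n) ::ₘ s(b, m) ::ₘ P) = φ K (s(m, n) ::ₘ s(a, n) ::ₘ s(c, d) ::ₘ s(b, m) ::ₘ P) :=
    by rw [Multiset.cons_swap s(c, d) s(a, n)]
  have e1 : φ K (s(m, n) ::ₘ s(a, n) ::ₘ s(c, d) ::ₘ s(b, m) ::ₘ P) = φ K (s(m, n) ::ₘ s(n, a) ::ₘ s(c, d) ::ₘ s(b, m) ::ₘ P) :=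
    by rw [Sym2.eq_swap (a := a) (b := n)]
  have e2 : φ K (s(m, n) ::ₘ s(n, a) ::ₘ s(c, d) ::ₘ s(b, m) ::ₘ P) = φ K (s(m, a) ::ₘ s(c, d) ::ₘ s(b, m) ::ₘ P) :=
    h.fuse m a n _ _ (av_consP.2 ⟨H.nc, H.nd, (av_consP.2 ⟨H.nb, H.mn.symm, H.vn⟩)⟩) H.mn.symm H.na
  have e3 : φ K (s(m, a) ::ₘ s(c, d) ::ₘ s(b, m) ::ₘ P) = φ K (s(m, a) ::ₘ s(b, m) ::ₘ s(c, d) ::ₘ P) :=
    by rw [Multiset.cons_swap s(c, d) s(b, m)]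
  have e4 : φ K (s(m, a) ::ₘ s(b, m) ::ₘ s(c, d) ::ₘ P) = φ K (s(a, m) ::ₘ s(b, m) ::ₘ s(c, d) ::ₘ P) :=
    by rw [Sym2.eq_swap (a := m) (b := a)]
  have e5 : φ K (s(a, m) ::ₘ s(b, m) ::ₘ s(c, d) ::ₘ P) = φ K (s(a, m) ::ₘ s(m, b) ::ₘ s(c, d) ::ₘ P) :=
    by rw [Sym2.eq_swap (a := b) (b := m)]
  have e6 : φ K (s(a, m) ::ₘ s(m, b) ::ₘ s(c, d) ::ₘ P) = φ K (s(a, b) ::ₘ s(c, d) ::ₘ P) :=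
    h.fuse a b m _ _ (av_consP.2 ⟨H.mc, H.md, H.vm⟩) H.ma H.mb
  rw [e0, e1, e2, e3, e4, e5, e6]

theorem stB_Ys (h : Sk φ δ κ β) (H : Fr2 a b c d m n K P) :
    φ ((m, n, c, d) ::ₘ K) (s(a, b) ::ₘ s(m, n) ::ₘ P) =
      κ (φ K (s(a, b) ::ₘ s(c, d) ::ₘ P)) := by
  have e0 : φ ((m, n, c, d) ::ₘ K) (s(a, b) ::ₘ s(m, n) ::ₘ P) = φ ((m, n, c, d) ::ₘ K) (s(m, n) ::ₘ s(a, b) ::ₘ P) :=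
    by rw [Multiset.cons_swap s(a, b) s(m, n)]
  have e1 : φ ((m, n, c, d) ::ₘ K) (s(m, n) ::ₘ s(a, b) ::ₘ P) = φ ((n, m, d, c) ::ₘ K) (s(m, n) ::ₘ s(a, b) ::ₘ P) :=
    h.sy.sw m n c d _ _
  have e2 : φ ((n, m, d, c) ::ₘ K) (s(m, n) ::ₘ s(a, b) ::ₘ P) = φ ((m, m, d, c) ::ₘ K) (s(a, b) ::ₘ P) :=
    h.absorb m m d c n _ _ (av_consP.2 ⟨H.na, H.nb, H.vn⟩) H.mn.symm H.mn.symm H.nd H.nc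
  have e3 : φ ((m, m, d, c) ::ₘ K) (s(a, b) ::ₘ P) = φ ((d, m, m, c) ::ₘ K) (s(a, b) ::ₘ P) :=
    h.sy.fl m m d c _ _
  have e4 : φ ((d, m, m, c) ::ₘ K) (s(a, b) ::ₘ P) = κ (φ K (s(d, c) ::ₘ s(a, b) ::ₘ P)) :=
    h.kink d c m _ _ (av_consP.2 ⟨H.ma, H.mb, H.vm⟩) H.md H.mc
  have e5 : φ K (s(d, c) ::ₘ s(a, b) ::ₘ P) = φ K (s(c, d) ::ₘ s(a, b) ::ₘ P) :=
    by rw [Sym2.eq_swap (a := d) (b := c)]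
  have e6 : φ K (s(c, d) ::ₘ s(a, b) ::ₘ P) = φ K (s(a, b) ::ₘ s(c, d) ::ₘ P) :=
    by rw [Multiset.cons_swap s(c, d) s(a, b)]
  rw [e0, e1, e2, e3, e4, e5, e6]

theorem stB_YX (h : Sk φ δ κ β) (H : Fr2 a b c d m n K P) :
    φ K (s(m, d) ::ₘ s(n, c) ::ₘ s(a, b) ::ₘ s(m, n) ::ₘ P) =
      φ K (s(a, b) ::ₘ s(c, d) ::ₘ P) := by
  have e0 : φ K (s(m, d) ::ₘ s(n, c) ::ₘ s(a, b) ::ₘ s(m, n) ::ₘ P) = φ K (s(n, c) ::ₘ s(m, d) ::ₘ s(a, b) ::ₘ s(m, n) ::ₘ P) :=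
    by rw [Multiset.cons_swap s(m, d) s(n, c)]
  have e1 : φ K (s(n, c) ::ₘ s(m, d) ::ₘ s(a, b) ::ₘ s(m, n) ::ₘ P) = φ K (s(n, c) ::ₘ s(m, d) ::ₘ s(m, n) ::ₘ s(a, b) ::ₘ P) :=
    by rw [Multiset.cons_swap s(a, b) s(m, n)]
  have e2 : φ K (s(n, c) ::ₘ s(m, d) ::ₘ s(m, n) ::ₘ s(a, b) ::ₘ P) = φ K (s(n, c) ::ₘ s(m, n) ::ₘ s(m, d) ::ₘ s(a, b) ::ₘ P) :=
    by rw [Multiset.cons_swap s(m, d) s(m, n)]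
  have e3 : φ K (s(n, c) ::ₘ s(m, n) ::ₘ s(m, d) ::ₘ s(a, b) ::ₘ P) = φ K (s(c, n) ::ₘ s(m, n) ::ₘ s(m, d) ::ₘ s(a, b) ::ₘ P) :=
    by rw [Sym2.eq_swap (a := n) (b := c)]
  have e4 : φ K (s(c, n) ::ₘ s(m, n) ::ₘ s(m, d) ::ₘ s(a, b) ::ₘ P) = φ K (s(c, n) ::ₘ s(n, m) ::ₘ s(m, d) ::ₘ s(a, b) ::ₘ P) :=
    by rw [Sym2.eq_swap (a := m) (b := n)]
  have e5 : φ K (s(c, n) ::ₘ s(n, m) ::ₘ s(m, d) ::ₘ s(a, b) ::ₘ P) = φ K (s(c, m) ::ₘ s(m, d) ::ₘ s(a, b) ::ₘ P) :=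
    h.fuse c m n _ _ (av_consP.2 ⟨H.mn.symm, H.nd, (av_consP.2 ⟨H.na, H.nb, H.vn⟩)⟩) H.nc H.mn.symm
  have e6 : φ K (s(c, m) ::ₘ s(m, d) ::ₘ s(a, b) ::ₘ P) = φ K (s(c, d) ::ₘ s(a, b) ::ₘ P) :=
    h.fuse c d m _ _ (av_consP.2 ⟨H.ma, H.mb, H.vm⟩) H.mc H.md
  have e7 : φ K (s(c, d) ::ₘ s(a, b) ::ₘ P) = φ K (s(a, b) ::ₘ s(c, d) ::ₘ P) :=
    by rw [Multiset.cons_swap s(c, d) s(a, b)]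
  rw [e0, e1, e2, e3, e4, e5, e6, e7]

theorem stB_YY (h : Sk φ δ κ β) (H : Fr2 a b c d m n K P) :
    φ K (s(m, n) ::ₘ s(c, d) ::ₘ s(a, b) ::ₘ s(m, n) ::ₘ P) =
      δ (φ K (s(a, b) ::ₘ s(c, d) ::ₘ P)) := by
  have e0 : φ K (s(m, n) ::ₘ s(c, d) ::ₘ s(a, b) ::ₘ s(m, n) ::ₘ P) = φ K (s(m, n) ::ₘ s(c, d) ::ₘ s(m, n) ::ₘ s(a, b) ::ₘ P) :=
    by rw [Multiset.cons_swap s(a, b) s(m, n)]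
  have e1 : φ K (s(m, n) ::ₘ s(c, d) ::ₘ s(m, n) ::ₘ s(a, b) ::ₘ P) = φ K (s(m, n) ::ₘ s(m, n) ::ₘ s(c, d) ::ₘ s(a, b) ::ₘ P) :=
    by rw [Multiset.cons_swap s(c, d) s(m, n)]
  have e2 : φ K (s(m, n) ::ₘ s(m, n) ::ₘ s(c, d) ::ₘ s(a, b) ::ₘ P) = φ K (s(m, n) ::ₘ s(n, m) ::ₘ s(c, d) ::ₘ s(a, b) ::ₘ P) :=
    by rw [Sym2.eq_swap (a := m) (b := n)]
  have e3 : φ K (s(m, n) ::ₘ s(n, m) ::ₘ s(c, d) ::ₘ s(a, b) ::ₘ P) = φ K (s(m, m) ::ₘ s(c, d) ::ₘ s(a, b) ::ₘ P) :=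
    h.fuse m m n _ _ (av_consP.2 ⟨H.nc, H.nd, (av_consP.2 ⟨H.na, H.nb, H.vn⟩)⟩) H.mn.symm H.mn.symm
  have e4 : φ K (s(m, m) ::ₘ s(c, d) ::ₘ s(a, b) ::ₘ P) = δ (φ K (s(c, d) ::ₘ s(a, b) ::ₘ P)) :=
    h.circ m _ _ (av_consP.2 ⟨H.mc, H.md, (av_consP.2 ⟨H.ma, H.mb, H.vm⟩)⟩)
  have e5 : φ K (s(c, d) ::ₘ s(a, b) ::ₘ P) = φ K (s(a, b) ::ₘ s(c, d) ::ₘ P) :=
    by rw [Multiset.cons_swap s(c, d) s(a, b)]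
  rw [e0, e1, e2, e3, e4, e5]

theorem stC_Y :
    φ K (s(a, b) ::ₘ s(d, c) ::ₘ P) =
      φ K (s(a, b) ::ₘ s(c, d) ::ₘ P) := by
  have e0 : φ K (s(a, b) ::ₘ s(d, c) ::ₘ P) = φ K (s(a, b) ::ₘ s(c, d) ::ₘ P) :=
    by rw [Sym2.eq_swap (a := d) (b := c)]
  rw [e0]

end Pool.Agent.P.MP_9b2cf8_gt
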