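import Pool.Agent.P.MP_9b2cf8_gt.St0

/-! Normal forms of the local states (generated). -/

namespace Pool.Agent.P.MP_9b2cf8_gt

variable {R : Type} {φ : Fn R} {δ κ β : R → R} {a b c d e f m n p : ℕ} {K : Multiset Cr}
  {P : Multiset (Sym2 ℕ)}

theorem st1_ssX (h : Sk φ δ κ β) (H : Fr3 a b c d e f m n p K P) :
    φ ((m, c, d, p) ::ₘ (a, b, m, n) ::ₘ K) (s(n, f) ::ₘ s(p, e) ::ₘ P) =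
      φ ((a, b, m, f) ::ₘ (c, d, e, m) ::ₘ K) P := by
  have e0 : φ ((m, c, d, p) ::ₘ (a, b, m, n) ::ₘ K) (s(n, f) ::ₘ s(p, e) ::ₘ P) = φ ((m, c, d, p) ::ₘ (a, b, m, n) ::ₘ K) (s(p, e) ::ₘ s(n, f) ::ₘ P) :=
    by rw [Multiset.cons_swap s(n, f) s(p, e)]
  have e1 : φ ((m, c, d, p) ::ₘ (a, b, m, n) ::ₘ K) (s(p, e) ::ₘ s(n, f) ::ₘ P) = φ ((m, c, d, p) ::ₘ (a, b, m, n) ::ₘ K) (s(e, p) ::ₘ s(n, f) ::ₘ P) :=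
    by rw [Sym2.eq_swap (a := p) (b := e)]
  have e2 : φ ((m, c, d, p) ::ₘ (a, b, m, n) ::ₘ K) (s(e, p) ::ₘ s(n, f) ::ₘ P) = φ ((c, m, p, d) ::ₘ (a, b, m, n) ::ₘ K) (s(e, p) ::ₘ s(n, f) ::ₘ P) :=
    h.sy.sw m c d p _ _
  have e3 : φ ((c, m, p, d) ::ₘ (a, b, m, n) ::ₘ K) (s(e, p) ::ₘ s(n, f) ::ₘ P) = φ ((p, m, c, d) ::ₘ (a, b, m, n) ::ₘ K) (s(e, p) ::ₘ s(n, f) ::ₘ P) :=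
    h.sy.fl c m p d _ _
  have e4 : φ ((p, m, c, d) ::ₘ (a, b, m, n) ::ₘ K) (s(e, p) ::ₘ s(n, f) ::ₘ P) = φ ((e, m, c, d) ::ₘ (a, b, m, n) ::ₘ K) (s(n, f) ::ₘ P) :=
    h.absorb e m c d p _ _ (av_consK.2 ⟨not_mem_legs.2 ⟨H.pa, H.pb, H.mp.symm, H.np.symm⟩, (av_consP.2 ⟨H.np.symm, H.pf, H.vp⟩)⟩) H.pe H.mp.symm H.pc H.pd
  have e5 : φ ((e, m, c, d) ::ₘ (a, b, m, n) ::ₘ K) (s(n, f) ::ₘ P) = φ ((e, m, c, d) ::ₘ (a, b, m, n) ::ₘ K) (s(f, n) ::ₘ P) :=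
    by rw [Sym2.eq_swap (a := n) (b := f)]
  have e6 : φ ((e, m, c, d) ::ₘ (a, b, m, n) ::ₘ K) (s(f, n) ::ₘ P) = φ ((a, b, m, n) ::ₘ (e, m, c, d) ::ₘ K) (s(f, n) ::ₘ P) :=
    by rw [Multiset.cons_swap (e, m, c, d) (a, b, m, n)]
  have e7 : φ ((a, b, m, n) ::ₘ (e, m, c, d) ::ₘ K) (s(f, n) ::ₘ P) = φ ((b, a, n, m) ::ₘ (e, m, c, d) ::ₘ K) (s(f, n) ::ₘ P) :=
    h.sy.sw a b m n _ _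
  have e8 : φ ((b, a, n, m) ::ₘ (e, m, c, d) ::ₘ K) (s(f, n) ::ₘ P) = φ ((n, a, b, m) ::ₘ (e, m, c, d) ::ₘ K) (s(f, n) ::ₘ P) :=
    h.sy.fl b a n m _ _
  have e9 : φ ((n, a, b, m) ::ₘ (e, m, c, d) ::ₘ K) (s(f, n) ::ₘ P) = φ ((f, a, b, m) ::ₘ (e, m, c, d) ::ₘ K) P :=
    h.absorb f a b m n _ _ (av_consK.2 ⟨not_mem_legs.2 ⟨H.ne, H.mn.symm, H.nc, H.nd⟩, H.vn⟩) H.nf H.na H.nb H.mn.symm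
  have e10 : φ ((f, a, b, m) ::ₘ (e, m, c, d) ::ₘ K) P = φ ((e, m, c, d) ::ₘ (f, a, b, m) ::ₘ K) P :=
    by rw [Multiset.cons_swap (f, a, b, m) (e, m, c, d)]
  have e11 : φ ((e, m, c, d) ::ₘ (f, a, b, m) ::ₘ K) P = φ ((m, e, d, c) ::ₘ (f, a, b, m) ::ₘ K) P :=
    h.sy.sw e m c d _ _
  have e12 : φ ((m, e, d, c) ::ₘ (f, a, b, m) ::ₘ K) P = φ ((d, e, m, c) ::ₘ (f, a, b, m) ::ₘ K) P :=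
    h.sy.fl m e d c _ _
  have e13 : φ ((d, e, m, c) ::ₘ (f, a, b, m) ::ₘ K) P = φ ((e, d, c, m) ::ₘ (f, a, b, m) ::ₘ K) P :=
    h.sy.sw d e m c _ _
  have e14 : φ ((e, d, c, m) ::ₘ (f, a, b, m) ::ₘ K) P = φ ((c, d, e, m) ::ₘ (f, a, b, m) ::ₘ K) P :=
    h.sy.fl e d c m _ _
  have e15 : φ ((c, d, e, m) ::ₘ (f, a, b, m) ::ₘ K) P = φ ((f, a, b, m) ::ₘ (c, d, e, m) ::ₘ K) P :=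
    by rw [Multiset.cons_swap (c, d, e, m) (f, a, b, m)]
  have e16 : φ ((f, a, b, m) ::ₘ (c, d, e, m) ::ₘ K) P = φ ((b, a, f, m) ::ₘ (c, d, e, m) ::ₘ K) P :=
    h.sy.fl f a b m _ _
  have e17 : φ ((b, a, f, m) ::ₘ (c, d, e, m) ::ₘ K) P = φ ((a, b, m, f) ::ₘ (c, d, e, m) ::ₘ K) P :=
    h.sy.sw b a f m _ _
  rw [e0, e1, e2, e3, e4, e5, e6, e7, e8, e9, e10, e11, e12, e13, e14, e15, e16, e17]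

theorem st1_ssY (h : Sk φ δ κ β) (H : Fr3 a b c d e f m n p K P) :
    φ ((m, c, d, p) ::ₘ (a, b, m, n) ::ₘ K) (s(n, p) ::ₘ s(e, f) ::ₘ P) =
      β (φ ((a, b, c, d) ::ₘ K) (s(e, f) ::ₘ P)) := by
  have e0 : φ ((m, c, d, p) ::ₘ (a, b, m, n) ::ₘ K) (s(n, p) ::ₘ s(e, f) ::ₘ P) = φ ((c, m, p, d) ::ₘ (a, b, m, n) ::ₘ K) (s(n, p) ::ₘ s(e, f) ::ₘ P) :=
    h.sy.sw m c d p _ _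
  have e1 : φ ((c, m, p, d) ::ₘ (a, b, m, n) ::ₘ K) (s(n, p) ::ₘ s(e, f) ::ₘ P) = φ ((p, m, c, d) ::ₘ (a, b, m, n) ::ₘ K) (s(n, p) ::ₘ s(e, f) ::ₘ P) :=
    h.sy.fl c m p d _ _
  have e2 : φ ((p, m, c, d) ::ₘ (a, b, m, n) ::ₘ K) (s(n, p) ::ₘ s(e, f) ::ₘ P) = φ ((n, m, c, d) ::ₘ (a, b, m, n) ::ₘ K) (s(e, f) ::ₘ P) :=
    h.absorb n m c d p _ _ (av_consK.2 ⟨not_mem_legs.2 ⟨H.pa, H.pb, H.mp.symm, H.np.symm⟩, (av_consP.2 ⟨H.pe, H.pf, H.vp⟩)⟩) H.np.symm H.mp.symm H.pc H.pd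
  have e3 : φ ((n, m, c, d) ::ₘ (a, b, m, n) ::ₘ K) (s(e, f) ::ₘ P) = φ ((m, n, d, c) ::ₘ (a, b, m, n) ::ₘ K) (s(e, f) ::ₘ P) :=
    h.sy.sw n m c d _ _
  have e4 : φ ((m, n, d, c) ::ₘ (a, b, m, n) ::ₘ K) (s(e, f) ::ₘ P) = φ ((a, b, m, n) ::ₘ (m, n, d, c) ::ₘ K) (s(e, f) ::ₘ P) :=
    by rw [Multiset.cons_swap (m, n, d, c) (a, b, m, n)]
  have e5 : φ ((a, b, m, n) ::ₘ (m, n, d, c) ::ₘ K) (s(e, f) ::ₘ P) = β (φ ((a, b, c, d) ::ₘ K) (s(e, f) ::ₘ P)) :=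
    h.bigon a b d c m n _ _ (av_consP.2 ⟨H.me, H.mf, H.vm⟩) (av_consP.2 ⟨H.ne, H.nf, H.vn⟩) H.mn (not_mem_legs.2 ⟨H.ma, H.mb, H.md, H.mc⟩) (not_mem_legs.2 ⟨H.na, H.nb, H.nd, H.nc⟩)
  rw [e0, e1, e2, e3, e4, e5]

theorem st1_sXs (h : Sk φ δ κ β) (H : Fr3 a b c d e f m n p K P) :
    φ ((n, p, e, f) ::ₘ (a, b, m, n) ::ₘ K) (s(m, p) ::ₘ s(c, d) ::ₘ P) =
      β (φ ((a, b, e, f) ::ₘ K) (s(c, d) ::ₘ P)) := by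
  have e0 : φ ((n, p, e, f) ::ₘ (a, b, m, n) ::ₘ K) (s(m, p) ::ₘ s(c, d) ::ₘ P) = φ ((p, n, f, e) ::ₘ (a, b, m, n) ::ₘ K) (s(m, p) ::ₘ s(c, d) ::ₘ P) :=
    h.sy.sw n p e f _ _
  have e1 : φ ((p, n, f, e) ::ₘ (a, b, m, n) ::ₘ K) (s(m, p) ::ₘ s(c, d) ::ₘ P) = φ ((m, n, f, e) ::ₘ (a, b, m, n) ::ₘ K) (s(c, d) ::ₘ P) :=
    h.absorb m n f e p _ _ (av_consK.2 ⟨not_mem_legs.2 ⟨H.pa, H.pb, H.mp.symm, H.np.symm⟩, (av_consP.2 ⟨H.pc, H.pd, H.vp⟩)⟩) H.mp.symm H.np.symm H.pf H.pe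
  have e2 : φ ((m, n, f, e) ::ₘ (a, b, m, n) ::ₘ K) (s(c, d) ::ₘ P) = φ ((a, b, m, n) ::ₘ (m, n, f, e) ::ₘ K) (s(c, d) ::ₘ P) :=
    by rw [Multiset.cons_swap (m, n, f, e) (a, b, m, n)]
  have e3 : φ ((a, b, m, n) ::ₘ (m, n, f, e) ::ₘ K) (s(c, d) ::ₘ P) = β (φ ((a, b, e, f) ::ₘ K) (s(c, d) ::ₘ P)) :=
    h.bigon a b f e m n _ _ (av_consP.2 ⟨H.mc, H.md, H.vm⟩) (av_consP.2 ⟨H.nc, H.nd, H.vn⟩) H.mn (not_mem_legs.2 ⟨H.ma, H.mb, H.mf, H.me⟩) (not_mem_legs.2 ⟨H.na, H.nb, H.nf, H.ne⟩)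
  rw [e0, e1, e2, e3]

theorem st1_sXX (h : Sk φ δ κ β) (H : Fr3 a b c d e f m n p K P) :
    φ ((a, b, m, n) ::ₘ K) (s(n, f) ::ₘ s(p, e) ::ₘ s(m, p) ::ₘ s(c, d) ::ₘ P) =
      φ ((a, b, e, f) ::ₘ K) (s(c, d) ::ₘ P) := by
  have e0 : φ ((a, b, m, n) ::ₘ K) (s(n, f) ::ₘ s(p, e) ::ₘ s(m, p) ::ₘ s(c, d) ::ₘ P) = φ ((a, b, m, n) ::ₘ K) (s(p, e) ::ₘ s(n, f) ::ₘ s(m, p) ::ₘ s(c, d) ::ₘ P) :=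
    by rw [Multiset.cons_swap s(n, f) s(p, e)]
  have e1 : φ ((a, b, m, n) ::ₘ K) (s(p, e) ::ₘ s(n, f) ::ₘ s(m, p) ::ₘ s(c, d) ::ₘ P) = φ ((a, b, m, n) ::ₘ K) (s(p, e) ::ₘ s(m, p) ::ₘ s(n, f) ::ₘ s(c, d) ::ₘ P) :=
    by rw [Multiset.cons_swap s(n, f) s(m, p)]
  have e2 : φ ((a, b, m, n) ::ₘ K) (s(p, e) ::ₘ s(m, p) ::ₘ s(n, f) ::ₘ s(c, d) ::ₘ P) = φ ((a, b, m, n) ::ₘ K) (s(e, p) ::ₘ s(m, p) ::ₘ s(n, f) ::ₘ s(c, d) ::ₘ P) :=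
    by rw [Sym2.eq_swap (a := p) (b := e)]
  have e3 : φ ((a, b, m, n) ::ₘ K) (s(e, p) ::ₘ s(m, p) ::ₘ s(n, f) ::ₘ s(c, d) ::ₘ P) = φ ((a, b, m, n) ::ₘ K) (s(e, p) ::ₘ s(p, m) ::ₘ s(n, f) ::ₘ s(c, d) ::ₘ P) :=
    by rw [Sym2.eq_swap (a := m) (b := p)]
  have e4 : φ ((a, b, m, n) ::ₘ K) (s(e, p) ::ₘ s(p, m) ::ₘ s(n, f) ::ₘ s(c, d) ::ₘ P) = φ ((a, b, m, n) ::ₘ K) (s(e, m) ::ₘ s(n, f) ::ₘ s(c, d) ::ₘ P) :=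
    h.fuse e m p _ _ (av_consK.2 ⟨not_mem_legs.2 ⟨H.pa, H.pb, H.mp.symm, H.np.symm⟩, (av_consP.2 ⟨H.np.symm, H.pf, (av_consP.2 ⟨H.pc, H.pd, H.vp⟩)⟩)⟩) H.pe H.mp.symm
  have e5 : φ ((a, b, m, n) ::ₘ K) (s(e, m) ::ₘ s(n, f) ::ₘ s(c, d) ::ₘ P) = φ ((a, b, m, n) ::ₘ K) (s(n, f) ::ₘ s(e, m) ::ₘ s(c, d) ::ₘ P) :=
    by rw [Multiset.cons_swap s(e, m) s(n, f)]
  have e6 : φ ((a, b, m, n) ::ₘ K) (s(n, f) ::ₘ s(e, m) ::ₘ s(c, d) ::ₘ P) = φ ((a, b, m, n) ::ₘ K) (s(f, n) ::ₘ s(e, m) ::ₘ s(c, d) ::ₘ P) :=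
    by rw [Sym2.eq_swap (a := n) (b := f)]
  have e7 : φ ((a, b, m, n) ::ₘ K) (s(f, n) ::ₘ s(e, m) ::ₘ s(c, d) ::ₘ P) = φ ((b, a, n, m) ::ₘ K) (s(f, n) ::ₘ s(e, m) ::ₘ s(c, d) ::ₘ P) :=
    h.sy.sw a b m n _ _
  have e8 : φ ((b, a, n, m) ::ₘ K) (s(f, n) ::ₘ s(e, m) ::ₘ s(c, d) ::ₘ P) = φ ((n, a, b, m) ::ₘ K) (s(f, n) ::ₘ s(e, m) ::ₘ s(c, d) ::ₘ P) :=
    h.sy.fl b a n m _ _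
  have e9 : φ ((n, a, b, m) ::ₘ K) (s(f, n) ::ₘ s(e, m) ::ₘ s(c, d) ::ₘ P) = φ ((f, a, b, m) ::ₘ K) (s(e, m) ::ₘ s(c, d) ::ₘ P) :=
    h.absorb f a b m n _ _ (av_consP.2 ⟨H.ne, H.mn.symm, (av_consP.2 ⟨H.nc, H.nd, H.vn⟩)⟩) H.nf H.na H.nb H.mn.symm
  have e10 : φ ((f, a, b, m) ::ₘ K) (s(e, m) ::ₘ s(c, d) ::ₘ P) = φ ((a, f, m, b) ::ₘ K) (s(e, m) ::ₘ s(c, d) ::ₘ P) :=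
    h.sy.sw f a b m _ _
  have e11 : φ ((a, f, m, b) ::ₘ K) (s(e, m) ::ₘ s(c, d) ::ₘ P) = φ ((m, f, a, b) ::ₘ K) (s(e, m) ::ₘ s(c, d) ::ₘ P) :=
    h.sy.fl a f m b _ _
  have e12 : φ ((m, f, a, b) ::ₘ K) (s(e, m) ::ₘ s(c, d) ::ₘ P) = φ ((e, f, a, b) ::ₘ K) (s(c, d) ::ₘ P) :=
    h.absorb e f a b m _ _ (av_consP.2 ⟨H.mc, H.md, H.vm⟩) H.me H.mf H.ma H.mb
  have e13 : φ ((e, f, a, b) ::ₘ K) (s(c, d) ::ₘ P) = φ ((f, e, b, a) ::ₘ K) (s(c, d) ::ₘ P) :=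
    h.sy.sw e f a b _ _
  have e14 : φ ((f, e, b, a) ::ₘ K) (s(c, d) ::ₘ P) = φ ((b, e, f, a) ::ₘ K) (s(c, d) ::ₘ P) :=
    h.sy.fl f e b a _ _
  have e15 : φ ((b, e, f, a) ::ₘ K) (s(c, d) ::ₘ P) = φ ((e, b, a, f) ::ₘ K) (s(c, d) ::ₘ P) :=
    h.sy.sw b e f a _ _
  have e16 : φ ((e, b, a, f) ::ₘ K) (s(c, d) ::ₘ P) = φ ((a, b, e, f) ::ₘ K) (s(c, d) ::ₘ P) :=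
    h.sy.fl e b a f _ _
  rw [e0, e1, e2, e3, e4, e5, e6, e7, e8, e9, e10, e11, e12, e13, e14, e15, e16]

theorem st1_sXY (h : Sk φ δ κ β) (H : Fr3 a b c d e f m n p K P) :
    φ ((a, b, m, n) ::ₘ K) (s(n, p) ::ₘ s(e, f) ::ₘ s(m, p) ::ₘ s(c, d) ::ₘ P) =
      κ (φ K (s(a, b) ::ₘ s(c, d) ::ₘ s(e, f) ::ₘ P)) := by
  have e0 : φ ((a, b, m, n) ::ₘ K) (s(n, p) ::ₘ s(e, f) ::ₘ s(m, p) ::ₘ s(c, d) ::ₘ P) = φ ((a, b, m, n) ::ₘ K) (s(n, p) ::ₘ s(m, p) ::ₘ s(e, f) ::ₘ s(c, d) ::ₘ P) :=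
    by rw [Multiset.cons_swap s(e, f) s(m, p)]
  have e1 : φ ((a, b, m, n) ::ₘ K) (s(n, p) ::ₘ s(m, p) ::ₘ s(e, f) ::ₘ s(c, d) ::ₘ P) = φ ((a, b, m, n) ::ₘ K) (s(n, p) ::ₘ s(p, m) ::ₘ s(e, f) ::ₘ s(c, d) ::ₘ P) :=
    by rw [Sym2.eq_swap (a := m) (b := p)]
  have e2 : φ ((a, b, m, n) ::ₘ K) (s(n, p) ::ₘ s(p, m) ::ₘ s(e, f) ::ₘ s(c, d) ::ₘ P) = φ ((a, b, m, n) ::ₘ K) (s(n, m) ::ₘ s(e, f) ::ₘ s(c, d) ::ₘ P) :=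
    h.fuse n m p _ _ (av_consK.2 ⟨not_mem_legs.2 ⟨H.pa, H.pb, H.mp.symm, H.np.symm⟩, (av_consP.2 ⟨H.pe, H.pf, (av_consP.2 ⟨H.pc, H.pd, H.vp⟩)⟩)⟩) H.np.symm H.mp.symm
  have e3 : φ ((a, b, m, n) ::ₘ K) (s(n, m) ::ₘ s(e, f) ::ₘ s(c, d) ::ₘ P) = φ ((a, b, m, n) ::ₘ K) (s(m, n) ::ₘ s(e, f) ::ₘ s(c, d) ::ₘ P) :=
    by rw [Sym2.eq_swap (a := n) (b := m)]
  have e4 : φ ((a, b, m, n) ::ₘ K) (s(m, n) ::ₘ s(e, f) ::ₘ s(c, d) ::ₘ P) = φ ((b, a, n, m) ::ₘ K) (s(m, n) ::ₘ s(e, f) ::ₘ s(c, d) ::ₘ P) :=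
    h.sy.sw a b m n _ _
  have e5 : φ ((b, a, n, m) ::ₘ K) (s(m, n) ::ₘ s(e, f) ::ₘ s(c, d) ::ₘ P) = φ ((n, a, b, m) ::ₘ K) (s(m, n) ::ₘ s(e, f) ::ₘ s(c, d) ::ₘ P) :=
    h.sy.fl b a n m _ _
  have e6 : φ ((n, a, b, m) ::ₘ K) (s(m, n) ::ₘ s(e, f) ::ₘ s(c, d) ::ₘ P) = φ ((m, a, b, m) ::ₘ K) (s(e, f) ::ₘ s(c, d) ::ₘ P) :=
    h.absorb m a b m n _ _ (av_consP.2 ⟨H.ne, H.nf, (av_consP.2 ⟨H.nc, H.nd, H.vn⟩)⟩) H.mn.symm H.na H.nb H.mn.symm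
  have e7 : φ ((m, a, b, m) ::ₘ K) (s(e, f) ::ₘ s(c, d) ::ₘ P) = φ ((a, m, m, b) ::ₘ K) (s(e, f) ::ₘ s(c, d) ::ₘ P) :=
    h.sy.sw m a b m _ _
  have e8 : φ ((a, m, m, b) ::ₘ K) (s(e, f) ::ₘ s(c, d) ::ₘ P) = κ (φ K (s(a, b) ::ₘ s(e, f) ::ₘ s(c, d) ::ₘ P)) :=
    h.kink a b m _ _ (av_consP.2 ⟨H.me, H.mf, (av_consP.2 ⟨H.mc, H.md, H.vm⟩)⟩) H.ma H.mb
  have e9 : φ K (s(a, b) ::ₘ s(e, f) ::ₘ s(c, d) ::ₘ P) = φ K (s(a, b) ::ₘ s(c, d) ::ₘ s(e, f) ::ₘ P) :=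
    by rw [Multiset.cons_swap s(e, f) s(c, d)]
  rw [e0, e1, e2, e3, e4, e5, e6, e7, e8, e9]

theorem st1_sYs (h : Sk φ δ κ β) (H : Fr3 a b c d e f m n p K P) :
    φ ((n, p, e, f) ::ₘ (a, b, m, n) ::ₘ K) (s(m, c) ::ₘ s(d, p) ::ₘ P) =
      φ ((a, b, c, n) ::ₘ (d, e, f, n) ::ₘ K) P := by
  have e0 : φ ((n, p, e, f) ::ₘ (a, b, m, n) ::ₘ K) (s(m, c) ::ₘ s(d, p) ::ₘ P) = φ ((n, p, e, f) ::ₘ (a, b, m, n) ::ₘ K) (s(d, p) ::ₘ s(m, c) ::ₘ P) :=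
    by rw [Multiset.cons_swap s(m, c) s(d, p)]
  have e1 : φ ((n, p, e, f) ::ₘ (a, b, m, n) ::ₘ K) (s(d, p) ::ₘ s(m, c) ::ₘ P) = φ ((p, n, f, e) ::ₘ (a, b, m, n) ::ₘ K) (s(d, p) ::ₘ s(m, c) ::ₘ P) :=
    h.sy.sw n p e f _ _
  have e2 : φ ((p, n, f, e) ::ₘ (a, b, m, n) ::ₘ K) (s(d, p) ::ₘ s(m, c) ::ₘ P) = φ ((d, n, f, e) ::ₘ (a, b, m, n) ::ₘ K) (s(m, c) ::ₘ P) :=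
    h.absorb d n f e p _ _ (av_consK.2 ⟨not_mem_legs.2 ⟨H.pa, H.pb, H.mp.symm, H.np.symm⟩, (av_consP.2 ⟨H.mp.symm, H.pc, H.vp⟩)⟩) H.pd H.np.symm H.pf H.pe
  have e3 : φ ((d, n, f, e) ::ₘ (a, b, m, n) ::ₘ K) (s(m, c) ::ₘ P) = φ ((d, n, f, e) ::ₘ (a, b, m, n) ::ₘ K) (s(c, m) ::ₘ P) :=
    by rw [Sym2.eq_swap (a := m) (b := c)]
  have e4 : φ ((d, n, f, e) ::ₘ (a, b, m, n) ::ₘ K) (s(c, m) ::ₘ P) = φ ((a, b, m, n) ::ₘ (d, n, f, e) ::ₘ K) (s(c, m) ::ₘ P) :=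
    by rw [Multiset.cons_swap (d, n, f, e) (a, b, m, n)]
  have e5 : φ ((a, b, m, n) ::ₘ (d, n, f, e) ::ₘ K) (s(c, m) ::ₘ P) = φ ((m, b, a, n) ::ₘ (d, n, f, e) ::ₘ K) (s(c, m) ::ₘ P) :=
    h.sy.fl a b m n _ _
  have e6 : φ ((m, b, a, n) ::ₘ (d, n, f, e) ::ₘ K) (s(c, m) ::ₘ P) = φ ((c, b, a, n) ::ₘ (d, n, f, e) ::ₘ K) P :=
    h.absorb c b a n m _ _ (av_consK.2 ⟨not_mem_legs.2 ⟨H.md, H.mn, H.mf, H.me⟩, H.vm⟩) H.mc H.mb H.ma H.mn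
  have e7 : φ ((c, b, a, n) ::ₘ (d, n, f, e) ::ₘ K) P = φ ((d, n, f, e) ::ₘ (c, b, a, n) ::ₘ K) P :=
    by rw [Multiset.cons_swap (c, b, a, n) (d, n, f, e)]
  have e8 : φ ((d, n, f, e) ::ₘ (c, b, a, n) ::ₘ K) P = φ ((n, d, e, f) ::ₘ (c, b, a, n) ::ₘ K) P :=
    h.sy.sw d n f e _ _
  have e9 : φ ((n, d, e, f) ::ₘ (c, b, a, n) ::ₘ K) P = φ ((e, d, n, f) ::ₘ (c, b, a, n) ::ₘ K) P :=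
    h.sy.fl n d e f _ _
  have e10 : φ ((e, d, n, f) ::ₘ (c, b, a, n) ::ₘ K) P = φ ((d, e, f, n) ::ₘ (c, b, a, n) ::ₘ K) P :=
    h.sy.sw e d n f _ _
  have e11 : φ ((d, e, f, n) ::ₘ (c, b, a, n) ::ₘ K) P = φ ((c, b, a, n) ::ₘ (d, e, f, n) ::ₘ K) P :=
    by rw [Multiset.cons_swap (d, e, f, n) (c, b, a, n)]
  have e12 : φ ((c, b, a, n) ::ₘ (d, e, f, n) ::ₘ K) P = φ ((a, b, c, n) ::ₘ (d, e, f, n) ::ₘ K) P :=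
    h.sy.fl c b a n _ _
  rw [e0, e1, e2, e3, e4, e5, e6, e7, e8, e9, e10, e11, e12]

theorem st1_sYX (h : Sk φ δ κ β) (H : Fr3 a b c d e f m n p K P) :
    φ ((a, b, m, n) ::ₘ K) (s(n, f) ::ₘ s(p, e) ::ₘ s(m, c) ::ₘ s(d, p) ::ₘ P) =
      φ ((a, b, c, f) ::ₘ K) (s(d, e) ::ₘ P) := by
  have e0 : φ ((a, b, m, n) ::ₘ K) (s(n, f) ::ₘ s(p, e) ::ₘ s(m, c) ::ₘ s(d, p) ::ₘ P) = φ ((a, b, m, n) ::ₘ K) (s(p, e) ::ₘ s(n, f) ::ₘ s(m, c) ::ₘ s(d, p) ::ₘ P) :=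
    by rw [Multiset.cons_swap s(n, f) s(p, e)]
  have e1 : φ ((a, b, m, n) ::ₘ K) (s(p, e) ::ₘ s(n, f) ::ₘ s(m, c) ::ₘ s(d, p) ::ₘ P) = φ ((a, b, m, n) ::ₘ K) (s(p, e) ::ₘ s(n, f) ::ₘ s(d, p) ::ₘ s(m, c) ::ₘ P) :=
    by rw [Multiset.cons_swap s(m, c) s(d, p)]
  have e2 : φ ((a, b, m, n) ::ₘ K) (s(p, e) ::ₘ s(n, f) ::ₘ s(d, p) ::ₘ s(m, c) ::ₘ P) = φ ((a, b, m, n) ::ₘ K) (s(p, e) ::ₘ s(d, p) ::ₘ s(n, f) ::ₘ s(m, c) ::ₘ P) :=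
    by rw [Multiset.cons_swap s(n, f) s(d, p)]
  have e3 : φ ((a, b, m, n) ::ₘ K) (s(p, e) ::ₘ s(d, p) ::ₘ s(n, f) ::ₘ s(m, c) ::ₘ P) = φ ((a, b, m, n) ::ₘ K) (s(e, p) ::ₘ s(d, p) ::ₘ s(n, f) ::ₘ s(m, c) ::ₘ P) :=
    by rw [Sym2.eq_swap (a := p) (b := e)]
  have e4 : φ ((a, b, m, n) ::ₘ K) (s(e, p) ::ₘ s(d, p) ::ₘ s(n, f) ::ₘ s(m, c) ::ₘ P) = φ ((a, b, m, n) ::ₘ K) (s(e, p) ::ₘ s(p, d) ::ₘ s(n, f) ::ₘ s(m, c) ::ₘ P) :=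
    by rw [Sym2.eq_swap (a := d) (b := p)]
  have e5 : φ ((a, b, m, n) ::ₘ K) (s(e, p) ::ₘ s(p, d) ::ₘ s(n, f) ::ₘ s(m, c) ::ₘ P) = φ ((a, b, m, n) ::ₘ K) (s(e, d) ::ₘ s(n, f) ::ₘ s(m, c) ::ₘ P) :=
    h.fuse e d p _ _ (av_consK.2 ⟨not_mem_legs.2 ⟨H.pa, H.pb, H.mp.symm, H.np.symm⟩, (av_consP.2 ⟨H.np.symm, H.pf, (av_consP.2 ⟨H.mp.symm, H.pc, H.vp⟩)⟩)⟩) H.pe H.pd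
  have e6 : φ ((a, b, m, n) ::ₘ K) (s(e, d) ::ₘ s(n, f) ::ₘ s(m, c) ::ₘ P) = φ ((a, b, m, n) ::ₘ K) (s(n, f) ::ₘ s(e, d) ::ₘ s(m, c) ::ₘ P) :=
    by rw [Multiset.cons_swap s(e, d) s(n, f)]
  have e7 : φ ((a, b, m, n) ::ₘ K) (s(n, f) ::ₘ s(e, d) ::ₘ s(m, c) ::ₘ P) = φ ((a, b, m, n) ::ₘ K) (s(f, n) ::ₘ s(e, d) ::ₘ s(m, c) ::ₘ P) :=
    by rw [Sym2.eq_swap (a := n) (b := f)]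
  have e8 : φ ((a, b, m, n) ::ₘ K) (s(f, n) ::ₘ s(e, d) ::ₘ s(m, c) ::ₘ P) = φ ((b, a, n, m) ::ₘ K) (s(f, n) ::ₘ s(e, d) ::ₘ s(m, c) ::ₘ P) :=
    h.sy.sw a b m n _ _
  have e9 : φ ((b, a, n, m) ::ₘ K) (s(f, n) ::ₘ s(e, d) ::ₘ s(m, c) ::ₘ P) = φ ((n, a, b, m) ::ₘ K) (s(f, n) ::ₘ s(e, d) ::ₘ s(m, c) ::ₘ P) :=
    h.sy.fl b a n m _ _
  have e10 : φ ((n, a, b, m) ::ₘ K) (s(f, n) ::ₘ s(e, d) ::ₘ s(m, c) ::ₘ P) = φ ((f, a, b, m) ::ₘ K) (s(e, d) ::ₘ s(m, c) ::ₘ P) :=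
    h.absorb f a b m n _ _ (av_consP.2 ⟨H.ne, H.nd, (av_consP.2 ⟨H.mn.symm, H.nc, H.vn⟩)⟩) H.nf H.na H.nb H.mn.symm
  have e11 : φ ((f, a, b, m) ::ₘ K) (s(e, d) ::ₘ s(m, c) ::ₘ P) = φ ((f, a, b, m) ::ₘ K) (s(m, c) ::ₘ s(e, d) ::ₘ P) :=
    by rw [Multiset.cons_swap s(e, d) s(m, c)]
  have e12 : φ ((f, a, b, m) ::ₘ K) (s(m, c) ::ₘ s(e, d) ::ₘ P) = φ ((f, a, b, m) ::ₘ K) (s(c, m) ::ₘ s(e, d) ::ₘ P) :=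
    by rw [Sym2.eq_swap (a := m) (b := c)]
  have e13 : φ ((f, a, b, m) ::ₘ K) (s(c, m) ::ₘ s(e, d) ::ₘ P) = φ ((a, f, m, b) ::ₘ K) (s(c, m) ::ₘ s(e, d) ::ₘ P) :=
    h.sy.sw f a b m _ _
  have e14 : φ ((a, f, m, b) ::ₘ K) (s(c, m) ::ₘ s(e, d) ::ₘ P) = φ ((m, f, a, b) ::ₘ K) (s(c, m) ::ₘ s(e, d) ::ₘ P) :=
    h.sy.fl a f m b _ _
  have e15 : φ ((m, f, a, b) ::ₘ K) (s(c, m) ::ₘ s(e, d) ::ₘ P) = φ ((c, f, a, b) ::ₘ K) (s(e, d) ::ₘ P) :=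
    h.absorb c f a b m _ _ (av_consP.2 ⟨H.me, H.md, H.vm⟩) H.mc H.mf H.ma H.mb
  have e16 : φ ((c, f, a, b) ::ₘ K) (s(e, d) ::ₘ P) = φ ((c, f, a, b) ::ₘ K) (s(d, e) ::ₘ P) :=
    by rw [Sym2.eq_swap (a := e) (b := d)]
  have e17 : φ ((c, f, a, b) ::ₘ K) (s(d, e) ::ₘ P) = φ ((f, c, b, a) ::ₘ K) (s(d, e) ::ₘ P) :=
    h.sy.sw c f a b _ _
  have e18 : φ ((f, c, b, a) ::ₘ K) (s(d, e) ::ₘ P) = φ ((b, c, f, a) ::ₘ K) (s(d, e) ::ₘ P) :=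
    h.sy.fl f c b a _ _
  have e19 : φ ((b, c, f, a) ::ₘ K) (s(d, e) ::ₘ P) = φ ((c, b, a, f) ::ₘ K) (s(d, e) ::ₘ P) :=
    h.sy.sw b c f a _ _
  have e20 : φ ((c, b, a, f) ::ₘ K) (s(d, e) ::ₘ P) = φ ((a, b, c, f) ::ₘ K) (s(d, e) ::ₘ P) :=
    h.sy.fl c b a f _ _
  rw [e0, e1, e2, e3, e4, e5, e6, e7, e8, e9, e10, e11, e12, e13, e14, e15, e16, e17, e18, e19, e20]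

theorem st1_sYY (h : Sk φ δ κ β) (H : Fr3 a b c d e f m n p K P) :
    φ ((a, b, m, n) ::ₘ K) (s(n, p) ::ₘ s(e, f) ::ₘ s(m, c) ::ₘ s(d, p) ::ₘ P) =
      φ ((a, b, c, d) ::ₘ K) (s(e, f) ::ₘ P) := by
  have e0 : φ ((a, b, m, n) ::ₘ K) (s(n, p) ::ₘ s(e, f) ::ₘ s(m, c) ::ₘ s(d, p) ::ₘ P) = φ ((a, b, m, n) ::ₘ K) (s(n, p) ::ₘ s(e, f) ::ₘ s(d, p) ::ₘ s(m, c) ::ₘ P) :=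
    by rw [Multiset.cons_swap s(m, c) s(d, p)]
  have e1 : φ ((a, b, m, n) ::ₘ K) (s(n, p) ::ₘ s(e, f) ::ₘ s(d, p) ::ₘ s(m, c) ::ₘ P) = φ ((a, b, m, n) ::ₘ K) (s(n, p) ::ₘ s(d, p) ::ₘ s(e, f) ::ₘ s(m, c) ::ₘ P) :=
    by rw [Multiset.cons_swap s(e, f) s(d, p)]
  have e2 : φ ((a, b, m, n) ::ₘ K) (s(n, p) ::ₘ s(d, p) ::ₘ s(e, f) ::ₘ s(m, c) ::ₘ P) = φ ((a, b, m, n) ::ₘ K) (s(n, p) ::ₘ s(p, d) ::ₘ s(e, f) ::ₘ s(m, c) ::ₘ P) :=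
    by rw [Sym2.eq_swap (a := d) (b := p)]
  have e3 : φ ((a, b, m, n) ::ₘ K) (s(n, p) ::ₘ s(p, d) ::ₘ s(e, f) ::ₘ s(m, c) ::ₘ P) = φ ((a, b, m, n) ::ₘ K) (s(n, d) ::ₘ s(e, f) ::ₘ s(m, c) ::ₘ P) :=
    h.fuse n d p _ _ (av_consK.2 ⟨not_mem_legs.2 ⟨H.pa, H.pb, H.mp.symm, H.np.symm⟩, (av_consP.2 ⟨H.pe, H.pf, (av_consP.2 ⟨H.mp.symm, H.pc, H.vp⟩)⟩)⟩) H.np.symm H.pd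
  have e4 : φ ((a, b, m, n) ::ₘ K) (s(n, d) ::ₘ s(e, f) ::ₘ s(m, c) ::ₘ P) = φ ((a, b, m, n) ::ₘ K) (s(d, n) ::ₘ s(e, f) ::ₘ s(m, c) ::ₘ P) :=
    by rw [Sym2.eq_swap (a := n) (b := d)]
  have e5 : φ ((a, b, m, n) ::ₘ K) (s(d, n) ::ₘ s(e, f) ::ₘ s(m, c) ::ₘ P) = φ ((b, a, n, m) ::ₘ K) (s(d, n) ::ₘ s(e, f) ::ₘ s(m, c) ::ₘ P) :=
    h.sy.sw a b m n _ _
  have e6 : φ ((b, a, n, m) ::ₘ K) (s(d, n) ::ₘ s(e, f) ::ₘ s(m, c) ::ₘ P) = φ ((n, a, b, m) ::ₘ K) (s(d, n) ::ₘ s(e, f) ::ₘ s(m, c) ::ₘ P) :=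
    h.sy.fl b a n m _ _
  have e7 : φ ((n, a, b, m) ::ₘ K) (s(d, n) ::ₘ s(e, f) ::ₘ s(m, c) ::ₘ P) = φ ((d, a, b, m) ::ₘ K) (s(e, f) ::ₘ s(m, c) ::ₘ P) :=
    h.absorb d a b m n _ _ (av_consP.2 ⟨H.ne, H.nf, (av_consP.2 ⟨H.mn.symm, H.nc, H.vn⟩)⟩) H.nd H.na H.nb H.mn.symm
  have e8 : φ ((d, a, b, m) ::ₘ K) (s(e, f) ::ₘ s(m, c) ::ₘ P) = φ ((d, a, b, m) ::ₘ K) (s(m, c) ::ₘ s(e, f) ::ₘ P) :=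
    by rw [Multiset.cons_swap s(e, f) s(m, c)]
  have e9 : φ ((d, a, b, m) ::ₘ K) (s(m, c) ::ₘ s(e, f) ::ₘ P) = φ ((d, a, b, m) ::ₘ K) (s(c, m) ::ₘ s(e, f) ::ₘ P) :=
    by rw [Sym2.eq_swap (a := m) (b := c)]
  have e10 : φ ((d, a, b, m) ::ₘ K) (s(c, m) ::ₘ s(e, f) ::ₘ P) = φ ((a, d, m, b) ::ₘ K) (s(c, m) ::ₘ s(e, f) ::ₘ P) :=
    h.sy.sw d a b m _ _
  have e11 : φ ((a, d, m, b) ::ₘ K) (s(c, m) ::ₘ s(e, f) ::ₘ P) = φ ((m, d, a, b) ::ₘ K) (s(c, m) ::ₘ s(e, f) ::ₘ P) :=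
    h.sy.fl a d m b _ _
  have e12 : φ ((m, d, a, b) ::ₘ K) (s(c, m) ::ₘ s(e, f) ::ₘ P) = φ ((c, d, a, b) ::ₘ K) (s(e, f) ::ₘ P) :=
    h.absorb c d a b m _ _ (av_consP.2 ⟨H.me, H.mf, H.vm⟩) H.mc H.md H.ma H.mb
  have e13 : φ ((c, d, a, b) ::ₘ K) (s(e, f) ::ₘ P) = φ ((d, c, b, a) ::ₘ K) (s(e, f) ::ₘ P) :=
    h.sy.sw c d a b _ _
  have e14 : φ ((d, c, b, a) ::ₘ K) (s(e, f) ::ₘ P) = φ ((b, c, d, a) ::ₘ K) (s(e, f) ::ₘ P) :=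
    h.sy.fl d c b a _ _
  have e15 : φ ((b, c, d, a) ::ₘ K) (s(e, f) ::ₘ P) = φ ((c, b, a, d) ::ₘ K) (s(e, f) ::ₘ P) :=
    h.sy.sw b c d a _ _
  have e16 : φ ((c, b, a, d) ::ₘ K) (s(e, f) ::ₘ P) = φ ((a, b, c, d) ::ₘ K) (s(e, f) ::ₘ P) :=
    h.sy.fl c b a d _ _
  rw [e0, e1, e2, e3, e4, e5, e6, e7, e8, e9, e10, e11, e12, e13, e14, e15, e16]

theorem st1_Xss (h : Sk φ δ κ β) (H : Fr3 a b c d e f m n p K P) :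
    φ ((n, p, e, f) ::ₘ (m, c, d, p) ::ₘ K) (s(a, n) ::ₘ s(b, m) ::ₘ P) =
      φ ((a, f, e, p) ::ₘ (b, c, d, p) ::ₘ K) P := by
  have e0 : φ ((n, p, e, f) ::ₘ (m, c, d, p) ::ₘ K) (s(a, n) ::ₘ s(b, m) ::ₘ P) = φ ((a, p, e, f) ::ₘ (m, c, d, p) ::ₘ K) (s(b, m) ::ₘ P) :=
    h.absorb a p e f n _ _ (av_consK.2 ⟨not_mem_legs.2 ⟨H.mn.symm, H.nc, H.nd, H.np⟩, (av_consP.2 ⟨H.nb, H.mn.symm, H.vn⟩)⟩) H.na H.np H.ne H.nf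
  have e1 : φ ((a, p, e, f) ::ₘ (m, c, d, p) ::ₘ K) (s(b, m) ::ₘ P) = φ ((m, c, d, p) ::ₘ (a, p, e, f) ::ₘ K) (s(b, m) ::ₘ P) :=
    by rw [Multiset.cons_swap (a, p, e, f) (m, c, d, p)]
  have e2 : φ ((m, c, d, p) ::ₘ (a, p, e, f) ::ₘ K) (s(b, m) ::ₘ P) = φ ((b, c, d, p) ::ₘ (a, p, e, f) ::ₘ K) P :=
    h.absorb b c d p m _ _ (av_consK.2 ⟨not_mem_legs.2 ⟨H.ma, H.mp, H.me, H.mf⟩, H.vm⟩) H.mb H.mc H.md H.mp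
  have e3 : φ ((b, c, d, p) ::ₘ (a, p, e, f) ::ₘ K) P = φ ((a, p, e, f) ::ₘ (b, c, d, p) ::ₘ K) P :=
    by rw [Multiset.cons_swap (b, c, d, p) (a, p, e, f)]
  have e4 : φ ((a, p, e, f) ::ₘ (b, c, d, p) ::ₘ K) P = φ ((p, a, f, e) ::ₘ (b, c, d, p) ::ₘ K) P :=
    h.sy.sw a p e f _ _
  have e5 : φ ((p, a, f, e) ::ₘ (b, c, d, p) ::ₘ K) P = φ ((f, a, p, e) ::ₘ (b, c, d, p) ::ₘ K) P :=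
    h.sy.fl p a f e _ _
  have e6 : φ ((f, a, p, e) ::ₘ (b, c, d, p) ::ₘ K) P = φ ((a, f, e, p) ::ₘ (b, c, d, p) ::ₘ K) P :=
    h.sy.sw f a p e _ _
  have e7 : φ ((a, f, e, p) ::ₘ (b, c, d, p) ::ₘ K) P = φ ((b, c, d, p) ::ₘ (a, f, e, p) ::ₘ K) P :=
    by rw [Multiset.cons_swap (a, f, e, p) (b, c, d, p)]
  have e8 : φ ((b, c, d, p) ::ₘ (a, f, e, p) ::ₘ K) P = φ ((a, f, e, p) ::ₘ (b, c, d, p) ::ₘ K) P :=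
    by rw [Multiset.cons_swap (b, c, d, p) (a, f, e, p)]
  rw [e0, e1, e2, e3, e4, e5, e6, e7, e8]

theorem st1_XsX (h : Sk φ δ κ β) (H : Fr3 a b c d e f m n p K P) :
    φ ((m, c, d, p) ::ₘ K) (s(n, f) ::ₘ s(p, e) ::ₘ s(a, n) ::ₘ s(b, m) ::ₘ P) =
      φ ((b, c, d, e) ::ₘ K) (s(a, f) ::ₘ P) := by
  have e0 : φ ((m, c, d, p) ::ₘ K) (s(n, f) ::ₘ s(p, e) ::ₘ s(a, n) ::ₘ s(b, m) ::ₘ P) = φ ((m, c, d, p) ::ₘ K) (s(p, e) ::ₘ s(n, f) ::ₘ s(a, n) ::ₘ s(b, m) ::ₘ P) :=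
    by rw [Multiset.cons_swap s(n, f) s(p, e)]
  have e1 : φ ((m, c, d, p) ::ₘ K) (s(p, e) ::ₘ s(n, f) ::ₘ s(a, n) ::ₘ s(b, m) ::ₘ P) = φ ((m, c, d, p) ::ₘ K) (s(e, p) ::ₘ s(n, f) ::ₘ s(a, n) ::ₘ s(b, m) ::ₘ P) :=
    by rw [Sym2.eq_swap (a := p) (b := e)]
  have e2 : φ ((m, c, d, p) ::ₘ K) (s(e, p) ::ₘ s(n, f) ::ₘ s(a, n) ::ₘ s(b, m) ::ₘ P) = φ ((c, m, p, d) ::ₘ K) (s(e, p) ::ₘ s(n, f) ::ₘ s(a, n) ::ₘ s(b, m) ::ₘ P) :=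
    h.sy.sw m c d p _ _
  have e3 : φ ((c, m, p, d) ::ₘ K) (s(e, p) ::ₘ s(n, f) ::ₘ s(a, n) ::ₘ s(b, m) ::ₘ P) = φ ((p, m, c, d) ::ₘ K) (s(e, p) ::ₘ s(n, f) ::ₘ s(a, n) ::ₘ s(b, m) ::ₘ P) :=
    h.sy.fl c m p d _ _
  have e4 : φ ((p, m, c, d) ::ₘ K) (s(e, p) ::ₘ s(n, f) ::ₘ s(a, n) ::ₘ s(b, m) ::ₘ P) = φ ((e, m, c, d) ::ₘ K) (s(n, f) ::ₘ s(a, n) ::ₘ s(b, m) ::ₘ P) :=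
    h.absorb e m c d p _ _ (av_consP.2 ⟨H.np.symm, H.pf, (av_consP.2 ⟨H.pa, H.np.symm, (av_consP.2 ⟨H.pb, H.mp.symm, H.vp⟩)⟩)⟩) H.pe H.mp.symm H.pc H.pd
  have e5 : φ ((e, m, c, d) ::ₘ K) (s(n, f) ::ₘ s(a, n) ::ₘ s(b, m) ::ₘ P) = φ ((e, m, c, d) ::ₘ K) (s(f, n) ::ₘ s(a, n) ::ₘ s(b, m) ::ₘ P) :=
    by rw [Sym2.eq_swap (a := n) (b := f)]
  have e6 : φ ((e, m, c, d) ::ₘ K) (s(f, n) ::ₘ s(a, n) ::ₘ s(b, m) ::ₘ P) = φ ((e, m, c, d) ::ₘ K) (s(f, n) ::ₘ s(n, a) ::ₘ s(b, m) ::ₘ P) :=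
    by rw [Sym2.eq_swap (a := a) (b := n)]
  have e7 : φ ((e, m, c, d) ::ₘ K) (s(f, n) ::ₘ s(n, a) ::ₘ s(b, m) ::ₘ P) = φ ((e, m, c, d) ::ₘ K) (s(f, a) ::ₘ s(b, m) ::ₘ P) :=
    h.fuse f a n _ _ (av_consK.2 ⟨not_mem_legs.2 ⟨H.ne, H.mn.symm, H.nc, H.nd⟩, (av_consP.2 ⟨H.nb, H.mn.symm, H.vn⟩)⟩) H.nf H.na
  have e8 : φ ((e, m, c, d) ::ₘ K) (s(f, a) ::ₘ s(b, m) ::ₘ P) = φ ((e, m, c, d) ::ₘ K) (s(b, m) ::ₘ s(f, a) ::ₘ P) :=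
    by rw [Multiset.cons_swap s(f, a) s(b, m)]
  have e9 : φ ((e, m, c, d) ::ₘ K) (s(b, m) ::ₘ s(f, a) ::ₘ P) = φ ((m, e, d, c) ::ₘ K) (s(b, m) ::ₘ s(f, a) ::ₘ P) :=
    h.sy.sw e m c d _ _
  have e10 : φ ((m, e, d, c) ::ₘ K) (s(b, m) ::ₘ s(f, a) ::ₘ P) = φ ((b, e, d, c) ::ₘ K) (s(f, a) ::ₘ P) :=
    h.absorb b e d c m _ _ (av_consP.2 ⟨H.mf, H.ma, H.vm⟩) H.mb H.me H.md H.mc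
  have e11 : φ ((b, e, d, c) ::ₘ K) (s(f, a) ::ₘ P) = φ ((b, e, d, c) ::ₘ K) (s(a, f) ::ₘ P) :=
    by rw [Sym2.eq_swap (a := f) (b := a)]
  have e12 : φ ((b, e, d, c) ::ₘ K) (s(a, f) ::ₘ P) = φ ((e, b, c, d) ::ₘ K) (s(a, f) ::ₘ P) :=
    h.sy.sw b e d c _ _
  have e13 : φ ((e, b, c, d) ::ₘ K) (s(a, f) ::ₘ P) = φ ((c, b, e, d) ::ₘ K) (s(a, f) ::ₘ P) :=
    h.sy.fl e b c d _ _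
  have e14 : φ ((c, b, e, d) ::ₘ K) (s(a, f) ::ₘ P) = φ ((b, c, d, e) ::ₘ K) (s(a, f) ::ₘ P) :=
    h.sy.sw c b e d _ _
  rw [e0, e1, e2, e3, e4, e5, e6, e7, e8, e9, e10, e11, e12, e13, e14]

theorem st1_XsY (h : Sk φ δ κ β) (H : Fr3 a b c d e f m n p K P) :
    φ ((m, c, d, p) ::ₘ K) (s(n, p) ::ₘ s(e, f) ::ₘ s(a, n) ::ₘ s(b, m) ::ₘ P) =
      φ ((a, b, c, d) ::ₘ K) (s(e, f) ::ₘ P) := by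
  have e0 : φ ((m, c, d, p) ::ₘ K) (s(n, p) ::ₘ s(e, f) ::ₘ s(a, n) ::ₘ s(b, m) ::ₘ P) = φ ((c, m, p, d) ::ₘ K) (s(n, p) ::ₘ s(e, f) ::ₘ s(a, n) ::ₘ s(b, m) ::ₘ P) :=
    h.sy.sw m c d p _ _
  have e1 : φ ((c, m, p, d) ::ₘ K) (s(n, p) ::ₘ s(e, f) ::ₘ s(a, n) ::ₘ s(b, m) ::ₘ P) = φ ((p, m, c, d) ::ₘ K) (s(n, p) ::ₘ s(e, f) ::ₘ s(a, n) ::ₘ s(b, m) ::ₘ P) :=
    h.sy.fl c m p d _ _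
  have e2 : φ ((p, m, c, d) ::ₘ K) (s(n, p) ::ₘ s(e, f) ::ₘ s(a, n) ::ₘ s(b, m) ::ₘ P) = φ ((n, m, c, d) ::ₘ K) (s(e, f) ::ₘ s(a, n) ::ₘ s(b, m) ::ₘ P) :=
    h.absorb n m c d p _ _ (av_consP.2 ⟨H.pe, H.pf, (av_consP.2 ⟨H.pa, H.np.symm, (av_consP.2 ⟨H.pb, H.mp.symm, H.vp⟩)⟩)⟩) H.np.symm H.mp.symm H.pc H.pd
  have e3 : φ ((n, m, c, d) ::ₘ K) (s(e, f) ::ₘ s(a, n) ::ₘ s(b, m) ::ₘ P) = φ ((n, m, c, d) ::ₘ K) (s(a, n) ::ₘ s(e, f) ::ₘ s(b, m) ::ₘ P) :=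
    by rw [Multiset.cons_swap s(e, f) s(a, n)]
  have e4 : φ ((n, m, c, d) ::ₘ K) (s(a, n) ::ₘ s(e, f) ::ₘ s(b, m) ::ₘ P) = φ ((a, m, c, d) ::ₘ K) (s(e, f) ::ₘ s(b, m) ::ₘ P) :=
    h.absorb a m c d n _ _ (av_consP.2 ⟨H.ne, H.nf, (av_consP.2 ⟨H.nb, H.mn.symm, H.vn⟩)⟩) H.na H.mn.symm H.nc H.nd
  have e5 : φ ((a, m, c, d) ::ₘ K) (s(e, f) ::ₘ s(b, m) ::ₘ P) = φ ((a, m, c, d) ::ₘ K) (s(b, m) ::ₘ s(e, f) ::ₘ P) :=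
    by rw [Multiset.cons_swap s(e, f) s(b, m)]
  have e6 : φ ((a, m, c, d) ::ₘ K) (s(b, m) ::ₘ s(e, f) ::ₘ P) = φ ((m, a, d, c) ::ₘ K) (s(b, m) ::ₘ s(e, f) ::ₘ P) :=
    h.sy.sw a m c d _ _
  have e7 : φ ((m, a, d, c) ::ₘ K) (s(b, m) ::ₘ s(e, f) ::ₘ P) = φ ((b, a, d, c) ::ₘ K) (s(e, f) ::ₘ P) :=
    h.absorb b a d c m _ _ (av_consP.2 ⟨H.me, H.mf, H.vm⟩) H.mb H.ma H.md H.mc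
  have e8 : φ ((b, a, d, c) ::ₘ K) (s(e, f) ::ₘ P) = φ ((a, b, c, d) ::ₘ K) (s(e, f) ::ₘ P) :=
    h.sy.sw b a d c _ _
  rw [e0, e1, e2, e3, e4, e5, e6, e7, e8]

theorem st1_XXs (h : Sk φ δ κ β) (H : Fr3 a b c d e f m n p K P) :
    φ ((n, p, e, f) ::ₘ K) (s(m, p) ::ₘ s(c, d) ::ₘ s(a, n) ::ₘ s(b, m) ::ₘ P) =
      φ ((a, b, e, f) ::ₘ K) (s(c, d) ::ₘ P) := by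
  have e0 : φ ((n, p, e, f) ::ₘ K) (s(m, p) ::ₘ s(c, d) ::ₘ s(a, n) ::ₘ s(b, m) ::ₘ P) = φ ((p, n, f, e) ::ₘ K) (s(m, p) ::ₘ s(c, d) ::ₘ s(a, n) ::ₘ s(b, m) ::ₘ P) :=
    h.sy.sw n p e f _ _
  have e1 : φ ((p, n, f, e) ::ₘ K) (s(m, p) ::ₘ s(c, d) ::ₘ s(a, n) ::ₘ s(b, m) ::ₘ P) = φ ((m, n, f, e) ::ₘ K) (s(c, d) ::ₘ s(a, n) ::ₘ s(b, m) ::ₘ P) :=
    h.absorb m n f e p _ _ (av_consP.2 ⟨H.pc, H.pd, (av_consP.2 ⟨H.pa, H.np.symm, (av_consP.2 ⟨H.pb, H.mp.symm, H.vp⟩)⟩)⟩) H.mp.symm H.np.symm H.pf H.pe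
  have e2 : φ ((m, n, f, e) ::ₘ K) (s(c, d) ::ₘ s(a, n) ::ₘ s(b, m) ::ₘ P) = φ ((m, n, f, e) ::ₘ K) (s(a, n) ::ₘ s(c, d) ::ₘ s(b, m) ::ₘ P) :=
    by rw [Multiset.cons_swap s(c, d) s(a, n)]
  have e3 : φ ((m, n, f, e) ::ₘ K) (s(a, n) ::ₘ s(c, d) ::ₘ s(b, m) ::ₘ P) = φ ((n, m, e, f) ::ₘ K) (s(a, n) ::ₘ s(c, d) ::ₘ s(b, m) ::ₘ P) :=
    h.sy.sw m n f e _ _
  have e4 : φ ((n, m, e, f) ::ₘ K) (s(a, n) ::ₘ s(c, d) ::ₘ s(b, m) ::ₘ P) = φ ((a, m, e, f) ::ₘ K) (s(c, d) ::ₘ s(b, m) ::ₘ P) :=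
    h.absorb a m e f n _ _ (av_consP.2 ⟨H.nc, H.nd, (av_consP.2 ⟨H.nb, H.mn.symm, H.vn⟩)⟩) H.na H.mn.symm H.ne H.nf
  have e5 : φ ((a, m, e, f) ::ₘ K) (s(c, d) ::ₘ s(b, m) ::ₘ P) = φ ((a, m, e, f) ::ₘ K) (s(b, m) ::ₘ s(c, d) ::ₘ P) :=
    by rw [Multiset.cons_swap s(c, d) s(b, m)]
  have e6 : φ ((a, m, e, f) ::ₘ K) (s(b, m) ::ₘ s(c, d) ::ₘ P) = φ ((m, a, f, e) ::ₘ K) (s(b, m) ::ₘ s(c, d) ::ₘ P) :=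
    h.sy.sw a m e f _ _
  have e7 : φ ((m, a, f, e) ::ₘ K) (s(b, m) ::ₘ s(c, d) ::ₘ P) = φ ((b, a, f, e) ::ₘ K) (s(c, d) ::ₘ P) :=
    h.absorb b a f e m _ _ (av_consP.2 ⟨H.mc, H.md, H.vm⟩) H.mb H.ma H.mf H.me
  have e8 : φ ((b, a, f, e) ::ₘ K) (s(c, d) ::ₘ P) = φ ((a, b, e, f) ::ₘ K) (s(c, d) ::ₘ P) :=
    h.sy.sw b a f e _ _
  rw [e0, e1, e2, e3, e4, e5, e6, e7, e8]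

theorem st1_XXX (h : Sk φ δ κ β) (H : Fr3 a b c d e f m n p K P) :
    φ K (s(n, f) ::ₘ s(p, e) ::ₘ s(m, p) ::ₘ s(c, d) ::ₘ s(a, n) ::ₘ s(b, m) ::ₘ P) =
      φ K (s(a, f) ::ₘ s(b, e) ::ₘ s(c, d) ::ₘ P) := by
  have e0 : φ K (s(n, f) ::ₘ s(p, e) ::ₘ s(m, p) ::ₘ s(c, d) ::ₘ s(a, n) ::ₘ s(b, m) ::ₘ P) = φ K (s(p, e) ::ₘ s(n, f) ::ₘ s(m, p) ::ₘ s(c, d) ::ₘ s(a, n) ::ₘ s(b, m) ::ₘ P) :=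
    by rw [Multiset.cons_swap s(n, f) s(p, e)]
  have e1 : φ K (s(p, e) ::ₘ s(n, f) ::ₘ s(m, p) ::ₘ s(c, d) ::ₘ s(a, n) ::ₘ s(b, m) ::ₘ P) = φ K (s(p, e) ::ₘ s(m, p) ::ₘ s(n, f) ::ₘ s(c, d) ::ₘ s(a, n) ::ₘ s(b, m) ::ₘ P) :=
    by rw [Multiset.cons_swap s(n, f) s(m, p)]
  have e2 : φ K (s(p, e) ::ₘ s(m, p) ::ₘ s(n, f) ::ₘ s(c, d) ::ₘ s(a, n) ::ₘ s(b, m) ::ₘ P) = φ K (s(e, p) ::ₘ s(m, p) ::ₘ s(n, f) ::ₘ s(c, d) ::ₘ s(a, n) ::ₘ s(b, m) ::ₘ P) :=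
    by rw [Sym2.eq_swap (a := p) (b := e)]
  have e3 : φ K (s(e, p) ::ₘ s(m, p) ::ₘ s(n, f) ::ₘ s(c, d) ::ₘ s(a, n) ::ₘ s(b, m) ::ₘ P) = φ K (s(e, p) ::ₘ s(p, m) ::ₘ s(n, f) ::ₘ s(c, d) ::ₘ s(a, n) ::ₘ s(b, m) ::ₘ P) :=
    by rw [Sym2.eq_swap (a := m) (b := p)]
  have e4 : φ K (s(e, p) ::ₘ s(p, m) ::ₘ s(n, f) ::ₘ s(c, d) ::ₘ s(a, n) ::ₘ s(b, m) ::ₘ P) = φ K (s(e, m) ::ₘ s(n, f) ::ₘ s(c, d) ::ₘ s(a, n) ::ₘ s(b, m) ::ₘ P) :=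
    h.fuse e m p _ _ (av_consP.2 ⟨H.np.symm, H.pf, (av_consP.2 ⟨H.pc, H.pd, (av_consP.2 ⟨H.pa, H.np.symm, (av_consP.2 ⟨H.pb, H.mp.symm, H.vp⟩)⟩)⟩)⟩) H.pe H.mp.symm
  have e5 : φ K (s(e, m) ::ₘ s(n, f) ::ₘ s(c, d) ::ₘ s(a, n) ::ₘ s(b, m) ::ₘ P) = φ K (s(n, f) ::ₘ s(e, m) ::ₘ s(c, d) ::ₘ s(a, n) ::ₘ s(b, m) ::ₘ P) :=
    by rw [Multiset.cons_swap s(e, m) s(n, f)]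
  have e6 : φ K (s(n, f) ::ₘ s(e, m) ::ₘ s(c, d) ::ₘ s(a, n) ::ₘ s(b, m) ::ₘ P) = φ K (s(n, f) ::ₘ s(e, m) ::ₘ s(a, n) ::ₘ s(c, d) ::ₘ s(b, m) ::ₘ P) :=
    by rw [Multiset.cons_swap s(c, d) s(a, n)]
  have e7 : φ K (s(n, f) ::ₘ s(e, m) ::ₘ s(a, n) ::ₘ s(c, d) ::ₘ s(b, m) ::ₘ P) = φ K (s(n, f) ::ₘ s(a, n) ::ₘ s(e, m) ::ₘ s(c, d) ::ₘ s(b, m) ::ₘ P) :=
    by rw [Multiset.cons_swap s(e, m) s(a, n)]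
  have e8 : φ K (s(n, f) ::ₘ s(a, n) ::ₘ s(e, m) ::ₘ s(c, d) ::ₘ s(b, m) ::ₘ P) = φ K (s(f, n) ::ₘ s(a, n) ::ₘ s(e, m) ::ₘ s(c, d) ::ₘ s(b, m) ::ₘ P) :=
    by rw [Sym2.eq_swap (a := n) (b := f)]
  have e9 : φ K (s(f, n) ::ₘ s(a, n) ::ₘ s(e, m) ::ₘ s(c, d) ::ₘ s(b, m) ::ₘ P) = φ K (s(f, n) ::ₘ s(n, a) ::ₘ s(e, m) ::ₘ s(c, d) ::ₘ s(b, m) ::ₘ P) :=
    by rw [Sym2.eq_swap (a := a) (b := n)]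
  have e10 : φ K (s(f, n) ::ₘ s(n, a) ::ₘ s(e, m) ::ₘ s(c, d) ::ₘ s(b, m) ::ₘ P) = φ K (s(f, a) ::ₘ s(e, m) ::ₘ s(c, d) ::ₘ s(b, m) ::ₘ P) :=
    h.fuse f a n _ _ (av_consP.2 ⟨H.ne, H.mn.symm, (av_consP.2 ⟨H.nc, H.nd, (av_consP.2 ⟨H.nb, H.mn.symm, H.vn⟩)⟩)⟩) H.nf H.na
  have e11 : φ K (s(f, a) ::ₘ s(e, m) ::ₘ s(c, d) ::ₘ s(b, m) ::ₘ P) = φ K (s(e, m) ::ₘ s(f, a) ::ₘ s(c, d) ::ₘ s(b, m) ::ₘ P) :=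
    by rw [Multiset.cons_swap s(f, a) s(e, m)]
  have e12 : φ K (s(e, m) ::ₘ s(f, a) ::ₘ s(c, d) ::ₘ s(b, m) ::ₘ P) = φ K (s(e, m) ::ₘ s(f, a) ::ₘ s(b, m) ::ₘ s(c, d) ::ₘ P) :=
    by rw [Multiset.cons_swap s(c, d) s(b, m)]
  have e13 : φ K (s(e, m) ::ₘ s(f, a) ::ₘ s(b, m) ::ₘ s(c, d) ::ₘ P) = φ K (s(e, m) ::ₘ s(b, m) ::ₘ s(f, a) ::ₘ s(c, d) ::ₘ P) :=
    by rw [Multiset.cons_swap s(f, a) s(b, m)]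
  have e14 : φ K (s(e, m) ::ₘ s(b, m) ::ₘ s(f, a) ::ₘ s(c, d) ::ₘ P) = φ K (s(e, m) ::ₘ s(m, b) ::ₘ s(f, a) ::ₘ s(c, d) ::ₘ P) :=
    by rw [Sym2.eq_swap (a := b) (b := m)]
  have e15 : φ K (s(e, m) ::ₘ s(m, b) ::ₘ s(f, a) ::ₘ s(c, d) ::ₘ P) = φ K (s(e, b) ::ₘ s(f, a) ::ₘ s(c, d) ::ₘ P) :=
    h.fuse e b m _ _ (av_consP.2 ⟨H.mf, H.ma, (av_consP.2 ⟨H.mc, H.md, H.vm⟩)⟩) H.me H.mb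
  have e16 : φ K (s(e, b) ::ₘ s(f, a) ::ₘ s(c, d) ::ₘ P) = φ K (s(b, e) ::ₘ s(f, a) ::ₘ s(c, d) ::ₘ P) :=
    by rw [Sym2.eq_swap (a := e) (b := b)]
  have e17 : φ K (s(b, e) ::ₘ s(f, a) ::ₘ s(c, d) ::ₘ P) = φ K (s(b, e) ::ₘ s(a, f) ::ₘ s(c, d) ::ₘ P) :=
    by rw [Sym2.eq_swap (a := f) (b := a)]
  have e18 : φ K (s(b, e) ::ₘ s(a, f) ::ₘ s(c, d) ::ₘ P) = φ K (s(a, f) ::ₘ s(b, e) ::ₘ s(c, d) ::ₘ P) :=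
    by rw [Multiset.cons_swap s(b, e) s(a, f)]
  rw [e0, e1, e2, e3, e4, e5, e6, e7, e8, e9, e10, e11, e12, e13, e14, e15, e16, e17, e18]

theorem st1_XXY (h : Sk φ δ κ β) (H : Fr3 a b c d e f m n p K P) :
    φ K (s(n, p) ::ₘ s(e, f) ::ₘ s(m, p) ::ₘ s(c, d) ::ₘ s(a, n) ::ₘ s(b, m) ::ₘ P) =
      φ K (s(a, b) ::ₘ s(c, d) ::ₘ s(e, f) ::ₘ P) := by
  have e0 : φ K (s(n, p) ::ₘ s(e, f) ::ₘ s(m, p) ::ₘ s(c, d) ::ₘ s(a, n) ::ₘ s(b, m) ::ₘ P) = φ K (s(n, p) ::ₘ s(m, p) ::ₘ s(e, f) ::ₘ s(c, d) ::ₘ s(a, n) ::ₘ s(b, m) ::ₘ P) :=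
    by rw [Multiset.cons_swap s(e, f) s(m, p)]
  have e1 : φ K (s(n, p) ::ₘ s(m, p) ::ₘ s(e, f) ::ₘ s(c, d) ::ₘ s(a, n) ::ₘ s(b, m) ::ₘ P) = φ K (s(n, p) ::ₘ s(p, m) ::ₘ s(e, f) ::ₘ s(c, d) ::ₘ s(a, n) ::ₘ s(b, m) ::ₘ P) :=
    by rw [Sym2.eq_swap (a := m) (b := p)]
  have e2 : φ K (s(n, p) ::ₘ s(p, m) ::ₘ s(e, f) ::ₘ s(c, d) ::ₘ s(a, n) ::ₘ s(b, m) ::ₘ P) = φ K (s(n, m) ::ₘ s(e, f) ::ₘ s(c, d) ::ₘ s(a, n) ::ₘ s(b, m) ::ₘ P) :=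
    h.fuse n m p _ _ (av_consP.2 ⟨H.pe, H.pf, (av_consP.2 ⟨H.pc, H.pd, (av_consP.2 ⟨H.pa, H.np.symm, (av_consP.2 ⟨H.pb, H.mp.symm, H.vp⟩)⟩)⟩)⟩) H.np.symm H.mp.symm
  have e3 : φ K (s(n, m) ::ₘ s(e, f) ::ₘ s(c, d) ::ₘ s(a, n) ::ₘ s(b, m) ::ₘ P) = φ K (s(n, m) ::ₘ s(e, f) ::ₘ s(a, n) ::ₘ s(c, d) ::ₘ s(b, m) ::ₘ P) :=
    by rw [Multiset.cons_swap s(c, d) s(a, n)]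
  have e4 : φ K (s(n, m) ::ₘ s(e, f) ::ₘ s(a, n) ::ₘ s(c, d) ::ₘ s(b, m) ::ₘ P) = φ K (s(n, m) ::ₘ s(a, n) ::ₘ s(e, f) ::ₘ s(c, d) ::ₘ s(b, m) ::ₘ P) :=
    by rw [Multiset.cons_swap s(e, f) s(a, n)]
  have e5 : φ K (s(n, m) ::ₘ s(a, n) ::ₘ s(e, f) ::ₘ s(c, d) ::ₘ s(b, m) ::ₘ P) = φ K (s(m, n) ::ₘ s(a, n) ::ₘ s(e, f) ::ₘ s(c, d) ::ₘ s(b, m) ::ₘ P) :=
    by rw [Sym2.eq_swap (a := n) (b := m)]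
  have e6 : φ K (s(m, n) ::ₘ s(a, n) ::ₘ s(e, f) ::ₘ s(c, d) ::ₘ s(b, m) ::ₘ P) = φ K (s(m, n) ::ₘ s(n, a) ::ₘ s(e, f) ::ₘ s(c, d) ::ₘ s(b, m) ::ₘ P) :=
    by rw [Sym2.eq_swap (a := a) (b := n)]
  have e7 : φ K (s(m, n) ::ₘ s(n, a) ::ₘ s(e, f) ::ₘ s(c, d) ::ₘ s(b, m) ::ₘ P) = φ K (s(m, a) ::ₘ s(e, f) ::ₘ s(c, d) ::ₘ s(b, m) ::ₘ P) :=
    h.fuse m a n _ _ (av_consP.2 ⟨H.ne, H.nf, (av_consP.2 ⟨H.nc, H.nd, (av_consP.2 ⟨H.nb, H.mn.symm, H.vn⟩)⟩)⟩) H.mn.symm H.na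
  have e8 : φ K (s(m, a) ::ₘ s(e, f) ::ₘ s(c, d) ::ₘ s(b, m) ::ₘ P) = φ K (s(m, a) ::ₘ s(e, f) ::ₘ s(b, m) ::ₘ s(c, d) ::ₘ P) :=
    by rw [Multiset.cons_swap s(c, d) s(b, m)]
  have e9 : φ K (s(m, a) ::ₘ s(e, f) ::ₘ s(b, m) ::ₘ s(c, d) ::ₘ P) = φ K (s(m, a) ::ₘ s(b, m) ::ₘ s(e, f) ::ₘ s(c, d) ::ₘ P) :=
    by rw [Multiset.cons_swap s(e, f) s(b, m)]
  have e10 : φ K (s(m, a) ::ₘ s(b, m) ::ₘ s(e, f) ::ₘ s(c, d) ::ₘ P) = φ K (s(a, m) ::ₘ s(b, m) ::ₘ s(e, f) ::ₘ s(c, d) ::ₘ P) :=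
    by rw [Sym2.eq_swap (a := m) (b := a)]
  have e11 : φ K (s(a, m) ::ₘ s(b, m) ::ₘ s(e, f) ::ₘ s(c, d) ::ₘ P) = φ K (s(a, m) ::ₘ s(m, b) ::ₘ s(e, f) ::ₘ s(c, d) ::ₘ P) :=
    by rw [Sym2.eq_swap (a := b) (b := m)]
  have e12 : φ K (s(a, m) ::ₘ s(m, b) ::ₘ s(e, f) ::ₘ s(c, d) ::ₘ P) = φ K (s(a, b) ::ₘ s(e, f) ::ₘ s(c, d) ::ₘ P) :=
    h.fuse a b m _ _ (av_consP.2 ⟨H.me, H.mf, (av_consP.2 ⟨H.mc, H.md, H.vm⟩)⟩) H.ma H.mb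
  have e13 : φ K (s(a, b) ::ₘ s(e, f) ::ₘ s(c, d) ::ₘ P) = φ K (s(a, b) ::ₘ s(c, d) ::ₘ s(e, f) ::ₘ P) :=
    by rw [Multiset.cons_swap s(e, f) s(c, d)]
  rw [e0, e1, e2, e3, e4, e5, e6, e7, e8, e9, e10, e11, e12, e13]

theorem st1_XYs (h : Sk φ δ κ β) (H : Fr3 a b c d e f m n p K P) :
    φ ((n, p, e, f) ::ₘ K) (s(m, c) ::ₘ s(d, p) ::ₘ s(a, n) ::ₘ s(b, m) ::ₘ P) =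
      φ ((a, d, e, f) ::ₘ K) (s(b, c) ::ₘ P) := by
  have e0 : φ ((n, p, e, f) ::ₘ K) (s(m, c) ::ₘ s(d, p) ::ₘ s(a, n) ::ₘ s(b, m) ::ₘ P) = φ ((n, p, e, f) ::ₘ K) (s(d, p) ::ₘ s(m, c) ::ₘ s(a, n) ::ₘ s(b, m) ::ₘ P) :=
    by rw [Multiset.cons_swap s(m, c) s(d, p)]
  have e1 : φ ((n, p, e, f) ::ₘ K) (s(d, p) ::ₘ s(m, c) ::ₘ s(a, n) ::ₘ s(b, m) ::ₘ P) = φ ((p, n, f, e) ::ₘ K) (s(d, p) ::ₘ s(m, c) ::ₘ s(a, n) ::ₘ s(b, m) ::ₘ P) :=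
    h.sy.sw n p e f _ _
  have e2 : φ ((p, n, f, e) ::ₘ K) (s(d, p) ::ₘ s(m, c) ::ₘ s(a, n) ::ₘ s(b, m) ::ₘ P) = φ ((d, n, f, e) ::ₘ K) (s(m, c) ::ₘ s(a, n) ::ₘ s(b, m) ::ₘ P) :=
    h.absorb d n f e p _ _ (av_consP.2 ⟨H.mp.symm, H.pc, (av_consP.2 ⟨H.pa, H.np.symm, (av_consP.2 ⟨H.pb, H.mp.symm, H.vp⟩)⟩)⟩) H.pd H.np.symm H.pf H.pe
  have e3 : φ ((d, n, f, e) ::ₘ K) (s(m, c) ::ₘ s(a, n) ::ₘ s(b, m) ::ₘ P) = φ ((d, n, f, e) ::ₘ K) (s(a, n) ::ₘ s(m, c) ::ₘ s(b, m) ::ₘ P) :=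
    by rw [Multiset.cons_swap s(m, c) s(a, n)]
  have e4 : φ ((d, n, f, e) ::ₘ K) (s(a, n) ::ₘ s(m, c) ::ₘ s(b, m) ::ₘ P) = φ ((n, d, e, f) ::ₘ K) (s(a, n) ::ₘ s(m, c) ::ₘ s(b, m) ::ₘ P) :=
    h.sy.sw d n f e _ _
  have e5 : φ ((n, d, e, f) ::ₘ K) (s(a, n) ::ₘ s(m, c) ::ₘ s(b, m) ::ₘ P) = φ ((a, d, e, f) ::ₘ K) (s(m, c) ::ₘ s(b, m) ::ₘ P) :=
    h.absorb a d e f n _ _ (av_consP.2 ⟨H.mn.symm, H.nc, (av_consP.2 ⟨H.nb, H.mn.symm, H.vn⟩)⟩) H.na H.nd H.ne H.nf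
  have e6 : φ ((a, d, e, f) ::ₘ K) (s(m, c) ::ₘ s(b, m) ::ₘ P) = φ ((a, d, e, f) ::ₘ K) (s(c, m) ::ₘ s(b, m) ::ₘ P) :=
    by rw [Sym2.eq_swap (a := m) (b := c)]
  have e7 : φ ((a, d, e, f) ::ₘ K) (s(c, m) ::ₘ s(b, m) ::ₘ P) = φ ((a, d, e, f) ::ₘ K) (s(c, m) ::ₘ s(m, b) ::ₘ P) :=
    by rw [Sym2.eq_swap (a := b) (b := m)]
  have e8 : φ ((a, d, e, f) ::ₘ K) (s(c, m) ::ₘ s(m, b) ::ₘ P) = φ ((a, d, e, f) ::ₘ K) (s(c, b) ::ₘ P) :=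
    h.fuse c b m _ _ (av_consK.2 ⟨not_mem_legs.2 ⟨H.ma, H.md, H.me, H.mf⟩, H.vm⟩) H.mc H.mb
  have e9 : φ ((a, d, e, f) ::ₘ K) (s(c, b) ::ₘ P) = φ ((a, d, e, f) ::ₘ K) (s(b, c) ::ₘ P) :=
    by rw [Sym2.eq_swap (a := c) (b := b)]
  rw [e0, e1, e2, e3, e4, e5, e6, e7, e8, e9]

theorem st1_XYX (h : Sk φ δ κ β) (H : Fr3 a b c d e f m n p K P) :
    φ K (s(n, f) ::ₘ s(p, e) ::ₘ s(m, c) ::ₘ s(d, p) ::ₘ s(a, n) ::ₘ s(b, m) ::ₘ P) =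
      φ K (s(a, f) ::ₘ s(b, c) ::ₘ s(d, e) ::ₘ P) := by
  have e0 : φ K (s(n, f) ::ₘ s(p, e) ::ₘ s(m, c) ::ₘ s(d, p) ::ₘ s(a, n) ::ₘ s(b, m) ::ₘ P) = φ K (s(p, e) ::ₘ s(n, f) ::ₘ s(m, c) ::ₘ s(d, p) ::ₘ s(a, n) ::ₘ s(b, m) ::ₘ P) :=
    by rw [Multiset.cons_swap s(n, f) s(p, e)]
  have e1 : φ K (s(p, e) ::ₘ s(n, f) ::ₘ s(m, c) ::ₘ s(d, p) ::ₘ s(a, n) ::ₘ s(b, m) ::ₘ P) = φ K (s(p, e) ::ₘ s(n, f) ::ₘ s(d, p) ::ₘ s(m, c) ::ₘ s(a, n) ::ₘ s(b, m) ::ₘ P) :=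
    by rw [Multiset.cons_swap s(m, c) s(d, p)]
  have e2 : φ K (s(p, e) ::ₘ s(n, f) ::ₘ s(d, p) ::ₘ s(m, c) ::ₘ s(a, n) ::ₘ s(b, m) ::ₘ P) = φ K (s(p, e) ::ₘ s(d, p) ::ₘ s(n, f) ::ₘ s(m, c) ::ₘ s(a, n) ::ₘ s(b, m) ::ₘ P) :=
    by rw [Multiset.cons_swap s(n, f) s(d, p)]
  have e3 : φ K (s(p, e) ::ₘ s(d, p) ::ₘ s(n, f) ::ₘ s(m, c) ::ₘ s(a, n) ::ₘ s(b, m) ::ₘ P) = φ K (s(e, p) ::ₘ s(d, p) ::ₘ s(n, f) ::ₘ s(m, c) ::ₘ s(a, n) ::ₘ s(b, m) ::ₘ P) :=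
    by rw [Sym2.eq_swap (a := p) (b := e)]
  have e4 : φ K (s(e, p) ::ₘ s(d, p) ::ₘ s(n, f) ::ₘ s(m, c) ::ₘ s(a, n) ::ₘ s(b, m) ::ₘ P) = φ K (s(e, p) ::ₘ s(p, d) ::ₘ s(n, f) ::ₘ s(m, c) ::ₘ s(a, n) ::ₘ s(b, m) ::ₘ P) :=
    by rw [Sym2.eq_swap (a := d) (b := p)]
  have e5 : φ K (s(e, p) ::ₘ s(p, d) ::ₘ s(n, f) ::ₘ s(m, c) ::ₘ s(a, n) ::ₘ s(b, m) ::ₘ P) = φ K (s(e, d) ::ₘ s(n, f) ::ₘ s(m, c) ::ₘ s(a, n) ::ₘ s(b, m) ::ₘ P) :=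
    h.fuse e d p _ _ (av_consP.2 ⟨H.np.symm, H.pf, (av_consP.2 ⟨H.mp.symm, H.pc, (av_consP.2 ⟨H.pa, H.np.symm, (av_consP.2 ⟨H.pb, H.mp.symm, H.vp⟩)⟩)⟩)⟩) H.pe H.pd
  have e6 : φ K (s(e, d) ::ₘ s(n, f) ::ₘ s(m, c) ::ₘ s(a, n) ::ₘ s(b, m) ::ₘ P) = φ K (s(n, f) ::ₘ s(e, d) ::ₘ s(m, c) ::ₘ s(a, n) ::ₘ s(b, m) ::ₘ P) :=
    by rw [Multiset.cons_swap s(e, d) s(n, f)]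
  have e7 : φ K (s(n, f) ::ₘ s(e, d) ::ₘ s(m, c) ::ₘ s(a, n) ::ₘ s(b, m) ::ₘ P) = φ K (s(n, f) ::ₘ s(e, d) ::ₘ s(a, n) ::ₘ s(m, c) ::ₘ s(b, m) ::ₘ P) :=
    by rw [Multiset.cons_swap s(m, c) s(a, n)]
  have e8 : φ K (s(n, f) ::ₘ s(e, d) ::ₘ s(a, n) ::ₘ s(m, c) ::ₘ s(b, m) ::ₘ P) = φ K (s(n, f) ::ₘ s(a, n) ::ₘ s(e, d) ::ₘ s(m, c) ::ₘ s(b, m) ::ₘ P) :=
    by rw [Multiset.cons_swap s(e, d) s(a, n)]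
  have e9 : φ K (s(n, f) ::ₘ s(a, n) ::ₘ s(e, d) ::ₘ s(m, c) ::ₘ s(b, m) ::ₘ P) = φ K (s(f, n) ::ₘ s(a, n) ::ₘ s(e, d) ::ₘ s(m, c) ::ₘ s(b, m) ::ₘ P) :=
    by rw [Sym2.eq_swap (a := n) (b := f)]
  have e10 : φ K (s(f, n) ::ₘ s(a, n) ::ₘ s(e, d) ::ₘ s(m, c) ::ₘ s(b, m) ::ₘ P) = φ K (s(f, n) ::ₘ s(n, a) ::ₘ s(e, d) ::ₘ s(m, c) ::ₘ s(b, m) ::ₘ P) :=
    by rw [Sym2.eq_swap (a := a) (b := n)]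
  have e11 : φ K (s(f, n) ::ₘ s(n, a) ::ₘ s(e, d) ::ₘ s(m, c) ::ₘ s(b, m) ::ₘ P) = φ K (s(f, a) ::ₘ s(e, d) ::ₘ s(m, c) ::ₘ s(b, m) ::ₘ P) :=
    h.fuse f a n _ _ (av_consP.2 ⟨H.ne, H.nd, (av_consP.2 ⟨H.mn.symm, H.nc, (av_consP.2 ⟨H.nb, H.mn.symm, H.vn⟩)⟩)⟩) H.nf H.na
  have e12 : φ K (s(f, a) ::ₘ s(e, d) ::ₘ s(m, c) ::ₘ s(b, m) ::ₘ P) = φ K (s(f, a) ::ₘ s(m, c) ::ₘ s(e, d) ::ₘ s(b, m) ::ₘ P) :=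
    by rw [Multiset.cons_swap s(e, d) s(m, c)]
  have e13 : φ K (s(f, a) ::ₘ s(m, c) ::ₘ s(e, d) ::ₘ s(b, m) ::ₘ P) = φ K (s(m, c) ::ₘ s(f, a) ::ₘ s(e, d) ::ₘ s(b, m) ::ₘ P) :=
    by rw [Multiset.cons_swap s(f, a) s(m, c)]
  have e14 : φ K (s(m, c) ::ₘ s(f, a) ::ₘ s(e, d) ::ₘ s(b, m) ::ₘ P) = φ K (s(m, c) ::ₘ s(f, a) ::ₘ s(b, m) ::ₘ s(e, d) ::ₘ P) :=
    by rw [Multiset.cons_swap s(e, d) s(b, m)]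
  have e15 : φ K (s(m, c) ::ₘ s(f, a) ::ₘ s(b, m) ::ₘ s(e, d) ::ₘ P) = φ K (s(m, c) ::ₘ s(b, m) ::ₘ s(f, a) ::ₘ s(e, d) ::ₘ P) :=
    by rw [Multiset.cons_swap s(f, a) s(b, m)]
  have e16 : φ K (s(m, c) ::ₘ s(b, m) ::ₘ s(f, a) ::ₘ s(e, d) ::ₘ P) = φ K (s(c, m) ::ₘ s(b, m) ::ₘ s(f, a) ::ₘ s(e, d) ::ₘ P) :=
    by rw [Sym2.eq_swap (a := m) (b := c)]
  have e17 : φ K (s(c, m) ::ₘ s(b, m) ::ₘ s(f, a) ::ₘ s(e, d) ::ₘ P) = φ K (s(c, m) ::ₘ s(m, b) ::ₘ s(f, a) ::ₘ s(e, d) ::ₘ P) :=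
    by rw [Sym2.eq_swap (a := b) (b := m)]
  have e18 : φ K (s(c, m) ::ₘ s(m, b) ::ₘ s(f, a) ::ₘ s(e, d) ::ₘ P) = φ K (s(c, b) ::ₘ s(f, a) ::ₘ s(e, d) ::ₘ P) :=
    h.fuse c b m _ _ (av_consP.2 ⟨H.mf, H.ma, (av_consP.2 ⟨H.me, H.md, H.vm⟩)⟩) H.mc H.mb
  have e19 : φ K (s(c, b) ::ₘ s(f, a) ::ₘ s(e, d) ::ₘ P) = φ K (s(b, c) ::ₘ s(f, a) ::ₘ s(e, d) ::ₘ P) :=
    by rw [Sym2.eq_swap (a := c) (b := b)]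
  have e20 : φ K (s(b, c) ::ₘ s(f, a) ::ₘ s(e, d) ::ₘ P) = φ K (s(b, c) ::ₘ s(a, f) ::ₘ s(e, d) ::ₘ P) :=
    by rw [Sym2.eq_swap (a := f) (b := a)]
  have e21 : φ K (s(b, c) ::ₘ s(a, f) ::ₘ s(e, d) ::ₘ P) = φ K (s(b, c) ::ₘ s(a, f) ::ₘ s(d, e) ::ₘ P) :=
    by rw [Sym2.eq_swap (a := e) (b := d)]
  have e22 : φ K (s(b, c) ::ₘ s(a, f) ::ₘ s(d, e) ::ₘ P) = φ K (s(a, f) ::ₘ s(b, c) ::ₘ s(d, e) ::ₘ P) :=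
    by rw [Multiset.cons_swap s(b, c) s(a, f)]
  rw [e0, e1, e2, e3, e4, e5, e6, e7, e8, e9, e10, e11, e12, e13, e14, e15, e16, e17, e18, e19, e20, e21, e22]

theorem st1_XYY (h : Sk φ δ κ β) (H : Fr3 a b c d e f m n p K P) :
    φ K (s(n, p) ::ₘ s(e, f) ::ₘ s(m, c) ::ₘ s(d, p) ::ₘ s(a, n) ::ₘ s(b, m) ::ₘ P) =
      φ K (s(a, d) ::ₘ s(b, c) ::ₘ s(e, f) ::ₘ P) := by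
  have e0 : φ K (s(n, p) ::ₘ s(e, f) ::ₘ s(m, c) ::ₘ s(d, p) ::ₘ s(a, n) ::ₘ s(b, m) ::ₘ P) = φ K (s(n, p) ::ₘ s(e, f) ::ₘ s(d, p) ::ₘ s(m, c) ::ₘ s(a, n) ::ₘ s(b, m) ::ₘ P) :=
    by rw [Multiset.cons_swap s(m, c) s(d, p)]
  have e1 : φ K (s(n, p) ::ₘ s(e, f) ::ₘ s(d, p) ::ₘ s(m, c) ::ₘ s(a, n) ::ₘ s(b, m) ::ₘ P) = φ K (s(n, p) ::ₘ s(d, p) ::ₘ s(e, f) ::ₘ s(m, c) ::ₘ s(a, n) ::ₘ s(b, m) ::ₘ P) :=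
    by rw [Multiset.cons_swap s(e, f) s(d, p)]
  have e2 : φ K (s(n, p) ::ₘ s(d, p) ::ₘ s(e, f) ::ₘ s(m, c) ::ₘ s(a, n) ::ₘ s(b, m) ::ₘ P) = φ K (s(n, p) ::ₘ s(p, d) ::ₘ s(e, f) ::ₘ s(m, c) ::ₘ s(a, n) ::ₘ s(b, m) ::ₘ P) :=
    by rw [Sym2.eq_swap (a := d) (b := p)]
  have e3 : φ K (s(n, p) ::ₘ s(p, d) ::ₘ s(e, f) ::ₘ s(m, c) ::ₘ s(a, n) ::ₘ s(b, m) ::ₘ P) = φ K (s(n, d) ::ₘ s(e, f) ::ₘ s(m, c) ::ₘ s(a, n) ::ₘ s(b, m) ::ₘ P) :=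
    h.fuse n d p _ _ (av_consP.2 ⟨H.pe, H.pf, (av_consP.2 ⟨H.mp.symm, H.pc, (av_consP.2 ⟨H.pa, H.np.symm, (av_consP.2 ⟨H.pb, H.mp.symm, H.vp⟩)⟩)⟩)⟩) H.np.symm H.pd
  have e4 : φ K (s(n, d) ::ₘ s(e, f) ::ₘ s(m, c) ::ₘ s(a, n) ::ₘ s(b, m) ::ₘ P) = φ K (s(n, d) ::ₘ s(e, f) ::ₘ s(a, n) ::ₘ s(m, c) ::ₘ s(b, m) ::ₘ P) :=
    by rw [Multiset.cons_swap s(m, c) s(a, n)]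
  have e5 : φ K (s(n, d) ::ₘ s(e, f) ::ₘ s(a, n) ::ₘ s(m, c) ::ₘ s(b, m) ::ₘ P) = φ K (s(n, d) ::ₘ s(a, n) ::ₘ s(e, f) ::ₘ s(m, c) ::ₘ s(b, m) ::ₘ P) :=
    by rw [Multiset.cons_swap s(e, f) s(a, n)]
  have e6 : φ K (s(n, d) ::ₘ s(a, n) ::ₘ s(e, f) ::ₘ s(m, c) ::ₘ s(b, m) ::ₘ P) = φ K (s(d, n) ::ₘ s(a, n) ::ₘ s(e, f) ::ₘ s(m, c) ::ₘ s(b, m) ::ₘ P) :=
    by rw [Sym2.eq_swap (a := n) (b := d)]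
  have e7 : φ K (s(d, n) ::ₘ s(a, n) ::ₘ s(e, f) ::ₘ s(m, c) ::ₘ s(b, m) ::ₘ P) = φ K (s(d, n) ::ₘ s(n, a) ::ₘ s(e, f) ::ₘ s(m, c) ::ₘ s(b, m) ::ₘ P) :=
    by rw [Sym2.eq_swap (a := a) (b := n)]
  have e8 : φ K (s(d, n) ::ₘ s(n, a) ::ₘ s(e, f) ::ₘ s(m, c) ::ₘ s(b, m) ::ₘ P) = φ K (s(d, a) ::ₘ s(e, f) ::ₘ s(m, c) ::ₘ s(b, m) ::ₘ P) :=
    h.fuse d a n _ _ (av_consP.2 ⟨H.ne, H.nf, (av_consP.2 ⟨H.mn.symm, H.nc, (av_consP.2 ⟨H.nb, H.mn.symm, H.vn⟩)⟩)⟩) H.nd H.na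
  have e9 : φ K (s(d, a) ::ₘ s(e, f) ::ₘ s(m, c) ::ₘ s(b, m) ::ₘ P) = φ K (s(d, a) ::ₘ s(m, c) ::ₘ s(e, f) ::ₘ s(b, m) ::ₘ P) :=
    by rw [Multiset.cons_swap s(e, f) s(m, c)]
  have e10 : φ K (s(d, a) ::ₘ s(m, c) ::ₘ s(e, f) ::ₘ s(b, m) ::ₘ P) = φ K (s(m, c) ::ₘ s(d, a) ::ₘ s(e, f) ::ₘ s(b, m) ::ₘ P) :=
    by rw [Multiset.cons_swap s(d, a) s(m, c)]
  have e11 : φ K (s(m, c) ::ₘ s(d, a) ::ₘ s(e, f) ::ₘ s(b, m) ::ₘ P) = φ K (s(m, c) ::ₘ s(d, a) ::ₘ s(b, m) ::ₘ s(e, f) ::ₘ P) :=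
    by rw [Multiset.cons_swap s(e, f) s(b, m)]
  have e12 : φ K (s(m, c) ::ₘ s(d, a) ::ₘ s(b, m) ::ₘ s(e, f) ::ₘ P) = φ K (s(m, c) ::ₘ s(b, m) ::ₘ s(d, a) ::ₘ s(e, f) ::ₘ P) :=
    by rw [Multiset.cons_swap s(d, a) s(b, m)]
  have e13 : φ K (s(m, c) ::ₘ s(b, m) ::ₘ s(d, a) ::ₘ s(e, f) ::ₘ P) = φ K (s(c, m) ::ₘ s(b, m) ::ₘ s(d, a) ::ₘ s(e, f) ::ₘ P) :=
    by rw [Sym2.eq_swap (a := m) (b := c)]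
  have e14 : φ K (s(c, m) ::ₘ s(b, m) ::ₘ s(d, a) ::ₘ s(e, f) ::ₘ P) = φ K (s(c, m) ::ₘ s(m, b) ::ₘ s(d, a) ::ₘ s(e, f) ::ₘ P) :=
    by rw [Sym2.eq_swap (a := b) (b := m)]
  have e15 : φ K (s(c, m) ::ₘ s(m, b) ::ₘ s(d, a) ::ₘ s(e, f) ::ₘ P) = φ K (s(c, b) ::ₘ s(d, a) ::ₘ s(e, f) ::ₘ P) :=
    h.fuse c b m _ _ (av_consP.2 ⟨H.md, H.ma, (av_consP.2 ⟨H.me, H.mf, H.vm⟩)⟩) H.mc H.mb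
  have e16 : φ K (s(c, b) ::ₘ s(d, a) ::ₘ s(e, f) ::ₘ P) = φ K (s(b, c) ::ₘ s(d, a) ::ₘ s(e, f) ::ₘ P) :=
    by rw [Sym2.eq_swap (a := c) (b := b)]
  have e17 : φ K (s(b, c) ::ₘ s(d, a) ::ₘ s(e, f) ::ₘ P) = φ K (s(b, c) ::ₘ s(a, d) ::ₘ s(e, f) ::ₘ P) :=
    by rw [Sym2.eq_swap (a := d) (b := a)]
  have e18 : φ K (s(b, c) ::ₘ s(a, d) ::ₘ s(e, f) ::ₘ P) = φ K (s(a, d) ::ₘ s(b, c) ::ₘ s(e, f) ::ₘ P) :=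
    by rw [Multiset.cons_swap s(b, c) s(a, d)]
  rw [e0, e1, e2, e3, e4, e5, e6, e7, e8, e9, e10, e11, e12, e13, e14, e15, e16, e17, e18]

theorem st1_Yss (h : Sk φ δ κ β) (H : Fr3 a b c d e f m n p K P) :
    φ ((n, p, e, f) ::ₘ (m, c, d, p) ::ₘ K) (s(a, b) ::ₘ s(m, n) ::ₘ P) =
      β (φ ((c, d, e, f) ::ₘ K) (s(a, b) ::ₘ P)) := by
  have e0 : φ ((n, p, e, f) ::ₘ (m, c, d, p) ::ₘ K) (s(a, b) ::ₘ s(m, n) ::ₘ P) = φ ((n, p, e, f) ::ₘ (m, c, d, p) ::ₘ K) (s(m, n) ::ₘ s(a, b) ::ₘ P) :=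
    by rw [Multiset.cons_swap s(a, b) s(m, n)]
  have e1 : φ ((n, p, e, f) ::ₘ (m, c, d, p) ::ₘ K) (s(m, n) ::ₘ s(a, b) ::ₘ P) = φ ((m, p, e, f) ::ₘ (m, c, d, p) ::ₘ K) (s(a, b) ::ₘ P) :=
    h.absorb m p e f n _ _ (av_consK.2 ⟨not_mem_legs.2 ⟨H.mn.symm, H.nc, H.nd, H.np⟩, (av_consP.2 ⟨H.na, H.nb, H.vn⟩)⟩) H.mn.symm H.np H.ne H.nf
  have e2 : φ ((m, p, e, f) ::ₘ (m, c, d, p) ::ₘ K) (s(a, b) ::ₘ P) = φ ((m, c, d, p) ::ₘ (m, p, e, f) ::ₘ K) (s(a, b) ::ₘ P) :=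
    by rw [Multiset.cons_swap (m, p, e, f) (m, c, d, p)]
  have e3 : φ ((m, c, d, p) ::ₘ (m, p, e, f) ::ₘ K) (s(a, b) ::ₘ P) = φ ((d, c, m, p) ::ₘ (m, p, e, f) ::ₘ K) (s(a, b) ::ₘ P) :=
    h.sy.fl m c d p _ _
  have e4 : φ ((d, c, m, p) ::ₘ (m, p, e, f) ::ₘ K) (s(a, b) ::ₘ P) = β (φ ((d, c, f, e) ::ₘ K) (s(a, b) ::ₘ P)) :=
    h.bigon d c e f m p _ _ (av_consP.2 ⟨H.ma, H.mb, H.vm⟩) (av_consP.2 ⟨H.pa, H.pb, H.vp⟩) H.mp (not_mem_legs.2 ⟨H.md, H.mc, H.me, H.mf⟩) (not_mem_legs.2 ⟨H.pd, H.pc, H.pe, H.pf⟩)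
  have e5 : φ ((d, c, f, e) ::ₘ K) (s(a, b) ::ₘ P) = φ ((c, d, e, f) ::ₘ K) (s(a, b) ::ₘ P) :=
    h.sy.sw d c f e _ _
  rw [e0, e1, e2, e3, e4, e5]

theorem st1_YsX (h : Sk φ δ κ β) (H : Fr3 a b c d e f m n p K P) :
    φ ((m, c, d, p) ::ₘ K) (s(n, f) ::ₘ s(p, e) ::ₘ s(a, b) ::ₘ s(m, n) ::ₘ P) =
      φ ((c, d, e, f) ::ₘ K) (s(a, b) ::ₘ P) := by
  have e0 : φ ((m, c, d, p) ::ₘ K) (s(n, f) ::ₘ s(p, e) ::ₘ s(a, b) ::ₘ s(m, n) ::ₘ P) = φ ((m, c, d, p) ::ₘ K) (s(p, e) ::ₘ s(n, f) ::ₘ s(a, b) ::ₘ s(m, n) ::ₘ P) :=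
    by rw [Multiset.cons_swap s(n, f) s(p, e)]
  have e1 : φ ((m, c, d, p) ::ₘ K) (s(p, e) ::ₘ s(n, f) ::ₘ s(a, b) ::ₘ s(m, n) ::ₘ P) = φ ((m, c, d, p) ::ₘ K) (s(e, p) ::ₘ s(n, f) ::ₘ s(a, b) ::ₘ s(m, n) ::ₘ P) :=
    by rw [Sym2.eq_swap (a := p) (b := e)]
  have e2 : φ ((m, c, d, p) ::ₘ K) (s(e, p) ::ₘ s(n, f) ::ₘ s(a, b) ::ₘ s(m, n) ::ₘ P) = φ ((c, m, p, d) ::ₘ K) (s(e, p) ::ₘ s(n, f) ::ₘ s(a, b) ::ₘ s(m, n) ::ₘ P) :=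
    h.sy.sw m c d p _ _
  have e3 : φ ((c, m, p, d) ::ₘ K) (s(e, p) ::ₘ s(n, f) ::ₘ s(a, b) ::ₘ s(m, n) ::ₘ P) = φ ((p, m, c, d) ::ₘ K) (s(e, p) ::ₘ s(n, f) ::ₘ s(a, b) ::ₘ s(m, n) ::ₘ P) :=
    h.sy.fl c m p d _ _
  have e4 : φ ((p, m, c, d) ::ₘ K) (s(e, p) ::ₘ s(n, f) ::ₘ s(a, b) ::ₘ s(m, n) ::ₘ P) = φ ((e, m, c, d) ::ₘ K) (s(n, f) ::ₘ s(a, b) ::ₘ s(m, n) ::ₘ P) :=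
    h.absorb e m c d p _ _ (av_consP.2 ⟨H.np.symm, H.pf, (av_consP.2 ⟨H.pa, H.pb, (av_consP.2 ⟨H.mp.symm, H.np.symm, H.vp⟩)⟩)⟩) H.pe H.mp.symm H.pc H.pd
  have e5 : φ ((e, m, c, d) ::ₘ K) (s(n, f) ::ₘ s(a, b) ::ₘ s(m, n) ::ₘ P) = φ ((e, m, c, d) ::ₘ K) (s(n, f) ::ₘ s(m, n) ::ₘ s(a, b) ::ₘ P) :=
    by rw [Multiset.cons_swap s(a, b) s(m, n)]
  have e6 : φ ((e, m, c, d) ::ₘ K) (s(n, f) ::ₘ s(m, n) ::ₘ s(a, b) ::ₘ P) = φ ((e, m, c, d) ::ₘ K) (s(f, n) ::ₘ s(m, n) ::ₘ s(a, b) ::ₘ P) :=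
    by rw [Sym2.eq_swap (a := n) (b := f)]
  have e7 : φ ((e, m, c, d) ::ₘ K) (s(f, n) ::ₘ s(m, n) ::ₘ s(a, b) ::ₘ P) = φ ((e, m, c, d) ::ₘ K) (s(f, n) ::ₘ s(n, m) ::ₘ s(a, b) ::ₘ P) :=
    by rw [Sym2.eq_swap (a := m) (b := n)]
  have e8 : φ ((e, m, c, d) ::ₘ K) (s(f, n) ::ₘ s(n, m) ::ₘ s(a, b) ::ₘ P) = φ ((e, m, c, d) ::ₘ K) (s(f, m) ::ₘ s(a, b) ::ₘ P) :=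
    h.fuse f m n _ _ (av_consK.2 ⟨not_mem_legs.2 ⟨H.ne, H.mn.symm, H.nc, H.nd⟩, (av_consP.2 ⟨H.na, H.nb, H.vn⟩)⟩) H.nf H.mn.symm
  have e9 : φ ((e, m, c, d) ::ₘ K) (s(f, m) ::ₘ s(a, b) ::ₘ P) = φ ((m, e, d, c) ::ₘ K) (s(f, m) ::ₘ s(a, b) ::ₘ P) :=
    h.sy.sw e m c d _ _
  have e10 : φ ((m, e, d, c) ::ₘ K) (s(f, m) ::ₘ s(a, b) ::ₘ P) = φ ((f, e, d, c) ::ₘ K) (s(a, b) ::ₘ P) :=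
    h.absorb f e d c m _ _ (av_consP.2 ⟨H.ma, H.mb, H.vm⟩) H.mf H.me H.md H.mc
  have e11 : φ ((f, e, d, c) ::ₘ K) (s(a, b) ::ₘ P) = φ ((d, e, f, c) ::ₘ K) (s(a, b) ::ₘ P) :=
    h.sy.fl f e d c _ _
  have e12 : φ ((d, e, f, c) ::ₘ K) (s(a, b) ::ₘ P) = φ ((e, d, c, f) ::ₘ K) (s(a, b) ::ₘ P) :=
    h.sy.sw d e f c _ _
  have e13 : φ ((e, d, c, f) ::ₘ K) (s(a, b) ::ₘ P) = φ ((c, d, e, f) ::ₘ K) (s(a, b) ::ₘ P) :=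
    h.sy.fl e d c f _ _
  rw [e0, e1, e2, e3, e4, e5, e6, e7, e8, e9, e10, e11, e12, e13]

theorem st1_YsY (h : Sk φ δ κ β) (H : Fr3 a b c d e f m n p K P) :
    φ ((m, c, d, p) ::ₘ K) (s(n, p) ::ₘ s(e, f) ::ₘ s(a, b) ::ₘ s(m, n) ::ₘ P) =
      κ (φ K (s(a, b) ::ₘ s(c, d) ::ₘ s(e, f) ::ₘ P)) := by
  have e0 : φ ((m, c, d, p) ::ₘ K) (s(n, p) ::ₘ s(e, f) ::ₘ s(a, b) ::ₘ s(m, n) ::ₘ P) = φ ((c, m, p, d) ::ₘ K) (s(n, p) ::ₘ s(e, f) ::ₘ s(a, b) ::ₘ s(m, n) ::ₘ P) :=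
    h.sy.sw m c d p _ _
  have e1 : φ ((c, m, p, d) ::ₘ K) (s(n, p) ::ₘ s(e, f) ::ₘ s(a, b) ::ₘ s(m, n) ::ₘ P) = φ ((p, m, c, d) ::ₘ K) (s(n, p) ::ₘ s(e, f) ::ₘ s(a, b) ::ₘ s(m, n) ::ₘ P) :=
    h.sy.fl c m p d _ _
  have e2 : φ ((p, m, c, d) ::ₘ K) (s(n, p) ::ₘ s(e, f) ::ₘ s(a, b) ::ₘ s(m, n) ::ₘ P) = φ ((n, m, c, d) ::ₘ K) (s(e, f) ::ₘ s(a, b) ::ₘ s(m, n) ::ₘ P) :=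
    h.absorb n m c d p _ _ (av_consP.2 ⟨H.pe, H.pf, (av_consP.2 ⟨H.pa, H.pb, (av_consP.2 ⟨H.mp.symm, H.np.symm, H.vp⟩)⟩)⟩) H.np.symm H.mp.symm H.pc H.pd
  have e3 : φ ((n, m, c, d) ::ₘ K) (s(e, f) ::ₘ s(a, b) ::ₘ s(m, n) ::ₘ P) = φ ((n, m, c, d) ::ₘ K) (s(e, f) ::ₘ s(m, n) ::ₘ s(a, b) ::ₘ P) :=
    by rw [Multiset.cons_swap s(a, b) s(m, n)]
  have e4 : φ ((n, m, c, d) ::ₘ K) (s(e, f) ::ₘ s(m, n) ::ₘ s(a, b) ::ₘ P) = φ ((n, m, c, d) ::ₘ K) (s(m, n) ::ₘ s(e, f) ::ₘ s(a, b) ::ₘ P) :=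
    by rw [Multiset.cons_swap s(e, f) s(m, n)]
  have e5 : φ ((n, m, c, d) ::ₘ K) (s(m, n) ::ₘ s(e, f) ::ₘ s(a, b) ::ₘ P) = φ ((m, m, c, d) ::ₘ K) (s(e, f) ::ₘ s(a, b) ::ₘ P) :=
    h.absorb m m c d n _ _ (av_consP.2 ⟨H.ne, H.nf, (av_consP.2 ⟨H.na, H.nb, H.vn⟩)⟩) H.mn.symm H.mn.symm H.nc H.nd
  have e6 : φ ((m, m, c, d) ::ₘ K) (s(e, f) ::ₘ s(a, b) ::ₘ P) = φ ((c, m, m, d) ::ₘ K) (s(e, f) ::ₘ s(a, b) ::ₘ P) :=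
    h.sy.fl m m c d _ _
  have e7 : φ ((c, m, m, d) ::ₘ K) (s(e, f) ::ₘ s(a, b) ::ₘ P) = κ (φ K (s(c, d) ::ₘ s(e, f) ::ₘ s(a, b) ::ₘ P)) :=
    h.kink c d m _ _ (av_consP.2 ⟨H.me, H.mf, (av_consP.2 ⟨H.ma, H.mb, H.vm⟩)⟩) H.mc H.md
  have e8 : φ K (s(c, d) ::ₘ s(e, f) ::ₘ s(a, b) ::ₘ P) = φ K (s(c, d) ::ₘ s(a, b) ::ₘ s(e, f) ::ₘ P) :=
    by rw [Multiset.cons_swap s(e, f) s(a, b)]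
  have e9 : φ K (s(c, d) ::ₘ s(a, b) ::ₘ s(e, f) ::ₘ P) = φ K (s(a, b) ::ₘ s(c, d) ::ₘ s(e, f) ::ₘ P) :=
    by rw [Multiset.cons_swap s(c, d) s(a, b)]
  rw [e0, e1, e2, e3, e4, e5, e6, e7, e8, e9]

theorem st1_YXs (h : Sk φ δ κ β) (H : Fr3 a b c d e f m n p K P) :
    φ ((n, p, e, f) ::ₘ K) (s(m, p) ::ₘ s(c, d) ::ₘ s(a, b) ::ₘ s(m, n) ::ₘ P) =
      κ (φ K (s(a, b) ::ₘ s(c, d) ::ₘ s(e, f) ::ₘ P)) := by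
  have e0 : φ ((n, p, e, f) ::ₘ K) (s(m, p) ::ₘ s(c, d) ::ₘ s(a, b) ::ₘ s(m, n) ::ₘ P) = φ ((p, n, f, e) ::ₘ K) (s(m, p) ::ₘ s(c, d) ::ₘ s(a, b) ::ₘ s(m, n) ::ₘ P) :=
    h.sy.sw n p e f _ _
  have e1 : φ ((p, n, f, e) ::ₘ K) (s(m, p) ::ₘ s(c, d) ::ₘ s(a, b) ::ₘ s(m, n) ::ₘ P) = φ ((m, n, f, e) ::ₘ K) (s(c, d) ::ₘ s(a, b) ::ₘ s(m, n) ::ₘ P) :=
    h.absorb m n f e p _ _ (av_consP.2 ⟨H.pc, H.pd, (av_consP.2 ⟨H.pa, H.pb, (av_consP.2 ⟨H.mp.symm, H.np.symm, H.vp⟩)⟩)⟩) H.mp.symm H.np.symm H.pf H.pe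
  have e2 : φ ((m, n, f, e) ::ₘ K) (s(c, d) ::ₘ s(a, b) ::ₘ s(m, n) ::ₘ P) = φ ((m, n, f, e) ::ₘ K) (s(c, d) ::ₘ s(m, n) ::ₘ s(a, b) ::ₘ P) :=
    by rw [Multiset.cons_swap s(a, b) s(m, n)]
  have e3 : φ ((m, n, f, e) ::ₘ K) (s(c, d) ::ₘ s(m, n) ::ₘ s(a, b) ::ₘ P) = φ ((m, n, f, e) ::ₘ K) (s(m, n) ::ₘ s(c, d) ::ₘ s(a, b) ::ₘ P) :=
    by rw [Multiset.cons_swap s(c, d) s(m, n)]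
  have e4 : φ ((m, n, f, e) ::ₘ K) (s(m, n) ::ₘ s(c, d) ::ₘ s(a, b) ::ₘ P) = φ ((n, m, e, f) ::ₘ K) (s(m, n) ::ₘ s(c, d) ::ₘ s(a, b) ::ₘ P) :=
    h.sy.sw m n f e _ _
  have e5 : φ ((n, m, e, f) ::ₘ K) (s(m, n) ::ₘ s(c, d) ::ₘ s(a, b) ::ₘ P) = φ ((m, m, e, f) ::ₘ K) (s(c, d) ::ₘ s(a, b) ::ₘ P) :=
    h.absorb m m e f n _ _ (av_consP.2 ⟨H.nc, H.nd, (av_consP.2 ⟨H.na, H.nb, H.vn⟩)⟩) H.mn.symm H.mn.symm H.ne H.nf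
  have e6 : φ ((m, m, e, f) ::ₘ K) (s(c, d) ::ₘ s(a, b) ::ₘ P) = φ ((e, m, m, f) ::ₘ K) (s(c, d) ::ₘ s(a, b) ::ₘ P) :=
    h.sy.fl m m e f _ _
  have e7 : φ ((e, m, m, f) ::ₘ K) (s(c, d) ::ₘ s(a, b) ::ₘ P) = κ (φ K (s(e, f) ::ₘ s(c, d) ::ₘ s(a, b) ::ₘ P)) :=
    h.kink e f m _ _ (av_consP.2 ⟨H.mc, H.md, (av_consP.2 ⟨H.ma, H.mb, H.vm⟩)⟩) H.me H.mf
  have e8 : φ K (s(e, f) ::ₘ s(c, d) ::ₘ s(a, b) ::ₘ P) = φ K (s(e, f) ::ₘ s(a, b) ::ₘ s(c, d) ::ₘ P) :=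
    by rw [Multiset.cons_swap s(c, d) s(a, b)]
  have e9 : φ K (s(e, f) ::ₘ s(a, b) ::ₘ s(c, d) ::ₘ P) = φ K (s(a, b) ::ₘ s(e, f) ::ₘ s(c, d) ::ₘ P) :=
    by rw [Multiset.cons_swap s(e, f) s(a, b)]
  have e10 : φ K (s(a, b) ::ₘ s(e, f) ::ₘ s(c, d) ::ₘ P) = φ K (s(a, b) ::ₘ s(c, d) ::ₘ s(e, f) ::ₘ P) :=
    by rw [Multiset.cons_swap s(e, f) s(c, d)]
  rw [e0, e1, e2, e3, e4, e5, e6, e7, e8, e9, e10]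

theorem st1_YXX (h : Sk φ δ κ β) (H : Fr3 a b c d e f m n p K P) :
    φ K (s(n, f) ::ₘ s(p, e) ::ₘ s(m, p) ::ₘ s(c, d) ::ₘ s(a, b) ::ₘ s(m, n) ::ₘ P) =
      φ K (s(a, b) ::ₘ s(c, d) ::ₘ s(e, f) ::ₘ P) := by
  have e0 : φ K (s(n, f) ::ₘ s(p, e) ::ₘ s(m, p) ::ₘ s(c, d) ::ₘ s(a, b) ::ₘ s(m, n) ::ₘ P) = φ K (s(p, e) ::ₘ s(n, f) ::ₘ s(m, p) ::ₘ s(c, d) ::ₘ s(a, b) ::ₘ s(m, n) ::ₘ P) :=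
    by rw [Multiset.cons_swap s(n, f) s(p, e)]
  have e1 : φ K (s(p, e) ::ₘ s(n, f) ::ₘ s(m, p) ::ₘ s(c, d) ::ₘ s(a, b) ::ₘ s(m, n) ::ₘ P) = φ K (s(p, e) ::ₘ s(m, p) ::ₘ s(n, f) ::ₘ s(c, d) ::ₘ s(a, b) ::ₘ s(m, n) ::ₘ P) :=
    by rw [Multiset.cons_swap s(n, f) s(m, p)]
  have e2 : φ K (s(p, e) ::ₘ s(m, p) ::ₘ s(n, f) ::ₘ s(c, d) ::ₘ s(a, b) ::ₘ s(m, n) ::ₘ P) = φ K (s(e, p) ::ₘ s(m, p) ::ₘ s(n, f) ::ₘ s(c, d) ::ₘ s(a, b) ::ₘ s(m, n) ::ₘ P) :=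
    by rw [Sym2.eq_swap (a := p) (b := e)]
  have e3 : φ K (s(e, p) ::ₘ s(m, p) ::ₘ s(n, f) ::ₘ s(c, d) ::ₘ s(a, b) ::ₘ s(m, n) ::ₘ P) = φ K (s(e, p) ::ₘ s(p, m) ::ₘ s(n, f) ::ₘ s(c, d) ::ₘ s(a, b) ::ₘ s(m, n) ::ₘ P) :=
    by rw [Sym2.eq_swap (a := m) (b := p)]
  have e4 : φ K (s(e, p) ::ₘ s(p, m) ::ₘ s(n, f) ::ₘ s(c, d) ::ₘ s(a, b) ::ₘ s(m, n) ::ₘ P) = φ K (s(e, m) ::ₘ s(n, f) ::ₘ s(c, d) ::ₘ s(a, b) ::ₘ s(m, n) ::ₘ P) :=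
    h.fuse e m p _ _ (av_consP.2 ⟨H.np.symm, H.pf, (av_consP.2 ⟨H.pc, H.pd, (av_consP.2 ⟨H.pa, H.pb, (av_consP.2 ⟨H.mp.symm, H.np.symm, H.vp⟩)⟩)⟩)⟩) H.pe H.mp.symm
  have e5 : φ K (s(e, m) ::ₘ s(n, f) ::ₘ s(c, d) ::ₘ s(a, b) ::ₘ s(m, n) ::ₘ P) = φ K (s(n, f) ::ₘ s(e, m) ::ₘ s(c, d) ::ₘ s(a, b) ::ₘ s(m, n) ::ₘ P) :=
    by rw [Multiset.cons_swap s(e, m) s(n, f)]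
  have e6 : φ K (s(n, f) ::ₘ s(e, m) ::ₘ s(c, d) ::ₘ s(a, b) ::ₘ s(m, n) ::ₘ P) = φ K (s(n, f) ::ₘ s(e, m) ::ₘ s(c, d) ::ₘ s(m, n) ::ₘ s(a, b) ::ₘ P) :=
    by rw [Multiset.cons_swap s(a, b) s(m, n)]
  have e7 : φ K (s(n, f) ::ₘ s(e, m) ::ₘ s(c, d) ::ₘ s(m, n) ::ₘ s(a, b) ::ₘ P) = φ K (s(n, f) ::ₘ s(e, m) ::ₘ s(m, n) ::ₘ s(c, d) ::ₘ s(a, b) ::ₘ P) :=
    by rw [Multiset.cons_swap s(c, d) s(m, n)]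
  have e8 : φ K (s(n, f) ::ₘ s(e, m) ::ₘ s(m, n) ::ₘ s(c, d) ::ₘ s(a, b) ::ₘ P) = φ K (s(n, f) ::ₘ s(m, n) ::ₘ s(e, m) ::ₘ s(c, d) ::ₘ s(a, b) ::ₘ P) :=
    by rw [Multiset.cons_swap s(e, m) s(m, n)]
  have e9 : φ K (s(n, f) ::ₘ s(m, n) ::ₘ s(e, m) ::ₘ s(c, d) ::ₘ s(a, b) ::ₘ P) = φ K (s(f, n) ::ₘ s(m, n) ::ₘ s(e, m) ::ₘ s(c, d) ::ₘ s(a, b) ::ₘ P) :=
    by rw [Sym2.eq_swap (a := n) (b := f)]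
  have e10 : φ K (s(f, n) ::ₘ s(m, n) ::ₘ s(e, m) ::ₘ s(c, d) ::ₘ s(a, b) ::ₘ P) = φ K (s(f, n) ::ₘ s(n, m) ::ₘ s(e, m) ::ₘ s(c, d) ::ₘ s(a, b) ::ₘ P) :=
    by rw [Sym2.eq_swap (a := m) (b := n)]
  have e11 : φ K (s(f, n) ::ₘ s(n, m) ::ₘ s(e, m) ::ₘ s(c, d) ::ₘ s(a, b) ::ₘ P) = φ K (s(f, m) ::ₘ s(e, m) ::ₘ s(c, d) ::ₘ s(a, b) ::ₘ P) :=
    h.fuse f m n _ _ (av_consP.2 ⟨H.ne, H.mn.symm, (av_consP.2 ⟨H.nc, H.nd, (av_consP.2 ⟨H.na, H.nb, H.vn⟩)⟩)⟩) H.nf H.mn.symm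
  have e12 : φ K (s(f, m) ::ₘ s(e, m) ::ₘ s(c, d) ::ₘ s(a, b) ::ₘ P) = φ K (s(f, m) ::ₘ s(m, e) ::ₘ s(c, d) ::ₘ s(a, b) ::ₘ P) :=
    by rw [Sym2.eq_swap (a := e) (b := m)]
  have e13 : φ K (s(f, m) ::ₘ s(m, e) ::ₘ s(c, d) ::ₘ s(a, b) ::ₘ P) = φ K (s(f, e) ::ₘ s(c, d) ::ₘ s(a, b) ::ₘ P) :=
    h.fuse f e m _ _ (av_consP.2 ⟨H.mc, H.md, (av_consP.2 ⟨H.ma, H.mb, H.vm⟩)⟩) H.mf H.me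
  have e14 : φ K (s(f, e) ::ₘ s(c, d) ::ₘ s(a, b) ::ₘ P) = φ K (s(e, f) ::ₘ s(c, d) ::ₘ s(a, b) ::ₘ P) :=
    by rw [Sym2.eq_swap (a := f) (b := e)]
  have e15 : φ K (s(e, f) ::ₘ s(c, d) ::ₘ s(a, b) ::ₘ P) = φ K (s(e, f) ::ₘ s(a, b) ::ₘ s(c, d) ::ₘ P) :=
    by rw [Multiset.cons_swap s(c, d) s(a, b)]
  have e16 : φ K (s(e, f) ::ₘ s(a, b) ::ₘ s(c, d) ::ₘ P) = φ K (s(a, b) ::ₘ s(e, f) ::ₘ s(c, d) ::ₘ P) :=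
    by rw [Multiset.cons_swap s(e, f) s(a, b)]
  have e17 : φ K (s(a, b) ::ₘ s(e, f) ::ₘ s(c, d) ::ₘ P) = φ K (s(a, b) ::ₘ s(c, d) ::ₘ s(e, f) ::ₘ P) :=
    by rw [Multiset.cons_swap s(e, f) s(c, d)]
  rw [e0, e1, e2, e3, e4, e5, e6, e7, e8, e9, e10, e11, e12, e13, e14, e15, e16, e17]

theorem st1_YXY (h : Sk φ δ κ β) (H : Fr3 a b c d e f m n p K P) :
    φ K (s(n, p) ::ₘ s(e, f) ::ₘ s(m, p) ::ₘ s(c, d) ::ₘ s(a, b) ::ₘ s(m, n) ::ₘ P) =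
      δ (φ K (s(a, b) ::ₘ s(c, d) ::ₘ s(e, f) ::ₘ P)) := by
  have e0 : φ K (s(n, p) ::ₘ s(e, f) ::ₘ s(m, p) ::ₘ s(c, d) ::ₘ s(a, b) ::ₘ s(m, n) ::ₘ P) = φ K (s(n, p) ::ₘ s(m, p) ::ₘ s(e, f) ::ₘ s(c, d) ::ₘ s(a, b) ::ₘ s(m, n) ::ₘ P) :=
    by rw [Multiset.cons_swap s(e, f) s(m, p)]
  have e1 : φ K (s(n, p) ::ₘ s(m, p) ::ₘ s(e, f) ::ₘ s(c, d) ::ₘ s(a, b) ::ₘ s(m, n) ::ₘ P) = φ K (s(n, p) ::ₘ s(p, m) ::ₘ s(e, f) ::ₘ s(c, d) ::ₘ s(a, b) ::ₘ s(m, n) ::ₘ P) :=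
    by rw [Sym2.eq_swap (a := m) (b := p)]
  have e2 : φ K (s(n, p) ::ₘ s(p, m) ::ₘ s(e, f) ::ₘ s(c, d) ::ₘ s(a, b) ::ₘ s(m, n) ::ₘ P) = φ K (s(n, m) ::ₘ s(e, f) ::ₘ s(c, d) ::ₘ s(a, b) ::ₘ s(m, n) ::ₘ P) :=
    h.fuse n m p _ _ (av_consP.2 ⟨H.pe, H.pf, (av_consP.2 ⟨H.pc, H.pd, (av_consP.2 ⟨H.pa, H.pb, (av_consP.2 ⟨H.mp.symm, H.np.symm, H.vp⟩)⟩)⟩)⟩) H.np.symm H.mp.symm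
  have e3 : φ K (s(n, m) ::ₘ s(e, f) ::ₘ s(c, d) ::ₘ s(a, b) ::ₘ s(m, n) ::ₘ P) = φ K (s(n, m) ::ₘ s(e, f) ::ₘ s(c, d) ::ₘ s(m, n) ::ₘ s(a, b) ::ₘ P) :=
    by rw [Multiset.cons_swap s(a, b) s(m, n)]
  have e4 : φ K (s(n, m) ::ₘ s(e, f) ::ₘ s(c, d) ::ₘ s(m, n) ::ₘ s(a, b) ::ₘ P) = φ K (s(n, m) ::ₘ s(e, f) ::ₘ s(m, n) ::ₘ s(c, d) ::ₘ s(a, b) ::ₘ P) :=
    by rw [Multiset.cons_swap s(c, d) s(m, n)]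
  have e5 : φ K (s(n, m) ::ₘ s(e, f) ::ₘ s(m, n) ::ₘ s(c, d) ::ₘ s(a, b) ::ₘ P) = φ K (s(n, m) ::ₘ s(m, n) ::ₘ s(e, f) ::ₘ s(c, d) ::ₘ s(a, b) ::ₘ P) :=
    by rw [Multiset.cons_swap s(e, f) s(m, n)]
  have e6 : φ K (s(n, m) ::ₘ s(m, n) ::ₘ s(e, f) ::ₘ s(c, d) ::ₘ s(a, b) ::ₘ P) = φ K (s(m, n) ::ₘ s(m, n) ::ₘ s(e, f) ::ₘ s(c, d) ::ₘ s(a, b) ::ₘ P) :=
    by rw [Sym2.eq_swap (a := n) (b := m)]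
  have e7 : φ K (s(m, n) ::ₘ s(m, n) ::ₘ s(e, f) ::ₘ s(c, d) ::ₘ s(a, b) ::ₘ P) = φ K (s(m, n) ::ₘ s(n, m) ::ₘ s(e, f) ::ₘ s(c, d) ::ₘ s(a, b) ::ₘ P) :=
    by rw [Sym2.eq_swap (a := m) (b := n)]
  have e8 : φ K (s(m, n) ::ₘ s(n, m) ::ₘ s(e, f) ::ₘ s(c, d) ::ₘ s(a, b) ::ₘ P) = φ K (s(m, m) ::ₘ s(e, f) ::ₘ s(c, d) ::ₘ s(a, b) ::ₘ P) :=
    h.fuse m m n _ _ (av_consP.2 ⟨H.ne, H.nf, (av_consP.2 ⟨H.nc, H.nd, (av_consP.2 ⟨H.na, H.nb, H.vn⟩)⟩)⟩) H.mn.symm H.mn.symm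
  have e9 : φ K (s(m, m) ::ₘ s(e, f) ::ₘ s(c, d) ::ₘ s(a, b) ::ₘ P) = δ (φ K (s(e, f) ::ₘ s(c, d) ::ₘ s(a, b) ::ₘ P)) :=
    h.circ m _ _ (av_consP.2 ⟨H.me, H.mf, (av_consP.2 ⟨H.mc, H.md, (av_consP.2 ⟨H.ma, H.mb, H.vm⟩)⟩)⟩)
  have e10 : φ K (s(e, f) ::ₘ s(c, d) ::ₘ s(a, b) ::ₘ P) = φ K (s(e, f) ::ₘ s(a, b) ::ₘ s(c, d) ::ₘ P) :=
    by rw [Multiset.cons_swap s(c, d) s(a, b)]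
  have e11 : φ K (s(e, f) ::ₘ s(a, b) ::ₘ s(c, d) ::ₘ P) = φ K (s(a, b) ::ₘ s(e, f) ::ₘ s(c, d) ::ₘ P) :=
    by rw [Multiset.cons_swap s(e, f) s(a, b)]
  have e12 : φ K (s(a, b) ::ₘ s(e, f) ::ₘ s(c, d) ::ₘ P) = φ K (s(a, b) ::ₘ s(c, d) ::ₘ s(e, f) ::ₘ P) :=
    by rw [Multiset.cons_swap s(e, f) s(c, d)]
  rw [e0, e1, e2, e3, e4, e5, e6, e7, e8, e9, e10, e11, e12]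

theorem st1_YYs (h : Sk φ δ κ β) (H : Fr3 a b c d e f m n p K P) :
    φ ((n, p, e, f) ::ₘ K) (s(m, c) ::ₘ s(d, p) ::ₘ s(a, b) ::ₘ s(m, n) ::ₘ P) =
      φ ((c, d, e, f) ::ₘ K) (s(a, b) ::ₘ P) := by
  have e0 : φ ((n, p, e, f) ::ₘ K) (s(m, c) ::ₘ s(d, p) ::ₘ s(a, b) ::ₘ s(m, n) ::ₘ P) = φ ((n, p, e, f) ::ₘ K) (s(d, p) ::ₘ s(m, c) ::ₘ s(a, b) ::ₘ s(m, n) ::ₘ P) :=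
    by rw [Multiset.cons_swap s(m, c) s(d, p)]
  have e1 : φ ((n, p, e, f) ::ₘ K) (s(d, p) ::ₘ s(m, c) ::ₘ s(a, b) ::ₘ s(m, n) ::ₘ P) = φ ((p, n, f, e) ::ₘ K) (s(d, p) ::ₘ s(m, c) ::ₘ s(a, b) ::ₘ s(m, n) ::ₘ P) :=
    h.sy.sw n p e f _ _
  have e2 : φ ((p, n, f, e) ::ₘ K) (s(d, p) ::ₘ s(m, c) ::ₘ s(a, b) ::ₘ s(m, n) ::ₘ P) = φ ((d, n, f, e) ::ₘ K) (s(m, c) ::ₘ s(a, b) ::ₘ s(m, n) ::ₘ P) :=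
    h.absorb d n f e p _ _ (av_consP.2 ⟨H.mp.symm, H.pc, (av_consP.2 ⟨H.pa, H.pb, (av_consP.2 ⟨H.mp.symm, H.np.symm, H.vp⟩)⟩)⟩) H.pd H.np.symm H.pf H.pe
  have e3 : φ ((d, n, f, e) ::ₘ K) (s(m, c) ::ₘ s(a, b) ::ₘ s(m, n) ::ₘ P) = φ ((d, n, f, e) ::ₘ K) (s(m, c) ::ₘ s(m, n) ::ₘ s(a, b) ::ₘ P) :=
    by rw [Multiset.cons_swap s(a, b) s(m, n)]
  have e4 : φ ((d, n, f, e) ::ₘ K) (s(m, c) ::ₘ s(m, n) ::ₘ s(a, b) ::ₘ P) = φ ((d, n, f, e) ::ₘ K) (s(m, n) ::ₘ s(m, c) ::ₘ s(a, b) ::ₘ P) :=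
    by rw [Multiset.cons_swap s(m, c) s(m, n)]
  have e5 : φ ((d, n, f, e) ::ₘ K) (s(m, n) ::ₘ s(m, c) ::ₘ s(a, b) ::ₘ P) = φ ((n, d, e, f) ::ₘ K) (s(m, n) ::ₘ s(m, c) ::ₘ s(a, b) ::ₘ P) :=
    h.sy.sw d n f e _ _
  have e6 : φ ((n, d, e, f) ::ₘ K) (s(m, n) ::ₘ s(m, c) ::ₘ s(a, b) ::ₘ P) = φ ((m, d, e, f) ::ₘ K) (s(m, c) ::ₘ s(a, b) ::ₘ P) :=
    h.absorb m d e f n _ _ (av_consP.2 ⟨H.mn.symm, H.nc, (av_consP.2 ⟨H.na, H.nb, H.vn⟩)⟩) H.mn.symm H.nd H.ne H.nf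
  have e7 : φ ((m, d, e, f) ::ₘ K) (s(m, c) ::ₘ s(a, b) ::ₘ P) = φ ((m, d, e, f) ::ₘ K) (s(c, m) ::ₘ s(a, b) ::ₘ P) :=
    by rw [Sym2.eq_swap (a := m) (b := c)]
  have e8 : φ ((m, d, e, f) ::ₘ K) (s(c, m) ::ₘ s(a, b) ::ₘ P) = φ ((c, d, e, f) ::ₘ K) (s(a, b) ::ₘ P) :=
    h.absorb c d e f m _ _ (av_consP.2 ⟨H.ma, H.mb, H.vm⟩) H.mc H.md H.me H.mf
  rw [e0, e1, e2, e3, e4, e5, e6, e7, e8]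

theorem st1_YYX (h : Sk φ δ κ β) (H : Fr3 a b c d e f m n p K P) :
    φ K (s(n, f) ::ₘ s(p, e) ::ₘ s(m, c) ::ₘ s(d, p) ::ₘ s(a, b) ::ₘ s(m, n) ::ₘ P) =
      φ K (s(a, b) ::ₘ s(c, f) ::ₘ s(d, e) ::ₘ P) := by
  have e0 : φ K (s(n, f) ::ₘ s(p, e) ::ₘ s(m, c) ::ₘ s(d, p) ::ₘ s(a, b) ::ₘ s(m, n) ::ₘ P) = φ K (s(p, e) ::ₘ s(n, f) ::ₘ s(m, c) ::ₘ s(d, p) ::ₘ s(a, b) ::ₘ s(m, n) ::ₘ P) :=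
    by rw [Multiset.cons_swap s(n, f) s(p, e)]
  have e1 : φ K (s(p, e) ::ₘ s(n, f) ::ₘ s(m, c) ::ₘ s(d, p) ::ₘ s(a, b) ::ₘ s(m, n) ::ₘ P) = φ K (s(p, e) ::ₘ s(n, f) ::ₘ s(d, p) ::ₘ s(m, c) ::ₘ s(a, b) ::ₘ s(m, n) ::ₘ P) :=
    by rw [Multiset.cons_swap s(m, c) s(d, p)]
  have e2 : φ K (s(p, e) ::ₘ s(n, f) ::ₘ s(d, p) ::ₘ s(m, c) ::ₘ s(a, b) ::ₘ s(m, n) ::ₘ P) = φ K (s(p, e) ::ₘ s(d, p) ::ₘ s(n, f) ::ₘ s(m, c) ::ₘ s(a, b) ::ₘ s(m, n) ::ₘ P) :=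
    by rw [Multiset.cons_swap s(n, f) s(d, p)]
  have e3 : φ K (s(p, e) ::ₘ s(d, p) ::ₘ s(n, f) ::ₘ s(m, c) ::ₘ s(a, b) ::ₘ s(m, n) ::ₘ P) = φ K (s(e, p) ::ₘ s(d, p) ::ₘ s(n, f) ::ₘ s(m, c) ::ₘ s(a, b) ::ₘ s(m, n) ::ₘ P) :=
    by rw [Sym2.eq_swap (a := p) (b := e)]
  have e4 : φ K (s(e, p) ::ₘ s(d, p) ::ₘ s(n, f) ::ₘ s(m, c) ::ₘ s(a, b) ::ₘ s(m, n) ::ₘ P) = φ K (s(e, p) ::ₘ s(p, d) ::ₘ s(n, f) ::ₘ s(m, c) ::ₘ s(a, b) ::ₘ s(m, n) ::ₘ P) :=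
    by rw [Sym2.eq_swap (a := d) (b := p)]
  have e5 : φ K (s(e, p) ::ₘ s(p, d) ::ₘ s(n, f) ::ₘ s(m, c) ::ₘ s(a, b) ::ₘ s(m, n) ::ₘ P) = φ K (s(e, d) ::ₘ s(n, f) ::ₘ s(m, c) ::ₘ s(a, b) ::ₘ s(m, n) ::ₘ P) :=
    h.fuse e d p _ _ (av_consP.2 ⟨H.np.symm, H.pf, (av_consP.2 ⟨H.mp.symm, H.pc, (av_consP.2 ⟨H.pa, H.pb, (av_consP.2 ⟨H.mp.symm, H.np.symm, H.vp⟩)⟩)⟩)⟩) H.pe H.pd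
  have e6 : φ K (s(e, d) ::ₘ s(n, f) ::ₘ s(m, c) ::ₘ s(a, b) ::ₘ s(m, n) ::ₘ P) = φ K (s(n, f) ::ₘ s(e, d) ::ₘ s(m, c) ::ₘ s(a, b) ::ₘ s(m, n) ::ₘ P) :=
    by rw [Multiset.cons_swap s(e, d) s(n, f)]
  have e7 : φ K (s(n, f) ::ₘ s(e, d) ::ₘ s(m, c) ::ₘ s(a, b) ::ₘ s(m, n) ::ₘ P) = φ K (s(n, f) ::ₘ s(e, d) ::ₘ s(m, c) ::ₘ s(m, n) ::ₘ s(a, b) ::ₘ P) :=
    by rw [Multiset.cons_swap s(a, b) s(m, n)]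
  have e8 : φ K (s(n, f) ::ₘ s(e, d) ::ₘ s(m, c) ::ₘ s(m, n) ::ₘ s(a, b) ::ₘ P) = φ K (s(n, f) ::ₘ s(e, d) ::ₘ s(m, n) ::ₘ s(m, c) ::ₘ s(a, b) ::ₘ P) :=
    by rw [Multiset.cons_swap s(m, c) s(m, n)]
  have e9 : φ K (s(n, f) ::ₘ s(e, d) ::ₘ s(m, n) ::ₘ s(m, c) ::ₘ s(a, b) ::ₘ P) = φ K (s(n, f) ::ₘ s(m, n) ::ₘ s(e, d) ::ₘ s(m, c) ::ₘ s(a, b) ::ₘ P) :=
    by rw [Multiset.cons_swap s(e, d) s(m, n)]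
  have e10 : φ K (s(n, f) ::ₘ s(m, n) ::ₘ s(e, d) ::ₘ s(m, c) ::ₘ s(a, b) ::ₘ P) = φ K (s(f, n) ::ₘ s(m, n) ::ₘ s(e, d) ::ₘ s(m, c) ::ₘ s(a, b) ::ₘ P) :=
    by rw [Sym2.eq_swap (a := n) (b := f)]
  have e11 : φ K (s(f, n) ::ₘ s(m, n) ::ₘ s(e, d) ::ₘ s(m, c) ::ₘ s(a, b) ::ₘ P) = φ K (s(f, n) ::ₘ s(n, m) ::ₘ s(e, d) ::ₘ s(m, c) ::ₘ s(a, b) ::ₘ P) :=
    by rw [Sym2.eq_swap (a := m) (b := n)]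
  have e12 : φ K (s(f, n) ::ₘ s(n, m) ::ₘ s(e, d) ::ₘ s(m, c) ::ₘ s(a, b) ::ₘ P) = φ K (s(f, m) ::ₘ s(e, d) ::ₘ s(m, c) ::ₘ s(a, b) ::ₘ P) :=
    h.fuse f m n _ _ (av_consP.2 ⟨H.ne, H.nd, (av_consP.2 ⟨H.mn.symm, H.nc, (av_consP.2 ⟨H.na, H.nb, H.vn⟩)⟩)⟩) H.nf H.mn.symm
  have e13 : φ K (s(f, m) ::ₘ s(e, d) ::ₘ s(m, c) ::ₘ s(a, b) ::ₘ P) = φ K (s(f, m) ::ₘ s(m, c) ::ₘ s(e, d) ::ₘ s(a, b) ::ₘ P) :=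
    by rw [Multiset.cons_swap s(e, d) s(m, c)]
  have e14 : φ K (s(f, m) ::ₘ s(m, c) ::ₘ s(e, d) ::ₘ s(a, b) ::ₘ P) = φ K (s(f, c) ::ₘ s(e, d) ::ₘ s(a, b) ::ₘ P) :=
    h.fuse f c m _ _ (av_consP.2 ⟨H.me, H.md, (av_consP.2 ⟨H.ma, H.mb, H.vm⟩)⟩) H.mf H.mc
  have e15 : φ K (s(f, c) ::ₘ s(e, d) ::ₘ s(a, b) ::ₘ P) = φ K (s(c, f) ::ₘ s(e, d) ::ₘ s(a, b) ::ₘ P) :=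
    by rw [Sym2.eq_swap (a := f) (b := c)]
  have e16 : φ K (s(c, f) ::ₘ s(e, d) ::ₘ s(a, b) ::ₘ P) = φ K (s(c, f) ::ₘ s(d, e) ::ₘ s(a, b) ::ₘ P) :=
    by rw [Sym2.eq_swap (a := e) (b := d)]
  have e17 : φ K (s(c, f) ::ₘ s(d, e) ::ₘ s(a, b) ::ₘ P) = φ K (s(c, f) ::ₘ s(a, b) ::ₘ s(d, e) ::ₘ P) :=
    by rw [Multiset.cons_swap s(d, e) s(a, b)]
  have e18 : φ K (s(c, f) ::ₘ s(a, b) ::ₘ s(d, e) ::ₘ P) = φ K (s(a, b) ::ₘ s(c, f) ::ₘ s(d, e) ::ₘ P) :=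
    by rw [Multiset.cons_swap s(c, f) s(a, b)]
  rw [e0, e1, e2, e3, e4, e5, e6, e7, e8, e9, e10, e11, e12, e13, e14, e15, e16, e17, e18]

theorem st1_YYY (h : Sk φ δ κ β) (H : Fr3 a b c d e f m n p K P) :
    φ K (s(n, p) ::ₘ s(e, f) ::ₘ s(m, c) ::ₘ s(d, p) ::ₘ s(a, b) ::ₘ s(m, n) ::ₘ P) =
      φ K (s(a, b) ::ₘ s(c, d) ::ₘ s(e, f) ::ₘ P) := by
  have e0 : φ K (s(n, p) ::ₘ s(e, f) ::ₘ s(m, c) ::ₘ s(d, p) ::ₘ s(a, b) ::ₘ s(m, n) ::ₘ P) = φ K (s(n, p) ::ₘ s(e, f) ::ₘ s(d, p) ::ₘ s(m, c) ::ₘ s(a, b) ::ₘ s(m, n) ::ₘ P) :=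
    by rw [Multiset.cons_swap s(m, c) s(d, p)]
  have e1 : φ K (s(n, p) ::ₘ s(e, f) ::ₘ s(d, p) ::ₘ s(m, c) ::ₘ s(a, b) ::ₘ s(m, n) ::ₘ P) = φ K (s(n, p) ::ₘ s(d, p) ::ₘ s(e, f) ::ₘ s(m, c) ::ₘ s(a, b) ::ₘ s(m, n) ::ₘ P) :=
    by rw [Multiset.cons_swap s(e, f) s(d, p)]
  have e2 : φ K (s(n, p) ::ₘ s(d, p) ::ₘ s(e, f) ::ₘ s(m, c) ::ₘ s(a, b) ::ₘ s(m, n) ::ₘ P) = φ K (s(n, p) ::ₘ s(p, d) ::ₘ s(e, f) ::ₘ s(m, c) ::ₘ s(a, b) ::ₘ s(m, n) ::ₘ P) :=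
    by rw [Sym2.eq_swap (a := d) (b := p)]
  have e3 : φ K (s(n, p) ::ₘ s(p, d) ::ₘ s(e, f) ::ₘ s(m, c) ::ₘ s(a, b) ::ₘ s(m, n) ::ₘ P) = φ K (s(n, d) ::ₘ s(e, f) ::ₘ s(m, c) ::ₘ s(a, b) ::ₘ s(m, n) ::ₘ P) :=
    h.fuse n d p _ _ (av_consP.2 ⟨H.pe, H.pf, (av_consP.2 ⟨H.mp.symm, H.pc, (av_consP.2 ⟨H.pa, H.pb, (av_consP.2 ⟨H.mp.symm, H.np.symm, H.vp⟩)⟩)⟩)⟩) H.np.symm H.pd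
  have e4 : φ K (s(n, d) ::ₘ s(e, f) ::ₘ s(m, c) ::ₘ s(a, b) ::ₘ s(m, n) ::ₘ P) = φ K (s(n, d) ::ₘ s(e, f) ::ₘ s(m, c) ::ₘ s(m, n) ::ₘ s(a, b) ::ₘ P) :=
    by rw [Multiset.cons_swap s(a, b) s(m, n)]
  have e5 : φ K (s(n, d) ::ₘ s(e, f) ::ₘ s(m, c) ::ₘ s(m, n) ::ₘ s(a, b) ::ₘ P) = φ K (s(n, d) ::ₘ s(e, f) ::ₘ s(m, n) ::ₘ s(m, c) ::ₘ s(a, b) ::ₘ P) :=
    by rw [Multiset.cons_swap s(m, c) s(m, n)]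
  have e6 : φ K (s(n, d) ::ₘ s(e, f) ::ₘ s(m, n) ::ₘ s(m, c) ::ₘ s(a, b) ::ₘ P) = φ K (s(n, d) ::ₘ s(m, n) ::ₘ s(e, f) ::ₘ s(m, c) ::ₘ s(a, b) ::ₘ P) :=
    by rw [Multiset.cons_swap s(e, f) s(m, n)]
  have e7 : φ K (s(n, d) ::ₘ s(m, n) ::ₘ s(e, f) ::ₘ s(m, c) ::ₘ s(a, b) ::ₘ P) = φ K (s(d, n) ::ₘ s(m, n) ::ₘ s(e, f) ::ₘ s(m, c) ::ₘ s(a, b) ::ₘ P) :=
    by rw [Sym2.eq_swap (a := n) (b := d)]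
  have e8 : φ K (s(d, n) ::ₘ s(m, n) ::ₘ s(e, f) ::ₘ s(m, c) ::ₘ s(a, b) ::ₘ P) = φ K (s(d, n) ::ₘ s(n, m) ::ₘ s(e, f) ::ₘ s(m, c) ::ₘ s(a, b) ::ₘ P) :=
    by rw [Sym2.eq_swap (a := m) (b := n)]
  have e9 : φ K (s(d, n) ::ₘ s(n, m) ::ₘ s(e, f) ::ₘ s(m, c) ::ₘ s(a, b) ::ₘ P) = φ K (s(d, m) ::ₘ s(e, f) ::ₘ s(m, c) ::ₘ s(a, b) ::ₘ P) :=
    h.fuse d m n _ _ (av_consP.2 ⟨H.ne, H.nf, (av_consP.2 ⟨H.mn.symm, H.nc, (av_consP.2 ⟨H.na, H.nb, H.vn⟩)⟩)⟩) H.nd H.mn.symm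
  have e10 : φ K (s(d, m) ::ₘ s(e, f) ::ₘ s(m, c) ::ₘ s(a, b) ::ₘ P) = φ K (s(d, m) ::ₘ s(m, c) ::ₘ s(e, f) ::ₘ s(a, b) ::ₘ P) :=
    by rw [Multiset.cons_swap s(e, f) s(m, c)]
  have e11 : φ K (s(d, m) ::ₘ s(m, c) ::ₘ s(e, f) ::ₘ s(a, b) ::ₘ P) = φ K (s(d, c) ::ₘ s(e, f) ::ₘ s(a, b) ::ₘ P) :=
    h.fuse d c m _ _ (av_consP.2 ⟨H.me, H.mf, (av_consP.2 ⟨H.ma, H.mb, H.vm⟩)⟩) H.md H.mc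
  have e12 : φ K (s(d, c) ::ₘ s(e, f) ::ₘ s(a, b) ::ₘ P) = φ K (s(c, d) ::ₘ s(e, f) ::ₘ s(a, b) ::ₘ P) :=
    by rw [Sym2.eq_swap (a := d) (b := c)]
  have e13 : φ K (s(c, d) ::ₘ s(e, f) ::ₘ s(a, b) ::ₘ P) = φ K (s(c, d) ::ₘ s(a, b) ::ₘ s(e, f) ::ₘ P) :=
    by rw [Multiset.cons_swap s(e, f) s(a, b)]
  have e14 : φ K (s(c, d) ::ₘ s(a, b) ::ₘ s(e, f) ::ₘ P) = φ K (s(a, b) ::ₘ s(c, d) ::ₘ s(e, f) ::ₘ P) :=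
    by rw [Multiset.cons_swap s(c, d) s(a, b)]
  rw [e0, e1, e2, e3, e4, e5, e6, e7, e8, e9, e10, e11, e12, e13, e14]

end Pool.Agent.P.MP_9b2cf8_gt
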