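import Pool.Agent.P.MP_9b2cf8_gt.St0

/-! Normal forms of the local states (generated). -/

namespace Pool.Agent.P.MP_9b2cf8_gt

variable {R : Type} {φ : Fn R} {δ κ β : R → R} {a b c d e f m n p : ℕ} {K : Multiset Cr}
  {P : Multiset (Sym2 ℕ)}

theorem st2_ssX (h : Sk φ δ κ β) (H : Fr3 a b c d e f m n p K P) :
    φ ((a, p, m, f) ::ₘ (m, n, d, e) ::ₘ K) (s(b, p) ::ₘ s(c, n) ::ₘ P) =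
      φ ((a, b, m, f) ::ₘ (c, d, e, m) ::ₘ K) P := by
  have e0 : φ ((a, p, m, f) ::ₘ (m, n, d, e) ::ₘ K) (s(b, p) ::ₘ s(c, n) ::ₘ P) = φ ((p, a, f, m) ::ₘ (m, n, d, e) ::ₘ K) (s(b, p) ::ₘ s(c, n) ::ₘ P) :=
    h.sy.sw a p m f _ _
  have e1 : φ ((p, a, f, m) ::ₘ (m, n, d, e) ::ₘ K) (s(b, p) ::ₘ s(c, n) ::ₘ P) = φ ((b, a, f, m) ::ₘ (m, n, d, e) ::ₘ K) (s(c, n) ::ₘ P) :=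
    h.absorb b a f m p _ _ (av_consK.2 ⟨not_mem_legs.2 ⟨H.mp.symm, H.np.symm, H.pd, H.pe⟩, (av_consP.2 ⟨H.pc, H.np.symm, H.vp⟩)⟩) H.pb H.pa H.pf H.mp.symm
  have e2 : φ ((b, a, f, m) ::ₘ (m, n, d, e) ::ₘ K) (s(c, n) ::ₘ P) = φ ((m, n, d, e) ::ₘ (b, a, f, m) ::ₘ K) (s(c, n) ::ₘ P) :=
    by rw [Multiset.cons_swap (b, a, f, m) (m, n, d, e)]
  have e3 : φ ((m, n, d, e) ::ₘ (b, a, f, m) ::ₘ K) (s(c, n) ::ₘ P) = φ ((n, m, e, d) ::ₘ (b, a, f, m) ::ₘ K) (s(c, n) ::ₘ P) :=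
    h.sy.sw m n d e _ _
  have e4 : φ ((n, m, e, d) ::ₘ (b, a, f, m) ::ₘ K) (s(c, n) ::ₘ P) = φ ((c, m, e, d) ::ₘ (b, a, f, m) ::ₘ K) P :=
    h.absorb c m e d n _ _ (av_consK.2 ⟨not_mem_legs.2 ⟨H.nb, H.na, H.nf, H.mn.symm⟩, H.vn⟩) H.nc H.mn.symm H.ne H.nd
  have e5 : φ ((c, m, e, d) ::ₘ (b, a, f, m) ::ₘ K) P = φ ((b, a, f, m) ::ₘ (c, m, e, d) ::ₘ K) P :=
    by rw [Multiset.cons_swap (c, m, e, d) (b, a, f, m)]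
  have e6 : φ ((b, a, f, m) ::ₘ (c, m, e, d) ::ₘ K) P = φ ((a, b, m, f) ::ₘ (c, m, e, d) ::ₘ K) P :=
    h.sy.sw b a f m _ _
  have e7 : φ ((a, b, m, f) ::ₘ (c, m, e, d) ::ₘ K) P = φ ((c, m, e, d) ::ₘ (a, b, m, f) ::ₘ K) P :=
    by rw [Multiset.cons_swap (a, b, m, f) (c, m, e, d)]
  have e8 : φ ((c, m, e, d) ::ₘ (a, b, m, f) ::ₘ K) P = φ ((m, c, d, e) ::ₘ (a, b, m, f) ::ₘ K) P :=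
    h.sy.sw c m e d _ _
  have e9 : φ ((m, c, d, e) ::ₘ (a, b, m, f) ::ₘ K) P = φ ((d, c, m, e) ::ₘ (a, b, m, f) ::ₘ K) P :=
    h.sy.fl m c d e _ _
  have e10 : φ ((d, c, m, e) ::ₘ (a, b, m, f) ::ₘ K) P = φ ((c, d, e, m) ::ₘ (a, b, m, f) ::ₘ K) P :=
    h.sy.sw d c m e _ _
  have e11 : φ ((c, d, e, m) ::ₘ (a, b, m, f) ::ₘ K) P = φ ((a, b, m, f) ::ₘ (c, d, e, m) ::ₘ K) P :=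
    by rw [Multiset.cons_swap (c, d, e, m) (a, b, m, f)]
  rw [e0, e1, e2, e3, e4, e5, e6, e7, e8, e9, e10, e11]

theorem st2_ssY (h : Sk φ δ κ β) (H : Fr3 a b c d e f m n p K P) :
    φ ((a, p, m, f) ::ₘ (m, n, d, e) ::ₘ K) (s(b, c) ::ₘ s(n, p) ::ₘ P) =
      β (φ ((a, d, e, f) ::ₘ K) (s(b, c) ::ₘ P)) := by
  have e0 : φ ((a, p, m, f) ::ₘ (m, n, d, e) ::ₘ K) (s(b, c) ::ₘ s(n, p) ::ₘ P) = φ ((a, p, m, f) ::ₘ (m, n, d, e) ::ₘ K) (s(n, p) ::ₘ s(b, c) ::ₘ P) :=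
    by rw [Multiset.cons_swap s(b, c) s(n, p)]
  have e1 : φ ((a, p, m, f) ::ₘ (m, n, d, e) ::ₘ K) (s(n, p) ::ₘ s(b, c) ::ₘ P) = φ ((p, a, f, m) ::ₘ (m, n, d, e) ::ₘ K) (s(n, p) ::ₘ s(b, c) ::ₘ P) :=
    h.sy.sw a p m f _ _
  have e2 : φ ((p, a, f, m) ::ₘ (m, n, d, e) ::ₘ K) (s(n, p) ::ₘ s(b, c) ::ₘ P) = φ ((n, a, f, m) ::ₘ (m, n, d, e) ::ₘ K) (s(b, c) ::ₘ P) :=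
    h.absorb n a f m p _ _ (av_consK.2 ⟨not_mem_legs.2 ⟨H.mp.symm, H.np.symm, H.pd, H.pe⟩, (av_consP.2 ⟨H.pb, H.pc, H.vp⟩)⟩) H.np.symm H.pa H.pf H.mp.symm
  have e3 : φ ((n, a, f, m) ::ₘ (m, n, d, e) ::ₘ K) (s(b, c) ::ₘ P) = φ ((a, n, m, f) ::ₘ (m, n, d, e) ::ₘ K) (s(b, c) ::ₘ P) :=
    h.sy.sw n a f m _ _
  have e4 : φ ((a, n, m, f) ::ₘ (m, n, d, e) ::ₘ K) (s(b, c) ::ₘ P) = φ ((m, n, a, f) ::ₘ (m, n, d, e) ::ₘ K) (s(b, c) ::ₘ P) :=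
    h.sy.fl a n m f _ _
  have e5 : φ ((m, n, a, f) ::ₘ (m, n, d, e) ::ₘ K) (s(b, c) ::ₘ P) = φ ((m, n, d, e) ::ₘ (m, n, a, f) ::ₘ K) (s(b, c) ::ₘ P) :=
    by rw [Multiset.cons_swap (m, n, a, f) (m, n, d, e)]
  have e6 : φ ((m, n, d, e) ::ₘ (m, n, a, f) ::ₘ K) (s(b, c) ::ₘ P) = φ ((n, m, e, d) ::ₘ (m, n, a, f) ::ₘ K) (s(b, c) ::ₘ P) :=
    h.sy.sw m n d e _ _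
  have e7 : φ ((n, m, e, d) ::ₘ (m, n, a, f) ::ₘ K) (s(b, c) ::ₘ P) = φ ((e, m, n, d) ::ₘ (m, n, a, f) ::ₘ K) (s(b, c) ::ₘ P) :=
    h.sy.fl n m e d _ _
  have e8 : φ ((e, m, n, d) ::ₘ (m, n, a, f) ::ₘ K) (s(b, c) ::ₘ P) = φ ((m, e, d, n) ::ₘ (m, n, a, f) ::ₘ K) (s(b, c) ::ₘ P) :=
    h.sy.sw e m n d _ _
  have e9 : φ ((m, e, d, n) ::ₘ (m, n, a, f) ::ₘ K) (s(b, c) ::ₘ P) = φ ((d, e, m, n) ::ₘ (m, n, a, f) ::ₘ K) (s(b, c) ::ₘ P) :=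
    h.sy.fl m e d n _ _
  have e10 : φ ((d, e, m, n) ::ₘ (m, n, a, f) ::ₘ K) (s(b, c) ::ₘ P) = β (φ ((d, e, f, a) ::ₘ K) (s(b, c) ::ₘ P)) :=
    h.bigon d e a f m n _ _ (av_consP.2 ⟨H.mb, H.mc, H.vm⟩) (av_consP.2 ⟨H.nb, H.nc, H.vn⟩) H.mn (not_mem_legs.2 ⟨H.md, H.me, H.ma, H.mf⟩) (not_mem_legs.2 ⟨H.nd, H.ne, H.na, H.nf⟩)
  have e11 : φ ((d, e, f, a) ::ₘ K) (s(b, c) ::ₘ P) = φ ((e, d, a, f) ::ₘ K) (s(b, c) ::ₘ P) :=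
    h.sy.sw d e f a _ _
  have e12 : φ ((e, d, a, f) ::ₘ K) (s(b, c) ::ₘ P) = φ ((a, d, e, f) ::ₘ K) (s(b, c) ::ₘ P) :=
    h.sy.fl e d a f _ _
  rw [e0, e1, e2, e3, e4, e5, e6, e7, e8, e9, e10, e11, e12]

theorem st2_sXs (h : Sk φ δ κ β) (H : Fr3 a b c d e f m n p K P) :
    φ ((b, c, n, p) ::ₘ (m, n, d, e) ::ₘ K) (s(a, f) ::ₘ s(p, m) ::ₘ P) =
      β (φ ((b, c, d, e) ::ₘ K) (s(a, f) ::ₘ P)) := by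
  have e0 : φ ((b, c, n, p) ::ₘ (m, n, d, e) ::ₘ K) (s(a, f) ::ₘ s(p, m) ::ₘ P) = φ ((b, c, n, p) ::ₘ (m, n, d, e) ::ₘ K) (s(p, m) ::ₘ s(a, f) ::ₘ P) :=
    by rw [Multiset.cons_swap s(a, f) s(p, m)]
  have e1 : φ ((b, c, n, p) ::ₘ (m, n, d, e) ::ₘ K) (s(p, m) ::ₘ s(a, f) ::ₘ P) = φ ((b, c, n, p) ::ₘ (m, n, d, e) ::ₘ K) (s(m, p) ::ₘ s(a, f) ::ₘ P) :=
    by rw [Sym2.eq_swap (a := p) (b := m)]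
  have e2 : φ ((b, c, n, p) ::ₘ (m, n, d, e) ::ₘ K) (s(m, p) ::ₘ s(a, f) ::ₘ P) = φ ((c, b, p, n) ::ₘ (m, n, d, e) ::ₘ K) (s(m, p) ::ₘ s(a, f) ::ₘ P) :=
    h.sy.sw b c n p _ _
  have e3 : φ ((c, b, p, n) ::ₘ (m, n, d, e) ::ₘ K) (s(m, p) ::ₘ s(a, f) ::ₘ P) = φ ((p, b, c, n) ::ₘ (m, n, d, e) ::ₘ K) (s(m, p) ::ₘ s(a, f) ::ₘ P) :=
    h.sy.fl c b p n _ _
  have e4 : φ ((p, b, c, n) ::ₘ (m, n, d, e) ::ₘ K) (s(m, p) ::ₘ s(a, f) ::ₘ P) = φ ((m, b, c, n) ::ₘ (m, n, d, e) ::ₘ K) (s(a, f) ::ₘ P) :=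
    h.absorb m b c n p _ _ (av_consK.2 ⟨not_mem_legs.2 ⟨H.mp.symm, H.np.symm, H.pd, H.pe⟩, (av_consP.2 ⟨H.pa, H.pf, H.vp⟩)⟩) H.mp.symm H.pb H.pc H.np.symm
  have e5 : φ ((m, b, c, n) ::ₘ (m, n, d, e) ::ₘ K) (s(a, f) ::ₘ P) = φ ((b, m, n, c) ::ₘ (m, n, d, e) ::ₘ K) (s(a, f) ::ₘ P) :=
    h.sy.sw m b c n _ _
  have e6 : φ ((b, m, n, c) ::ₘ (m, n, d, e) ::ₘ K) (s(a, f) ::ₘ P) = φ ((n, m, b, c) ::ₘ (m, n, d, e) ::ₘ K) (s(a, f) ::ₘ P) :=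
    h.sy.fl b m n c _ _
  have e7 : φ ((n, m, b, c) ::ₘ (m, n, d, e) ::ₘ K) (s(a, f) ::ₘ P) = φ ((m, n, c, b) ::ₘ (m, n, d, e) ::ₘ K) (s(a, f) ::ₘ P) :=
    h.sy.sw n m b c _ _
  have e8 : φ ((m, n, c, b) ::ₘ (m, n, d, e) ::ₘ K) (s(a, f) ::ₘ P) = φ ((m, n, d, e) ::ₘ (m, n, c, b) ::ₘ K) (s(a, f) ::ₘ P) :=
    by rw [Multiset.cons_swap (m, n, c, b) (m, n, d, e)]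
  have e9 : φ ((m, n, d, e) ::ₘ (m, n, c, b) ::ₘ K) (s(a, f) ::ₘ P) = φ ((n, m, e, d) ::ₘ (m, n, c, b) ::ₘ K) (s(a, f) ::ₘ P) :=
    h.sy.sw m n d e _ _
  have e10 : φ ((n, m, e, d) ::ₘ (m, n, c, b) ::ₘ K) (s(a, f) ::ₘ P) = φ ((e, m, n, d) ::ₘ (m, n, c, b) ::ₘ K) (s(a, f) ::ₘ P) :=
    h.sy.fl n m e d _ _
  have e11 : φ ((e, m, n, d) ::ₘ (m, n, c, b) ::ₘ K) (s(a, f) ::ₘ P) = φ ((m, e, d, n) ::ₘ (m, n, c, b) ::ₘ K) (s(a, f) ::ₘ P) :=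
    h.sy.sw e m n d _ _
  have e12 : φ ((m, e, d, n) ::ₘ (m, n, c, b) ::ₘ K) (s(a, f) ::ₘ P) = φ ((d, e, m, n) ::ₘ (m, n, c, b) ::ₘ K) (s(a, f) ::ₘ P) :=
    h.sy.fl m e d n _ _
  have e13 : φ ((d, e, m, n) ::ₘ (m, n, c, b) ::ₘ K) (s(a, f) ::ₘ P) = β (φ ((d, e, b, c) ::ₘ K) (s(a, f) ::ₘ P)) :=
    h.bigon d e c b m n _ _ (av_consP.2 ⟨H.ma, H.mf, H.vm⟩) (av_consP.2 ⟨H.na, H.nf, H.vn⟩) H.mn (not_mem_legs.2 ⟨H.md, H.me, H.mc, H.mb⟩) (not_mem_legs.2 ⟨H.nd, H.ne, H.nc, H.nb⟩)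
  have e14 : φ ((d, e, b, c) ::ₘ K) (s(a, f) ::ₘ P) = φ ((e, d, c, b) ::ₘ K) (s(a, f) ::ₘ P) :=
    h.sy.sw d e b c _ _
  have e15 : φ ((e, d, c, b) ::ₘ K) (s(a, f) ::ₘ P) = φ ((c, d, e, b) ::ₘ K) (s(a, f) ::ₘ P) :=
    h.sy.fl e d c b _ _
  have e16 : φ ((c, d, e, b) ::ₘ K) (s(a, f) ::ₘ P) = φ ((d, c, b, e) ::ₘ K) (s(a, f) ::ₘ P) :=
    h.sy.sw c d e b _ _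
  have e17 : φ ((d, c, b, e) ::ₘ K) (s(a, f) ::ₘ P) = φ ((b, c, d, e) ::ₘ K) (s(a, f) ::ₘ P) :=
    h.sy.fl d c b e _ _
  rw [e0, e1, e2, e3, e4, e5, e6, e7, e8, e9, e10, e11, e12, e13, e14, e15, e16, e17]

theorem st2_sXX (h : Sk φ δ κ β) (H : Fr3 a b c d e f m n p K P) :
    φ ((m, n, d, e) ::ₘ K) (s(b, p) ::ₘ s(c, n) ::ₘ s(a, f) ::ₘ s(p, m) ::ₘ P) =
      φ ((b, c, d, e) ::ₘ K) (s(a, f) ::ₘ P) := by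
  have e0 : φ ((m, n, d, e) ::ₘ K) (s(b, p) ::ₘ s(c, n) ::ₘ s(a, f) ::ₘ s(p, m) ::ₘ P) = φ ((m, n, d, e) ::ₘ K) (s(b, p) ::ₘ s(c, n) ::ₘ s(p, m) ::ₘ s(a, f) ::ₘ P) :=
    by rw [Multiset.cons_swap s(a, f) s(p, m)]
  have e1 : φ ((m, n, d, e) ::ₘ K) (s(b, p) ::ₘ s(c, n) ::ₘ s(p, m) ::ₘ s(a, f) ::ₘ P) = φ ((m, n, d, e) ::ₘ K) (s(b, p) ::ₘ s(p, m) ::ₘ s(c, n) ::ₘ s(a, f) ::ₘ P) :=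
    by rw [Multiset.cons_swap s(c, n) s(p, m)]
  have e2 : φ ((m, n, d, e) ::ₘ K) (s(b, p) ::ₘ s(p, m) ::ₘ s(c, n) ::ₘ s(a, f) ::ₘ P) = φ ((m, n, d, e) ::ₘ K) (s(b, m) ::ₘ s(c, n) ::ₘ s(a, f) ::ₘ P) :=
    h.fuse b m p _ _ (av_consK.2 ⟨not_mem_legs.2 ⟨H.mp.symm, H.np.symm, H.pd, H.pe⟩, (av_consP.2 ⟨H.pc, H.np.symm, (av_consP.2 ⟨H.pa, H.pf, H.vp⟩)⟩)⟩) H.pb H.mp.symm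
  have e3 : φ ((m, n, d, e) ::ₘ K) (s(b, m) ::ₘ s(c, n) ::ₘ s(a, f) ::ₘ P) = φ ((m, n, d, e) ::ₘ K) (s(c, n) ::ₘ s(b, m) ::ₘ s(a, f) ::ₘ P) :=
    by rw [Multiset.cons_swap s(b, m) s(c, n)]
  have e4 : φ ((m, n, d, e) ::ₘ K) (s(c, n) ::ₘ s(b, m) ::ₘ s(a, f) ::ₘ P) = φ ((n, m, e, d) ::ₘ K) (s(c, n) ::ₘ s(b, m) ::ₘ s(a, f) ::ₘ P) :=
    h.sy.sw m n d e _ _
  have e5 : φ ((n, m, e, d) ::ₘ K) (s(c, n) ::ₘ s(b, m) ::ₘ s(a, f) ::ₘ P) = φ ((c, m, e, d) ::ₘ K) (s(b, m) ::ₘ s(a, f) ::ₘ P) :=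
    h.absorb c m e d n _ _ (av_consP.2 ⟨H.nb, H.mn.symm, (av_consP.2 ⟨H.na, H.nf, H.vn⟩)⟩) H.nc H.mn.symm H.ne H.nd
  have e6 : φ ((c, m, e, d) ::ₘ K) (s(b, m) ::ₘ s(a, f) ::ₘ P) = φ ((m, c, d, e) ::ₘ K) (s(b, m) ::ₘ s(a, f) ::ₘ P) :=
    h.sy.sw c m e d _ _
  have e7 : φ ((m, c, d, e) ::ₘ K) (s(b, m) ::ₘ s(a, f) ::ₘ P) = φ ((b, c, d, e) ::ₘ K) (s(a, f) ::ₘ P) :=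
    h.absorb b c d e m _ _ (av_consP.2 ⟨H.ma, H.mf, H.vm⟩) H.mb H.mc H.md H.me
  rw [e0, e1, e2, e3, e4, e5, e6, e7]

theorem st2_sXY (h : Sk φ δ κ β) (H : Fr3 a b c d e f m n p K P) :
    φ ((m, n, d, e) ::ₘ K) (s(b, c) ::ₘ s(n, p) ::ₘ s(a, f) ::ₘ s(p, m) ::ₘ P) =
      κ (φ K (s(a, f) ::ₘ s(b, c) ::ₘ s(d, e) ::ₘ P)) := by
  have e0 : φ ((m, n, d, e) ::ₘ K) (s(b, c) ::ₘ s(n, p) ::ₘ s(a, f) ::ₘ s(p, m) ::ₘ P) = φ ((m, n, d, e) ::ₘ K) (s(n, p) ::ₘ s(b, c) ::ₘ s(a, f) ::ₘ s(p, m) ::ₘ P) :=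
    by rw [Multiset.cons_swap s(b, c) s(n, p)]
  have e1 : φ ((m, n, d, e) ::ₘ K) (s(n, p) ::ₘ s(b, c) ::ₘ s(a, f) ::ₘ s(p, m) ::ₘ P) = φ ((m, n, d, e) ::ₘ K) (s(n, p) ::ₘ s(b, c) ::ₘ s(p, m) ::ₘ s(a, f) ::ₘ P) :=
    by rw [Multiset.cons_swap s(a, f) s(p, m)]
  have e2 : φ ((m, n, d, e) ::ₘ K) (s(n, p) ::ₘ s(b, c) ::ₘ s(p, m) ::ₘ s(a, f) ::ₘ P) = φ ((m, n, d, e) ::ₘ K) (s(n, p) ::ₘ s(p, m) ::ₘ s(b, c) ::ₘ s(a, f) ::ₘ P) :=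
    by rw [Multiset.cons_swap s(b, c) s(p, m)]
  have e3 : φ ((m, n, d, e) ::ₘ K) (s(n, p) ::ₘ s(p, m) ::ₘ s(b, c) ::ₘ s(a, f) ::ₘ P) = φ ((m, n, d, e) ::ₘ K) (s(n, m) ::ₘ s(b, c) ::ₘ s(a, f) ::ₘ P) :=
    h.fuse n m p _ _ (av_consK.2 ⟨not_mem_legs.2 ⟨H.mp.symm, H.np.symm, H.pd, H.pe⟩, (av_consP.2 ⟨H.pb, H.pc, (av_consP.2 ⟨H.pa, H.pf, H.vp⟩)⟩)⟩) H.np.symm H.mp.symm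
  have e4 : φ ((m, n, d, e) ::ₘ K) (s(n, m) ::ₘ s(b, c) ::ₘ s(a, f) ::ₘ P) = φ ((m, n, d, e) ::ₘ K) (s(m, n) ::ₘ s(b, c) ::ₘ s(a, f) ::ₘ P) :=
    by rw [Sym2.eq_swap (a := n) (b := m)]
  have e5 : φ ((m, n, d, e) ::ₘ K) (s(m, n) ::ₘ s(b, c) ::ₘ s(a, f) ::ₘ P) = φ ((n, m, e, d) ::ₘ K) (s(m, n) ::ₘ s(b, c) ::ₘ s(a, f) ::ₘ P) :=
    h.sy.sw m n d e _ _
  have e6 : φ ((n, m, e, d) ::ₘ K) (s(m, n) ::ₘ s(b, c) ::ₘ s(a, f) ::ₘ P) = φ ((m, m, e, d) ::ₘ K) (s(b, c) ::ₘ s(a, f) ::ₘ P) :=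
    h.absorb m m e d n _ _ (av_consP.2 ⟨H.nb, H.nc, (av_consP.2 ⟨H.na, H.nf, H.vn⟩)⟩) H.mn.symm H.mn.symm H.ne H.nd
  have e7 : φ ((m, m, e, d) ::ₘ K) (s(b, c) ::ₘ s(a, f) ::ₘ P) = φ ((e, m, m, d) ::ₘ K) (s(b, c) ::ₘ s(a, f) ::ₘ P) :=
    h.sy.fl m m e d _ _
  have e8 : φ ((e, m, m, d) ::ₘ K) (s(b, c) ::ₘ s(a, f) ::ₘ P) = κ (φ K (s(e, d) ::ₘ s(b, c) ::ₘ s(a, f) ::ₘ P)) :=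
    h.kink e d m _ _ (av_consP.2 ⟨H.mb, H.mc, (av_consP.2 ⟨H.ma, H.mf, H.vm⟩)⟩) H.me H.md
  have e9 : φ K (s(e, d) ::ₘ s(b, c) ::ₘ s(a, f) ::ₘ P) = φ K (s(d, e) ::ₘ s(b, c) ::ₘ s(a, f) ::ₘ P) :=
    by rw [Sym2.eq_swap (a := e) (b := d)]
  have e10 : φ K (s(d, e) ::ₘ s(b, c) ::ₘ s(a, f) ::ₘ P) = φ K (s(d, e) ::ₘ s(a, f) ::ₘ s(b, c) ::ₘ P) :=
    by rw [Multiset.cons_swap s(b, c) s(a, f)]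
  have e11 : φ K (s(d, e) ::ₘ s(a, f) ::ₘ s(b, c) ::ₘ P) = φ K (s(a, f) ::ₘ s(d, e) ::ₘ s(b, c) ::ₘ P) :=
    by rw [Multiset.cons_swap s(d, e) s(a, f)]
  have e12 : φ K (s(a, f) ::ₘ s(d, e) ::ₘ s(b, c) ::ₘ P) = φ K (s(a, f) ::ₘ s(b, c) ::ₘ s(d, e) ::ₘ P) :=
    by rw [Multiset.cons_swap s(d, e) s(b, c)]
  rw [e0, e1, e2, e3, e4, e5, e6, e7, e8, e9, e10, e11, e12]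

theorem st2_sYs (h : Sk φ δ κ β) (H : Fr3 a b c d e f m n p K P) :
    φ ((b, c, n, p) ::ₘ (m, n, d, e) ::ₘ K) (s(a, p) ::ₘ s(m, f) ::ₘ P) =
      φ ((a, b, c, n) ::ₘ (d, e, f, n) ::ₘ K) P := by
  have e0 : φ ((b, c, n, p) ::ₘ (m, n, d, e) ::ₘ K) (s(a, p) ::ₘ s(m, f) ::ₘ P) = φ ((c, b, p, n) ::ₘ (m, n, d, e) ::ₘ K) (s(a, p) ::ₘ s(m, f) ::ₘ P) :=
    h.sy.sw b c n p _ _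
  have e1 : φ ((c, b, p, n) ::ₘ (m, n, d, e) ::ₘ K) (s(a, p) ::ₘ s(m, f) ::ₘ P) = φ ((p, b, c, n) ::ₘ (m, n, d, e) ::ₘ K) (s(a, p) ::ₘ s(m, f) ::ₘ P) :=
    h.sy.fl c b p n _ _
  have e2 : φ ((p, b, c, n) ::ₘ (m, n, d, e) ::ₘ K) (s(a, p) ::ₘ s(m, f) ::ₘ P) = φ ((a, b, c, n) ::ₘ (m, n, d, e) ::ₘ K) (s(m, f) ::ₘ P) :=
    h.absorb a b c n p _ _ (av_consK.2 ⟨not_mem_legs.2 ⟨H.mp.symm, H.np.symm, H.pd, H.pe⟩, (av_consP.2 ⟨H.mp.symm, H.pf, H.vp⟩)⟩) H.pa H.pb H.pc H.np.symm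
  have e3 : φ ((a, b, c, n) ::ₘ (m, n, d, e) ::ₘ K) (s(m, f) ::ₘ P) = φ ((a, b, c, n) ::ₘ (m, n, d, e) ::ₘ K) (s(f, m) ::ₘ P) :=
    by rw [Sym2.eq_swap (a := m) (b := f)]
  have e4 : φ ((a, b, c, n) ::ₘ (m, n, d, e) ::ₘ K) (s(f, m) ::ₘ P) = φ ((m, n, d, e) ::ₘ (a, b, c, n) ::ₘ K) (s(f, m) ::ₘ P) :=
    by rw [Multiset.cons_swap (a, b, c, n) (m, n, d, e)]
  have e5 : φ ((m, n, d, e) ::ₘ (a, b, c, n) ::ₘ K) (s(f, m) ::ₘ P) = φ ((f, n, d, e) ::ₘ (a, b, c, n) ::ₘ K) P :=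
    h.absorb f n d e m _ _ (av_consK.2 ⟨not_mem_legs.2 ⟨H.ma, H.mb, H.mc, H.mn⟩, H.vm⟩) H.mf H.mn H.md H.me
  have e6 : φ ((f, n, d, e) ::ₘ (a, b, c, n) ::ₘ K) P = φ ((a, b, c, n) ::ₘ (f, n, d, e) ::ₘ K) P :=
    by rw [Multiset.cons_swap (f, n, d, e) (a, b, c, n)]
  have e7 : φ ((a, b, c, n) ::ₘ (f, n, d, e) ::ₘ K) P = φ ((f, n, d, e) ::ₘ (a, b, c, n) ::ₘ K) P :=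
    by rw [Multiset.cons_swap (a, b, c, n) (f, n, d, e)]
  have e8 : φ ((f, n, d, e) ::ₘ (a, b, c, n) ::ₘ K) P = φ ((n, f, e, d) ::ₘ (a, b, c, n) ::ₘ K) P :=
    h.sy.sw f n d e _ _
  have e9 : φ ((n, f, e, d) ::ₘ (a, b, c, n) ::ₘ K) P = φ ((e, f, n, d) ::ₘ (a, b, c, n) ::ₘ K) P :=
    h.sy.fl n f e d _ _
  have e10 : φ ((e, f, n, d) ::ₘ (a, b, c, n) ::ₘ K) P = φ ((f, e, d, n) ::ₘ (a, b, c, n) ::ₘ K) P :=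
    h.sy.sw e f n d _ _
  have e11 : φ ((f, e, d, n) ::ₘ (a, b, c, n) ::ₘ K) P = φ ((d, e, f, n) ::ₘ (a, b, c, n) ::ₘ K) P :=
    h.sy.fl f e d n _ _
  have e12 : φ ((d, e, f, n) ::ₘ (a, b, c, n) ::ₘ K) P = φ ((a, b, c, n) ::ₘ (d, e, f, n) ::ₘ K) P :=
    by rw [Multiset.cons_swap (d, e, f, n) (a, b, c, n)]
  rw [e0, e1, e2, e3, e4, e5, e6, e7, e8, e9, e10, e11, e12]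

theorem st2_sYX (h : Sk φ δ κ β) (H : Fr3 a b c d e f m n p K P) :
    φ ((m, n, d, e) ::ₘ K) (s(b, p) ::ₘ s(c, n) ::ₘ s(a, p) ::ₘ s(m, f) ::ₘ P) =
      φ ((c, d, e, f) ::ₘ K) (s(a, b) ::ₘ P) := by
  have e0 : φ ((m, n, d, e) ::ₘ K) (s(b, p) ::ₘ s(c, n) ::ₘ s(a, p) ::ₘ s(m, f) ::ₘ P) = φ ((m, n, d, e) ::ₘ K) (s(b, p) ::ₘ s(a, p) ::ₘ s(c, n) ::ₘ s(m, f) ::ₘ P) :=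
    by rw [Multiset.cons_swap s(c, n) s(a, p)]
  have e1 : φ ((m, n, d, e) ::ₘ K) (s(b, p) ::ₘ s(a, p) ::ₘ s(c, n) ::ₘ s(m, f) ::ₘ P) = φ ((m, n, d, e) ::ₘ K) (s(b, p) ::ₘ s(p, a) ::ₘ s(c, n) ::ₘ s(m, f) ::ₘ P) :=
    by rw [Sym2.eq_swap (a := a) (b := p)]
  have e2 : φ ((m, n, d, e) ::ₘ K) (s(b, p) ::ₘ s(p, a) ::ₘ s(c, n) ::ₘ s(m, f) ::ₘ P) = φ ((m, n, d, e) ::ₘ K) (s(b, a) ::ₘ s(c, n) ::ₘ s(m, f) ::ₘ P) :=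
    h.fuse b a p _ _ (av_consK.2 ⟨not_mem_legs.2 ⟨H.mp.symm, H.np.symm, H.pd, H.pe⟩, (av_consP.2 ⟨H.pc, H.np.symm, (av_consP.2 ⟨H.mp.symm, H.pf, H.vp⟩)⟩)⟩) H.pb H.pa
  have e3 : φ ((m, n, d, e) ::ₘ K) (s(b, a) ::ₘ s(c, n) ::ₘ s(m, f) ::ₘ P) = φ ((m, n, d, e) ::ₘ K) (s(c, n) ::ₘ s(b, a) ::ₘ s(m, f) ::ₘ P) :=
    by rw [Multiset.cons_swap s(b, a) s(c, n)]
  have e4 : φ ((m, n, d, e) ::ₘ K) (s(c, n) ::ₘ s(b, a) ::ₘ s(m, f) ::ₘ P) = φ ((n, m, e, d) ::ₘ K) (s(c, n) ::ₘ s(b, a) ::ₘ s(m, f) ::ₘ P) :=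
    h.sy.sw m n d e _ _
  have e5 : φ ((n, m, e, d) ::ₘ K) (s(c, n) ::ₘ s(b, a) ::ₘ s(m, f) ::ₘ P) = φ ((c, m, e, d) ::ₘ K) (s(b, a) ::ₘ s(m, f) ::ₘ P) :=
    h.absorb c m e d n _ _ (av_consP.2 ⟨H.nb, H.na, (av_consP.2 ⟨H.mn.symm, H.nf, H.vn⟩)⟩) H.nc H.mn.symm H.ne H.nd
  have e6 : φ ((c, m, e, d) ::ₘ K) (s(b, a) ::ₘ s(m, f) ::ₘ P) = φ ((c, m, e, d) ::ₘ K) (s(m, f) ::ₘ s(b, a) ::ₘ P) :=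
    by rw [Multiset.cons_swap s(b, a) s(m, f)]
  have e7 : φ ((c, m, e, d) ::ₘ K) (s(m, f) ::ₘ s(b, a) ::ₘ P) = φ ((c, m, e, d) ::ₘ K) (s(f, m) ::ₘ s(b, a) ::ₘ P) :=
    by rw [Sym2.eq_swap (a := m) (b := f)]
  have e8 : φ ((c, m, e, d) ::ₘ K) (s(f, m) ::ₘ s(b, a) ::ₘ P) = φ ((m, c, d, e) ::ₘ K) (s(f, m) ::ₘ s(b, a) ::ₘ P) :=
    h.sy.sw c m e d _ _
  have e9 : φ ((m, c, d, e) ::ₘ K) (s(f, m) ::ₘ s(b, a) ::ₘ P) = φ ((f, c, d, e) ::ₘ K) (s(b, a) ::ₘ P) :=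
    h.absorb f c d e m _ _ (av_consP.2 ⟨H.mb, H.ma, H.vm⟩) H.mf H.mc H.md H.me
  have e10 : φ ((f, c, d, e) ::ₘ K) (s(b, a) ::ₘ P) = φ ((f, c, d, e) ::ₘ K) (s(a, b) ::ₘ P) :=
    by rw [Sym2.eq_swap (a := b) (b := a)]
  have e11 : φ ((f, c, d, e) ::ₘ K) (s(a, b) ::ₘ P) = φ ((d, c, f, e) ::ₘ K) (s(a, b) ::ₘ P) :=
    h.sy.fl f c d e _ _
  have e12 : φ ((d, c, f, e) ::ₘ K) (s(a, b) ::ₘ P) = φ ((c, d, e, f) ::ₘ K) (s(a, b) ::ₘ P) :=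
    h.sy.sw d c f e _ _
  rw [e0, e1, e2, e3, e4, e5, e6, e7, e8, e9, e10, e11, e12]

theorem st2_sYY (h : Sk φ δ κ β) (H : Fr3 a b c d e f m n p K P) :
    φ ((m, n, d, e) ::ₘ K) (s(b, c) ::ₘ s(n, p) ::ₘ s(a, p) ::ₘ s(m, f) ::ₘ P) =
      φ ((a, d, e, f) ::ₘ K) (s(b, c) ::ₘ P) := by
  have e0 : φ ((m, n, d, e) ::ₘ K) (s(b, c) ::ₘ s(n, p) ::ₘ s(a, p) ::ₘ s(m, f) ::ₘ P) = φ ((m, n, d, e) ::ₘ K) (s(n, p) ::ₘ s(b, c) ::ₘ s(a, p) ::ₘ s(m, f) ::ₘ P) :=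
    by rw [Multiset.cons_swap s(b, c) s(n, p)]
  have e1 : φ ((m, n, d, e) ::ₘ K) (s(n, p) ::ₘ s(b, c) ::ₘ s(a, p) ::ₘ s(m, f) ::ₘ P) = φ ((m, n, d, e) ::ₘ K) (s(n, p) ::ₘ s(a, p) ::ₘ s(b, c) ::ₘ s(m, f) ::ₘ P) :=
    by rw [Multiset.cons_swap s(b, c) s(a, p)]
  have e2 : φ ((m, n, d, e) ::ₘ K) (s(n, p) ::ₘ s(a, p) ::ₘ s(b, c) ::ₘ s(m, f) ::ₘ P) = φ ((m, n, d, e) ::ₘ K) (s(n, p) ::ₘ s(p, a) ::ₘ s(b, c) ::ₘ s(m, f) ::ₘ P) :=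
    by rw [Sym2.eq_swap (a := a) (b := p)]
  have e3 : φ ((m, n, d, e) ::ₘ K) (s(n, p) ::ₘ s(p, a) ::ₘ s(b, c) ::ₘ s(m, f) ::ₘ P) = φ ((m, n, d, e) ::ₘ K) (s(n, a) ::ₘ s(b, c) ::ₘ s(m, f) ::ₘ P) :=
    h.fuse n a p _ _ (av_consK.2 ⟨not_mem_legs.2 ⟨H.mp.symm, H.np.symm, H.pd, H.pe⟩, (av_consP.2 ⟨H.pb, H.pc, (av_consP.2 ⟨H.mp.symm, H.pf, H.vp⟩)⟩)⟩) H.np.symm H.pa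
  have e4 : φ ((m, n, d, e) ::ₘ K) (s(n, a) ::ₘ s(b, c) ::ₘ s(m, f) ::ₘ P) = φ ((m, n, d, e) ::ₘ K) (s(a, n) ::ₘ s(b, c) ::ₘ s(m, f) ::ₘ P) :=
    by rw [Sym2.eq_swap (a := n) (b := a)]
  have e5 : φ ((m, n, d, e) ::ₘ K) (s(a, n) ::ₘ s(b, c) ::ₘ s(m, f) ::ₘ P) = φ ((n, m, e, d) ::ₘ K) (s(a, n) ::ₘ s(b, c) ::ₘ s(m, f) ::ₘ P) :=
    h.sy.sw m n d e _ _
  have e6 : φ ((n, m, e, d) ::ₘ K) (s(a, n) ::ₘ s(b, c) ::ₘ s(m, f) ::ₘ P) = φ ((a, m, e, d) ::ₘ K) (s(b, c) ::ₘ s(m, f) ::ₘ P) :=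
    h.absorb a m e d n _ _ (av_consP.2 ⟨H.nb, H.nc, (av_consP.2 ⟨H.mn.symm, H.nf, H.vn⟩)⟩) H.na H.mn.symm H.ne H.nd
  have e7 : φ ((a, m, e, d) ::ₘ K) (s(b, c) ::ₘ s(m, f) ::ₘ P) = φ ((a, m, e, d) ::ₘ K) (s(m, f) ::ₘ s(b, c) ::ₘ P) :=
    by rw [Multiset.cons_swap s(b, c) s(m, f)]
  have e8 : φ ((a, m, e, d) ::ₘ K) (s(m, f) ::ₘ s(b, c) ::ₘ P) = φ ((a, m, e, d) ::ₘ K) (s(f, m) ::ₘ s(b, c) ::ₘ P) :=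
    by rw [Sym2.eq_swap (a := m) (b := f)]
  have e9 : φ ((a, m, e, d) ::ₘ K) (s(f, m) ::ₘ s(b, c) ::ₘ P) = φ ((m, a, d, e) ::ₘ K) (s(f, m) ::ₘ s(b, c) ::ₘ P) :=
    h.sy.sw a m e d _ _
  have e10 : φ ((m, a, d, e) ::ₘ K) (s(f, m) ::ₘ s(b, c) ::ₘ P) = φ ((f, a, d, e) ::ₘ K) (s(b, c) ::ₘ P) :=
    h.absorb f a d e m _ _ (av_consP.2 ⟨H.mb, H.mc, H.vm⟩) H.mf H.ma H.md H.me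
  have e11 : φ ((f, a, d, e) ::ₘ K) (s(b, c) ::ₘ P) = φ ((d, a, f, e) ::ₘ K) (s(b, c) ::ₘ P) :=
    h.sy.fl f a d e _ _
  have e12 : φ ((d, a, f, e) ::ₘ K) (s(b, c) ::ₘ P) = φ ((a, d, e, f) ::ₘ K) (s(b, c) ::ₘ P) :=
    h.sy.sw d a f e _ _
  rw [e0, e1, e2, e3, e4, e5, e6, e7, e8, e9, e10, e11, e12]

theorem st2_Xss (h : Sk φ δ κ β) (H : Fr3 a b c d e f m n p K P) :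
    φ ((b, c, n, p) ::ₘ (a, p, m, f) ::ₘ K) (s(m, e) ::ₘ s(n, d) ::ₘ P) =
      φ ((a, f, e, p) ::ₘ (b, c, d, p) ::ₘ K) P := by
  have e0 : φ ((b, c, n, p) ::ₘ (a, p, m, f) ::ₘ K) (s(m, e) ::ₘ s(n, d) ::ₘ P) = φ ((b, c, n, p) ::ₘ (a, p, m, f) ::ₘ K) (s(n, d) ::ₘ s(m, e) ::ₘ P) :=
    by rw [Multiset.cons_swap s(m, e) s(n, d)]
  have e1 : φ ((b, c, n, p) ::ₘ (a, p, m, f) ::ₘ K) (s(n, d) ::ₘ s(m, e) ::ₘ P) = φ ((b, c, n, p) ::ₘ (a, p, m, f) ::ₘ K) (s(d, n) ::ₘ s(m, e) ::ₘ P) :=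
    by rw [Sym2.eq_swap (a := n) (b := d)]
  have e2 : φ ((b, c, n, p) ::ₘ (a, p, m, f) ::ₘ K) (s(d, n) ::ₘ s(m, e) ::ₘ P) = φ ((n, c, b, p) ::ₘ (a, p, m, f) ::ₘ K) (s(d, n) ::ₘ s(m, e) ::ₘ P) :=
    h.sy.fl b c n p _ _
  have e3 : φ ((n, c, b, p) ::ₘ (a, p, m, f) ::ₘ K) (s(d, n) ::ₘ s(m, e) ::ₘ P) = φ ((d, c, b, p) ::ₘ (a, p, m, f) ::ₘ K) (s(m, e) ::ₘ P) :=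
    h.absorb d c b p n _ _ (av_consK.2 ⟨not_mem_legs.2 ⟨H.na, H.np, H.mn.symm, H.nf⟩, (av_consP.2 ⟨H.mn.symm, H.ne, H.vn⟩)⟩) H.nd H.nc H.nb H.np
  have e4 : φ ((d, c, b, p) ::ₘ (a, p, m, f) ::ₘ K) (s(m, e) ::ₘ P) = φ ((d, c, b, p) ::ₘ (a, p, m, f) ::ₘ K) (s(e, m) ::ₘ P) :=
    by rw [Sym2.eq_swap (a := m) (b := e)]
  have e5 : φ ((d, c, b, p) ::ₘ (a, p, m, f) ::ₘ K) (s(e, m) ::ₘ P) = φ ((a, p, m, f) ::ₘ (d, c, b, p) ::ₘ K) (s(e, m) ::ₘ P) :=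
    by rw [Multiset.cons_swap (d, c, b, p) (a, p, m, f)]
  have e6 : φ ((a, p, m, f) ::ₘ (d, c, b, p) ::ₘ K) (s(e, m) ::ₘ P) = φ ((m, p, a, f) ::ₘ (d, c, b, p) ::ₘ K) (s(e, m) ::ₘ P) :=
    h.sy.fl a p m f _ _
  have e7 : φ ((m, p, a, f) ::ₘ (d, c, b, p) ::ₘ K) (s(e, m) ::ₘ P) = φ ((e, p, a, f) ::ₘ (d, c, b, p) ::ₘ K) P :=
    h.absorb e p a f m _ _ (av_consK.2 ⟨not_mem_legs.2 ⟨H.md, H.mc, H.mb, H.mp⟩, H.vm⟩) H.me H.mp H.ma H.mf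
  have e8 : φ ((e, p, a, f) ::ₘ (d, c, b, p) ::ₘ K) P = φ ((d, c, b, p) ::ₘ (e, p, a, f) ::ₘ K) P :=
    by rw [Multiset.cons_swap (e, p, a, f) (d, c, b, p)]
  have e9 : φ ((d, c, b, p) ::ₘ (e, p, a, f) ::ₘ K) P = φ ((b, c, d, p) ::ₘ (e, p, a, f) ::ₘ K) P :=
    h.sy.fl d c b p _ _
  have e10 : φ ((b, c, d, p) ::ₘ (e, p, a, f) ::ₘ K) P = φ ((e, p, a, f) ::ₘ (b, c, d, p) ::ₘ K) P :=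
    by rw [Multiset.cons_swap (b, c, d, p) (e, p, a, f)]
  have e11 : φ ((e, p, a, f) ::ₘ (b, c, d, p) ::ₘ K) P = φ ((p, e, f, a) ::ₘ (b, c, d, p) ::ₘ K) P :=
    h.sy.sw e p a f _ _
  have e12 : φ ((p, e, f, a) ::ₘ (b, c, d, p) ::ₘ K) P = φ ((f, e, p, a) ::ₘ (b, c, d, p) ::ₘ K) P :=
    h.sy.fl p e f a _ _
  have e13 : φ ((f, e, p, a) ::ₘ (b, c, d, p) ::ₘ K) P = φ ((e, f, a, p) ::ₘ (b, c, d, p) ::ₘ K) P :=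
    h.sy.sw f e p a _ _
  have e14 : φ ((e, f, a, p) ::ₘ (b, c, d, p) ::ₘ K) P = φ ((a, f, e, p) ::ₘ (b, c, d, p) ::ₘ K) P :=
    h.sy.fl e f a p _ _
  rw [e0, e1, e2, e3, e4, e5, e6, e7, e8, e9, e10, e11, e12, e13, e14]

theorem st2_XsX (h : Sk φ δ κ β) (H : Fr3 a b c d e f m n p K P) :
    φ ((a, p, m, f) ::ₘ K) (s(b, p) ::ₘ s(c, n) ::ₘ s(m, e) ::ₘ s(n, d) ::ₘ P) =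
      φ ((a, b, e, f) ::ₘ K) (s(c, d) ::ₘ P) := by
  have e0 : φ ((a, p, m, f) ::ₘ K) (s(b, p) ::ₘ s(c, n) ::ₘ s(m, e) ::ₘ s(n, d) ::ₘ P) = φ ((p, a, f, m) ::ₘ K) (s(b, p) ::ₘ s(c, n) ::ₘ s(m, e) ::ₘ s(n, d) ::ₘ P) :=
    h.sy.sw a p m f _ _
  have e1 : φ ((p, a, f, m) ::ₘ K) (s(b, p) ::ₘ s(c, n) ::ₘ s(m, e) ::ₘ s(n, d) ::ₘ P) = φ ((b, a, f, m) ::ₘ K) (s(c, n) ::ₘ s(m, e) ::ₘ s(n, d) ::ₘ P) :=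
    h.absorb b a f m p _ _ (av_consP.2 ⟨H.pc, H.np.symm, (av_consP.2 ⟨H.mp.symm, H.pe, (av_consP.2 ⟨H.np.symm, H.pd, H.vp⟩)⟩)⟩) H.pb H.pa H.pf H.mp.symm
  have e2 : φ ((b, a, f, m) ::ₘ K) (s(c, n) ::ₘ s(m, e) ::ₘ s(n, d) ::ₘ P) = φ ((b, a, f, m) ::ₘ K) (s(c, n) ::ₘ s(n, d) ::ₘ s(m, e) ::ₘ P) :=
    by rw [Multiset.cons_swap s(m, e) s(n, d)]
  have e3 : φ ((b, a, f, m) ::ₘ K) (s(c, n) ::ₘ s(n, d) ::ₘ s(m, e) ::ₘ P) = φ ((b, a, f, m) ::ₘ K) (s(c, d) ::ₘ s(m, e) ::ₘ P) :=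
    h.fuse c d n _ _ (av_consK.2 ⟨not_mem_legs.2 ⟨H.nb, H.na, H.nf, H.mn.symm⟩, (av_consP.2 ⟨H.mn.symm, H.ne, H.vn⟩)⟩) H.nc H.nd
  have e4 : φ ((b, a, f, m) ::ₘ K) (s(c, d) ::ₘ s(m, e) ::ₘ P) = φ ((b, a, f, m) ::ₘ K) (s(m, e) ::ₘ s(c, d) ::ₘ P) :=
    by rw [Multiset.cons_swap s(c, d) s(m, e)]
  have e5 : φ ((b, a, f, m) ::ₘ K) (s(m, e) ::ₘ s(c, d) ::ₘ P) = φ ((b, a, f, m) ::ₘ K) (s(e, m) ::ₘ s(c, d) ::ₘ P) :=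
    by rw [Sym2.eq_swap (a := m) (b := e)]
  have e6 : φ ((b, a, f, m) ::ₘ K) (s(e, m) ::ₘ s(c, d) ::ₘ P) = φ ((a, b, m, f) ::ₘ K) (s(e, m) ::ₘ s(c, d) ::ₘ P) :=
    h.sy.sw b a f m _ _
  have e7 : φ ((a, b, m, f) ::ₘ K) (s(e, m) ::ₘ s(c, d) ::ₘ P) = φ ((m, b, a, f) ::ₘ K) (s(e, m) ::ₘ s(c, d) ::ₘ P) :=
    h.sy.fl a b m f _ _
  have e8 : φ ((m, b, a, f) ::ₘ K) (s(e, m) ::ₘ s(c, d) ::ₘ P) = φ ((e, b, a, f) ::ₘ K) (s(c, d) ::ₘ P) :=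
    h.absorb e b a f m _ _ (av_consP.2 ⟨H.mc, H.md, H.vm⟩) H.me H.mb H.ma H.mf
  have e9 : φ ((e, b, a, f) ::ₘ K) (s(c, d) ::ₘ P) = φ ((a, b, e, f) ::ₘ K) (s(c, d) ::ₘ P) :=
    h.sy.fl e b a f _ _
  rw [e0, e1, e2, e3, e4, e5, e6, e7, e8, e9]

theorem st2_XsY (h : Sk φ δ κ β) (H : Fr3 a b c d e f m n p K P) :
    φ ((a, p, m, f) ::ₘ K) (s(b, c) ::ₘ s(n, p) ::ₘ s(m, e) ::ₘ s(n, d) ::ₘ P) =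
      φ ((a, d, e, f) ::ₘ K) (s(b, c) ::ₘ P) := by
  have e0 : φ ((a, p, m, f) ::ₘ K) (s(b, c) ::ₘ s(n, p) ::ₘ s(m, e) ::ₘ s(n, d) ::ₘ P) = φ ((a, p, m, f) ::ₘ K) (s(n, p) ::ₘ s(b, c) ::ₘ s(m, e) ::ₘ s(n, d) ::ₘ P) :=
    by rw [Multiset.cons_swap s(b, c) s(n, p)]
  have e1 : φ ((a, p, m, f) ::ₘ K) (s(n, p) ::ₘ s(b, c) ::ₘ s(m, e) ::ₘ s(n, d) ::ₘ P) = φ ((p, a, f, m) ::ₘ K) (s(n, p) ::ₘ s(b, c) ::ₘ s(m, e) ::ₘ s(n, d) ::ₘ P) :=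
    h.sy.sw a p m f _ _
  have e2 : φ ((p, a, f, m) ::ₘ K) (s(n, p) ::ₘ s(b, c) ::ₘ s(m, e) ::ₘ s(n, d) ::ₘ P) = φ ((n, a, f, m) ::ₘ K) (s(b, c) ::ₘ s(m, e) ::ₘ s(n, d) ::ₘ P) :=
    h.absorb n a f m p _ _ (av_consP.2 ⟨H.pb, H.pc, (av_consP.2 ⟨H.mp.symm, H.pe, (av_consP.2 ⟨H.np.symm, H.pd, H.vp⟩)⟩)⟩) H.np.symm H.pa H.pf H.mp.symm
  have e3 : φ ((n, a, f, m) ::ₘ K) (s(b, c) ::ₘ s(m, e) ::ₘ s(n, d) ::ₘ P) = φ ((n, a, f, m) ::ₘ K) (s(b, c) ::ₘ s(n, d) ::ₘ s(m, e) ::ₘ P) :=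
    by rw [Multiset.cons_swap s(m, e) s(n, d)]
  have e4 : φ ((n, a, f, m) ::ₘ K) (s(b, c) ::ₘ s(n, d) ::ₘ s(m, e) ::ₘ P) = φ ((n, a, f, m) ::ₘ K) (s(n, d) ::ₘ s(b, c) ::ₘ s(m, e) ::ₘ P) :=
    by rw [Multiset.cons_swap s(b, c) s(n, d)]
  have e5 : φ ((n, a, f, m) ::ₘ K) (s(n, d) ::ₘ s(b, c) ::ₘ s(m, e) ::ₘ P) = φ ((n, a, f, m) ::ₘ K) (s(d, n) ::ₘ s(b, c) ::ₘ s(m, e) ::ₘ P) :=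
    by rw [Sym2.eq_swap (a := n) (b := d)]
  have e6 : φ ((n, a, f, m) ::ₘ K) (s(d, n) ::ₘ s(b, c) ::ₘ s(m, e) ::ₘ P) = φ ((d, a, f, m) ::ₘ K) (s(b, c) ::ₘ s(m, e) ::ₘ P) :=
    h.absorb d a f m n _ _ (av_consP.2 ⟨H.nb, H.nc, (av_consP.2 ⟨H.mn.symm, H.ne, H.vn⟩)⟩) H.nd H.na H.nf H.mn.symm
  have e7 : φ ((d, a, f, m) ::ₘ K) (s(b, c) ::ₘ s(m, e) ::ₘ P) = φ ((d, a, f, m) ::ₘ K) (s(m, e) ::ₘ s(b, c) ::ₘ P) :=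
    by rw [Multiset.cons_swap s(b, c) s(m, e)]
  have e8 : φ ((d, a, f, m) ::ₘ K) (s(m, e) ::ₘ s(b, c) ::ₘ P) = φ ((d, a, f, m) ::ₘ K) (s(e, m) ::ₘ s(b, c) ::ₘ P) :=
    by rw [Sym2.eq_swap (a := m) (b := e)]
  have e9 : φ ((d, a, f, m) ::ₘ K) (s(e, m) ::ₘ s(b, c) ::ₘ P) = φ ((a, d, m, f) ::ₘ K) (s(e, m) ::ₘ s(b, c) ::ₘ P) :=
    h.sy.sw d a f m _ _
  have e10 : φ ((a, d, m, f) ::ₘ K) (s(e, m) ::ₘ s(b, c) ::ₘ P) = φ ((m, d, a, f) ::ₘ K) (s(e, m) ::ₘ s(b, c) ::ₘ P) :=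
    h.sy.fl a d m f _ _
  have e11 : φ ((m, d, a, f) ::ₘ K) (s(e, m) ::ₘ s(b, c) ::ₘ P) = φ ((e, d, a, f) ::ₘ K) (s(b, c) ::ₘ P) :=
    h.absorb e d a f m _ _ (av_consP.2 ⟨H.mb, H.mc, H.vm⟩) H.me H.md H.ma H.mf
  have e12 : φ ((e, d, a, f) ::ₘ K) (s(b, c) ::ₘ P) = φ ((a, d, e, f) ::ₘ K) (s(b, c) ::ₘ P) :=
    h.sy.fl e d a f _ _
  rw [e0, e1, e2, e3, e4, e5, e6, e7, e8, e9, e10, e11, e12]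

theorem st2_XXs (h : Sk φ δ κ β) (H : Fr3 a b c d e f m n p K P) :
    φ ((b, c, n, p) ::ₘ K) (s(a, f) ::ₘ s(p, m) ::ₘ s(m, e) ::ₘ s(n, d) ::ₘ P) =
      φ ((b, c, d, e) ::ₘ K) (s(a, f) ::ₘ P) := by
  have e0 : φ ((b, c, n, p) ::ₘ K) (s(a, f) ::ₘ s(p, m) ::ₘ s(m, e) ::ₘ s(n, d) ::ₘ P) = φ ((b, c, n, p) ::ₘ K) (s(p, m) ::ₘ s(a, f) ::ₘ s(m, e) ::ₘ s(n, d) ::ₘ P) :=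
    by rw [Multiset.cons_swap s(a, f) s(p, m)]
  have e1 : φ ((b, c, n, p) ::ₘ K) (s(p, m) ::ₘ s(a, f) ::ₘ s(m, e) ::ₘ s(n, d) ::ₘ P) = φ ((b, c, n, p) ::ₘ K) (s(m, p) ::ₘ s(a, f) ::ₘ s(m, e) ::ₘ s(n, d) ::ₘ P) :=
    by rw [Sym2.eq_swap (a := p) (b := m)]
  have e2 : φ ((b, c, n, p) ::ₘ K) (s(m, p) ::ₘ s(a, f) ::ₘ s(m, e) ::ₘ s(n, d) ::ₘ P) = φ ((c, b, p, n) ::ₘ K) (s(m, p) ::ₘ s(a, f) ::ₘ s(m, e) ::ₘ s(n, d) ::ₘ P) :=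
    h.sy.sw b c n p _ _
  have e3 : φ ((c, b, p, n) ::ₘ K) (s(m, p) ::ₘ s(a, f) ::ₘ s(m, e) ::ₘ s(n, d) ::ₘ P) = φ ((p, b, c, n) ::ₘ K) (s(m, p) ::ₘ s(a, f) ::ₘ s(m, e) ::ₘ s(n, d) ::ₘ P) :=
    h.sy.fl c b p n _ _
  have e4 : φ ((p, b, c, n) ::ₘ K) (s(m, p) ::ₘ s(a, f) ::ₘ s(m, e) ::ₘ s(n, d) ::ₘ P) = φ ((m, b, c, n) ::ₘ K) (s(a, f) ::ₘ s(m, e) ::ₘ s(n, d) ::ₘ P) :=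
    h.absorb m b c n p _ _ (av_consP.2 ⟨H.pa, H.pf, (av_consP.2 ⟨H.mp.symm, H.pe, (av_consP.2 ⟨H.np.symm, H.pd, H.vp⟩)⟩)⟩) H.mp.symm H.pb H.pc H.np.symm
  have e5 : φ ((m, b, c, n) ::ₘ K) (s(a, f) ::ₘ s(m, e) ::ₘ s(n, d) ::ₘ P) = φ ((m, b, c, n) ::ₘ K) (s(a, f) ::ₘ s(n, d) ::ₘ s(m, e) ::ₘ P) :=
    by rw [Multiset.cons_swap s(m, e) s(n, d)]
  have e6 : φ ((m, b, c, n) ::ₘ K) (s(a, f) ::ₘ s(n, d) ::ₘ s(m, e) ::ₘ P) = φ ((m, b, c, n) ::ₘ K) (s(n, d) ::ₘ s(a, f) ::ₘ s(m, e) ::ₘ P) :=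
    by rw [Multiset.cons_swap s(a, f) s(n, d)]
  have e7 : φ ((m, b, c, n) ::ₘ K) (s(n, d) ::ₘ s(a, f) ::ₘ s(m, e) ::ₘ P) = φ ((m, b, c, n) ::ₘ K) (s(d, n) ::ₘ s(a, f) ::ₘ s(m, e) ::ₘ P) :=
    by rw [Sym2.eq_swap (a := n) (b := d)]
  have e8 : φ ((m, b, c, n) ::ₘ K) (s(d, n) ::ₘ s(a, f) ::ₘ s(m, e) ::ₘ P) = φ ((b, m, n, c) ::ₘ K) (s(d, n) ::ₘ s(a, f) ::ₘ s(m, e) ::ₘ P) :=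
    h.sy.sw m b c n _ _
  have e9 : φ ((b, m, n, c) ::ₘ K) (s(d, n) ::ₘ s(a, f) ::ₘ s(m, e) ::ₘ P) = φ ((n, m, b, c) ::ₘ K) (s(d, n) ::ₘ s(a, f) ::ₘ s(m, e) ::ₘ P) :=
    h.sy.fl b m n c _ _
  have e10 : φ ((n, m, b, c) ::ₘ K) (s(d, n) ::ₘ s(a, f) ::ₘ s(m, e) ::ₘ P) = φ ((d, m, b, c) ::ₘ K) (s(a, f) ::ₘ s(m, e) ::ₘ P) :=
    h.absorb d m b c n _ _ (av_consP.2 ⟨H.na, H.nf, (av_consP.2 ⟨H.mn.symm, H.ne, H.vn⟩)⟩) H.nd H.mn.symm H.nb H.nc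
  have e11 : φ ((d, m, b, c) ::ₘ K) (s(a, f) ::ₘ s(m, e) ::ₘ P) = φ ((d, m, b, c) ::ₘ K) (s(m, e) ::ₘ s(a, f) ::ₘ P) :=
    by rw [Multiset.cons_swap s(a, f) s(m, e)]
  have e12 : φ ((d, m, b, c) ::ₘ K) (s(m, e) ::ₘ s(a, f) ::ₘ P) = φ ((d, m, b, c) ::ₘ K) (s(e, m) ::ₘ s(a, f) ::ₘ P) :=
    by rw [Sym2.eq_swap (a := m) (b := e)]
  have e13 : φ ((d, m, b, c) ::ₘ K) (s(e, m) ::ₘ s(a, f) ::ₘ P) = φ ((m, d, c, b) ::ₘ K) (s(e, m) ::ₘ s(a, f) ::ₘ P) :=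
    h.sy.sw d m b c _ _
  have e14 : φ ((m, d, c, b) ::ₘ K) (s(e, m) ::ₘ s(a, f) ::ₘ P) = φ ((e, d, c, b) ::ₘ K) (s(a, f) ::ₘ P) :=
    h.absorb e d c b m _ _ (av_consP.2 ⟨H.ma, H.mf, H.vm⟩) H.me H.md H.mc H.mb
  have e15 : φ ((e, d, c, b) ::ₘ K) (s(a, f) ::ₘ P) = φ ((c, d, e, b) ::ₘ K) (s(a, f) ::ₘ P) :=
    h.sy.fl e d c b _ _
  have e16 : φ ((c, d, e, b) ::ₘ K) (s(a, f) ::ₘ P) = φ ((d, c, b, e) ::ₘ K) (s(a, f) ::ₘ P) :=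
    h.sy.sw c d e b _ _
  have e17 : φ ((d, c, b, e) ::ₘ K) (s(a, f) ::ₘ P) = φ ((b, c, d, e) ::ₘ K) (s(a, f) ::ₘ P) :=
    h.sy.fl d c b e _ _
  rw [e0, e1, e2, e3, e4, e5, e6, e7, e8, e9, e10, e11, e12, e13, e14, e15, e16, e17]

theorem st2_XXX (h : Sk φ δ κ β) (H : Fr3 a b c d e f m n p K P) :
    φ K (s(b, p) ::ₘ s(c, n) ::ₘ s(a, f) ::ₘ s(p, m) ::ₘ s(m, e) ::ₘ s(n, d) ::ₘ P) =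
      φ K (s(a, f) ::ₘ s(b, e) ::ₘ s(c, d) ::ₘ P) := by
  have e0 : φ K (s(b, p) ::ₘ s(c, n) ::ₘ s(a, f) ::ₘ s(p, m) ::ₘ s(m, e) ::ₘ s(n, d) ::ₘ P) = φ K (s(b, p) ::ₘ s(c, n) ::ₘ s(p, m) ::ₘ s(a, f) ::ₘ s(m, e) ::ₘ s(n, d) ::ₘ P) :=
    by rw [Multiset.cons_swap s(a, f) s(p, m)]
  have e1 : φ K (s(b, p) ::ₘ s(c, n) ::ₘ s(p, m) ::ₘ s(a, f) ::ₘ s(m, e) ::ₘ s(n, d) ::ₘ P) = φ K (s(b, p) ::ₘ s(p, m) ::ₘ s(c, n) ::ₘ s(a, f) ::ₘ s(m, e) ::ₘ s(n, d) ::ₘ P) :=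
    by rw [Multiset.cons_swap s(c, n) s(p, m)]
  have e2 : φ K (s(b, p) ::ₘ s(p, m) ::ₘ s(c, n) ::ₘ s(a, f) ::ₘ s(m, e) ::ₘ s(n, d) ::ₘ P) = φ K (s(b, m) ::ₘ s(c, n) ::ₘ s(a, f) ::ₘ s(m, e) ::ₘ s(n, d) ::ₘ P) :=
    h.fuse b m p _ _ (av_consP.2 ⟨H.pc, H.np.symm, (av_consP.2 ⟨H.pa, H.pf, (av_consP.2 ⟨H.mp.symm, H.pe, (av_consP.2 ⟨H.np.symm, H.pd, H.vp⟩)⟩)⟩)⟩) H.pb H.mp.symm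
  have e3 : φ K (s(b, m) ::ₘ s(c, n) ::ₘ s(a, f) ::ₘ s(m, e) ::ₘ s(n, d) ::ₘ P) = φ K (s(c, n) ::ₘ s(b, m) ::ₘ s(a, f) ::ₘ s(m, e) ::ₘ s(n, d) ::ₘ P) :=
    by rw [Multiset.cons_swap s(b, m) s(c, n)]
  have e4 : φ K (s(c, n) ::ₘ s(b, m) ::ₘ s(a, f) ::ₘ s(m, e) ::ₘ s(n, d) ::ₘ P) = φ K (s(c, n) ::ₘ s(b, m) ::ₘ s(a, f) ::ₘ s(n, d) ::ₘ s(m, e) ::ₘ P) :=
    by rw [Multiset.cons_swap s(m, e) s(n, d)]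
  have e5 : φ K (s(c, n) ::ₘ s(b, m) ::ₘ s(a, f) ::ₘ s(n, d) ::ₘ s(m, e) ::ₘ P) = φ K (s(c, n) ::ₘ s(b, m) ::ₘ s(n, d) ::ₘ s(a, f) ::ₘ s(m, e) ::ₘ P) :=
    by rw [Multiset.cons_swap s(a, f) s(n, d)]
  have e6 : φ K (s(c, n) ::ₘ s(b, m) ::ₘ s(n, d) ::ₘ s(a, f) ::ₘ s(m, e) ::ₘ P) = φ K (s(c, n) ::ₘ s(n, d) ::ₘ s(b, m) ::ₘ s(a, f) ::ₘ s(m, e) ::ₘ P) :=
    by rw [Multiset.cons_swap s(b, m) s(n, d)]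
  have e7 : φ K (s(c, n) ::ₘ s(n, d) ::ₘ s(b, m) ::ₘ s(a, f) ::ₘ s(m, e) ::ₘ P) = φ K (s(c, d) ::ₘ s(b, m) ::ₘ s(a, f) ::ₘ s(m, e) ::ₘ P) :=
    h.fuse c d n _ _ (av_consP.2 ⟨H.nb, H.mn.symm, (av_consP.2 ⟨H.na, H.nf, (av_consP.2 ⟨H.mn.symm, H.ne, H.vn⟩)⟩)⟩) H.nc H.nd
  have e8 : φ K (s(c, d) ::ₘ s(b, m) ::ₘ s(a, f) ::ₘ s(m, e) ::ₘ P) = φ K (s(b, m) ::ₘ s(c, d) ::ₘ s(a, f) ::ₘ s(m, e) ::ₘ P) :=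
    by rw [Multiset.cons_swap s(c, d) s(b, m)]
  have e9 : φ K (s(b, m) ::ₘ s(c, d) ::ₘ s(a, f) ::ₘ s(m, e) ::ₘ P) = φ K (s(b, m) ::ₘ s(c, d) ::ₘ s(m, e) ::ₘ s(a, f) ::ₘ P) :=
    by rw [Multiset.cons_swap s(a, f) s(m, e)]
  have e10 : φ K (s(b, m) ::ₘ s(c, d) ::ₘ s(m, e) ::ₘ s(a, f) ::ₘ P) = φ K (s(b, m) ::ₘ s(m, e) ::ₘ s(c, d) ::ₘ s(a, f) ::ₘ P) :=
    by rw [Multiset.cons_swap s(c, d) s(m, e)]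
  have e11 : φ K (s(b, m) ::ₘ s(m, e) ::ₘ s(c, d) ::ₘ s(a, f) ::ₘ P) = φ K (s(b, e) ::ₘ s(c, d) ::ₘ s(a, f) ::ₘ P) :=
    h.fuse b e m _ _ (av_consP.2 ⟨H.mc, H.md, (av_consP.2 ⟨H.ma, H.mf, H.vm⟩)⟩) H.mb H.me
  have e12 : φ K (s(b, e) ::ₘ s(c, d) ::ₘ s(a, f) ::ₘ P) = φ K (s(b, e) ::ₘ s(a, f) ::ₘ s(c, d) ::ₘ P) :=
    by rw [Multiset.cons_swap s(c, d) s(a, f)]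
  have e13 : φ K (s(b, e) ::ₘ s(a, f) ::ₘ s(c, d) ::ₘ P) = φ K (s(a, f) ::ₘ s(b, e) ::ₘ s(c, d) ::ₘ P) :=
    by rw [Multiset.cons_swap s(b, e) s(a, f)]
  rw [e0, e1, e2, e3, e4, e5, e6, e7, e8, e9, e10, e11, e12, e13]

theorem st2_XXY (h : Sk φ δ κ β) (H : Fr3 a b c d e f m n p K P) :
    φ K (s(b, c) ::ₘ s(n, p) ::ₘ s(a, f) ::ₘ s(p, m) ::ₘ s(m, e) ::ₘ s(n, d) ::ₘ P) =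
      φ K (s(a, f) ::ₘ s(b, c) ::ₘ s(d, e) ::ₘ P) := by
  have e0 : φ K (s(b, c) ::ₘ s(n, p) ::ₘ s(a, f) ::ₘ s(p, m) ::ₘ s(m, e) ::ₘ s(n, d) ::ₘ P) = φ K (s(n, p) ::ₘ s(b, c) ::ₘ s(a, f) ::ₘ s(p, m) ::ₘ s(m, e) ::ₘ s(n, d) ::ₘ P) :=
    by rw [Multiset.cons_swap s(b, c) s(n, p)]
  have e1 : φ K (s(n, p) ::ₘ s(b, c) ::ₘ s(a, f) ::ₘ s(p, m) ::ₘ s(m, e) ::ₘ s(n, d) ::ₘ P) = φ K (s(n, p) ::ₘ s(b, c) ::ₘ s(p, m) ::ₘ s(a, f) ::ₘ s(m, e) ::ₘ s(n, d) ::ₘ P) :=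
    by rw [Multiset.cons_swap s(a, f) s(p, m)]
  have e2 : φ K (s(n, p) ::ₘ s(b, c) ::ₘ s(p, m) ::ₘ s(a, f) ::ₘ s(m, e) ::ₘ s(n, d) ::ₘ P) = φ K (s(n, p) ::ₘ s(p, m) ::ₘ s(b, c) ::ₘ s(a, f) ::ₘ s(m, e) ::ₘ s(n, d) ::ₘ P) :=
    by rw [Multiset.cons_swap s(b, c) s(p, m)]
  have e3 : φ K (s(n, p) ::ₘ s(p, m) ::ₘ s(b, c) ::ₘ s(a, f) ::ₘ s(m, e) ::ₘ s(n, d) ::ₘ P) = φ K (s(n, m) ::ₘ s(b, c) ::ₘ s(a, f) ::ₘ s(m, e) ::ₘ s(n, d) ::ₘ P) :=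
    h.fuse n m p _ _ (av_consP.2 ⟨H.pb, H.pc, (av_consP.2 ⟨H.pa, H.pf, (av_consP.2 ⟨H.mp.symm, H.pe, (av_consP.2 ⟨H.np.symm, H.pd, H.vp⟩)⟩)⟩)⟩) H.np.symm H.mp.symm
  have e4 : φ K (s(n, m) ::ₘ s(b, c) ::ₘ s(a, f) ::ₘ s(m, e) ::ₘ s(n, d) ::ₘ P) = φ K (s(n, m) ::ₘ s(b, c) ::ₘ s(a, f) ::ₘ s(n, d) ::ₘ s(m, e) ::ₘ P) :=
    by rw [Multiset.cons_swap s(m, e) s(n, d)]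
  have e5 : φ K (s(n, m) ::ₘ s(b, c) ::ₘ s(a, f) ::ₘ s(n, d) ::ₘ s(m, e) ::ₘ P) = φ K (s(n, m) ::ₘ s(b, c) ::ₘ s(n, d) ::ₘ s(a, f) ::ₘ s(m, e) ::ₘ P) :=
    by rw [Multiset.cons_swap s(a, f) s(n, d)]
  have e6 : φ K (s(n, m) ::ₘ s(b, c) ::ₘ s(n, d) ::ₘ s(a, f) ::ₘ s(m, e) ::ₘ P) = φ K (s(n, m) ::ₘ s(n, d) ::ₘ s(b, c) ::ₘ s(a, f) ::ₘ s(m, e) ::ₘ P) :=
    by rw [Multiset.cons_swap s(b, c) s(n, d)]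
  have e7 : φ K (s(n, m) ::ₘ s(n, d) ::ₘ s(b, c) ::ₘ s(a, f) ::ₘ s(m, e) ::ₘ P) = φ K (s(m, n) ::ₘ s(n, d) ::ₘ s(b, c) ::ₘ s(a, f) ::ₘ s(m, e) ::ₘ P) :=
    by rw [Sym2.eq_swap (a := n) (b := m)]
  have e8 : φ K (s(m, n) ::ₘ s(n, d) ::ₘ s(b, c) ::ₘ s(a, f) ::ₘ s(m, e) ::ₘ P) = φ K (s(m, d) ::ₘ s(b, c) ::ₘ s(a, f) ::ₘ s(m, e) ::ₘ P) :=
    h.fuse m d n _ _ (av_consP.2 ⟨H.nb, H.nc, (av_consP.2 ⟨H.na, H.nf, (av_consP.2 ⟨H.mn.symm, H.ne, H.vn⟩)⟩)⟩) H.mn.symm H.nd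
  have e9 : φ K (s(m, d) ::ₘ s(b, c) ::ₘ s(a, f) ::ₘ s(m, e) ::ₘ P) = φ K (s(m, d) ::ₘ s(b, c) ::ₘ s(m, e) ::ₘ s(a, f) ::ₘ P) :=
    by rw [Multiset.cons_swap s(a, f) s(m, e)]
  have e10 : φ K (s(m, d) ::ₘ s(b, c) ::ₘ s(m, e) ::ₘ s(a, f) ::ₘ P) = φ K (s(m, d) ::ₘ s(m, e) ::ₘ s(b, c) ::ₘ s(a, f) ::ₘ P) :=
    by rw [Multiset.cons_swap s(b, c) s(m, e)]
  have e11 : φ K (s(m, d) ::ₘ s(m, e) ::ₘ s(b, c) ::ₘ s(a, f) ::ₘ P) = φ K (s(d, m) ::ₘ s(m, e) ::ₘ s(b, c) ::ₘ s(a, f) ::ₘ P) :=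
    by rw [Sym2.eq_swap (a := m) (b := d)]
  have e12 : φ K (s(d, m) ::ₘ s(m, e) ::ₘ s(b, c) ::ₘ s(a, f) ::ₘ P) = φ K (s(d, e) ::ₘ s(b, c) ::ₘ s(a, f) ::ₘ P) :=
    h.fuse d e m _ _ (av_consP.2 ⟨H.mb, H.mc, (av_consP.2 ⟨H.ma, H.mf, H.vm⟩)⟩) H.md H.me
  have e13 : φ K (s(d, e) ::ₘ s(b, c) ::ₘ s(a, f) ::ₘ P) = φ K (s(d, e) ::ₘ s(a, f) ::ₘ s(b, c) ::ₘ P) :=
    by rw [Multiset.cons_swap s(b, c) s(a, f)]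
  have e14 : φ K (s(d, e) ::ₘ s(a, f) ::ₘ s(b, c) ::ₘ P) = φ K (s(a, f) ::ₘ s(d, e) ::ₘ s(b, c) ::ₘ P) :=
    by rw [Multiset.cons_swap s(d, e) s(a, f)]
  have e15 : φ K (s(a, f) ::ₘ s(d, e) ::ₘ s(b, c) ::ₘ P) = φ K (s(a, f) ::ₘ s(b, c) ::ₘ s(d, e) ::ₘ P) :=
    by rw [Multiset.cons_swap s(d, e) s(b, c)]
  rw [e0, e1, e2, e3, e4, e5, e6, e7, e8, e9, e10, e11, e12, e13, e14, e15]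

theorem st2_XYs (h : Sk φ δ κ β) (H : Fr3 a b c d e f m n p K P) :
    φ ((b, c, n, p) ::ₘ K) (s(a, p) ::ₘ s(m, f) ::ₘ s(m, e) ::ₘ s(n, d) ::ₘ P) =
      φ ((a, b, c, d) ::ₘ K) (s(e, f) ::ₘ P) := by
  have e0 : φ ((b, c, n, p) ::ₘ K) (s(a, p) ::ₘ s(m, f) ::ₘ s(m, e) ::ₘ s(n, d) ::ₘ P) = φ ((c, b, p, n) ::ₘ K) (s(a, p) ::ₘ s(m, f) ::ₘ s(m, e) ::ₘ s(n, d) ::ₘ P) :=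
    h.sy.sw b c n p _ _
  have e1 : φ ((c, b, p, n) ::ₘ K) (s(a, p) ::ₘ s(m, f) ::ₘ s(m, e) ::ₘ s(n, d) ::ₘ P) = φ ((p, b, c, n) ::ₘ K) (s(a, p) ::ₘ s(m, f) ::ₘ s(m, e) ::ₘ s(n, d) ::ₘ P) :=
    h.sy.fl c b p n _ _
  have e2 : φ ((p, b, c, n) ::ₘ K) (s(a, p) ::ₘ s(m, f) ::ₘ s(m, e) ::ₘ s(n, d) ::ₘ P) = φ ((a, b, c, n) ::ₘ K) (s(m, f) ::ₘ s(m, e) ::ₘ s(n, d) ::ₘ P) :=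
    h.absorb a b c n p _ _ (av_consP.2 ⟨H.mp.symm, H.pf, (av_consP.2 ⟨H.mp.symm, H.pe, (av_consP.2 ⟨H.np.symm, H.pd, H.vp⟩)⟩)⟩) H.pa H.pb H.pc H.np.symm
  have e3 : φ ((a, b, c, n) ::ₘ K) (s(m, f) ::ₘ s(m, e) ::ₘ s(n, d) ::ₘ P) = φ ((a, b, c, n) ::ₘ K) (s(m, f) ::ₘ s(n, d) ::ₘ s(m, e) ::ₘ P) :=
    by rw [Multiset.cons_swap s(m, e) s(n, d)]
  have e4 : φ ((a, b, c, n) ::ₘ K) (s(m, f) ::ₘ s(n, d) ::ₘ s(m, e) ::ₘ P) = φ ((a, b, c, n) ::ₘ K) (s(n, d) ::ₘ s(m, f) ::ₘ s(m, e) ::ₘ P) :=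
    by rw [Multiset.cons_swap s(m, f) s(n, d)]
  have e5 : φ ((a, b, c, n) ::ₘ K) (s(n, d) ::ₘ s(m, f) ::ₘ s(m, e) ::ₘ P) = φ ((a, b, c, n) ::ₘ K) (s(d, n) ::ₘ s(m, f) ::ₘ s(m, e) ::ₘ P) :=
    by rw [Sym2.eq_swap (a := n) (b := d)]
  have e6 : φ ((a, b, c, n) ::ₘ K) (s(d, n) ::ₘ s(m, f) ::ₘ s(m, e) ::ₘ P) = φ ((b, a, n, c) ::ₘ K) (s(d, n) ::ₘ s(m, f) ::ₘ s(m, e) ::ₘ P) :=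
    h.sy.sw a b c n _ _
  have e7 : φ ((b, a, n, c) ::ₘ K) (s(d, n) ::ₘ s(m, f) ::ₘ s(m, e) ::ₘ P) = φ ((n, a, b, c) ::ₘ K) (s(d, n) ::ₘ s(m, f) ::ₘ s(m, e) ::ₘ P) :=
    h.sy.fl b a n c _ _
  have e8 : φ ((n, a, b, c) ::ₘ K) (s(d, n) ::ₘ s(m, f) ::ₘ s(m, e) ::ₘ P) = φ ((d, a, b, c) ::ₘ K) (s(m, f) ::ₘ s(m, e) ::ₘ P) :=
    h.absorb d a b c n _ _ (av_consP.2 ⟨H.mn.symm, H.nf, (av_consP.2 ⟨H.mn.symm, H.ne, H.vn⟩)⟩) H.nd H.na H.nb H.nc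
  have e9 : φ ((d, a, b, c) ::ₘ K) (s(m, f) ::ₘ s(m, e) ::ₘ P) = φ ((d, a, b, c) ::ₘ K) (s(f, m) ::ₘ s(m, e) ::ₘ P) :=
    by rw [Sym2.eq_swap (a := m) (b := f)]
  have e10 : φ ((d, a, b, c) ::ₘ K) (s(f, m) ::ₘ s(m, e) ::ₘ P) = φ ((d, a, b, c) ::ₘ K) (s(f, e) ::ₘ P) :=
    h.fuse f e m _ _ (av_consK.2 ⟨not_mem_legs.2 ⟨H.md, H.ma, H.mb, H.mc⟩, H.vm⟩) H.mf H.me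
  have e11 : φ ((d, a, b, c) ::ₘ K) (s(f, e) ::ₘ P) = φ ((d, a, b, c) ::ₘ K) (s(e, f) ::ₘ P) :=
    by rw [Sym2.eq_swap (a := f) (b := e)]
  have e12 : φ ((d, a, b, c) ::ₘ K) (s(e, f) ::ₘ P) = φ ((b, a, d, c) ::ₘ K) (s(e, f) ::ₘ P) :=
    h.sy.fl d a b c _ _
  have e13 : φ ((b, a, d, c) ::ₘ K) (s(e, f) ::ₘ P) = φ ((a, b, c, d) ::ₘ K) (s(e, f) ::ₘ P) :=
    h.sy.sw b a d c _ _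
  rw [e0, e1, e2, e3, e4, e5, e6, e7, e8, e9, e10, e11, e12, e13]

theorem st2_XYX (h : Sk φ δ κ β) (H : Fr3 a b c d e f m n p K P) :
    φ K (s(b, p) ::ₘ s(c, n) ::ₘ s(a, p) ::ₘ s(m, f) ::ₘ s(m, e) ::ₘ s(n, d) ::ₘ P) =
      φ K (s(a, b) ::ₘ s(c, d) ::ₘ s(e, f) ::ₘ P) := by
  have e0 : φ K (s(b, p) ::ₘ s(c, n) ::ₘ s(a, p) ::ₘ s(m, f) ::ₘ s(m, e) ::ₘ s(n, d) ::ₘ P) = φ K (s(b, p) ::ₘ s(a, p) ::ₘ s(c, n) ::ₘ s(m, f) ::ₘ s(m, e) ::ₘ s(n, d) ::ₘ P) :=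
    by rw [Multiset.cons_swap s(c, n) s(a, p)]
  have e1 : φ K (s(b, p) ::ₘ s(a, p) ::ₘ s(c, n) ::ₘ s(m, f) ::ₘ s(m, e) ::ₘ s(n, d) ::ₘ P) = φ K (s(b, p) ::ₘ s(p, a) ::ₘ s(c, n) ::ₘ s(m, f) ::ₘ s(m, e) ::ₘ s(n, d) ::ₘ P) :=
    by rw [Sym2.eq_swap (a := a) (b := p)]
  have e2 : φ K (s(b, p) ::ₘ s(p, a) ::ₘ s(c, n) ::ₘ s(m, f) ::ₘ s(m, e) ::ₘ s(n, d) ::ₘ P) = φ K (s(b, a) ::ₘ s(c, n) ::ₘ s(m, f) ::ₘ s(m, e) ::ₘ s(n, d) ::ₘ P) :=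
    h.fuse b a p _ _ (av_consP.2 ⟨H.pc, H.np.symm, (av_consP.2 ⟨H.mp.symm, H.pf, (av_consP.2 ⟨H.mp.symm, H.pe, (av_consP.2 ⟨H.np.symm, H.pd, H.vp⟩)⟩)⟩)⟩) H.pb H.pa
  have e3 : φ K (s(b, a) ::ₘ s(c, n) ::ₘ s(m, f) ::ₘ s(m, e) ::ₘ s(n, d) ::ₘ P) = φ K (s(c, n) ::ₘ s(b, a) ::ₘ s(m, f) ::ₘ s(m, e) ::ₘ s(n, d) ::ₘ P) :=
    by rw [Multiset.cons_swap s(b, a) s(c, n)]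
  have e4 : φ K (s(c, n) ::ₘ s(b, a) ::ₘ s(m, f) ::ₘ s(m, e) ::ₘ s(n, d) ::ₘ P) = φ K (s(c, n) ::ₘ s(b, a) ::ₘ s(m, f) ::ₘ s(n, d) ::ₘ s(m, e) ::ₘ P) :=
    by rw [Multiset.cons_swap s(m, e) s(n, d)]
  have e5 : φ K (s(c, n) ::ₘ s(b, a) ::ₘ s(m, f) ::ₘ s(n, d) ::ₘ s(m, e) ::ₘ P) = φ K (s(c, n) ::ₘ s(b, a) ::ₘ s(n, d) ::ₘ s(m, f) ::ₘ s(m, e) ::ₘ P) :=
    by rw [Multiset.cons_swap s(m, f) s(n, d)]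
  have e6 : φ K (s(c, n) ::ₘ s(b, a) ::ₘ s(n, d) ::ₘ s(m, f) ::ₘ s(m, e) ::ₘ P) = φ K (s(c, n) ::ₘ s(n, d) ::ₘ s(b, a) ::ₘ s(m, f) ::ₘ s(m, e) ::ₘ P) :=
    by rw [Multiset.cons_swap s(b, a) s(n, d)]
  have e7 : φ K (s(c, n) ::ₘ s(n, d) ::ₘ s(b, a) ::ₘ s(m, f) ::ₘ s(m, e) ::ₘ P) = φ K (s(c, d) ::ₘ s(b, a) ::ₘ s(m, f) ::ₘ s(m, e) ::ₘ P) :=
    h.fuse c d n _ _ (av_consP.2 ⟨H.nb, H.na, (av_consP.2 ⟨H.mn.symm, H.nf, (av_consP.2 ⟨H.mn.symm, H.ne, H.vn⟩)⟩)⟩) H.nc H.nd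
  have e8 : φ K (s(c, d) ::ₘ s(b, a) ::ₘ s(m, f) ::ₘ s(m, e) ::ₘ P) = φ K (s(c, d) ::ₘ s(m, f) ::ₘ s(b, a) ::ₘ s(m, e) ::ₘ P) :=
    by rw [Multiset.cons_swap s(b, a) s(m, f)]
  have e9 : φ K (s(c, d) ::ₘ s(m, f) ::ₘ s(b, a) ::ₘ s(m, e) ::ₘ P) = φ K (s(m, f) ::ₘ s(c, d) ::ₘ s(b, a) ::ₘ s(m, e) ::ₘ P) :=
    by rw [Multiset.cons_swap s(c, d) s(m, f)]
  have e10 : φ K (s(m, f) ::ₘ s(c, d) ::ₘ s(b, a) ::ₘ s(m, e) ::ₘ P) = φ K (s(m, f) ::ₘ s(c, d) ::ₘ s(m, e) ::ₘ s(b, a) ::ₘ P) :=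
    by rw [Multiset.cons_swap s(b, a) s(m, e)]
  have e11 : φ K (s(m, f) ::ₘ s(c, d) ::ₘ s(m, e) ::ₘ s(b, a) ::ₘ P) = φ K (s(m, f) ::ₘ s(m, e) ::ₘ s(c, d) ::ₘ s(b, a) ::ₘ P) :=
    by rw [Multiset.cons_swap s(c, d) s(m, e)]
  have e12 : φ K (s(m, f) ::ₘ s(m, e) ::ₘ s(c, d) ::ₘ s(b, a) ::ₘ P) = φ K (s(f, m) ::ₘ s(m, e) ::ₘ s(c, d) ::ₘ s(b, a) ::ₘ P) :=
    by rw [Sym2.eq_swap (a := m) (b := f)]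
  have e13 : φ K (s(f, m) ::ₘ s(m, e) ::ₘ s(c, d) ::ₘ s(b, a) ::ₘ P) = φ K (s(f, e) ::ₘ s(c, d) ::ₘ s(b, a) ::ₘ P) :=
    h.fuse f e m _ _ (av_consP.2 ⟨H.mc, H.md, (av_consP.2 ⟨H.mb, H.ma, H.vm⟩)⟩) H.mf H.me
  have e14 : φ K (s(f, e) ::ₘ s(c, d) ::ₘ s(b, a) ::ₘ P) = φ K (s(e, f) ::ₘ s(c, d) ::ₘ s(b, a) ::ₘ P) :=
    by rw [Sym2.eq_swap (a := f) (b := e)]
  have e15 : φ K (s(e, f) ::ₘ s(c, d) ::ₘ s(b, a) ::ₘ P) = φ K (s(e, f) ::ₘ s(c, d) ::ₘ s(a, b) ::ₘ P) :=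
    by rw [Sym2.eq_swap (a := b) (b := a)]
  have e16 : φ K (s(e, f) ::ₘ s(c, d) ::ₘ s(a, b) ::ₘ P) = φ K (s(e, f) ::ₘ s(a, b) ::ₘ s(c, d) ::ₘ P) :=
    by rw [Multiset.cons_swap s(c, d) s(a, b)]
  have e17 : φ K (s(e, f) ::ₘ s(a, b) ::ₘ s(c, d) ::ₘ P) = φ K (s(a, b) ::ₘ s(e, f) ::ₘ s(c, d) ::ₘ P) :=
    by rw [Multiset.cons_swap s(e, f) s(a, b)]
  have e18 : φ K (s(a, b) ::ₘ s(e, f) ::ₘ s(c, d) ::ₘ P) = φ K (s(a, b) ::ₘ s(c, d) ::ₘ s(e, f) ::ₘ P) :=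
    by rw [Multiset.cons_swap s(e, f) s(c, d)]
  rw [e0, e1, e2, e3, e4, e5, e6, e7, e8, e9, e10, e11, e12, e13, e14, e15, e16, e17, e18]

theorem st2_XYY (h : Sk φ δ κ β) (H : Fr3 a b c d e f m n p K P) :
    φ K (s(b, c) ::ₘ s(n, p) ::ₘ s(a, p) ::ₘ s(m, f) ::ₘ s(m, e) ::ₘ s(n, d) ::ₘ P) =
      φ K (s(a, d) ::ₘ s(b, c) ::ₘ s(e, f) ::ₘ P) := by
  have e0 : φ K (s(b, c) ::ₘ s(n, p) ::ₘ s(a, p) ::ₘ s(m, f) ::ₘ s(m, e) ::ₘ s(n, d) ::ₘ P) = φ K (s(n, p) ::ₘ s(b, c) ::ₘ s(a, p) ::ₘ s(m, f) ::ₘ s(m, e) ::ₘ s(n, d) ::ₘ P) :=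
    by rw [Multiset.cons_swap s(b, c) s(n, p)]
  have e1 : φ K (s(n, p) ::ₘ s(b, c) ::ₘ s(a, p) ::ₘ s(m, f) ::ₘ s(m, e) ::ₘ s(n, d) ::ₘ P) = φ K (s(n, p) ::ₘ s(a, p) ::ₘ s(b, c) ::ₘ s(m, f) ::ₘ s(m, e) ::ₘ s(n, d) ::ₘ P) :=
    by rw [Multiset.cons_swap s(b, c) s(a, p)]
  have e2 : φ K (s(n, p) ::ₘ s(a, p) ::ₘ s(b, c) ::ₘ s(m, f) ::ₘ s(m, e) ::ₘ s(n, d) ::ₘ P) = φ K (s(n, p) ::ₘ s(p, a) ::ₘ s(b, c) ::ₘ s(m, f) ::ₘ s(m, e) ::ₘ s(n, d) ::ₘ P) :=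
    by rw [Sym2.eq_swap (a := a) (b := p)]
  have e3 : φ K (s(n, p) ::ₘ s(p, a) ::ₘ s(b, c) ::ₘ s(m, f) ::ₘ s(m, e) ::ₘ s(n, d) ::ₘ P) = φ K (s(n, a) ::ₘ s(b, c) ::ₘ s(m, f) ::ₘ s(m, e) ::ₘ s(n, d) ::ₘ P) :=
    h.fuse n a p _ _ (av_consP.2 ⟨H.pb, H.pc, (av_consP.2 ⟨H.mp.symm, H.pf, (av_consP.2 ⟨H.mp.symm, H.pe, (av_consP.2 ⟨H.np.symm, H.pd, H.vp⟩)⟩)⟩)⟩) H.np.symm H.pa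
  have e4 : φ K (s(n, a) ::ₘ s(b, c) ::ₘ s(m, f) ::ₘ s(m, e) ::ₘ s(n, d) ::ₘ P) = φ K (s(n, a) ::ₘ s(b, c) ::ₘ s(m, f) ::ₘ s(n, d) ::ₘ s(m, e) ::ₘ P) :=
    by rw [Multiset.cons_swap s(m, e) s(n, d)]
  have e5 : φ K (s(n, a) ::ₘ s(b, c) ::ₘ s(m, f) ::ₘ s(n, d) ::ₘ s(m, e) ::ₘ P) = φ K (s(n, a) ::ₘ s(b, c) ::ₘ s(n, d) ::ₘ s(m, f) ::ₘ s(m, e) ::ₘ P) :=
    by rw [Multiset.cons_swap s(m, f) s(n, d)]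
  have e6 : φ K (s(n, a) ::ₘ s(b, c) ::ₘ s(n, d) ::ₘ s(m, f) ::ₘ s(m, e) ::ₘ P) = φ K (s(n, a) ::ₘ s(n, d) ::ₘ s(b, c) ::ₘ s(m, f) ::ₘ s(m, e) ::ₘ P) :=
    by rw [Multiset.cons_swap s(b, c) s(n, d)]
  have e7 : φ K (s(n, a) ::ₘ s(n, d) ::ₘ s(b, c) ::ₘ s(m, f) ::ₘ s(m, e) ::ₘ P) = φ K (s(a, n) ::ₘ s(n, d) ::ₘ s(b, c) ::ₘ s(m, f) ::ₘ s(m, e) ::ₘ P) :=
    by rw [Sym2.eq_swap (a := n) (b := a)]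
  have e8 : φ K (s(a, n) ::ₘ s(n, d) ::ₘ s(b, c) ::ₘ s(m, f) ::ₘ s(m, e) ::ₘ P) = φ K (s(a, d) ::ₘ s(b, c) ::ₘ s(m, f) ::ₘ s(m, e) ::ₘ P) :=
    h.fuse a d n _ _ (av_consP.2 ⟨H.nb, H.nc, (av_consP.2 ⟨H.mn.symm, H.nf, (av_consP.2 ⟨H.mn.symm, H.ne, H.vn⟩)⟩)⟩) H.na H.nd
  have e9 : φ K (s(a, d) ::ₘ s(b, c) ::ₘ s(m, f) ::ₘ s(m, e) ::ₘ P) = φ K (s(a, d) ::ₘ s(m, f) ::ₘ s(b, c) ::ₘ s(m, e) ::ₘ P) :=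
    by rw [Multiset.cons_swap s(b, c) s(m, f)]
  have e10 : φ K (s(a, d) ::ₘ s(m, f) ::ₘ s(b, c) ::ₘ s(m, e) ::ₘ P) = φ K (s(m, f) ::ₘ s(a, d) ::ₘ s(b, c) ::ₘ s(m, e) ::ₘ P) :=
    by rw [Multiset.cons_swap s(a, d) s(m, f)]
  have e11 : φ K (s(m, f) ::ₘ s(a, d) ::ₘ s(b, c) ::ₘ s(m, e) ::ₘ P) = φ K (s(m, f) ::ₘ s(a, d) ::ₘ s(m, e) ::ₘ s(b, c) ::ₘ P) :=
    by rw [Multiset.cons_swap s(b, c) s(m, e)]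
  have e12 : φ K (s(m, f) ::ₘ s(a, d) ::ₘ s(m, e) ::ₘ s(b, c) ::ₘ P) = φ K (s(m, f) ::ₘ s(m, e) ::ₘ s(a, d) ::ₘ s(b, c) ::ₘ P) :=
    by rw [Multiset.cons_swap s(a, d) s(m, e)]
  have e13 : φ K (s(m, f) ::ₘ s(m, e) ::ₘ s(a, d) ::ₘ s(b, c) ::ₘ P) = φ K (s(f, m) ::ₘ s(m, e) ::ₘ s(a, d) ::ₘ s(b, c) ::ₘ P) :=
    by rw [Sym2.eq_swap (a := m) (b := f)]
  have e14 : φ K (s(f, m) ::ₘ s(m, e) ::ₘ s(a, d) ::ₘ s(b, c) ::ₘ P) = φ K (s(f, e) ::ₘ s(a, d) ::ₘ s(b, c) ::ₘ P) :=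
    h.fuse f e m _ _ (av_consP.2 ⟨H.ma, H.md, (av_consP.2 ⟨H.mb, H.mc, H.vm⟩)⟩) H.mf H.me
  have e15 : φ K (s(f, e) ::ₘ s(a, d) ::ₘ s(b, c) ::ₘ P) = φ K (s(e, f) ::ₘ s(a, d) ::ₘ s(b, c) ::ₘ P) :=
    by rw [Sym2.eq_swap (a := f) (b := e)]
  have e16 : φ K (s(e, f) ::ₘ s(a, d) ::ₘ s(b, c) ::ₘ P) = φ K (s(a, d) ::ₘ s(e, f) ::ₘ s(b, c) ::ₘ P) :=
    by rw [Multiset.cons_swap s(e, f) s(a, d)]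
  have e17 : φ K (s(a, d) ::ₘ s(e, f) ::ₘ s(b, c) ::ₘ P) = φ K (s(a, d) ::ₘ s(b, c) ::ₘ s(e, f) ::ₘ P) :=
    by rw [Multiset.cons_swap s(e, f) s(b, c)]
  rw [e0, e1, e2, e3, e4, e5, e6, e7, e8, e9, e10, e11, e12, e13, e14, e15, e16, e17]

theorem st2_Yss (h : Sk φ δ κ β) (H : Fr3 a b c d e f m n p K P) :
    φ ((b, c, n, p) ::ₘ (a, p, m, f) ::ₘ K) (s(m, n) ::ₘ s(d, e) ::ₘ P) =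
      β (φ ((a, b, c, f) ::ₘ K) (s(d, e) ::ₘ P)) := by
  have e0 : φ ((b, c, n, p) ::ₘ (a, p, m, f) ::ₘ K) (s(m, n) ::ₘ s(d, e) ::ₘ P) = φ ((n, c, b, p) ::ₘ (a, p, m, f) ::ₘ K) (s(m, n) ::ₘ s(d, e) ::ₘ P) :=
    h.sy.fl b c n p _ _
  have e1 : φ ((n, c, b, p) ::ₘ (a, p, m, f) ::ₘ K) (s(m, n) ::ₘ s(d, e) ::ₘ P) = φ ((m, c, b, p) ::ₘ (a, p, m, f) ::ₘ K) (s(d, e) ::ₘ P) :=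
    h.absorb m c b p n _ _ (av_consK.2 ⟨not_mem_legs.2 ⟨H.na, H.np, H.mn.symm, H.nf⟩, (av_consP.2 ⟨H.nd, H.ne, H.vn⟩)⟩) H.mn.symm H.nc H.nb H.np
  have e2 : φ ((m, c, b, p) ::ₘ (a, p, m, f) ::ₘ K) (s(d, e) ::ₘ P) = φ ((c, m, p, b) ::ₘ (a, p, m, f) ::ₘ K) (s(d, e) ::ₘ P) :=
    h.sy.sw m c b p _ _
  have e3 : φ ((c, m, p, b) ::ₘ (a, p, m, f) ::ₘ K) (s(d, e) ::ₘ P) = φ ((p, m, c, b) ::ₘ (a, p, m, f) ::ₘ K) (s(d, e) ::ₘ P) :=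
    h.sy.fl c m p b _ _
  have e4 : φ ((p, m, c, b) ::ₘ (a, p, m, f) ::ₘ K) (s(d, e) ::ₘ P) = φ ((m, p, b, c) ::ₘ (a, p, m, f) ::ₘ K) (s(d, e) ::ₘ P) :=
    h.sy.sw p m c b _ _
  have e5 : φ ((m, p, b, c) ::ₘ (a, p, m, f) ::ₘ K) (s(d, e) ::ₘ P) = φ ((a, p, m, f) ::ₘ (m, p, b, c) ::ₘ K) (s(d, e) ::ₘ P) :=
    by rw [Multiset.cons_swap (m, p, b, c) (a, p, m, f)]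
  have e6 : φ ((a, p, m, f) ::ₘ (m, p, b, c) ::ₘ K) (s(d, e) ::ₘ P) = φ ((p, a, f, m) ::ₘ (m, p, b, c) ::ₘ K) (s(d, e) ::ₘ P) :=
    h.sy.sw a p m f _ _
  have e7 : φ ((p, a, f, m) ::ₘ (m, p, b, c) ::ₘ K) (s(d, e) ::ₘ P) = φ ((f, a, p, m) ::ₘ (m, p, b, c) ::ₘ K) (s(d, e) ::ₘ P) :=
    h.sy.fl p a f m _ _
  have e8 : φ ((f, a, p, m) ::ₘ (m, p, b, c) ::ₘ K) (s(d, e) ::ₘ P) = φ ((a, f, m, p) ::ₘ (m, p, b, c) ::ₘ K) (s(d, e) ::ₘ P) :=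
    h.sy.sw f a p m _ _
  have e9 : φ ((a, f, m, p) ::ₘ (m, p, b, c) ::ₘ K) (s(d, e) ::ₘ P) = β (φ ((a, f, c, b) ::ₘ K) (s(d, e) ::ₘ P)) :=
    h.bigon a f b c m p _ _ (av_consP.2 ⟨H.md, H.me, H.vm⟩) (av_consP.2 ⟨H.pd, H.pe, H.vp⟩) H.mp (not_mem_legs.2 ⟨H.ma, H.mf, H.mb, H.mc⟩) (not_mem_legs.2 ⟨H.pa, H.pf, H.pb, H.pc⟩)
  have e10 : φ ((a, f, c, b) ::ₘ K) (s(d, e) ::ₘ P) = φ ((f, a, b, c) ::ₘ K) (s(d, e) ::ₘ P) :=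
    h.sy.sw a f c b _ _
  have e11 : φ ((f, a, b, c) ::ₘ K) (s(d, e) ::ₘ P) = φ ((b, a, f, c) ::ₘ K) (s(d, e) ::ₘ P) :=
    h.sy.fl f a b c _ _
  have e12 : φ ((b, a, f, c) ::ₘ K) (s(d, e) ::ₘ P) = φ ((a, b, c, f) ::ₘ K) (s(d, e) ::ₘ P) :=
    h.sy.sw b a f c _ _
  rw [e0, e1, e2, e3, e4, e5, e6, e7, e8, e9, e10, e11, e12]

theorem st2_YsX (h : Sk φ δ κ β) (H : Fr3 a b c d e f m n p K P) :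
    φ ((a, p, m, f) ::ₘ K) (s(b, p) ::ₘ s(c, n) ::ₘ s(m, n) ::ₘ s(d, e) ::ₘ P) =
      φ ((a, b, c, f) ::ₘ K) (s(d, e) ::ₘ P) := by
  have e0 : φ ((a, p, m, f) ::ₘ K) (s(b, p) ::ₘ s(c, n) ::ₘ s(m, n) ::ₘ s(d, e) ::ₘ P) = φ ((p, a, f, m) ::ₘ K) (s(b, p) ::ₘ s(c, n) ::ₘ s(m, n) ::ₘ s(d, e) ::ₘ P) :=
    h.sy.sw a p m f _ _
  have e1 : φ ((p, a, f, m) ::ₘ K) (s(b, p) ::ₘ s(c, n) ::ₘ s(m, n) ::ₘ s(d, e) ::ₘ P) = φ ((b, a, f, m) ::ₘ K) (s(c, n) ::ₘ s(m, n) ::ₘ s(d, e) ::ₘ P) :=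
    h.absorb b a f m p _ _ (av_consP.2 ⟨H.pc, H.np.symm, (av_consP.2 ⟨H.mp.symm, H.np.symm, (av_consP.2 ⟨H.pd, H.pe, H.vp⟩)⟩)⟩) H.pb H.pa H.pf H.mp.symm
  have e2 : φ ((b, a, f, m) ::ₘ K) (s(c, n) ::ₘ s(m, n) ::ₘ s(d, e) ::ₘ P) = φ ((b, a, f, m) ::ₘ K) (s(c, n) ::ₘ s(n, m) ::ₘ s(d, e) ::ₘ P) :=
    by rw [Sym2.eq_swap (a := m) (b := n)]
  have e3 : φ ((b, a, f, m) ::ₘ K) (s(c, n) ::ₘ s(n, m) ::ₘ s(d, e) ::ₘ P) = φ ((b, a, f, m) ::ₘ K) (s(c, m) ::ₘ s(d, e) ::ₘ P) :=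
    h.fuse c m n _ _ (av_consK.2 ⟨not_mem_legs.2 ⟨H.nb, H.na, H.nf, H.mn.symm⟩, (av_consP.2 ⟨H.nd, H.ne, H.vn⟩)⟩) H.nc H.mn.symm
  have e4 : φ ((b, a, f, m) ::ₘ K) (s(c, m) ::ₘ s(d, e) ::ₘ P) = φ ((a, b, m, f) ::ₘ K) (s(c, m) ::ₘ s(d, e) ::ₘ P) :=
    h.sy.sw b a f m _ _
  have e5 : φ ((a, b, m, f) ::ₘ K) (s(c, m) ::ₘ s(d, e) ::ₘ P) = φ ((m, b, a, f) ::ₘ K) (s(c, m) ::ₘ s(d, e) ::ₘ P) :=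
    h.sy.fl a b m f _ _
  have e6 : φ ((m, b, a, f) ::ₘ K) (s(c, m) ::ₘ s(d, e) ::ₘ P) = φ ((c, b, a, f) ::ₘ K) (s(d, e) ::ₘ P) :=
    h.absorb c b a f m _ _ (av_consP.2 ⟨H.md, H.me, H.vm⟩) H.mc H.mb H.ma H.mf
  have e7 : φ ((c, b, a, f) ::ₘ K) (s(d, e) ::ₘ P) = φ ((a, b, c, f) ::ₘ K) (s(d, e) ::ₘ P) :=
    h.sy.fl c b a f _ _
  rw [e0, e1, e2, e3, e4, e5, e6, e7]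

theorem st2_YsY (h : Sk φ δ κ β) (H : Fr3 a b c d e f m n p K P) :
    φ ((a, p, m, f) ::ₘ K) (s(b, c) ::ₘ s(n, p) ::ₘ s(m, n) ::ₘ s(d, e) ::ₘ P) =
      κ (φ K (s(a, f) ::ₘ s(b, c) ::ₘ s(d, e) ::ₘ P)) := by
  have e0 : φ ((a, p, m, f) ::ₘ K) (s(b, c) ::ₘ s(n, p) ::ₘ s(m, n) ::ₘ s(d, e) ::ₘ P) = φ ((a, p, m, f) ::ₘ K) (s(n, p) ::ₘ s(b, c) ::ₘ s(m, n) ::ₘ s(d, e) ::ₘ P) :=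
    by rw [Multiset.cons_swap s(b, c) s(n, p)]
  have e1 : φ ((a, p, m, f) ::ₘ K) (s(n, p) ::ₘ s(b, c) ::ₘ s(m, n) ::ₘ s(d, e) ::ₘ P) = φ ((p, a, f, m) ::ₘ K) (s(n, p) ::ₘ s(b, c) ::ₘ s(m, n) ::ₘ s(d, e) ::ₘ P) :=
    h.sy.sw a p m f _ _
  have e2 : φ ((p, a, f, m) ::ₘ K) (s(n, p) ::ₘ s(b, c) ::ₘ s(m, n) ::ₘ s(d, e) ::ₘ P) = φ ((n, a, f, m) ::ₘ K) (s(b, c) ::ₘ s(m, n) ::ₘ s(d, e) ::ₘ P) :=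
    h.absorb n a f m p _ _ (av_consP.2 ⟨H.pb, H.pc, (av_consP.2 ⟨H.mp.symm, H.np.symm, (av_consP.2 ⟨H.pd, H.pe, H.vp⟩)⟩)⟩) H.np.symm H.pa H.pf H.mp.symm
  have e3 : φ ((n, a, f, m) ::ₘ K) (s(b, c) ::ₘ s(m, n) ::ₘ s(d, e) ::ₘ P) = φ ((n, a, f, m) ::ₘ K) (s(m, n) ::ₘ s(b, c) ::ₘ s(d, e) ::ₘ P) :=
    by rw [Multiset.cons_swap s(b, c) s(m, n)]
  have e4 : φ ((n, a, f, m) ::ₘ K) (s(m, n) ::ₘ s(b, c) ::ₘ s(d, e) ::ₘ P) = φ ((m, a, f, m) ::ₘ K) (s(b, c) ::ₘ s(d, e) ::ₘ P) :=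
    h.absorb m a f m n _ _ (av_consP.2 ⟨H.nb, H.nc, (av_consP.2 ⟨H.nd, H.ne, H.vn⟩)⟩) H.mn.symm H.na H.nf H.mn.symm
  have e5 : φ ((m, a, f, m) ::ₘ K) (s(b, c) ::ₘ s(d, e) ::ₘ P) = φ ((a, m, m, f) ::ₘ K) (s(b, c) ::ₘ s(d, e) ::ₘ P) :=
    h.sy.sw m a f m _ _
  have e6 : φ ((a, m, m, f) ::ₘ K) (s(b, c) ::ₘ s(d, e) ::ₘ P) = κ (φ K (s(a, f) ::ₘ s(b, c) ::ₘ s(d, e) ::ₘ P)) :=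
    h.kink a f m _ _ (av_consP.2 ⟨H.mb, H.mc, (av_consP.2 ⟨H.md, H.me, H.vm⟩)⟩) H.ma H.mf
  rw [e0, e1, e2, e3, e4, e5, e6]

theorem st2_YXs (h : Sk φ δ κ β) (H : Fr3 a b c d e f m n p K P) :
    φ ((b, c, n, p) ::ₘ K) (s(a, f) ::ₘ s(p, m) ::ₘ s(m, n) ::ₘ s(d, e) ::ₘ P) =
      κ (φ K (s(a, f) ::ₘ s(b, c) ::ₘ s(d, e) ::ₘ P)) := by
  have e0 : φ ((b, c, n, p) ::ₘ K) (s(a, f) ::ₘ s(p, m) ::ₘ s(m, n) ::ₘ s(d, e) ::ₘ P) = φ ((b, c, n, p) ::ₘ K) (s(p, m) ::ₘ s(a, f) ::ₘ s(m, n) ::ₘ s(d, e) ::ₘ P) :=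
    by rw [Multiset.cons_swap s(a, f) s(p, m)]
  have e1 : φ ((b, c, n, p) ::ₘ K) (s(p, m) ::ₘ s(a, f) ::ₘ s(m, n) ::ₘ s(d, e) ::ₘ P) = φ ((b, c, n, p) ::ₘ K) (s(m, p) ::ₘ s(a, f) ::ₘ s(m, n) ::ₘ s(d, e) ::ₘ P) :=
    by rw [Sym2.eq_swap (a := p) (b := m)]
  have e2 : φ ((b, c, n, p) ::ₘ K) (s(m, p) ::ₘ s(a, f) ::ₘ s(m, n) ::ₘ s(d, e) ::ₘ P) = φ ((c, b, p, n) ::ₘ K) (s(m, p) ::ₘ s(a, f) ::ₘ s(m, n) ::ₘ s(d, e) ::ₘ P) :=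
    h.sy.sw b c n p _ _
  have e3 : φ ((c, b, p, n) ::ₘ K) (s(m, p) ::ₘ s(a, f) ::ₘ s(m, n) ::ₘ s(d, e) ::ₘ P) = φ ((p, b, c, n) ::ₘ K) (s(m, p) ::ₘ s(a, f) ::ₘ s(m, n) ::ₘ s(d, e) ::ₘ P) :=
    h.sy.fl c b p n _ _
  have e4 : φ ((p, b, c, n) ::ₘ K) (s(m, p) ::ₘ s(a, f) ::ₘ s(m, n) ::ₘ s(d, e) ::ₘ P) = φ ((m, b, c, n) ::ₘ K) (s(a, f) ::ₘ s(m, n) ::ₘ s(d, e) ::ₘ P) :=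
    h.absorb m b c n p _ _ (av_consP.2 ⟨H.pa, H.pf, (av_consP.2 ⟨H.mp.symm, H.np.symm, (av_consP.2 ⟨H.pd, H.pe, H.vp⟩)⟩)⟩) H.mp.symm H.pb H.pc H.np.symm
  have e5 : φ ((m, b, c, n) ::ₘ K) (s(a, f) ::ₘ s(m, n) ::ₘ s(d, e) ::ₘ P) = φ ((m, b, c, n) ::ₘ K) (s(m, n) ::ₘ s(a, f) ::ₘ s(d, e) ::ₘ P) :=
    by rw [Multiset.cons_swap s(a, f) s(m, n)]
  have e6 : φ ((m, b, c, n) ::ₘ K) (s(m, n) ::ₘ s(a, f) ::ₘ s(d, e) ::ₘ P) = φ ((b, m, n, c) ::ₘ K) (s(m, n) ::ₘ s(a, f) ::ₘ s(d, e) ::ₘ P) :=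
    h.sy.sw m b c n _ _
  have e7 : φ ((b, m, n, c) ::ₘ K) (s(m, n) ::ₘ s(a, f) ::ₘ s(d, e) ::ₘ P) = φ ((n, m, b, c) ::ₘ K) (s(m, n) ::ₘ s(a, f) ::ₘ s(d, e) ::ₘ P) :=
    h.sy.fl b m n c _ _
  have e8 : φ ((n, m, b, c) ::ₘ K) (s(m, n) ::ₘ s(a, f) ::ₘ s(d, e) ::ₘ P) = φ ((m, m, b, c) ::ₘ K) (s(a, f) ::ₘ s(d, e) ::ₘ P) :=
    h.absorb m m b c n _ _ (av_consP.2 ⟨H.na, H.nf, (av_consP.2 ⟨H.nd, H.ne, H.vn⟩)⟩) H.mn.symm H.mn.symm H.nb H.nc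
  have e9 : φ ((m, m, b, c) ::ₘ K) (s(a, f) ::ₘ s(d, e) ::ₘ P) = φ ((b, m, m, c) ::ₘ K) (s(a, f) ::ₘ s(d, e) ::ₘ P) :=
    h.sy.fl m m b c _ _
  have e10 : φ ((b, m, m, c) ::ₘ K) (s(a, f) ::ₘ s(d, e) ::ₘ P) = κ (φ K (s(b, c) ::ₘ s(a, f) ::ₘ s(d, e) ::ₘ P)) :=
    h.kink b c m _ _ (av_consP.2 ⟨H.ma, H.mf, (av_consP.2 ⟨H.md, H.me, H.vm⟩)⟩) H.mb H.mc
  have e11 : φ K (s(b, c) ::ₘ s(a, f) ::ₘ s(d, e) ::ₘ P) = φ K (s(a, f) ::ₘ s(b, c) ::ₘ s(d, e) ::ₘ P) :=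
    by rw [Multiset.cons_swap s(b, c) s(a, f)]
  rw [e0, e1, e2, e3, e4, e5, e6, e7, e8, e9, e10, e11]

theorem st2_YXX (h : Sk φ δ κ β) (H : Fr3 a b c d e f m n p K P) :
    φ K (s(b, p) ::ₘ s(c, n) ::ₘ s(a, f) ::ₘ s(p, m) ::ₘ s(m, n) ::ₘ s(d, e) ::ₘ P) =
      φ K (s(a, f) ::ₘ s(b, c) ::ₘ s(d, e) ::ₘ P) := by
  have e0 : φ K (s(b, p) ::ₘ s(c, n) ::ₘ s(a, f) ::ₘ s(p, m) ::ₘ s(m, n) ::ₘ s(d, e) ::ₘ P) = φ K (s(b, p) ::ₘ s(c, n) ::ₘ s(p, m) ::ₘ s(a, f) ::ₘ s(m, n) ::ₘ s(d, e) ::ₘ P) :=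
    by rw [Multiset.cons_swap s(a, f) s(p, m)]
  have e1 : φ K (s(b, p) ::ₘ s(c, n) ::ₘ s(p, m) ::ₘ s(a, f) ::ₘ s(m, n) ::ₘ s(d, e) ::ₘ P) = φ K (s(b, p) ::ₘ s(p, m) ::ₘ s(c, n) ::ₘ s(a, f) ::ₘ s(m, n) ::ₘ s(d, e) ::ₘ P) :=
    by rw [Multiset.cons_swap s(c, n) s(p, m)]
  have e2 : φ K (s(b, p) ::ₘ s(p, m) ::ₘ s(c, n) ::ₘ s(a, f) ::ₘ s(m, n) ::ₘ s(d, e) ::ₘ P) = φ K (s(b, m) ::ₘ s(c, n) ::ₘ s(a, f) ::ₘ s(m, n) ::ₘ s(d, e) ::ₘ P) :=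
    h.fuse b m p _ _ (av_consP.2 ⟨H.pc, H.np.symm, (av_consP.2 ⟨H.pa, H.pf, (av_consP.2 ⟨H.mp.symm, H.np.symm, (av_consP.2 ⟨H.pd, H.pe, H.vp⟩)⟩)⟩)⟩) H.pb H.mp.symm
  have e3 : φ K (s(b, m) ::ₘ s(c, n) ::ₘ s(a, f) ::ₘ s(m, n) ::ₘ s(d, e) ::ₘ P) = φ K (s(c, n) ::ₘ s(b, m) ::ₘ s(a, f) ::ₘ s(m, n) ::ₘ s(d, e) ::ₘ P) :=
    by rw [Multiset.cons_swap s(b, m) s(c, n)]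
  have e4 : φ K (s(c, n) ::ₘ s(b, m) ::ₘ s(a, f) ::ₘ s(m, n) ::ₘ s(d, e) ::ₘ P) = φ K (s(c, n) ::ₘ s(b, m) ::ₘ s(m, n) ::ₘ s(a, f) ::ₘ s(d, e) ::ₘ P) :=
    by rw [Multiset.cons_swap s(a, f) s(m, n)]
  have e5 : φ K (s(c, n) ::ₘ s(b, m) ::ₘ s(m, n) ::ₘ s(a, f) ::ₘ s(d, e) ::ₘ P) = φ K (s(c, n) ::ₘ s(m, n) ::ₘ s(b, m) ::ₘ s(a, f) ::ₘ s(d, e) ::ₘ P) :=
    by rw [Multiset.cons_swap s(b, m) s(m, n)]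
  have e6 : φ K (s(c, n) ::ₘ s(m, n) ::ₘ s(b, m) ::ₘ s(a, f) ::ₘ s(d, e) ::ₘ P) = φ K (s(c, n) ::ₘ s(n, m) ::ₘ s(b, m) ::ₘ s(a, f) ::ₘ s(d, e) ::ₘ P) :=
    by rw [Sym2.eq_swap (a := m) (b := n)]
  have e7 : φ K (s(c, n) ::ₘ s(n, m) ::ₘ s(b, m) ::ₘ s(a, f) ::ₘ s(d, e) ::ₘ P) = φ K (s(c, m) ::ₘ s(b, m) ::ₘ s(a, f) ::ₘ s(d, e) ::ₘ P) :=
    h.fuse c m n _ _ (av_consP.2 ⟨H.nb, H.mn.symm, (av_consP.2 ⟨H.na, H.nf, (av_consP.2 ⟨H.nd, H.ne, H.vn⟩)⟩)⟩) H.nc H.mn.symm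
  have e8 : φ K (s(c, m) ::ₘ s(b, m) ::ₘ s(a, f) ::ₘ s(d, e) ::ₘ P) = φ K (s(c, m) ::ₘ s(m, b) ::ₘ s(a, f) ::ₘ s(d, e) ::ₘ P) :=
    by rw [Sym2.eq_swap (a := b) (b := m)]
  have e9 : φ K (s(c, m) ::ₘ s(m, b) ::ₘ s(a, f) ::ₘ s(d, e) ::ₘ P) = φ K (s(c, b) ::ₘ s(a, f) ::ₘ s(d, e) ::ₘ P) :=
    h.fuse c b m _ _ (av_consP.2 ⟨H.ma, H.mf, (av_consP.2 ⟨H.md, H.me, H.vm⟩)⟩) H.mc H.mb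
  have e10 : φ K (s(c, b) ::ₘ s(a, f) ::ₘ s(d, e) ::ₘ P) = φ K (s(b, c) ::ₘ s(a, f) ::ₘ s(d, e) ::ₘ P) :=
    by rw [Sym2.eq_swap (a := c) (b := b)]
  have e11 : φ K (s(b, c) ::ₘ s(a, f) ::ₘ s(d, e) ::ₘ P) = φ K (s(a, f) ::ₘ s(b, c) ::ₘ s(d, e) ::ₘ P) :=
    by rw [Multiset.cons_swap s(b, c) s(a, f)]
  rw [e0, e1, e2, e3, e4, e5, e6, e7, e8, e9, e10, e11]

theorem st2_YXY (h : Sk φ δ κ β) (H : Fr3 a b c d e f m n p K P) :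
    φ K (s(b, c) ::ₘ s(n, p) ::ₘ s(a, f) ::ₘ s(p, m) ::ₘ s(m, n) ::ₘ s(d, e) ::ₘ P) =
      δ (φ K (s(a, f) ::ₘ s(b, c) ::ₘ s(d, e) ::ₘ P)) := by
  have e0 : φ K (s(b, c) ::ₘ s(n, p) ::ₘ s(a, f) ::ₘ s(p, m) ::ₘ s(m, n) ::ₘ s(d, e) ::ₘ P) = φ K (s(n, p) ::ₘ s(b, c) ::ₘ s(a, f) ::ₘ s(p, m) ::ₘ s(m, n) ::ₘ s(d, e) ::ₘ P) :=
    by rw [Multiset.cons_swap s(b, c) s(n, p)]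
  have e1 : φ K (s(n, p) ::ₘ s(b, c) ::ₘ s(a, f) ::ₘ s(p, m) ::ₘ s(m, n) ::ₘ s(d, e) ::ₘ P) = φ K (s(n, p) ::ₘ s(b, c) ::ₘ s(p, m) ::ₘ s(a, f) ::ₘ s(m, n) ::ₘ s(d, e) ::ₘ P) :=
    by rw [Multiset.cons_swap s(a, f) s(p, m)]
  have e2 : φ K (s(n, p) ::ₘ s(b, c) ::ₘ s(p, m) ::ₘ s(a, f) ::ₘ s(m, n) ::ₘ s(d, e) ::ₘ P) = φ K (s(n, p) ::ₘ s(p, m) ::ₘ s(b, c) ::ₘ s(a, f) ::ₘ s(m, n) ::ₘ s(d, e) ::ₘ P) :=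
    by rw [Multiset.cons_swap s(b, c) s(p, m)]
  have e3 : φ K (s(n, p) ::ₘ s(p, m) ::ₘ s(b, c) ::ₘ s(a, f) ::ₘ s(m, n) ::ₘ s(d, e) ::ₘ P) = φ K (s(n, m) ::ₘ s(b, c) ::ₘ s(a, f) ::ₘ s(m, n) ::ₘ s(d, e) ::ₘ P) :=
    h.fuse n m p _ _ (av_consP.2 ⟨H.pb, H.pc, (av_consP.2 ⟨H.pa, H.pf, (av_consP.2 ⟨H.mp.symm, H.np.symm, (av_consP.2 ⟨H.pd, H.pe, H.vp⟩)⟩)⟩)⟩) H.np.symm H.mp.symm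
  have e4 : φ K (s(n, m) ::ₘ s(b, c) ::ₘ s(a, f) ::ₘ s(m, n) ::ₘ s(d, e) ::ₘ P) = φ K (s(n, m) ::ₘ s(b, c) ::ₘ s(m, n) ::ₘ s(a, f) ::ₘ s(d, e) ::ₘ P) :=
    by rw [Multiset.cons_swap s(a, f) s(m, n)]
  have e5 : φ K (s(n, m) ::ₘ s(b, c) ::ₘ s(m, n) ::ₘ s(a, f) ::ₘ s(d, e) ::ₘ P) = φ K (s(n, m) ::ₘ s(m, n) ::ₘ s(b, c) ::ₘ s(a, f) ::ₘ s(d, e) ::ₘ P) :=
    by rw [Multiset.cons_swap s(b, c) s(m, n)]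
  have e6 : φ K (s(n, m) ::ₘ s(m, n) ::ₘ s(b, c) ::ₘ s(a, f) ::ₘ s(d, e) ::ₘ P) = φ K (s(m, n) ::ₘ s(m, n) ::ₘ s(b, c) ::ₘ s(a, f) ::ₘ s(d, e) ::ₘ P) :=
    by rw [Sym2.eq_swap (a := n) (b := m)]
  have e7 : φ K (s(m, n) ::ₘ s(m, n) ::ₘ s(b, c) ::ₘ s(a, f) ::ₘ s(d, e) ::ₘ P) = φ K (s(m, n) ::ₘ s(n, m) ::ₘ s(b, c) ::ₘ s(a, f) ::ₘ s(d, e) ::ₘ P) :=
    by rw [Sym2.eq_swap (a := m) (b := n)]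
  have e8 : φ K (s(m, n) ::ₘ s(n, m) ::ₘ s(b, c) ::ₘ s(a, f) ::ₘ s(d, e) ::ₘ P) = φ K (s(m, m) ::ₘ s(b, c) ::ₘ s(a, f) ::ₘ s(d, e) ::ₘ P) :=
    h.fuse m m n _ _ (av_consP.2 ⟨H.nb, H.nc, (av_consP.2 ⟨H.na, H.nf, (av_consP.2 ⟨H.nd, H.ne, H.vn⟩)⟩)⟩) H.mn.symm H.mn.symm
  have e9 : φ K (s(m, m) ::ₘ s(b, c) ::ₘ s(a, f) ::ₘ s(d, e) ::ₘ P) = δ (φ K (s(b, c) ::ₘ s(a, f) ::ₘ s(d, e) ::ₘ P)) :=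
    h.circ m _ _ (av_consP.2 ⟨H.mb, H.mc, (av_consP.2 ⟨H.ma, H.mf, (av_consP.2 ⟨H.md, H.me, H.vm⟩)⟩)⟩)
  have e10 : φ K (s(b, c) ::ₘ s(a, f) ::ₘ s(d, e) ::ₘ P) = φ K (s(a, f) ::ₘ s(b, c) ::ₘ s(d, e) ::ₘ P) :=
    by rw [Multiset.cons_swap s(b, c) s(a, f)]
  rw [e0, e1, e2, e3, e4, e5, e6, e7, e8, e9, e10]

theorem st2_YYs (h : Sk φ δ κ β) (H : Fr3 a b c d e f m n p K P) :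
    φ ((b, c, n, p) ::ₘ K) (s(a, p) ::ₘ s(m, f) ::ₘ s(m, n) ::ₘ s(d, e) ::ₘ P) =
      φ ((a, b, c, f) ::ₘ K) (s(d, e) ::ₘ P) := by
  have e0 : φ ((b, c, n, p) ::ₘ K) (s(a, p) ::ₘ s(m, f) ::ₘ s(m, n) ::ₘ s(d, e) ::ₘ P) = φ ((c, b, p, n) ::ₘ K) (s(a, p) ::ₘ s(m, f) ::ₘ s(m, n) ::ₘ s(d, e) ::ₘ P) :=
    h.sy.sw b c n p _ _
  have e1 : φ ((c, b, p, n) ::ₘ K) (s(a, p) ::ₘ s(m, f) ::ₘ s(m, n) ::ₘ s(d, e) ::ₘ P) = φ ((p, b, c, n) ::ₘ K) (s(a, p) ::ₘ s(m, f) ::ₘ s(m, n) ::ₘ s(d, e) ::ₘ P) :=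
    h.sy.fl c b p n _ _
  have e2 : φ ((p, b, c, n) ::ₘ K) (s(a, p) ::ₘ s(m, f) ::ₘ s(m, n) ::ₘ s(d, e) ::ₘ P) = φ ((a, b, c, n) ::ₘ K) (s(m, f) ::ₘ s(m, n) ::ₘ s(d, e) ::ₘ P) :=
    h.absorb a b c n p _ _ (av_consP.2 ⟨H.mp.symm, H.pf, (av_consP.2 ⟨H.mp.symm, H.np.symm, (av_consP.2 ⟨H.pd, H.pe, H.vp⟩)⟩)⟩) H.pa H.pb H.pc H.np.symm
  have e3 : φ ((a, b, c, n) ::ₘ K) (s(m, f) ::ₘ s(m, n) ::ₘ s(d, e) ::ₘ P) = φ ((a, b, c, n) ::ₘ K) (s(m, n) ::ₘ s(m, f) ::ₘ s(d, e) ::ₘ P) :=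
    by rw [Multiset.cons_swap s(m, f) s(m, n)]
  have e4 : φ ((a, b, c, n) ::ₘ K) (s(m, n) ::ₘ s(m, f) ::ₘ s(d, e) ::ₘ P) = φ ((b, a, n, c) ::ₘ K) (s(m, n) ::ₘ s(m, f) ::ₘ s(d, e) ::ₘ P) :=
    h.sy.sw a b c n _ _
  have e5 : φ ((b, a, n, c) ::ₘ K) (s(m, n) ::ₘ s(m, f) ::ₘ s(d, e) ::ₘ P) = φ ((n, a, b, c) ::ₘ K) (s(m, n) ::ₘ s(m, f) ::ₘ s(d, e) ::ₘ P) :=
    h.sy.fl b a n c _ _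
  have e6 : φ ((n, a, b, c) ::ₘ K) (s(m, n) ::ₘ s(m, f) ::ₘ s(d, e) ::ₘ P) = φ ((m, a, b, c) ::ₘ K) (s(m, f) ::ₘ s(d, e) ::ₘ P) :=
    h.absorb m a b c n _ _ (av_consP.2 ⟨H.mn.symm, H.nf, (av_consP.2 ⟨H.nd, H.ne, H.vn⟩)⟩) H.mn.symm H.na H.nb H.nc
  have e7 : φ ((m, a, b, c) ::ₘ K) (s(m, f) ::ₘ s(d, e) ::ₘ P) = φ ((m, a, b, c) ::ₘ K) (s(f, m) ::ₘ s(d, e) ::ₘ P) :=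
    by rw [Sym2.eq_swap (a := m) (b := f)]
  have e8 : φ ((m, a, b, c) ::ₘ K) (s(f, m) ::ₘ s(d, e) ::ₘ P) = φ ((f, a, b, c) ::ₘ K) (s(d, e) ::ₘ P) :=
    h.absorb f a b c m _ _ (av_consP.2 ⟨H.md, H.me, H.vm⟩) H.mf H.ma H.mb H.mc
  have e9 : φ ((f, a, b, c) ::ₘ K) (s(d, e) ::ₘ P) = φ ((b, a, f, c) ::ₘ K) (s(d, e) ::ₘ P) :=
    h.sy.fl f a b c _ _
  have e10 : φ ((b, a, f, c) ::ₘ K) (s(d, e) ::ₘ P) = φ ((a, b, c, f) ::ₘ K) (s(d, e) ::ₘ P) :=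
    h.sy.sw b a f c _ _
  rw [e0, e1, e2, e3, e4, e5, e6, e7, e8, e9, e10]

theorem st2_YYX (h : Sk φ δ κ β) (H : Fr3 a b c d e f m n p K P) :
    φ K (s(b, p) ::ₘ s(c, n) ::ₘ s(a, p) ::ₘ s(m, f) ::ₘ s(m, n) ::ₘ s(d, e) ::ₘ P) =
      φ K (s(a, b) ::ₘ s(c, f) ::ₘ s(d, e) ::ₘ P) := by
  have e0 : φ K (s(b, p) ::ₘ s(c, n) ::ₘ s(a, p) ::ₘ s(m, f) ::ₘ s(m, n) ::ₘ s(d, e) ::ₘ P) = φ K (s(b, p) ::ₘ s(a, p) ::ₘ s(c, n) ::ₘ s(m, f) ::ₘ s(m, n) ::ₘ s(d, e) ::ₘ P) :=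
    by rw [Multiset.cons_swap s(c, n) s(a, p)]
  have e1 : φ K (s(b, p) ::ₘ s(a, p) ::ₘ s(c, n) ::ₘ s(m, f) ::ₘ s(m, n) ::ₘ s(d, e) ::ₘ P) = φ K (s(b, p) ::ₘ s(p, a) ::ₘ s(c, n) ::ₘ s(m, f) ::ₘ s(m, n) ::ₘ s(d, e) ::ₘ P) :=
    by rw [Sym2.eq_swap (a := a) (b := p)]
  have e2 : φ K (s(b, p) ::ₘ s(p, a) ::ₘ s(c, n) ::ₘ s(m, f) ::ₘ s(m, n) ::ₘ s(d, e) ::ₘ P) = φ K (s(b, a) ::ₘ s(c, n) ::ₘ s(m, f) ::ₘ s(m, n) ::ₘ s(d, e) ::ₘ P) :=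
    h.fuse b a p _ _ (av_consP.2 ⟨H.pc, H.np.symm, (av_consP.2 ⟨H.mp.symm, H.pf, (av_consP.2 ⟨H.mp.symm, H.np.symm, (av_consP.2 ⟨H.pd, H.pe, H.vp⟩)⟩)⟩)⟩) H.pb H.pa
  have e3 : φ K (s(b, a) ::ₘ s(c, n) ::ₘ s(m, f) ::ₘ s(m, n) ::ₘ s(d, e) ::ₘ P) = φ K (s(c, n) ::ₘ s(b, a) ::ₘ s(m, f) ::ₘ s(m, n) ::ₘ s(d, e) ::ₘ P) :=
    by rw [Multiset.cons_swap s(b, a) s(c, n)]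
  have e4 : φ K (s(c, n) ::ₘ s(b, a) ::ₘ s(m, f) ::ₘ s(m, n) ::ₘ s(d, e) ::ₘ P) = φ K (s(c, n) ::ₘ s(b, a) ::ₘ s(m, n) ::ₘ s(m, f) ::ₘ s(d, e) ::ₘ P) :=
    by rw [Multiset.cons_swap s(m, f) s(m, n)]
  have e5 : φ K (s(c, n) ::ₘ s(b, a) ::ₘ s(m, n) ::ₘ s(m, f) ::ₘ s(d, e) ::ₘ P) = φ K (s(c, n) ::ₘ s(m, n) ::ₘ s(b, a) ::ₘ s(m, f) ::ₘ s(d, e) ::ₘ P) :=
    by rw [Multiset.cons_swap s(b, a) s(m, n)]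
  have e6 : φ K (s(c, n) ::ₘ s(m, n) ::ₘ s(b, a) ::ₘ s(m, f) ::ₘ s(d, e) ::ₘ P) = φ K (s(c, n) ::ₘ s(n, m) ::ₘ s(b, a) ::ₘ s(m, f) ::ₘ s(d, e) ::ₘ P) :=
    by rw [Sym2.eq_swap (a := m) (b := n)]
  have e7 : φ K (s(c, n) ::ₘ s(n, m) ::ₘ s(b, a) ::ₘ s(m, f) ::ₘ s(d, e) ::ₘ P) = φ K (s(c, m) ::ₘ s(b, a) ::ₘ s(m, f) ::ₘ s(d, e) ::ₘ P) :=
    h.fuse c m n _ _ (av_consP.2 ⟨H.nb, H.na, (av_consP.2 ⟨H.mn.symm, H.nf, (av_consP.2 ⟨H.nd, H.ne, H.vn⟩)⟩)⟩) H.nc H.mn.symm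
  have e8 : φ K (s(c, m) ::ₘ s(b, a) ::ₘ s(m, f) ::ₘ s(d, e) ::ₘ P) = φ K (s(c, m) ::ₘ s(m, f) ::ₘ s(b, a) ::ₘ s(d, e) ::ₘ P) :=
    by rw [Multiset.cons_swap s(b, a) s(m, f)]
  have e9 : φ K (s(c, m) ::ₘ s(m, f) ::ₘ s(b, a) ::ₘ s(d, e) ::ₘ P) = φ K (s(c, f) ::ₘ s(b, a) ::ₘ s(d, e) ::ₘ P) :=
    h.fuse c f m _ _ (av_consP.2 ⟨H.mb, H.ma, (av_consP.2 ⟨H.md, H.me, H.vm⟩)⟩) H.mc H.mf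
  have e10 : φ K (s(c, f) ::ₘ s(b, a) ::ₘ s(d, e) ::ₘ P) = φ K (s(c, f) ::ₘ s(a, b) ::ₘ s(d, e) ::ₘ P) :=
    by rw [Sym2.eq_swap (a := b) (b := a)]
  have e11 : φ K (s(c, f) ::ₘ s(a, b) ::ₘ s(d, e) ::ₘ P) = φ K (s(a, b) ::ₘ s(c, f) ::ₘ s(d, e) ::ₘ P) :=
    by rw [Multiset.cons_swap s(c, f) s(a, b)]
  rw [e0, e1, e2, e3, e4, e5, e6, e7, e8, e9, e10, e11]

theorem st2_YYY (h : Sk φ δ κ β) (H : Fr3 a b c d e f m n p K P) :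
    φ K (s(b, c) ::ₘ s(n, p) ::ₘ s(a, p) ::ₘ s(m, f) ::ₘ s(m, n) ::ₘ s(d, e) ::ₘ P) =
      φ K (s(a, f) ::ₘ s(b, c) ::ₘ s(d, e) ::ₘ P) := by
  have e0 : φ K (s(b, c) ::ₘ s(n, p) ::ₘ s(a, p) ::ₘ s(m, f) ::ₘ s(m, n) ::ₘ s(d, e) ::ₘ P) = φ K (s(n, p) ::ₘ s(b, c) ::ₘ s(a, p) ::ₘ s(m, f) ::ₘ s(m, n) ::ₘ s(d, e) ::ₘ P) :=
    by rw [Multiset.cons_swap s(b, c) s(n, p)]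
  have e1 : φ K (s(n, p) ::ₘ s(b, c) ::ₘ s(a, p) ::ₘ s(m, f) ::ₘ s(m, n) ::ₘ s(d, e) ::ₘ P) = φ K (s(n, p) ::ₘ s(a, p) ::ₘ s(b, c) ::ₘ s(m, f) ::ₘ s(m, n) ::ₘ s(d, e) ::ₘ P) :=
    by rw [Multiset.cons_swap s(b, c) s(a, p)]
  have e2 : φ K (s(n, p) ::ₘ s(a, p) ::ₘ s(b, c) ::ₘ s(m, f) ::ₘ s(m, n) ::ₘ s(d, e) ::ₘ P) = φ K (s(n, p) ::ₘ s(p, a) ::ₘ s(b, c) ::ₘ s(m, f) ::ₘ s(m, n) ::ₘ s(d, e) ::ₘ P) :=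
    by rw [Sym2.eq_swap (a := a) (b := p)]
  have e3 : φ K (s(n, p) ::ₘ s(p, a) ::ₘ s(b, c) ::ₘ s(m, f) ::ₘ s(m, n) ::ₘ s(d, e) ::ₘ P) = φ K (s(n, a) ::ₘ s(b, c) ::ₘ s(m, f) ::ₘ s(m, n) ::ₘ s(d, e) ::ₘ P) :=
    h.fuse n a p _ _ (av_consP.2 ⟨H.pb, H.pc, (av_consP.2 ⟨H.mp.symm, H.pf, (av_consP.2 ⟨H.mp.symm, H.np.symm, (av_consP.2 ⟨H.pd, H.pe, H.vp⟩)⟩)⟩)⟩) H.np.symm H.pa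
  have e4 : φ K (s(n, a) ::ₘ s(b, c) ::ₘ s(m, f) ::ₘ s(m, n) ::ₘ s(d, e) ::ₘ P) = φ K (s(n, a) ::ₘ s(b, c) ::ₘ s(m, n) ::ₘ s(m, f) ::ₘ s(d, e) ::ₘ P) :=
    by rw [Multiset.cons_swap s(m, f) s(m, n)]
  have e5 : φ K (s(n, a) ::ₘ s(b, c) ::ₘ s(m, n) ::ₘ s(m, f) ::ₘ s(d, e) ::ₘ P) = φ K (s(n, a) ::ₘ s(m, n) ::ₘ s(b, c) ::ₘ s(m, f) ::ₘ s(d, e) ::ₘ P) :=
    by rw [Multiset.cons_swap s(b, c) s(m, n)]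
  have e6 : φ K (s(n, a) ::ₘ s(m, n) ::ₘ s(b, c) ::ₘ s(m, f) ::ₘ s(d, e) ::ₘ P) = φ K (s(a, n) ::ₘ s(m, n) ::ₘ s(b, c) ::ₘ s(m, f) ::ₘ s(d, e) ::ₘ P) :=
    by rw [Sym2.eq_swap (a := n) (b := a)]
  have e7 : φ K (s(a, n) ::ₘ s(m, n) ::ₘ s(b, c) ::ₘ s(m, f) ::ₘ s(d, e) ::ₘ P) = φ K (s(a, n) ::ₘ s(n, m) ::ₘ s(b, c) ::ₘ s(m, f) ::ₘ s(d, e) ::ₘ P) :=
    by rw [Sym2.eq_swap (a := m) (b := n)]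
  have e8 : φ K (s(a, n) ::ₘ s(n, m) ::ₘ s(b, c) ::ₘ s(m, f) ::ₘ s(d, e) ::ₘ P) = φ K (s(a, m) ::ₘ s(b, c) ::ₘ s(m, f) ::ₘ s(d, e) ::ₘ P) :=
    h.fuse a m n _ _ (av_consP.2 ⟨H.nb, H.nc, (av_consP.2 ⟨H.mn.symm, H.nf, (av_consP.2 ⟨H.nd, H.ne, H.vn⟩)⟩)⟩) H.na H.mn.symm
  have e9 : φ K (s(a, m) ::ₘ s(b, c) ::ₘ s(m, f) ::ₘ s(d, e) ::ₘ P) = φ K (s(a, m) ::ₘ s(m, f) ::ₘ s(b, c) ::ₘ s(d, e) ::ₘ P) :=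
    by rw [Multiset.cons_swap s(b, c) s(m, f)]
  have e10 : φ K (s(a, m) ::ₘ s(m, f) ::ₘ s(b, c) ::ₘ s(d, e) ::ₘ P) = φ K (s(a, f) ::ₘ s(b, c) ::ₘ s(d, e) ::ₘ P) :=
    h.fuse a f m _ _ (av_consP.2 ⟨H.mb, H.mc, (av_consP.2 ⟨H.md, H.me, H.vm⟩)⟩) H.ma H.mf
  rw [e0, e1, e2, e3, e4, e5, e6, e7, e8, e9, e10]

end Pool.Agent.P.MP_9b2cf8_gt
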