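import Pool.Agent.P.MP_9b2cf8_gt.St1
import Pool.Agent.P.MP_9b2cf8_gt.St2

/-! Local identities for the expansion operators. -/

namespace Pool.Agent.P.MP_9b2cf8_gt

variable {a b c d e f m n p : ℕ} {K : Multiset Cr} {P : Multiset (Sym2 ℕ)}

theorem st_top {R : Type} {φ : Fn R} {δ κ β : R → R} (h : Sk φ δ κ β)
    (H : Fr3 a b c d e f m n p K P) :
    φ ((n, p, e, f) ::ₘ (m, c, d, p) ::ₘ (a, b, m, n) ::ₘ K) P =
      φ ((b, c, n, p) ::ₘ (a, p, m, f) ::ₘ (m, n, d, e) ::ₘ K) P := by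
  have := h.r3 a b c d e f m n p K P H.vm H.vn H.vp H.mn H.mp H.np
    (by simp [H.ma, H.mb, H.mc, H.md, H.me, H.mf]) (by simp [H.na, H.nb, H.nc, H.nd, H.ne, H.nf])
    (by simp [H.pa, H.pb, H.pc, H.pd, H.pe, H.pf])
  rw [Multiset.cons_swap (n, p, e, f), Multiset.cons_swap (n, p, e, f),
    Multiset.cons_swap (m, c, d, p), this, Multiset.cons_swap (m, n, d, e),
    Multiset.cons_swap (m, n, d, e), Multiset.cons_swap (a, p, m, f)]

theorem TR1 {φ : Fn ℂ} (h : DF φ) (H : Fr1 a d m K P) :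
    T (a, m, m, d) (1 - 1) 1 (-1) φ K P = φ K (s(a, d) ::ₘ P) := by
  simp only [T, aX, aY]
  rw [stK_s h H, stK_X h H, stK_Y h H]
  simp only [id]
  ring

theorem TR2 {φ : Fn ℂ} (h : DF φ) (H : Fr2 a b c d m n K P) {A B : ℂ} (hAB : A * B = 1) :
    T (a, b, m, n) (A - 1) 1 (-A) (T (m, n, c, d) (B - 1) 1 (-B) φ) K P =
      φ K (s(a, c) ::ₘ s(b, d) ::ₘ P) := by
  simp only [T, aX, aY]
  rw [stB_ss h H, stB_sX h H, stB_sY h H, stB_Xs h H, stB_XX h H, stB_XY h H, stB_Ys h H,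
    stB_YX h H, stB_YY h H]
  simp only [id]
  linear_combination (φ ((a, b, d, c) ::ₘ K) P) * hAB

theorem TR3 {φ : Fn ℂ} (h : DF φ) (H : Fr3 a b c d e f m n p K P) (A B : ℂ) :
    T (a, b, m, n) (A - 1) 1 (-A) (T (m, c, d, p) (A * B - 1) 1 (-(A * B))
        (T (n, p, e, f) (B - 1) 1 (-B) φ)) K P =
      T (m, n, d, e) (A - 1) 1 (-A) (T (a, p, m, f) (A * B - 1) 1 (-(A * B))
        (T (b, c, n, p) (B - 1) 1 (-B) φ)) K P := by
  simp only [T, aX, aY]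
  rw [st_top h H, st1_ssX h H, st1_ssY h H, st1_sXs h H, st1_sXX h H, st1_sXY h H, st1_sYs h H,
    st1_sYX h H, st1_sYY h H, st1_Xss h H, st1_XsX h H, st1_XsY h H, st1_XXs h H,
    st1_XXX h H, st1_XXY h H, st1_XYs h H, st1_XYX h H, st1_XYY h H, st1_Yss h H,
    st1_YsX h H, st1_YsY h H, st1_YXs h H, st1_YXX h H, st1_YXY h H, st1_YYs h H,
    st1_YYX h H, st1_YYY h H, st2_ssX h H, st2_ssY h H, st2_sXs h H, st2_sXX h H,
    st2_sXY h H, st2_sYs h H, st2_sYX h H, st2_sYY h H, st2_Xss h H, st2_XsX h H,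
    st2_XsY h H, st2_XXs h H, st2_XXX h H, st2_XXY h H, st2_XYs h H, st2_XYX h H,
    st2_XYY h H, st2_Yss h H, st2_YsX h H, st2_YsY h H, st2_YXs h H, st2_YXX h H,
    st2_YXY h H, st2_YYs h H, st2_YYX h H, st2_YYY h H]
  simp only [id]
  ring

theorem MR1 {φ : Fn ℕ} (h : Sk φ id (fun _ => 0) fun _ => 0) (H : Fr1 a d m K P) :
    T (a, m, m, d) 1 1 1 φ K P = 0 ↔ φ K (s(a, d) ::ₘ P) = 0 := by
  simp only [T, aX, aY]
  rw [stK_s h H, stK_X h H, stK_Y h H]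
  simp only [id]
  omega

theorem MR2 {φ : Fn ℕ} (h : Sk φ id (fun _ => 0) fun _ => 0) (H : Fr2 a b c d m n K P) :
    T (a, b, m, n) 1 1 1 (T (m, n, c, d) 1 1 1 φ) K P = 0 ↔ T (a, b, d, c) 1 1 1 φ K P = 0 := by
  simp only [T, aX, aY]
  rw [stB_ss h H, stB_sX h H, stB_sY h H, stB_Xs h H, stB_XX h H, stB_XY h H, stB_Ys h H,
    stB_YX h H, stB_YY h H, 
    stC_Y (φ := φ) (a := a) (b := b) (c := c) (d := d)]
  simp only [id]
  omega

theorem MR3 {φ : Fn ℕ} (h : Sk φ id (fun _ => 0) fun _ => 0) (H : Fr3 a b c d e f m n p K P) :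
    T (a, b, m, n) 1 1 1 (T (m, c, d, p) 1 1 1 (T (n, p, e, f) 1 1 1 φ)) K P = 0 ↔
      T (m, n, d, e) 1 1 1 (T (a, p, m, f) 1 1 1 (T (b, c, n, p) 1 1 1 φ)) K P = 0 := by
  simp only [T, aX, aY]
  rw [st_top h H, st1_ssX h H, st1_ssY h H, st1_sXs h H, st1_sXX h H, st1_sXY h H, st1_sYs h H,
    st1_sYX h H, st1_sYY h H, st1_Xss h H, st1_XsX h H, st1_XsY h H, st1_XXs h H,
    st1_XXX h H, st1_XXY h H, st1_XYs h H, st1_XYX h H, st1_XYY h H, st1_Yss h H,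
    st1_YsX h H, st1_YsY h H, st1_YXs h H, st1_YXX h H, st1_YXY h H, st1_YYs h H,
    st1_YYX h H, st1_YYY h H, st2_ssX h H, st2_ssY h H, st2_sXs h H, st2_sXX h H,
    st2_sXY h H, st2_sYs h H, st2_sYX h H, st2_sYY h H, st2_Xss h H, st2_XsX h H,
    st2_XsY h H, st2_XXs h H, st2_XXX h H, st2_XXY h H, st2_XYs h H, st2_XYX h H,
    st2_XYY h H, st2_Yss h H, st2_YsX h H, st2_YsY h H, st2_YXs h H, st2_YXX h H,
    st2_YXY h H, st2_YYs h H, st2_YYX h H, st2_YYY h H]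
  simp only [id]
  omega

theorem T_abs {R : Type} [CommSemiring R] {φ : Fn R} {δ κ β : R → R} (h : Sk φ δ κ β)
    {a b c d m : ℕ} {K : Multiset Cr} {P : Multiset (Sym2 ℕ)} (x y z : R) (hm : Av m K P)
    (ha : m ≠ a) (hb : m ≠ b) (hc : m ≠ c) (hd : m ≠ d) :
    T (m, b, c, d) x y z φ K (s(a, m) ::ₘ P) = T (a, b, c, d) x y z φ K P := by
  simp only [T, aX, aY]
  rw [h.absorb a b c d m K P hm ha hb hc hd, Multiset.cons_swap s(b, c), Multiset.cons_swap s(m, d),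
    h.fuse a d m K _ (av_consP.2 ⟨hb, hc, hm⟩) ha hd, Multiset.cons_swap s(c, d),
    Multiset.cons_swap s(m, b), h.fuse a b m K _ (av_consP.2 ⟨hc, hd, hm⟩) ha hb]

end Pool.Agent.P.MP_9b2cf8_gt
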